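import Pool.Agent.Lib.MP_181146_gt.HM.SpecM

/-!
# Project HM, module Cyc: an alternating functional is determined by its values on `b * x^δ`
-/

set_option autoImplicit false

noncomputable section

namespace HMx

open MvPolynomial

section

variable {L : Type} [CommRing L] {k : ℕ}

private def Cyc_gn (L : Type) [CommRing L] {k : ℕ} (s : Fin k → Fin k) : MvPolynomial (Fin k) L :=
  ∏ a, X a ^ (s a).val

private abbrev Cyc_M (L : Type) [CommRing L] (k : ℕ) :
    Submodule (Sy L k) (MvPolynomial (Fin k) L) :=
  Submodule.span (Sy L k) (Set.range (Cyc_gn L))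

private lemma Cyc_upd (s : Fin k → Fin k) (a j : Fin k) :
    Cyc_gn L (Function.update s a j) =
      X a ^ j.val * ∏ b ∈ Finset.univ.erase a, X b ^ (s b).val := by
  unfold Cyc_gn
  rw [← Finset.mul_prod_erase Finset.univ _ (Finset.mem_univ a), Function.update_self]
  congr 1
  refine Finset.prod_congr rfl (fun b hb => ?_)
  rw [Function.update_of_ne (Finset.ne_of_mem_erase hb)]

private lemma Cyc_X (hGg : S_Gg) (a : Fin k) (s : Fin k → Fin k) :
    X a * Cyc_gn L s ∈ Cyc_M L k := by
  have h1 : Cyc_gn L s = X a ^ (s a).val * ∏ b ∈ Finset.univ.erase a, X b ^ (s b).val := by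
    rw [← Cyc_upd s a (s a), Function.update_eq_self]
  rw [h1, ← mul_assoc, ← pow_succ']
  by_cases h : (s a).val + 1 < k
  · have h2 := Cyc_upd (L := L) s a ⟨(s a).val + 1, h⟩
    rw [← h2]
    exact Submodule.subset_span ⟨_, rfl⟩
  · have h2 : (s a).val + 1 = k := by
      have := (s a).isLt
      omega
    rw [h2]
    have h3 : (X a : MvPolynomial (Fin k) L) ^ k =
        ∑ j ∈ Finset.range k, lc k (Polynomial.X ^ k) j * X a ^ j := by
      rw [← (hGg L k).1 (Polynomial.X ^ k) a]
      unfold xe
      rw [map_pow, Polynomial.aeval_X]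
    rw [h3, Finset.sum_mul]
    refine Submodule.sum_mem _ (fun j hj => ?_)
    have hj' := Finset.mem_range.mp hj
    have h4 := Submodule.smul_mem (Cyc_M L k)
      (⟨lc k (Polynomial.X ^ k) j, lc_sym k _ j⟩ : Sy L k)
      (Submodule.subset_span ⟨Function.update s a ⟨j, hj'⟩, rfl⟩)
    rw [Cyc_upd] at h4
    rw [mul_assoc]
    exact h4

private lemma Cyc_XM (hGg : S_Gg) (a : Fin k) {p : MvPolynomial (Fin k) L}
    (hp : p ∈ Cyc_M L k) : X a * p ∈ Cyc_M L k := by
  induction hp using Submodule.span_induction with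
  | mem x hx =>
    obtain ⟨s, rfl⟩ := hx
    exact Cyc_X hGg a s
  | zero =>
    rw [mul_zero]
    exact Submodule.zero_mem _
  | add x y _ _ hx hy =>
    rw [mul_add]
    exact Submodule.add_mem _ hx hy
  | smul b x _ hx =>
    have h : X a * (b • x) = b • (X a * x) := by
      change X a * ((b : MvPolynomial (Fin k) L) * x) = (b : MvPolynomial (Fin k) L) * (X a * x)
      rw [mul_left_comm]
    rw [h]
    exact Submodule.smul_mem _ b hx

private lemma Cyc_one : (1 : MvPolynomial (Fin k) L) ∈ Cyc_M L k := by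
  rcases Nat.eq_zero_or_pos k with h | h
  · subst h
    refine Submodule.subset_span ⟨fun a => a, ?_⟩
    unfold Cyc_gn
    rw [Fin.prod_univ_zero]
  · refine Submodule.subset_span ⟨fun _ => ⟨0, h⟩, ?_⟩
    unfold Cyc_gn
    exact Finset.prod_eq_one (fun a _ => pow_zero _)

private lemma Cyc_all (hGg : S_Gg) (p : MvPolynomial (Fin k) L) : p ∈ Cyc_M L k := by
  induction p using MvPolynomial.induction_on with
  | C c =>
    have h := Submodule.smul_mem (Cyc_M L k) (algebraMap L (Sy L k) c) Cyc_one
    have e : (algebraMap L (Sy L k) c) • (1 : MvPolynomial (Fin k) L) = C c := by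
      change (C c : MvPolynomial (Fin k) L) * 1 = C c
      rw [mul_one]
    rwa [e] at h
  | add p q hp hq => exact Submodule.add_mem _ hp hq
  | mul_X p a hp =>
    rw [mul_comm]
    exact Cyc_XM hGg a hp

private lemma Cyc_g (hAlB : S_AlB) {W : Type} [AddCommGroup W] [Module L W] (u : Fu L k W)
    (hu : Al u) (h : ∀ b : MvPolynomial (Fin k) L, b ∈ Sy L k →
      u.v (b * ∏ a : Fin k, X a ^ a.val) = 0)
    (b : MvPolynomial (Fin k) L) (hb : b ∈ Sy L k) (s : Fin k → Fin k) :
    u.v (b * Cyc_gn L s) = 0 := by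
  have hb' := (mem_symmetricSubalgebra b).mp hb
  by_cases hs : Function.Injective s
  · let σ : Equiv.Perm (Fin k) := Equiv.ofBijective s (Finite.injective_iff_bijective.mp hs)
    have h1 : b * Cyc_gn L s = rename σ.symm (b * ∏ a : Fin k, X a ^ a.val) := by
      rw [map_mul, hb' σ.symm, map_prod]
      congr 1
      unfold Cyc_gn
      refine Fintype.prod_equiv σ _ _ (fun a => ?_)
      rw [map_pow, rename_X, Equiv.symm_apply_apply]
      rfl
    rw [h1, (hAlB L W k u hu).2, h b hb, smul_zero]
  · unfold Function.Injective at hs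
    push Not at hs
    obtain ⟨a, c, hac, hne⟩ := hs
    refine hu a c hne _ ?_
    rw [map_mul, hb' (Equiv.swap a c)]
    congr 1
    unfold Cyc_gn
    rw [map_prod]
    refine Fintype.prod_equiv (Equiv.swap a c) _ _ (fun i => ?_)
    have h2 : s (Equiv.swap a c i) = s i := by
      rw [Equiv.swap_apply_def]
      split_ifs with h3 h4
      · rw [h3, hac]
      · rw [h4, hac]
      · rfl
    rw [map_pow, rename_X, h2]

end

theorem pCyc (hAlB : S_AlB) (hGg : S_Gg) : S_Cyc := by
  intro L _ W _ _ k u hu h
  have key : ∀ p : MvPolynomial (Fin k) L, ∀ b ∈ Sy L k, u.v (b * p) = 0 := by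
    intro p
    have hp := Cyc_all hGg p
    induction hp using Submodule.span_induction with
    | mem x hx =>
      obtain ⟨s, rfl⟩ := hx
      exact fun b hb => Cyc_g hAlB u hu h b hb s
    | zero =>
      intro b _
      rw [mul_zero, map_zero]
    | add x y _ _ hx hy =>
      intro b hb
      rw [mul_add, map_add, hx b hb, hy b hb, add_zero]
    | smul c x _ hx =>
      intro b hb
      have e : b * (c • x) = (b * (c : MvPolynomial (Fin k) L)) * x := by
        change b * ((c : MvPolynomial (Fin k) L) * x) = _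
        rw [mul_assoc]
      rw [e]
      exact hx _ (Subalgebra.mul_mem _ hb c.2)
  refine LinearMap.ext (fun p => ?_)
  have h1 := key p 1 (Subalgebra.one_mem _)
  rw [one_mul] at h1
  exact h1

end HMx
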