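import Pool.Agent.Lib.MP_181146_gt.HM.SpecF

/-!
# Project HM, module DKi: `Dk f m k` is isomorphic to `KD f m k`
-/

set_option autoImplicit false

noncomputable section

namespace HMx

open MvPolynomial

private theorem DKi_lc_zero (hG : S_Gg) (m k j : ℕ) (hm : m ≤ j) (hk : j < k) :
    lc k (gen m) j = 0 := by
  obtain ⟨-, -, h3, h4, h5⟩ := hG (Lm m) k
  have h0 : lc k (0 : Polynomial (Lm m)) j = 0 := by
    have h := h4 0 0 j
    rw [map_zero, map_zero, zero_mul, zero_mul] at h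
    exact h
  have hs : ∀ (s : Finset (Fin m)), lc k (∑ i ∈ s, Polynomial.C (X i : Lm m) *
      Polynomial.X ^ i.val) j = 0 := by
    classical
    intro s
    induction s using Finset.induction_on with
    | empty => rw [Finset.sum_empty, h0]
    | insert i s his ih =>
      rw [Finset.sum_insert his, h3, ih, add_zero, h4, h5 i.val j (by omega),
        if_neg (by omega), mul_zero]
  exact hs Finset.univ

section

variable (f : Polynomial ℤ) (m k : ℕ)

/-- The kernel condition in terms of the coefficients. -/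
private theorem DKi_ki (hG : S_Gg) (hK : S_KiL) (w : Fu (Lm m) k (In m)) (hw : Al w) :
    Ki (gen m) w ↔ ∀ i : Fin m, i.val < k → lc k (gen m) i • w = 0 := by
  rw [hK (Lm m) (In m) k w (gen m) hw]
  refine ⟨fun h i hi => h i.val hi, fun h j hj => ?_⟩
  by_cases hjm : j < m
  · exact h ⟨j, hjm⟩ hj
  · rw [DKi_lc_zero hG m k j (not_lt.mp hjm) hj, zero_smul]

end

theorem pDKi (hG : S_Gg) (hK : S_KiL) (hD : S_DsE) (hR : S_RpB) : S_DKi := by
  intro f m k hf hfm
  obtain ⟨J, J1, J2, J3, J4, J5⟩ := hD (FF f k) m k (rr f m k)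
  obtain ⟨R1, R2, R3, R4, R5, R6, R7, R8⟩ := hR f m k hf hfm
  have R0 : Rp f (0 : (Fin m → ℕ) → FF f k) (0 : Fu (Lm m) k (In m)) := by
    obtain ⟨w, hw, -⟩ := R1 0 0 (Submodule.zero_mem _)
    have h1 := R5 0 0 w w hw hw
    rw [add_zero] at h1
    have h2 := R3 0 _ _ h1 hw
    rw [add_eq_left] at h2
    rw [h2] at hw
    exact hw
  have hex : ∀ d, ∀ u ∈ fn (FF f k) m (Lt m k) d, ∃ w ∈ KDs f m k d, Rp f (J u) w := by
    intro d u hu
    obtain ⟨w, h1, h2, h3, h4⟩ := R1 d (J u) (J1 d u hu)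
    refine ⟨w, ⟨⟨h2, h3, ?_⟩, h4⟩, h1⟩
    rw [DKi_ki m k hG hK w h2]
    intro i hi
    have h5 := R7 (J u) w i h1 hi
    rw [J4 d u hu i hi] at h5
    exact R3 0 _ _ h5 R0
  choose g hg1 hg2 using hex
  refine ⟨⟨fun d => AddMonoidHom.mk' (fun u => ⟨g d u.1 u.2, hg1 d u.1 u.2⟩) ?_, ?_⟩, ?_⟩
  · intro u v
    refine Subtype.ext (R3 (J (u.1 + v.1)) _ _ (hg2 d (u.1 + v.1) (u + v).2) ?_)
    have h1 := R5 _ _ _ _ (hg2 d u.1 u.2) (hg2 d v.1 v.2)
    rw [← map_add] at h1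
    exact h1
  · intro a d u
    refine Subtype.ext (R3 (sf _ m a (J u.1)) _ _ ?_ (R6 _ _ a (hg2 (d + 1) u.1 u.2)))
    have h1 := hg2 d (yo (FF f k) m k (rr f m k) (Lt m k) a u.1) (yo_mem a u.2)
    rw [J3 a (d + 1) u.1 u.2] at h1
    exact h1
  · intro d
    constructor
    · rw [injective_iff_map_eq_zero]
      intro u hu
      have h1 : g d u.1 u.2 = 0 := congrArg Subtype.val hu
      have h2 := hg2 d u.1 u.2
      rw [h1] at h2
      exact Subtype.ext (J2 d u.1 u.2 (R4 _ _ _ h2 R0))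
    · rintro ⟨w, ⟨h1, h2, h3⟩, h4⟩
      obtain ⟨c, hc⟩ := R2 w h1 h2
      have h5 := R8 c w d hc h4
      obtain ⟨u, hu, rfl⟩ := J5 d c h5 (fun i hi => by
        have h6 := R7 c w i hc hi
        rw [(DKi_ki m k hG hK w h1).mp h3 i hi] at h6
        exact R4 _ _ _ h6 R0)
      exact ⟨⟨u, hu⟩, Subtype.ext (R3 _ _ _ (hg2 d u hu) hc)⟩

end HMx
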