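import Pool.Agent.Lib.MP_181146_gt.HM.SpecF

set_option autoImplicit false

namespace HMx

open MvPolynomial

/-! ## Updates -/

private theorem Ds_upd_single {m : ℕ} (i : Fin m) (β : Fin m → ℕ) (n : ℕ) :
    Function.update (β + Pi.single i 1 : Fin m → ℕ) i n = Function.update β i n := by
  funext j
  by_cases h : j = i
  · subst h
    rw [Function.update_self, Function.update_self]
  · rw [Function.update_of_ne h, Function.update_of_ne h, Pi.add_apply, Pi.single_eq_of_ne h,
      add_zero]

private theorem Ds_upd_add {m : ℕ} {i l : Fin m} (h : l ≠ i) (β : Fin m → ℕ) (n : ℕ) :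
    Function.update (β + Pi.single l 1 : Fin m → ℕ) i n = Function.update β i n + Pi.single l 1 := by
  funext j
  by_cases hj : j = i
  · subst hj
    rw [Function.update_self, Pi.add_apply, Function.update_self, Pi.single_eq_of_ne h.symm,
      add_zero]
  · rw [Function.update_of_ne hj, Pi.add_apply, Pi.add_apply, Function.update_of_ne hj]

private theorem Ds_at {m : ℕ} {i l : Fin m} (h : l ≠ i) (β : Fin m → ℕ) :
    (β + Pi.single l 1 : Fin m → ℕ) i = β i := by
  rw [Pi.add_apply, Pi.single_eq_of_ne h.symm, add_zero]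

private theorem Ds_sum_upd {m : ℕ} (i : Fin m) (β : Fin m → ℕ) (n : ℕ) :
    ∑ j, Function.update β i n j + β i = ∑ j, β j + n := by
  classical
  rw [Finset.sum_update_of_mem (Finset.mem_univ i)]
  have h := Finset.add_sum_erase Finset.univ β (Finset.mem_univ i)
  rw [Finset.erase_eq] at h
  omega

/-! ## The first claim -/

private theorem Ds_fin (F : Type) [CommRing F] (m : ℕ) (S : Finset (Fin m)) (d : ℕ) :
    Module.Finite F (fn F m S d) ∧ Module.Free F (fn F m S d) := by
  classical
  let T : Type := {β : Fin m → ℕ // ∑ i, β i = d ∧ ∀ i ∈ S, β i = 0}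
  have hT : Finite T := by
    have h1 : Finite (Fin m → Fin (d + 1)) := inferInstance
    refine Finite.of_injective (β := Fin m → Fin (d + 1)) (fun t i => ⟨t.1 i, ?_⟩) ?_
    · have h2 := Finset.single_le_sum (f := t.1) (fun j _ => Nat.zero_le _) (Finset.mem_univ i)
      rw [t.2.1] at h2
      omega
    · intro t t' h
      apply Subtype.ext
      funext i
      exact congrArg Fin.val (congrFun h i)
  let e : fn F m S d ≃ₗ[F] (T → F) :=
    { toFun := fun u t => u.1 t.1
      map_add' := fun u w => rfl
      map_smul' := fun c u => rfl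
      invFun := fun g => ⟨fun β => if h : ∑ i, β i = d ∧ ∀ i ∈ S, β i = 0 then g ⟨β, h⟩ else 0,
        fun β h => by
          by_contra hn
          exact h (dif_neg hn)⟩
      left_inv := fun u => by
        apply Subtype.ext
        funext β
        change (if h : ∑ i, β i = d ∧ ∀ i ∈ S, β i = 0 then u.1 β else 0) = u.1 β
        split_ifs with h
        · rfl
        · by_contra hn
          exact h (u.2 β (fun h0 => hn h0.symm))
      right_inv := fun g => by
        funext t
        change (if h : ∑ i, t.1 i = d ∧ ∀ i ∈ S, t.1 i = 0 then g ⟨t.1, h⟩ else 0) = g t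
        rw [dif_pos t.2] }
  have : Fintype T := Fintype.ofFinite T
  exact ⟨Module.Finite.equiv e.symm, Module.Free.of_equiv e.symm⟩

/-! ## Values of the powers of `- zo` -/

section

variable {F : Type} [CommRing F] {m c : ℕ} (r : Fin m → Fin m → F)

private theorem Ds_zo (a : Fin m) (u : (Fin m → ℕ) → F) (β : Fin m → ℕ) :
    zo F m c r a u β = ∑ l ∈ Finset.univ.filter (fun l : Fin m => c ≤ l.val),
      r a l * u (β + Pi.single l 1) := by
  rw [zo, LinearMap.sum_apply, Finset.sum_apply]
  rfl

/-- `u` is supported in degree `d - e`. -/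
private def Ds_G (S : Finset (Fin m)) (d e : ℕ) (u : (Fin m → ℕ) → F) : Prop :=
  ∀ β, u β ≠ 0 → ∑ j, β j + e = d ∧ ∀ s ∈ S, β s = 0

private theorem Ds_G_zo {S : Finset (Fin m)} {d e : ℕ} {u : (Fin m → ℕ) → F} (a : Fin m)
    (h : Ds_G S d e u) : Ds_G S d (e + 1) (zo F m c r a u) := by
  intro β hβ
  rw [Ds_zo] at hβ
  obtain ⟨l, -, hl⟩ := Finset.exists_ne_zero_of_sum_ne_zero hβ
  have h1 : u (β + Pi.single l 1) ≠ 0 := fun h0 => hl (by rw [h0, mul_zero])
  obtain ⟨h2, h3⟩ := h _ h1
  have h4 : ∑ j, (β + Pi.single l 1 : Fin m → ℕ) j = ∑ j, β j + 1 := by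
    simp only [Pi.add_apply, Finset.sum_add_distrib, Finset.sum_pi_single', Finset.mem_univ,
      if_true]
  refine ⟨by omega, fun s hs => ?_⟩
  have h5 := h3 s hs
  rw [Pi.add_apply] at h5
  omega

private theorem Ds_G_pow {S : Finset (Fin m)} {d : ℕ} {u : (Fin m → ℕ) → F} (a : Fin m)
    (h : u ∈ fn F m S d) (e : ℕ) : Ds_G S d e (((-zo F m c r a) ^ e) u) := by
  induction e with
  | zero => exact h
  | succ e ih =>
    rw [pow_succ', Module.End.mul_apply, LinearMap.neg_apply]
    intro β hβ
    exact Ds_G_zo r a ih β (fun h0 => hβ (by rw [Pi.neg_apply, h0, neg_zero]))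

private theorem Ds_pow_comm (a b : Fin m) (e : ℕ) (u : (Fin m → ℕ) → F) :
    ((-zo F m c r a) ^ e) (zo F m c r b u) = zo F m c r b (((-zo F m c r a) ^ e) u) := by
  induction e with
  | zero => rfl
  | succ e ih =>
    rw [pow_succ', Module.End.mul_apply, Module.End.mul_apply, ih, LinearMap.neg_apply,
      LinearMap.neg_apply, zo_zo, map_neg]

private theorem Ds_pow_sf (a b : Fin m) (e : ℕ) (u : (Fin m → ℕ) → F) :
    ((-zo F m c r a) ^ e) (sf F m b u) = sf F m b (((-zo F m c r a) ^ e) u) := by
  induction e with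
  | zero => rfl
  | succ e ih =>
    rw [pow_succ', Module.End.mul_apply, Module.End.mul_apply, ih, LinearMap.neg_apply,
      LinearMap.neg_apply, zo_sf, map_neg]

/-! ## The map `J` -/

/-- The map `J`. -/
private noncomputable def Ds_J (c : ℕ) (i : Fin m) : Module.End F ((Fin m → ℕ) → F) :=
  LinearMap.pi fun β => LinearMap.proj (Function.update β i 0) ∘ₗ ((-zo F m c r i) ^ (β i))

private theorem Ds_J_apply (i : Fin m) (u : (Fin m → ℕ) → F) (β : Fin m → ℕ) :
    Ds_J r c i u β = ((-zo F m c r i) ^ (β i)) u (Function.update β i 0) := rfl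

private theorem Ds_J_zo {i : Fin m} (hi : i.val < c) (a : Fin m) (u : (Fin m → ℕ) → F) :
    Ds_J r c i (zo F m c r a u) = zo F m c r a (Ds_J r c i u) := by
  funext β
  rw [Ds_J_apply, Ds_pow_comm, Ds_zo, Ds_zo]
  refine Finset.sum_congr rfl (fun l hl => ?_)
  have hl1 : c ≤ l.val := (Finset.mem_filter.mp hl).2
  have hli : l ≠ i := by
    rintro rfl
    omega
  rw [Ds_J_apply, Ds_at hli, Ds_upd_add hli]

private theorem Ds_J_sf {i a : Fin m} (hai : a ≠ i) (u : (Fin m → ℕ) → F) :
    Ds_J r c i (sf F m a u) = sf F m a (Ds_J r c i u) := by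
  funext β
  rw [Ds_J_apply, Ds_pow_sf]
  change ((-zo F m c r i) ^ (β i)) u (Function.update β i 0 + Pi.single a 1) =
    Ds_J r c i u (β + Pi.single a 1)
  rw [Ds_J_apply, Ds_at hai, Ds_upd_add hai]

private theorem Ds_J_i (i : Fin m) (u : (Fin m → ℕ) → F) :
    Ds_J r c i (-zo F m c r i u) = sf F m i (Ds_J r c i u) := by
  funext β
  change Ds_J r c i (-zo F m c r i u) β = Ds_J r c i u (β + Pi.single i 1)
  rw [Ds_J_apply, Ds_J_apply, Ds_upd_single, Pi.add_apply, Pi.single_eq_same, pow_succ,
    Module.End.mul_apply, LinearMap.neg_apply]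

private theorem Ds_zo_agree {i : Fin m} (hi : i.val < c) {u w : (Fin m → ℕ) → F}
    (h : ∀ β : Fin m → ℕ, β i = 0 → u β = w β) (e : ℕ) :
    ∀ β : Fin m → ℕ, β i = 0 → ((-zo F m c r i) ^ e) u β = ((-zo F m c r i) ^ e) w β := by
  induction e with
  | zero => exact h
  | succ e ih =>
    intro β hβ
    rw [pow_succ', Module.End.mul_apply, Module.End.mul_apply, LinearMap.neg_apply,
      LinearMap.neg_apply, Pi.neg_apply, Pi.neg_apply, Ds_zo, Ds_zo]
    refine congrArg _ (Finset.sum_congr rfl (fun l hl => ?_))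
    have hl1 : c ≤ l.val := (Finset.mem_filter.mp hl).2
    have hli : l ≠ i := by
      rintro rfl
      omega
    rw [ih (β + Pi.single l 1) (by rw [Ds_at hli, hβ])]

private theorem Ds_sf_pow {i : Fin m} {u : (Fin m → ℕ) → F}
    (h : sf F m i u + zo F m c r i u = 0) (e : ℕ) (β : Fin m → ℕ) :
    ((-zo F m c r i) ^ e) u β = u (β + Pi.single i e) := by
  have h1 : (-zo F m c r i) u = sf F m i u := by
    rw [LinearMap.neg_apply]
    exact (eq_neg_of_add_eq_zero_left h).symm
  induction e generalizing β with
  | zero =>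
    rw [Pi.single_zero, add_zero]
    rfl
  | succ e ih =>
    rw [pow_succ, Module.End.mul_apply, h1, Ds_pow_sf]
    change ((-zo F m c r i) ^ e) u (β + Pi.single i 1) = _
    rw [ih, add_assoc, ← Pi.single_add, add_comm 1 e]

end

/-! ## The theorem -/

theorem pDs : S_Ds := by
  intro F _ m c r S i hiS hic hSc
  refine ⟨Ds_fin F m S, ?_, Ds_J r c i, ?_, ?_, ?_, ?_, ?_⟩
  · -- surjectivity
    intro d u hu
    refine ⟨fun β => ∑ n ∈ Finset.range (β i),
      ((-zo F m c r i) ^ (β i - 1 - n)) u (Function.update β i n), ?_, ?_⟩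
    · intro β hβ
      obtain ⟨n, hn, hne⟩ := Finset.exists_ne_zero_of_sum_ne_zero hβ
      have hn1 : n < β i := Finset.mem_range.mp hn
      obtain ⟨h1, h2⟩ := Ds_G_pow r i hu (β i - 1 - n) _ hne
      have h3 := Ds_sum_upd i β n
      refine ⟨by omega, fun s hs => ?_⟩
      have h4 := h2 s hs
      have hsi : s ≠ i := by
        rintro rfl
        exact hiS hs
      rwa [Function.update_of_ne hsi] at h4
    · funext β
      rw [Pi.add_apply, Ds_zo]
      change (∑ n ∈ Finset.range ((β + Pi.single i 1 : Fin m → ℕ) i),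
        ((-zo F m c r i) ^ ((β + Pi.single i 1 : Fin m → ℕ) i - 1 - n)) u
          (Function.update (β + Pi.single i 1 : Fin m → ℕ) i n)) + _ = u β
      have e1 : (β + Pi.single i 1 : Fin m → ℕ) i = β i + 1 := by
        rw [Pi.add_apply, Pi.single_eq_same]
      rw [e1, Finset.sum_range_succ, Ds_upd_single, Function.update_eq_self,
        Nat.add_sub_cancel, Nat.sub_self, pow_zero, Module.End.one_apply]
      have e2 : ∑ l ∈ Finset.univ.filter (fun l : Fin m => c ≤ l.val), r i l *
          (∑ n ∈ Finset.range ((β + Pi.single l 1 : Fin m → ℕ) i),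
            ((-zo F m c r i) ^ ((β + Pi.single l 1 : Fin m → ℕ) i - 1 - n)) u
              (Function.update (β + Pi.single l 1 : Fin m → ℕ) i n)) =
          ∑ n ∈ Finset.range (β i),
            zo F m c r i (((-zo F m c r i) ^ (β i - 1 - n)) u) (Function.update β i n) := by
        have e3 : ∀ n, zo F m c r i (((-zo F m c r i) ^ (β i - 1 - n)) u)
            (Function.update β i n) = ∑ l ∈ Finset.univ.filter (fun l : Fin m => c ≤ l.val),
              r i l * (((-zo F m c r i) ^ (β i - 1 - n)) u)
                (Function.update β i n + Pi.single l 1) := fun n => Ds_zo r i _ _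
        simp only [e3]
        rw [Finset.sum_comm]
        refine Finset.sum_congr rfl (fun l hl => ?_)
        have hl1 : c ≤ l.val := (Finset.mem_filter.mp hl).2
        have hli : l ≠ i := by
          rintro rfl
          omega
        rw [Ds_at hli, Finset.mul_sum]
        refine Finset.sum_congr rfl (fun n _ => ?_)
        rw [Ds_upd_add hli]
      rw [e2]
      have e4 : ∑ n ∈ Finset.range (β i), ((-zo F m c r i) ^ (β i - n)) u
          (Function.update (β + Pi.single i 1 : Fin m → ℕ) i n) =
          -∑ n ∈ Finset.range (β i),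
            zo F m c r i (((-zo F m c r i) ^ (β i - 1 - n)) u) (Function.update β i n) := by
        rw [← Finset.sum_neg_distrib]
        refine Finset.sum_congr rfl (fun n hn => ?_)
        have hn1 : n < β i := Finset.mem_range.mp hn
        have e5 : β i - n = (β i - 1 - n) + 1 := by omega
        rw [Ds_upd_single, e5, pow_succ', Module.End.mul_apply, LinearMap.neg_apply,
          Pi.neg_apply]
      rw [e4]
      ring
  · intro d u hu β hβ
    rw [Ds_J_apply] at hβ
    have hu' : u ∈ fn F m S d := fun γ hγ =>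
      ⟨(hu γ hγ).1, fun s hs => (hu γ hγ).2 s (Finset.mem_insert_of_mem hs)⟩
    obtain ⟨h1, h2⟩ := Ds_G_pow r i hu' (β i) _ hβ
    have h3 := Ds_sum_upd i β 0
    refine ⟨by omega, fun s hs => ?_⟩
    have h4 := h2 s hs
    have hsi : s ≠ i := by
      rintro rfl
      exact hiS hs
    rwa [Function.update_of_ne hsi] at h4
  · intro d u hu h
    funext β
    by_contra hne
    have h1 := (hu β hne).2 i (Finset.mem_insert_self i S)
    have h2 := congrFun h β
    rw [Ds_J_apply, h1, pow_zero, Module.End.one_apply, ← h1, Function.update_eq_self] at h2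
    exact hne h2
  · intro a d u _
    unfold yo
    by_cases haS : a ∈ S
    · rw [if_pos (Finset.mem_insert_of_mem haS), if_pos haS, LinearMap.neg_apply,
        LinearMap.neg_apply, map_neg, Ds_J_zo r hic]
    · by_cases hai : a = i
      · subst hai
        rw [if_pos (Finset.mem_insert_self a S), if_neg haS, LinearMap.neg_apply, Ds_J_i]
      · rw [if_neg (fun h => (Finset.mem_insert.mp h).elim hai haS), if_neg haS, Ds_J_sf r hai]
  · intro d u _
    rw [← Ds_J_i, map_neg, Ds_J_zo r hic, neg_add_cancel]
  · intro d u hu h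
    classical
    refine ⟨fun β => if β i = 0 then u β else 0, ?_, ?_⟩
    · intro β hβ
      change (if β i = 0 then u β else 0) ≠ 0 at hβ
      by_cases h0 : β i = 0
      · rw [if_pos h0] at hβ
        refine ⟨(hu β hβ).1, fun s hs => ?_⟩
        rcases Finset.mem_insert.mp hs with h1 | h1
        · rw [h1, h0]
        · exact (hu β hβ).2 s h1
      · exact absurd (if_neg h0) hβ
    · funext β
      have h1 : Function.update β i 0 i = 0 := Function.update_self i 0 β
      rw [Ds_J_apply, Ds_zo_agree r hic (w := u) (fun γ hγ => if_pos hγ) (β i) _ h1,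
        Ds_sf_pow r h]
      congr 1
      funext j
      by_cases hj : j = i
      · subst hj
        rw [Pi.add_apply, Function.update_self, Pi.single_eq_same, zero_add]
      · rw [Pi.add_apply, Function.update_of_ne hj, Pi.single_eq_of_ne hj, add_zero]

end HMx
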