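import Pool.Agent.Lib.MP_181146_gt.HM.SpecF

/-!
# Project HM (part E), module DsE: `DSt` for the places `< c` inside the functions on all exponents
-/

set_option autoImplicit false

noncomputable section

namespace HMx

open MvPolynomial

private theorem DsE_lt_succ {m j : ℕ} (h : j < m) : Lt m (j + 1) = insert ⟨j, h⟩ (Lt m j) := by
  ext i
  simp only [Lt, Finset.mem_filter, Finset.mem_univ, true_and, Finset.mem_insert, Fin.ext_iff]
  omega

private theorem DsE_lt_ge {m j : ℕ} (h : m ≤ j) : Lt m (j + 1) = Lt m j := by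
  ext i
  have := i.isLt
  simp only [Lt, Finset.mem_filter, Finset.mem_univ, true_and]
  omega

private theorem DsE_sf0 {F : Type} [CommRing F] {m : ℕ} {S : Finset (Fin m)} {v : (Fin m → ℕ) → F}
    (hv : v ∈ fn F m S 0) (a : Fin m) : sf F m a v = 0 := by
  funext β
  change v (β + Pi.single a 1) = 0
  by_contra h
  have h1 := (hv _ h).1
  have h3 : ∑ i, (β + Pi.single a 1 : Fin m → ℕ) i = ∑ i, β i + 1 := by
    simp only [Pi.add_apply, Finset.sum_add_distrib, Finset.sum_pi_single', Finset.mem_univ,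
      if_true]
  omega

private theorem DsE_ind (hDs : S_Ds) (F : Type) [CommRing F] (m c : ℕ) (r : Fin m → Fin m → F) :
    ∀ j : ℕ, j ≤ c → ∃ J : Module.End F ((Fin m → ℕ) → F),
      (∀ d, ∀ u ∈ fn F m (Lt m j) d, J u ∈ fn F m ∅ d) ∧
      (∀ d, ∀ u ∈ fn F m (Lt m j) d, J u = 0 → u = 0) ∧
      (∀ a d, ∀ u ∈ fn F m (Lt m j) d, J (yo F m c r (Lt m j) a u) = sf F m a (J u)) ∧
      (∀ d, ∀ u ∈ fn F m (Lt m j) d, ∀ i : Fin m, i.val < j →
        sf F m i (J u) + zo F m c r i (J u) = 0) ∧
      ∀ d, ∀ u ∈ fn F m ∅ d, (∀ i : Fin m, i.val < j → sf F m i u + zo F m c r i u = 0) →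
        ∃ u' ∈ fn F m (Lt m j) d, J u' = u := by
  intro j
  induction j with
  | zero =>
    intro _
    have e : Lt m 0 = ∅ := by
      ext i
      simp [Lt]
    rw [e]
    refine ⟨LinearMap.id, fun d u hu => hu, fun d u _ h => h, fun a d u _ => ?_, fun d u _ i hi => ?_,
      fun d u hu _ => ⟨u, hu, rfl⟩⟩
    · unfold yo
      rw [if_neg (Finset.notMem_empty a)]
      rfl
    · omega
  | succ j ih =>
    intro hj
    obtain ⟨J, j1, j2, j3, j4, j5⟩ := ih (by omega)
    by_cases hm : j < m
    · have hiS : (⟨j, hm⟩ : Fin m) ∉ Lt m j := by simp [Lt]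
      have hS : ∀ a ∈ Lt m j, a.val < c := by
        intro a ha
        have h1 : a.val < j := by simpa [Lt] using ha
        omega
      obtain ⟨-, -, K, k1, k2, k3, k4, k5⟩ := hDs F m c r (Lt m j) ⟨j, hm⟩ hiS (by
        change j < c
        omega) hS
      rw [← DsE_lt_succ hm] at k1 k2 k3 k4 k5
      have hsf : ∀ l : Fin m, j ≤ l.val → ∀ d, ∀ v ∈ fn F m (Lt m j) d,
          J (sf F m l v) = sf F m l (J v) := by
        intro l hl d v hv
        rw [← j3 l d v hv]
        unfold yo
        rw [if_neg (by simp [Lt, hl])]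
      have hzo : ∀ i d, ∀ v ∈ fn F m (Lt m j) d, J (zo F m c r i v) = zo F m c r i (J v) := by
        intro i d v hv
        simp only [zo, LinearMap.sum_apply, LinearMap.smul_apply, map_sum, map_smul]
        refine Finset.sum_congr rfl fun l hl => ?_
        have h1 : c ≤ l.val := by simpa using hl
        rw [hsf l (by omega) d v hv]
      refine ⟨J ∘ₗ K, fun d u hu => j1 d _ (k1 d u hu), fun d u hu h => k2 d u hu
        (j2 d _ (k1 d u hu) h), fun a d u hu => ?_, fun d u hu i hi => ?_, fun d u hu h => ?_⟩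
      · change J (K _) = sf F m a (J (K u))
        rw [k3 a d u hu, j3 a d _ (k1 d u hu)]
      · change sf F m i (J (K u)) + zo F m c r i (J (K u)) = 0
        rcases Nat.lt_succ_iff_lt_or_eq.mp hi with h1 | h1
        · exact j4 d _ (k1 d u hu) i h1
        · have h2 : i = ⟨j, hm⟩ := Fin.ext h1
          rw [h2, ← hsf ⟨j, hm⟩ le_rfl d _ (k1 d u hu), ← hzo _ d _ (k1 d u hu), ← map_add,
            k4 d u hu, map_zero]
      · obtain ⟨v, hv, rfl⟩ := j5 d u hu fun i hi => h i (by omega)
        have h3 := h ⟨j, hm⟩ (Nat.lt_succ_self j)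
        rw [← hsf ⟨j, hm⟩ le_rfl d v hv, ← hzo _ d v hv, ← map_add] at h3
        have h4 : sf F m ⟨j, hm⟩ v + zo F m c r ⟨j, hm⟩ v = 0 := by
          cases d with
          | zero =>
            rw [DsE_sf0 hv, zo, LinearMap.sum_apply, zero_add]
            refine Finset.sum_eq_zero fun l _ => ?_
            rw [LinearMap.smul_apply, DsE_sf0 hv, smul_zero]
          | succ d =>
            exact j2 d _ (Submodule.add_mem _ (sf_mem _ hv) (zo_mem _ hv)) h3
        obtain ⟨u', hu', rfl⟩ := k5 d v hv h4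
        exact ⟨u', hu', rfl⟩
    · rw [DsE_lt_ge (by omega)]
      refine ⟨J, j1, j2, j3, fun d u hu i _ => j4 d u hu i (by have := i.isLt; omega),
        fun d u hu h => j5 d u hu fun i hi => h i (by omega)⟩

theorem pDsE (hDs : S_Ds) : S_DsE := by
  intro F _ m c r
  exact DsE_ind hDs F m c r c le_rfl

end HMx
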