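import Pool.Agent.Lib.MP_181146_gt.HM.DefsG

set_option autoImplicit false

namespace HMx

/-- An equation of index `i` outside `S` is compatible with the embedding of `fn S`. -/
private theorem DsS_eq {F : Type} [CommRing F] {m c : ℕ} {r : Fin m → Fin m → F} {S : Finset (Fin m)}
    (hS : ∀ a ∈ S, a.val < c) {J : Module.End F ((Fin m → ℕ) → F)}
    (h3 : ∀ a d, ∀ u ∈ fn F m S d, J (yo F m c r S a u) = sf F m a (J u)) {d : ℕ}
    {u : (Fin m → ℕ) → F} (hu : u ∈ fn F m S d) {i : Fin m} (hi : i ∉ S) :
    J (sf F m i u + zo F m c r i u) = sf F m i (J u) + zo F m c r i (J u) := by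
  have hy : ∀ l : Fin m, l ∉ S → J (sf F m l u) = sf F m l (J u) := by
    intro l hl
    have h := h3 l d u hu
    unfold yo at h
    rw [if_neg hl] at h
    exact h
  rw [map_add, hy i hi]
  congr 1
  simp only [zo, LinearMap.sum_apply, LinearMap.smul_apply, map_sum, map_smul]
  refine Finset.sum_congr rfl (fun l hl => ?_)
  have hl' : l ∉ S := fun h => absurd (hS l h) (not_lt.mpr (Finset.mem_filter.mp hl).2)
  rw [hy l hl']

theorem pDsS (hDs : S_Ds) : S_DsS := by
  intro F _ m c r S
  induction S using Finset.induction_on with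
  | empty =>
    intro _
    refine ⟨1, fun d u hu => hu, fun d u hu h => h, fun a d u hu => ?_, fun d u hu i hi => ?_,
      fun d u hu _ => ⟨u, hu, rfl⟩⟩
    · unfold yo
      rw [if_neg (Finset.notMem_empty a)]
      rfl
    · exact absurd hi (Finset.notMem_empty i)
  | insert i S hi ih =>
    intro hS
    have hS' : ∀ a ∈ S, a.val < c := fun a ha => hS a (Finset.mem_insert_of_mem ha)
    obtain ⟨J, j1, j2, j3, j4, j5⟩ := ih hS'
    obtain ⟨-, -, K, k1, k2, k3, k4, k5⟩ :=
      hDs F m c r S i hi (hS i (Finset.mem_insert_self i S)) hS'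
    refine ⟨J * K, fun d u hu => j1 d _ (k1 d u hu), fun d u hu h => k2 d u hu (j2 d _ (k1 d u hu) h),
      fun a d u hu => ?_, fun d u hu b hb => ?_, fun d u hu h => ?_⟩
    · change J (K (yo F m c r (insert i S) a u)) = sf F m a (J (K u))
      rw [k3 a d u hu, j3 a d _ (k1 d u hu)]
    · change sf F m b (J (K u)) + zo F m c r b (J (K u)) = 0
      rcases Finset.mem_insert.mp hb with rfl | hb'
      · rw [← DsS_eq hS' j3 (k1 d u hu) hi, k4 d u hu, map_zero]
      · exact j4 d _ (k1 d u hu) b hb'
    · obtain ⟨v, hv, hv'⟩ := j5 d u hu (fun b hb => h b (Finset.mem_insert_of_mem hb))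
      have h1 := h i (Finset.mem_insert_self i S)
      rw [← hv', ← DsS_eq hS' j3 hv hi] at h1
      have h2 : sf F m i v + zo F m c r i v = 0 := by
        cases d with
        | zero =>
          have h3 : ∀ l : Fin m, sf F m l v = 0 := by
            intro l
            funext β
            by_contra hne
            have := (hv (β + Pi.single l 1) hne).1
            simp only [Pi.add_apply, Finset.sum_add_distrib, Finset.sum_pi_single', Finset.mem_univ,
              if_true] at this
            omega
          rw [h3 i, zero_add]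
          simp only [zo, LinearMap.sum_apply, LinearMap.smul_apply, h3, smul_zero,
            Finset.sum_const_zero]
        | succ d => exact j2 d _ (Submodule.add_mem _ (sf_mem i hv) (zo_mem i hv)) h1
      obtain ⟨w, hw, hw'⟩ := k5 d v hv h2
      exact ⟨w, hw, by rw [← hv', ← hw']; rfl⟩

end HMx
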