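import Pool.Agent.Lib.MP_181146_gt.HM.SpecF

/-!
# Project HM: the dual basis with respect to tau
-/

set_option autoImplicit false

namespace HMx

open MvPolynomial

private theorem Dua_deg (f : Polynomial ℤ) (m i : ℕ) :
    (cc f m i).natDegree ≤ m - 1 - i := by
  unfold cc
  refine Polynomial.natDegree_sum_le_of_forall_le _ _ (fun l hl => ?_)
  refine le_trans (Polynomial.natDegree_C_mul_X_pow_le _ _) ?_
  have := Finset.mem_Ioc.mp hl
  omega

private theorem Dua_top (f : Polynomial ℤ) (m : ℕ) (hf : f.Monic) (hm : f.natDegree = m) (i : ℕ)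
    (hi : i < m) : (cc f m i).coeff (m - 1 - i) = 1 := by
  unfold cc
  rw [Polynomial.finsetSum_coeff, Finset.sum_eq_single m]
  · rw [Polynomial.coeff_C_mul_X_pow, if_pos (by omega), ← hm]
    exact hf
  · intro l hl hlm
    have := Finset.mem_Ioc.mp hl
    rw [Polynomial.coeff_C_mul_X_pow, if_neg (by omega)]
  · intro h
    exact absurd (Finset.mem_Ioc.mpr ⟨hi, le_refl m⟩) h

private theorem Dua_mul (f : Polynomial ℤ) (m : ℕ) (hm : f.natDegree = m) (i : ℕ)
    (hi : i < m) : cc f m i * Polynomial.X ^ (i + 1) =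
      f - ∑ l ∈ Finset.range (i + 1), Polynomial.C (f.coeff l) * Polynomial.X ^ l := by
  have h1 : f = ∑ l ∈ Finset.range (m + 1), Polynomial.C (f.coeff l) * Polynomial.X ^ l := by
    conv_lhs => rw [f.as_sum_range_C_mul_X_pow]
    rw [hm]
  have h2 : ∑ l ∈ Finset.range (m + 1), Polynomial.C (f.coeff l) * Polynomial.X ^ l =
      ∑ l ∈ Finset.range (i + 1), Polynomial.C (f.coeff l) * Polynomial.X ^ l +
      ∑ l ∈ Finset.Ico (i + 1) (m + 1), Polynomial.C (f.coeff l) * Polynomial.X ^ l :=
    (Finset.sum_range_add_sum_Ico _ (by omega)).symm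
  have h3 : cc f m i * Polynomial.X ^ (i + 1) =
      ∑ l ∈ Finset.Ico (i + 1) (m + 1), Polynomial.C (f.coeff l) * Polynomial.X ^ l := by
    unfold cc
    rw [Finset.sum_mul]
    have h4 : Finset.Ioc i m = Finset.Ico (i + 1) (m + 1) := by
      ext x
      rw [Finset.mem_Ioc, Finset.mem_Ico]
      omega
    rw [h4]
    refine Finset.sum_congr rfl (fun l hl => ?_)
    have := Finset.mem_Ico.mp hl
    rw [mul_assoc, ← pow_add]
    congr 2
    omega
  rw [h3, eq_sub_iff_add_eq, add_comm, ← h2, ← h1]

theorem pDua : S_Dua := by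
  intro f m hf hm i hi j hj
  have h0 : m ≠ 0 := by omega
  have hfd : f.degree = (m : WithBot ℕ) := by
    rw [Polynomial.degree_eq_natDegree hf.ne_zero, hm]
  have hlt : ∀ p : Polynomial ℤ, p.natDegree < m → p %ₘ f = p := by
    intro p hp
    rw [Polynomial.modByMonic_eq_self_iff hf, hfd]
    exact lt_of_le_of_lt Polynomial.degree_le_natDegree (by exact_mod_cast hp)
  by_cases hji : j ≤ i
  · have h1 : (cc f m i * Polynomial.X ^ j).natDegree < m := by
      have h2 := Polynomial.natDegree_mul_le (p := cc f m i) (q := Polynomial.X ^ j)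
      rw [Polynomial.natDegree_X_pow] at h2
      have h3 := Dua_deg f m i
      omega
    unfold tau
    rw [hlt _ h1]
    have h4 : m - 1 = (m - 1 - j) + j := by omega
    conv_lhs => rw [h4]
    rw [Polynomial.coeff_mul_X_pow]
    split_ifs with h5
    · subst h5
      exact Dua_top f m hf hm i hi
    · refine Polynomial.coeff_eq_zero_of_natDegree_lt ?_
      have h3 := Dua_deg f m i
      omega
  · rw [if_neg (by omega)]
    have h1 : cc f m i * Polynomial.X ^ j = f * Polynomial.X ^ (j - i - 1) -
        (∑ l ∈ Finset.range (i + 1), Polynomial.C (f.coeff l) * Polynomial.X ^ l) *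
          Polynomial.X ^ (j - i - 1) := by
      rw [← sub_mul, ← Dua_mul f m hm i hi, mul_assoc, ← pow_add]
      congr 2
      omega
    have h2 : ((∑ l ∈ Finset.range (i + 1), Polynomial.C (f.coeff l) * Polynomial.X ^ l) *
          Polynomial.X ^ (j - i - 1) : Polynomial ℤ).natDegree ≤ j - 1 := by
      refine le_trans Polynomial.natDegree_mul_le ?_
      rw [Polynomial.natDegree_X_pow]
      have h3 : (∑ l ∈ Finset.range (i + 1), Polynomial.C (f.coeff l) *
          Polynomial.X ^ l : Polynomial ℤ).natDegree ≤ i := by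
        refine Polynomial.natDegree_sum_le_of_forall_le _ _ (fun l hl => ?_)
        refine le_trans (Polynomial.natDegree_C_mul_X_pow_le _ _) ?_
        have := Finset.mem_range.mp hl
        omega
      omega
    unfold tau
    rw [h1, Polynomial.sub_modByMonic, (Polynomial.modByMonic_eq_zero_iff_dvd hf).mpr
      (Dvd.intro _ rfl), zero_sub, Polynomial.coeff_neg, hlt _ (by omega),
      Polynomial.coeff_eq_zero_of_natDegree_lt (by omega), neg_zero]

end HMx
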