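import Pool.Agent.Lib.MP_181146_gt.HM.SpecF

/-!
# Project HM, module EvE: `p(Y)` under an equivariant embedding
-/

set_option autoImplicit false

noncomputable section

namespace HMx

open MvPolynomial

section

variable {k : Type} [CommRing k] {m : ℕ} {D : DM k m} {W : Type} [AddCommGroup W]

private theorem EvE_idx (e : ∀ d, D.D d →+ W) (x : ∀ j, D.D j) {a b : ℕ} (h : a = b) :
    e a (x a) = e b (x b) := by
  subst h
  rfl

private theorem EvE_ev (p : MvPolynomial (Fin m) k) (x : ∀ j, D.D j) (d : ℕ) :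
    D.ev p x d = ∑ s ∈ p.support, p.coeff s • D.pw s x d := by
  rw [DM.ev, LinearMap.sum_apply, Finset.sum_apply]
  rfl

variable [Module (Lm m) W]

/-- the operator `T` of degree `-n` acts as the polynomial `p` -/
private def EvE_Q (e : ∀ d, D.D d →+ W) (T : Module.End k (∀ j, D.D j)) (p : Lm m) (n : ℕ) : Prop :=
  ∀ (x : ∀ j, D.D j) (d : ℕ), e d (T x d) = p • e (d + n) (x (d + n))

private theorem EvE_one (e : ∀ d, D.D d →+ W) : EvE_Q e 1 1 0 := by
  intro x d
  rw [one_smul]
  rfl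

private theorem EvE_mul {e : ∀ d, D.D d →+ W} {T T' : Module.End k (∀ j, D.D j)} {p p' : Lm m}
    {n n' : ℕ} (h : EvE_Q e T p n) (h' : EvE_Q e T' p' n') : EvE_Q e (T * T') (p * p') (n + n') := by
  intro x d
  have h1 := h (T' x) d
  have h2 := h' x (d + n)
  have h3 : (T * T') x = T (T' x) := rfl
  rw [h3, h1, h2, smul_smul, EvE_idx e x (add_assoc d n n')]

private theorem EvE_pow {e : ∀ d, D.D d →+ W} {T : Module.End k (∀ j, D.D j)} {p : Lm m}
    (h : EvE_Q e T p 1) (j : ℕ) : EvE_Q e (T ^ j) (p ^ j) j := by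
  induction j with
  | zero => exact EvE_one e
  | succ j ih =>
    rw [pow_succ, pow_succ]
    exact EvE_mul ih h

private theorem EvE_list {e : ∀ d, D.D d →+ W} : ∀ (r : ℕ) (T : Fin r → Module.End k (∀ j, D.D j))
    (p : Fin r → Lm m) (n : Fin r → ℕ), (∀ i, EvE_Q e (T i) (p i) (n i)) →
    EvE_Q e (List.ofFn T).prod (∏ i, p i) (∑ i, n i) := by
  intro r
  induction r with
  | zero =>
    intro T p n _
    rw [List.ofFn_zero, List.prod_nil, Fin.prod_univ_zero, Fin.sum_univ_zero]
    exact EvE_one e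
  | succ r ih =>
    intro T p n h
    rw [List.ofFn_succ, List.prod_cons, Fin.prod_univ_succ, Fin.sum_univ_succ]
    exact EvE_mul (h 0) (ih _ _ _ fun i => h i.succ)

private theorem EvE_pw {e : ∀ d, D.D d →+ W}
    (he : ∀ a d x, e d (D.Y a d x) = (X a : Lm m) • e (d + 1) x) (s : Fin m →₀ ℕ) :
    EvE_Q e (D.pw s) (monomial s 1) (∑ i, s i) := by
  have h1 : ∀ i, EvE_Q e (D.Yt i) (X i) 1 := fun i x d => he i d (x (d + 1))
  have h3 := EvE_list m (fun i => D.Yt i ^ s i) (fun i => (X i : Lm m) ^ s i) (fun i => s i)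
    (fun i => EvE_pow (h1 i) (s i))
  have h4 : (monomial s 1 : Lm m) = ∏ i, (X i : Lm m) ^ s i := by
    rw [monomial_eq, C_1, one_mul]
    exact Finsupp.prod_fintype _ _ (fun i => pow_zero _)
  rw [h4]
  exact h3

end

theorem pEvE : S_EvE := by
  intro m n D W _ _ e he p hp x d
  rw [EvE_ev, map_sum]
  have h0 : p • e (d + n) (x (d + n)) = ∑ s ∈ p.support,
      (monomial s (p.coeff s) : Lm m) • e (d + n) (x (d + n)) := by
    rw [← Finset.sum_smul, ← p.as_sum]
  rw [h0]
  refine Finset.sum_congr rfl fun s hs => ?_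
  have h8 : ∑ i, s i = n := by
    have h9 := hp (mem_support_iff.1 hs)
    rw [← h9, ← Finsupp.degree_eq_sum, Finsupp.degree_eq_weight_one]
    rfl
  refine ((congrArg (e d) (int_smul_eq_zsmul (D.mo d) (p.coeff s) (D.pw s x d))).trans
    (map_zsmul (e d) _ _)).trans ?_
  rw [EvE_pw he s x d, EvE_idx e x (congrArg (fun t => d + t) h8), ← smul_assoc]
  congr 1
  rw [smul_monomial, smul_eq_mul, mul_one]

end HMx
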