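import Pool.Agent.Lib.MP_181146_gt.HM.SpecM

/-!
# Project HM, module ExG: exactness for every monic polynomial (base change to a splitting ring)
-/

set_option autoImplicit false

noncomputable section

namespace HMx

open MvPolynomial TensorProduct

section

variable {R : Type} [CommRing R]

private theorem ExG_mon (ts : List R) : (pl ts).Monic := by
  induction ts with
  | nil => exact Polynomial.monic_one
  | cons t ts ih =>
    have h : pl (t :: ts) = (Polynomial.X - Polynomial.C t) * pl ts := by
      rw [pl, pl, List.map_cons, List.prod_cons]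
    rw [h]
    exact (Polynomial.monic_X_sub_C t).mul ih

private theorem ExG_deg [Nontrivial R] (ts : List R) : (pl ts).natDegree = ts.length := by
  induction ts with
  | nil => exact Polynomial.natDegree_one
  | cons t ts ih =>
    have h : pl (t :: ts) = (Polynomial.X - Polynomial.C t) * pl ts := by
      rw [pl, pl, List.map_cons, List.prod_cons]
    rw [h, (Polynomial.monic_X_sub_C t).natDegree_mul (ExG_mon ts), ih,
      Polynomial.natDegree_X_sub_C, List.length_cons, add_comm]

/-- The resultant of a product of linear factors. -/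
private theorem ExG_list (ts : List R) (φ : Polynomial R) (n : ℕ) (hn : φ.natDegree ≤ n) :
    Polynomial.resultant (pl ts) φ ts.length n = (ts.map fun s => φ.eval s).prod := by
  rcases subsingleton_or_nontrivial R with hR | hR
  · exact Subsingleton.elim _ _
  induction ts with
  | nil =>
    have h : pl ([] : List R) = 1 := rfl
    rw [h, List.length_nil, Polynomial.resultant_zero_left_deg, Polynomial.coeff_one_zero, one_pow,
      List.map_nil, List.prod_nil]
  | cons t ts ih =>
    have h : pl (t :: ts) = (Polynomial.X - Polynomial.C t) * pl ts := by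
      rw [pl, pl, List.map_cons, List.prod_cons]
    have h1 := Polynomial.resultant_mul_left (Polynomial.X - Polynomial.C t) (pl ts) φ n hn
    rw [Polynomial.natDegree_X_sub_C, ExG_deg, Polynomial.resultant_X_sub_C_left _ _ _ hn, ih] at h1
    rw [h, List.length_cons, add_comm ts.length 1, h1, List.map_cons, List.prod_cons]

end

section

variable {L L' : Type} [CommRing L] [CommRing L'] [Algebra L L'] {k : ℕ}

/-- `map` commutes with the substitution of a variable. -/
private theorem ExG_xe (a : Fin k) (q : Polynomial L) :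
    xe a (q.map (algebraMap L L')) = MvPolynomial.map (algebraMap L L') (xe a q) := by
  rw [xe, xe, Polynomial.aeval_def, Polynomial.aeval_def, Polynomial.eval₂_map,
    Polynomial.hom_eval₂, map_X]
  congr 1
  refine RingHom.ext fun c => ?_
  change C (algebraMap L L' c) = MvPolynomial.map (algebraMap L L') (C c)
  rw [map_C]

variable {W W' : Type} [AddCommGroup W] [Module L W] [AddCommGroup W'] [Module L W'] [Module L' W']
  [IsScalarTower L L' W']

/-- The restriction of a functional, followed by `r`. -/
private def ExG_res (r : W' →ₗ[L] W) (V : Fu L' k W') : Fu L k W :=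
  ({ toFun := fun p => r (V.v (MvPolynomial.map (algebraMap L L') p))
     map_add' := fun p q => by rw [map_add, map_add, map_add]
     map_smul' := fun c p => by
      have h : MvPolynomial.map (algebraMap L L') (c • p) =
          algebraMap L L' c • MvPolynomial.map (algebraMap L L') p := by
        rw [← C_mul', map_mul, map_C, C_mul']
      rw [h, map_smul, algebraMap_smul, map_smul]
      rfl } : MvPolynomial (Fin k) L →ₗ[L] W)

private theorem ExG_res_v (r : W' →ₗ[L] W) (V : Fu L' k W') (p : MvPolynomial (Fin k) L) :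
    (ExG_res r V).v p = r (V.v (MvPolynomial.map (algebraMap L L') p)) := rfl

private theorem ExG_res_kf (r : W' →ₗ[L] W) (V : Fu L' k W') (f φ : Polynomial L)
    (h : Kf (f.map (algebraMap L L')) (φ.map (algebraMap L L')) V) : Kf f φ (ExG_res r V) := by
  have key : ∀ q : Polynomial L, Ki (q.map (algebraMap L L')) V → Ki q (ExG_res r V) := by
    intro q hq a p
    rw [ExG_res_v, map_mul, ← ExG_xe, hq a, map_zero]
  refine ⟨fun a b hab p hp => ?_, key f h.2.1, key φ h.2.2⟩
  rw [ExG_res_v, h.1 a b hab, map_zero]
  rw [← map_rename, hp]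

/-- The extension of a functional, followed by `j`. -/
private def ExG_ext (j : W →ₗ[L] W') (u : Fu L k W) : Fu L' k W' :=
  Fu.mk fun s => j (u.v (monomial s 1))

private theorem ExG_ext_v (hMkB : S_MkB) (j : W →ₗ[L] W') (u : Fu L k W)
    (p : MvPolynomial (Fin k) L) :
    (ExG_ext j u : Fu L' k W').v (MvPolynomial.map (algebraMap L L') p) = j (u.v p) := by
  induction p using MvPolynomial.induction_on' with
  | monomial s t =>
    rw [map_monomial, ExG_ext, (hMkB L' W' k _).1, algebraMap_smul, ← map_smul, ← map_smul,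
      smul_monomial, smul_eq_mul, mul_one]
  | add p q hp hq => rw [map_add, map_add, map_add, map_add, hp, hq]

/-- A functional which vanishes on the polynomials over `L` vanishes. -/
private theorem ExG_zero (V : MvPolynomial (Fin k) L' →ₗ[L'] W')
    (h : ∀ p : MvPolynomial (Fin k) L, V (MvPolynomial.map (algebraMap L L') p) = 0)
    (p : MvPolynomial (Fin k) L') : V p = 0 := by
  induction p using MvPolynomial.induction_on' with
  | monomial s t =>
    have h1 : monomial s t = t • MvPolynomial.map (algebraMap L L') (monomial s 1) := by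
      rw [map_monomial, map_one, smul_monomial, smul_eq_mul, mul_one]
    rw [h1, map_smul, h, smul_zero]
  | add p q hp hq => rw [map_add, hp, hq, add_zero]

private theorem ExG_ext_ki (hMkB : S_MkB) (j : W →ₗ[L] W') (u : Fu L k W) (q : Polynomial L)
    (h : Ki q u) : Ki (q.map (algebraMap L L')) (ExG_ext j u : Fu L' k W') := by
  intro a p
  refine ExG_zero (L := L) ((ExG_ext j u : Fu L' k W').v ∘ₗ
    LinearMap.mulLeft L' (xe a (q.map (algebraMap L L')))) (fun p => ?_) p
  change (ExG_ext j u : Fu L' k W').v
    (xe a (q.map (algebraMap L L')) * MvPolynomial.map (algebraMap L L') p) = 0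
  rw [ExG_xe, ← map_mul, ExG_ext_v hMkB, h a, map_zero]

private theorem ExG_ext_al (hMkB : S_MkB) (hAlB : S_AlB) (j : W →ₗ[L] W') (u : Fu L k W)
    (h : Al u) : Al (ExG_ext j u : Fu L' k W') := by
  refine (hMkB L' W' k _).2.1 (fun a b hab s => ⟨fun hs => ?_, ?_⟩)
  · have e1 : s.mapDomain (Equiv.swap a b) = s.equivMapDomain (Equiv.swap a b) :=
      (Finsupp.equivMapDomain_eq_mapDomain _ _).symm
    have e2 : s.mapDomain (Equiv.swap a b) = s := by
      rw [e1]
      ext i
      rw [Finsupp.equivMapDomain_apply, Equiv.symm_swap]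
      rcases eq_or_ne i a with rfl | hia
      · rw [Equiv.swap_apply_left, hs]
      rcases eq_or_ne i b with rfl | hib
      · rw [Equiv.swap_apply_right, hs]
      rw [Equiv.swap_apply_of_ne_of_ne hia hib]
    rw [h a b hab _ (by rw [rename_monomial, e2]), map_zero]
  · have h1 := (hAlB L W k u h).1 a b hab (monomial s 1)
    rw [rename_monomial] at h1
    rw [h1, map_neg]

end

/-- **ExG.** -/
theorem pExG (hSpR : S_SpR) (hGdC : S_GdC) (hMkB : S_MkB) (hExS : S_ExS) (hAlB : S_AlB) :
    S_ExG := by
  intro L _ W _ _ m f φ hf hm hφ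
  obtain ⟨L', cr, al, ρ, ts, hfree, hfin, hρ, hts, hpl⟩ := hSpR m L f hf hm
  have hG := hGdC L W L' m φ hφ
  rw [← hts] at hG
  obtain ⟨e1, e2, e3⟩ := hExS L' ts (L' ⊗[L] W) (φ.map (algebraMap L L')) hG
  let j : W →ₗ[L] L' ⊗[L] W := TensorProduct.mk L L' W 1
  let r : L' ⊗[L] W →ₗ[L] W := (TensorProduct.lid L W).toLinearMap ∘ₗ LinearMap.rTensor W ρ
  have hrj : ∀ w, r (j w) = w := by
    intro w
    change TensorProduct.lid L W (LinearMap.rTensor W ρ (1 ⊗ₜ[L] w)) = w
    rw [LinearMap.rTensor_tmul, TensorProduct.lid_tmul, hρ, one_smul]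
  have hd : φ.natDegree ≤ m - 1 := by
    rw [Polynomial.natDegree_le_iff_coeff_eq_zero]
    intro N hN
    exact hφ.1 N (by omega)
  have hres : (ts.map fun s => (φ.map (algebraMap L L')).eval s).prod =
      algebraMap L L' (Polynomial.resultant f φ m (m - 1)) := by
    rw [← Polynomial.resultant_map_map, hpl]
    have h1 := ExG_list ts (φ.map (algebraMap L L')) (m - 1)
      (Polynomial.natDegree_map_le.trans hd)
    rw [hts] at h1
    exact h1.symm
  rw [hres] at e2 e3
  refine ⟨fun k u hu hu1 => ?_, fun w hw => ?_, fun w => ?_⟩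
  · have k1 : Kf (pl ts) (φ.map (algebraMap L L')) (ExG_ext j u : Fu L' (k + 1) (L' ⊗[L] W)) := by
      refine ⟨ExG_ext_al hMkB hAlB j u hu.1, ?_, ExG_ext_ki hMkB j u φ hu.2.2⟩
      rw [← hpl]
      exact ExG_ext_ki hMkB j u f hu.2.1
    have h1 : ∀ (V : Fu L' (k + 1) (L' ⊗[L] W)) (p : MvPolynomial (Fin k) L),
        (io 1 V).v (MvPolynomial.map (algebraMap L L') p) =
          V.v (MvPolynomial.map (algebraMap L L') (xe 0 1 * rename Fin.succ p)) := by
      intro V p
      have h2 : (xe 0 1 : MvPolynomial (Fin (k + 1)) L') =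
          MvPolynomial.map (algebraMap L L') (xe 0 1) := by
        rw [← ExG_xe, Polynomial.map_one]
      change V.v (xe 0 1 * rename Fin.succ (MvPolynomial.map (algebraMap L L') p)) = _
      rw [← map_rename, h2, ← map_mul (MvPolynomial.map (algebraMap L L'))]
    have k2 : io 1 (ExG_ext j u : Fu L' (k + 1) (L' ⊗[L] W)) = 0 := by
      refine LinearMap.ext fun p => ?_
      refine ExG_zero (L := L) (io 1 (ExG_ext j u : Fu L' (k + 1) (L' ⊗[L] W))).v (fun p => ?_) p
      rw [h1, ExG_ext_v hMkB]
      change j ((io 1 u).v p) = 0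
      rw [hu1]
      exact map_zero j
    obtain ⟨U, hU, hU1⟩ := e1 k _ k1 k2
    refine ⟨ExG_res r U, ?_, ?_⟩
    · refine ExG_res_kf r U f φ ?_
      rw [hpl]
      exact hU
    · refine LinearMap.ext fun p => ?_
      change (ExG_res r U).v (xe 0 1 * rename Fin.succ p) = u.v p
      rw [ExG_res_v]
      have h2 : (xe 0 1 : MvPolynomial (Fin (k + 2)) L') =
          MvPolynomial.map (algebraMap L L') (xe 0 1) := by
        rw [← ExG_xe, Polynomial.map_one]
      rw [map_mul (MvPolynomial.map (algebraMap L L')), ← h2, map_rename]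
      change r ((io 1 U).v (MvPolynomial.map (algebraMap L L') p)) = u.v p
      rw [hU1, ExG_ext_v hMkB, hrj]
  · have h1 : algebraMap L L' (Polynomial.resultant f φ m (m - 1)) • j w = 0 := by
      rw [algebraMap_smul, ← map_smul, hw, map_zero]
    obtain ⟨V, hV, hV1⟩ := e2 (j w) h1
    refine ⟨ExG_res r V, ExG_res_kf r V f φ ?_, ?_⟩
    · rw [hpl]
      exact hV
    · rw [ExG_res_v, map_one, hV1, hrj]
  · obtain ⟨x, hx⟩ := e3 (j w)
    refine ⟨r x, ?_⟩
    rw [← map_smul, ← algebraMap_smul L' (Polynomial.resultant f φ m (m - 1)) x, hx, hrj]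

end HMx
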