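import Pool.Agent.Lib.MP_181146_gt.HM.SpecM

/-!
# Project HM, module ExK: the resultant kills the forms
-/

set_option autoImplicit false

namespace HMx

open MvPolynomial

private theorem ExK_C {L : Type} [CommRing L] {k : ℕ} (a : Fin k) (c : L) :
    xe a (Polynomial.C c) = (C c : MvPolynomial (Fin k) L) := by
  rw [xe, Polynomial.aeval_C, MvPolynomial.algebraMap_eq]

private theorem ExK_res {L : Type} [CommRing L] {W : Type} [AddCommGroup W] [Module L W] (m : ℕ)
    (f φ : Polynomial L) (hf : f.Monic) (hm : f.natDegree = m) (hφ : ∀ i, m ≤ i → φ.coeff i = 0)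
    (k : ℕ) (u : Fu L (k + 1) W) (hu : Kf f φ u) :
    (C (Polynomial.resultant f φ m (m - 1)) : MvPolynomial (Fin (k + 1)) L) • u = 0 := by
  obtain ⟨-, h1, h2⟩ := hu
  refine LinearMap.ext fun P => ?_
  change u.v (C (Polynomial.resultant f φ m (m - 1)) * P) = 0
  rcases Nat.eq_zero_or_pos m with rfl | hpos
  · have h3 : f = 1 := hf.natDegree_eq_zero.1 hm
    have h4 := h1 0 (C (Polynomial.resultant f φ 0 (0 - 1)) * P)
    have h5 : xe (0 : Fin (k + 1)) f = (1 : MvPolynomial (Fin (k + 1)) L) := by
      rw [h3, xe, map_one]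
    rwa [h5, one_mul] at h4
  · have hd : φ.natDegree ≤ m - 1 := by
      rw [Polynomial.natDegree_le_iff_coeff_eq_zero]
      intro N hN
      exact hφ N (by omega)
    obtain ⟨p, q, -, -, h3⟩ := Polynomial.exists_mul_add_mul_eq_C_resultant f φ hm.le hd
      (Or.inl (by omega))
    rw [← ExK_C (0 : Fin (k + 1)), ← h3]
    have h4 : xe (0 : Fin (k + 1)) (f * p + φ * q) * P =
        xe 0 f * (xe 0 p * P) + xe 0 φ * (xe 0 q * P) := by
      simp only [xe, map_add, map_mul]
      ring
    rw [h4, map_add, h1, h2, add_zero]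

theorem pExK (hKiL : S_KiL) : S_ExK := by
  intro L _ W _ _ m f φ hf hm hφ
  refine ⟨fun k u hu => ExK_res m f φ hf hm hφ k u hu, fun u hal hki => ?_⟩
  rcases subsingleton_or_nontrivial L with hL | hL
  · have hW : Subsingleton W := Module.subsingleton L W
    exact LinearMap.ext fun p => Subsingleton.elim _ _
  have h1 := (hKiL L W (m + 1) u f hal).1 hki m (Nat.lt_succ_self m)
  have hg : (gg L (m + 1)).Monic :=
    Polynomial.monic_prod_of_monic _ _ (fun _ _ => Polynomial.monic_X_sub_C _)
  have hn : (gg L (m + 1)).natDegree = m + 1 := by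
    rw [gg, Polynomial.natDegree_prod_of_monic _ _ (fun _ _ => Polynomial.monic_X_sub_C _)]
    simp
  have h2 : lc (m + 1) f m = 1 := by
    rw [lc, (Polynomial.modByMonic_eq_self_iff hg).2, Polynomial.coeff_map]
    · have h3 : f.coeff m = 1 := by
        rw [← hm]
        exact hf
      rw [h3, map_one]
    · rw [Polynomial.degree_eq_natDegree hg.ne_zero, hn]
      refine lt_of_le_of_lt Polynomial.degree_map_le ?_
      rw [Polynomial.degree_eq_natDegree hf.ne_zero, hm]
      exact_mod_cast Nat.lt_succ_self m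
  rw [h2, one_smul] at h1
  exact h1

end HMx
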