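import Pool.Agent.Lib.MP_181146_gt.HM.SpecF

/-!
# Project HM (part E), module FFi: `FF f k` is finite, free, nontrivial (helper56)
-/

set_option autoImplicit false

noncomputable section

namespace HMx

open MvPolynomial

private theorem FFi_tau_lt {f : Polynomial ℤ} {m : ℕ} (hf : f.Monic) (hd : f.natDegree = m)
    {n : ℕ} (hn : n < m) : tau f m (Polynomial.X ^ n) = if n = m - 1 then 1 else 0 := by
  unfold tau
  have h1 : (Polynomial.X ^ n : Polynomial ℤ) %ₘ f = Polynomial.X ^ n := by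
    rw [Polynomial.modByMonic_eq_self_iff hf, Polynomial.degree_X_pow,
      Polynomial.degree_eq_natDegree hf.ne_zero, hd]
    exact_mod_cast hn
  rw [h1, Polynomial.coeff_X_pow]
  by_cases h : n = m - 1
  · rw [if_pos h, if_pos h.symm]
  · rw [if_neg h, if_neg (fun h' => h h'.symm)]

private theorem FFi_perm {k : ℕ} (τ : Equiv.Perm (Fin k)) (h : τ ≠ 1) : ∃ a, (τ a).val < a.val := by
  by_contra hcon
  push Not at hcon
  apply h
  have hs : ∑ a, (τ a).val = ∑ a : Fin k, a.val := Equiv.sum_comp τ (fun a : Fin k => a.val)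
  have he : ∀ a ∈ (Finset.univ : Finset (Fin k)), a.val = (τ a).val :=
    (Finset.sum_eq_sum_iff_of_le (fun a _ => hcon a)).1 hs.symm
  ext a
  rw [Equiv.Perm.one_apply]
  exact (he a (Finset.mem_univ a)).symm

private theorem FFi_val (hPrf : S_Prf) (f : Polynomial ℤ) (m k : ℕ) (hf : f.Monic)
    (hd : f.natDegree = m) (hk : k ≤ m) :
    (tk f m k).v (vd k * ∏ a : Fin k, X a ^ (m - 1 - a.val)) = 1 := by
  obtain ⟨h1, -⟩ := hPrf f m k hf hd
  have hX : ∀ n : Fin k → ℕ, (tk f m k).v (∏ a, X a ^ n a) =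
      ∏ a, tau f m (Polynomial.X ^ n a) := by
    intro n
    rw [← h1 (fun a => Polynomial.X ^ n a)]
    congr 1
    refine Finset.prod_congr rfl fun a _ => ?_
    simp only [xe, map_pow, Polynomial.aeval_X]
  have h2 : vd k * ∏ a : Fin k, (X a : MvPolynomial (Fin k) ℤ) ^ (m - 1 - a.val) =
      ∑ σ : Equiv.Perm (Fin k), ((Equiv.Perm.sign σ : ℤˣ) : ℤ) •
        ∏ a : Fin k, (X a : MvPolynomial (Fin k) ℤ) ^ ((σ.symm a).val + (m - 1 - a.val)) := by
    rw [vd, Matrix.det_apply, Finset.sum_mul]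
    refine Finset.sum_congr rfl fun σ _ => ?_
    rw [Units.smul_def, smul_mul_assoc]
    congr 1
    have h3 : ∏ i : Fin k, (Matrix.vandermonde fun a : Fin k => (X a : MvPolynomial (Fin k) ℤ))
        (σ i) i = ∏ a : Fin k, (X a : MvPolynomial (Fin k) ℤ) ^ (σ.symm a).val := by
      rw [← Equiv.prod_comp σ (fun a : Fin k => (X a : MvPolynomial (Fin k) ℤ) ^ (σ.symm a).val)]
      refine Finset.prod_congr rfl fun i _ => ?_
      rw [Matrix.vandermonde_apply, Equiv.symm_apply_apply]
    rw [h3, ← Finset.prod_mul_distrib]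
    exact Finset.prod_congr rfl fun a _ => (pow_add _ _ _).symm
  rw [h2, map_sum, Finset.sum_eq_single (1 : Equiv.Perm (Fin k))]
  · rw [map_zsmul, hX, Equiv.Perm.sign_one, Units.val_one, one_zsmul]
    refine Finset.prod_eq_one fun a _ => ?_
    have ha := a.isLt
    have h4 : ((1 : Equiv.Perm (Fin k)).symm a).val + (m - 1 - a.val) = m - 1 := by
      have h5 : ((1 : Equiv.Perm (Fin k)).symm a) = a := rfl
      rw [h5]
      omega
    rw [h4, FFi_tau_lt hf hd (by omega), if_pos rfl]
  · intro σ _ hσ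
    have hσ' : σ.symm ≠ 1 := by
      intro h
      apply hσ
      rw [← Equiv.symm_symm σ, h]
      rfl
    obtain ⟨a, ha⟩ := FFi_perm σ.symm hσ'
    have ha' := a.isLt
    rw [map_zsmul, hX, Finset.prod_eq_zero (Finset.mem_univ a), smul_zero]
    rw [FFi_tau_lt hf hd (by omega), if_neg (by omega)]
  · intro h
    exact absurd (Finset.mem_univ _) h

theorem pFFi (hPrf : S_Prf) : S_FFi := by
  intro f m k hf hd
  obtain ⟨-, -, p3, p4, -, p6⟩ := hPrf f m k hf hd
  -- the additive map
  let ψ : Sy ℤ k →+ ((Fin k → Fin m) → ℤ) :=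
    { toFun := fun b s => (tk f m k).v (vd k * (b : MvPolynomial (Fin k) ℤ) *
        ∏ a, X a ^ (s a).val)
      map_zero' := by
        funext s
        change (tk f m k).v (vd k * (0 : MvPolynomial (Fin k) ℤ) * _) = 0
        rw [mul_zero, zero_mul, map_zero]
      map_add' := by
        intro b c
        funext s
        change (tk f m k).v (vd k * ((b : MvPolynomial (Fin k) ℤ) + c) * _) =
          (tk f m k).v _ + (tk f m k).v _
        rw [mul_add, add_mul, map_add] }
  have hψ : ∀ b s, ψ b s = (tk f m k).v (vd k * (b : MvPolynomial (Fin k) ℤ) *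
      ∏ a, X a ^ (s a).val) := fun _ _ => rfl
  have hker : ∀ b ∈ (FI f k).toAddSubgroup, ψ b = 0 := by
    intro b hb
    funext s
    rw [hψ]
    exact p3 _ (Ideal.mul_mem_right _ _ hb)
  let Φ : FF f k →+ ((Fin k → Fin m) → ℤ) :=
    QuotientAddGroup.lift (FI f k).toAddSubgroup ψ hker
  have hΦ : ∀ b, Φ (Ideal.Quotient.mk (FI f k) b) = ψ b := fun _ => rfl
  have hinj : Function.Injective Φ := by
    rw [injective_iff_map_eq_zero]
    intro x hx
    obtain ⟨b, rfl⟩ := Ideal.Quotient.mk_surjective x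
    rw [hΦ] at hx
    rw [Ideal.Quotient.eq_zero_iff_mem]
    change vd k * (b : MvPolynomial (Fin k) ℤ) ∈ JJ f k
    refine p4 _ fun P => ?_
    obtain ⟨c, hc⟩ := p6 P
    have h1 := p3 _ (Ideal.mul_mem_left _ (vd k * (b : MvPolynomial (Fin k) ℤ)) hc)
    rw [mul_sub, map_sub, Finset.mul_sum, map_sum] at h1
    have h2 : ∑ s, (tk f m k).v (vd k * (b : MvPolynomial (Fin k) ℤ) *
        (C (c s) * ∏ a, X a ^ (s a).val)) = 0 := by
      refine Finset.sum_eq_zero fun s _ => ?_
      have h3 : vd k * (b : MvPolynomial (Fin k) ℤ) * (C (c s) * ∏ a, X a ^ (s a).val) =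
          c s • (vd k * (b : MvPolynomial (Fin k) ℤ) * ∏ a, X a ^ (s a).val) := by
        rw [MvPolynomial.smul_eq_C_mul]
        ring
      rw [h3, map_smul]
      have h4 := congrFun hx s
      rw [hψ] at h4
      rw [h4]
      exact smul_zero _
    rw [h2, sub_zero] at h1
    exact h1
  have hinj' : Function.Injective (Φ.toIntLinearMap) := hinj
  refine ⟨Module.Finite.of_injective Φ.toIntLinearMap hinj', ?_, ?_⟩
  · exact Module.Free.of_equiv (LinearEquiv.ofInjective Φ.toIntLinearMap hinj').symm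
  · intro hk
    refine ⟨⟨0, 1, fun h01 => ?_⟩⟩
    have h1 : (Ideal.Quotient.mk (FI f k)) 1 = 0 := by
      rw [map_one]
      exact h01.symm
    rw [Ideal.Quotient.eq_zero_iff_mem] at h1
    have h2 : vd k * (1 : MvPolynomial (Fin k) ℤ) ∈ JJ f k := h1
    rw [mul_one] at h2
    have h3 := p3 _ (Ideal.mul_mem_right (∏ a : Fin k, X a ^ (m - 1 - a.val)) _ h2)
    rw [FFi_val hPrf f m k hf hd hk] at h3
    exact one_ne_zero h3

end HMx
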