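import Pool.Agent.Lib.MP_181146_gt.HM.SpecF

/-!
# Project HM, module `FRe`: `FF f k` is reduced if `f` is separable over `ℚ`

The functional `tau f m` is a combination of the evaluations at the complex roots of `f` (Lagrange
interpolation), so `tk f m k` is a combination of the evaluations at the `k`-tuples of roots.  With
`S_Prf (4)` the ideal `JJ f k` is the set of the polynomials vanishing at all `k`-tuples of roots.
-/

set_option autoImplicit false

noncomputable section

namespace HMx

open MvPolynomial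

/-- `tau` is a combination of the values at the roots. -/
private theorem FRe_tau (f : Polynomial ℤ) (hf : f.Monic)
    (hs : (f.map (Int.castRingHom ℚ)).Separable) :
    ∃ c : ℂ → ℂ, ∀ p : Polynomial ℤ, ((tau f f.natDegree p : ℤ) : ℂ) =
      ∑ θ ∈ (f.map (Int.castRingHom ℂ)).roots.toFinset, c θ * Polynomial.aeval θ p := by
  classical
  set G : Polynomial ℂ := f.map (Int.castRingHom ℂ) with hG
  have hGm : G.Monic := hf.map _
  have hGs : G.Separable := by
    have h := hs.map (f := algebraMap ℚ ℂ)
    rw [Polynomial.map_map] at h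
    have e : (algebraMap ℚ ℂ).comp (Int.castRingHom ℚ) = Int.castRingHom ℂ :=
      RingHom.ext_int _ _
    rw [e] at h
    exact h
  have hcard : G.roots.toFinset.card = f.natDegree := by
    rw [Multiset.toFinset_card_of_nodup (Polynomial.nodup_roots hGs),
      ← (IsAlgClosed.splits G).natDegree_eq_card_roots, hG]
    exact hf.natDegree_map _
  refine ⟨fun θ => (∏ j ∈ G.roots.toFinset.erase θ, (θ - j))⁻¹, fun p => ?_⟩
  have hdeg : ((p %ₘ f).map (Int.castRingHom ℂ)).degree < G.roots.toFinset.card := by
    rw [hcard]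
    refine lt_of_le_of_lt Polynomial.degree_map_le ?_
    rw [← Polynomial.degree_eq_natDegree hf.ne_zero]
    exact Polynomial.degree_modByMonic_lt p hf
  have h := Lagrange.coeff_eq_sum (s := G.roots.toFinset) (v := id) (Set.injOn_id _) hdeg
  rw [hcard, Polynomial.coeff_map] at h
  change ((p %ₘ f).coeff (f.natDegree - 1) : ℂ) = _
  rw [show (((p %ₘ f).coeff (f.natDegree - 1) : ℤ) : ℂ) =
    Int.castRingHom ℂ ((p %ₘ f).coeff (f.natDegree - 1)) from rfl, h]
  refine Finset.sum_congr rfl fun θ hθ => ?_
  have hr : Polynomial.aeval θ f = 0 := by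
    have h1 := (Polynomial.mem_roots hGm.ne_zero).1 (Multiset.mem_toFinset.1 hθ)
    rw [Polynomial.IsRoot, hG, Polynomial.eval_map] at h1
    exact h1
  have h2 : Polynomial.eval θ ((p %ₘ f).map (Int.castRingHom ℂ)) = Polynomial.aeval θ p := by
    rw [Polynomial.eval_map]
    change Polynomial.aeval θ (p %ₘ f) = _
    have h3 := congrArg (Polynomial.aeval θ) (Polynomial.modByMonic_add_div p f)
    rw [map_add, map_mul, hr, zero_mul, add_zero] at h3
    exact h3
  change Polynomial.eval θ ((p %ₘ f).map (Int.castRingHom ℂ)) /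
    ∏ j ∈ G.roots.toFinset.erase θ, (θ - j) = _
  rw [h2, div_eq_mul_inv, mul_comm]

/-- `tk` is a combination of the values at the tuples of roots. -/
private theorem FRe_tk (f : Polynomial ℤ) (k : ℕ) (Θ : Finset ℂ) (c : ℂ → ℂ)
    (hc : ∀ p : Polynomial ℤ, ((tau f f.natDegree p : ℤ) : ℂ) =
      ∑ θ ∈ Θ, c θ * Polynomial.aeval θ p) (P : MvPolynomial (Fin k) ℤ) :
    (((tk f f.natDegree k).v P : ℤ) : ℂ) =
      ∑ r ∈ Fintype.piFinset (fun _ : Fin k => Θ), (∏ a, c (r a)) * aeval r P := by
  induction P using MvPolynomial.induction_on' with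
  | monomial s z =>
    have h1 : (tk f f.natDegree k).v (monomial s z) =
        z * ∏ a, tau f f.natDegree (Polynomial.X ^ s a) := by
      have h2 : (monomial s z : MvPolynomial (Fin k) ℤ) = z • basisMonomials (Fin k) ℤ s := by
        rw [coe_basisMonomials, smul_monomial, smul_eq_mul, mul_one]
      rw [h2, map_smul, smul_eq_mul]
      congr 1
      exact (basisMonomials (Fin k) ℤ).constr_basis ℤ _ s
    rw [h1, Int.cast_mul, Int.cast_prod]
    simp only [hc]
    rw [Finset.prod_univ_sum, Finset.mul_sum]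
    refine Finset.sum_congr rfl fun r _ => ?_
    rw [aeval_monomial, Finsupp.prod_fintype _ _ (fun _ => pow_zero _), Finset.prod_mul_distrib]
    simp only [map_pow, Polynomial.aeval_X]
    rw [algebraMap_int_eq, eq_intCast]
    ring
  | add p q hp hq =>
    rw [map_add, Int.cast_add, hp, hq, ← Finset.sum_add_distrib]
    refine Finset.sum_congr rfl fun r _ => ?_
    rw [map_add, mul_add]

theorem pFRe (hPrf : S_Prf) : S_FRe := by
  classical
  refine ⟨fun f k hf hs => ?_, fun n q hn hq => ?_⟩
  · obtain ⟨c, hc⟩ := FRe_tau f hf hs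
    have htk := FRe_tk f k _ c hc
    obtain ⟨-, -, -, h4, -, -⟩ := hPrf f f.natDegree k hf rfl
    have hrad : ∀ P : MvPolynomial (Fin k) ℤ, P * P ∈ JJ f k → P ∈ JJ f k := by
      intro P hP
      refine h4 P fun Q => ?_
      have h : (((tk f f.natDegree k).v (P * Q) : ℤ) : ℂ) = 0 := by
        rw [htk]
        refine Finset.sum_eq_zero fun r hr => ?_
        have hJ : JJ f k ≤ RingHom.ker (aeval r : MvPolynomial (Fin k) ℤ →ₐ[ℤ] ℂ) := by
          rw [JJ, Ideal.span_le]
          rintro _ ⟨a, rfl⟩
          change aeval r (Polynomial.aeval (X a : MvPolynomial (Fin k) ℤ) f) = 0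
          rw [← Polynomial.aeval_algHom_apply, aeval_X]
          have h1 := Fintype.mem_piFinset.1 hr a
          have h2 := (Polynomial.mem_roots (hf.map _).ne_zero).1 (Multiset.mem_toFinset.1 h1)
          rw [Polynomial.IsRoot, Polynomial.eval_map] at h2
          exact h2
        have h1 : aeval r (P * P) = (0 : ℂ) := hJ hP
        rw [map_mul] at h1
        have h2 : aeval r P = (0 : ℂ) := mul_self_eq_zero.1 h1
        rw [map_mul, h2, zero_mul, mul_zero]
      exact_mod_cast h
    rw [isReduced_iff_pow_one_lt 2 one_lt_two]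
    intro x hx
    obtain ⟨b, rfl⟩ := Ideal.Quotient.mk_surjective x
    rw [← map_pow, Ideal.Quotient.eq_zero_iff_mem] at hx
    rw [Ideal.Quotient.eq_zero_iff_mem]
    change vd k * ((b : MvPolynomial (Fin k) ℤ)) ∈ JJ f k
    refine hrad _ ?_
    have h1 : vd k * ((b ^ 2 : Sy ℤ k) : MvPolynomial (Fin k) ℤ) ∈ JJ f k := hx
    have h2 : vd k * (b : MvPolynomial (Fin k) ℤ) * (vd k * (b : MvPolynomial (Fin k) ℤ)) =
        vd k * (vd k * ((b ^ 2 : Sy ℤ k) : MvPolynomial (Fin k) ℤ)) := by
      rw [SubmonoidClass.coe_pow]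
      ring
    rw [h2]
    exact Ideal.mul_mem_left _ _ h1
  · rw [Polynomial.map_sub, Polynomial.map_pow, Polynomial.map_X, Polynomial.map_C]
    refine Polynomial.separable_X_pow_sub_C _ ?_ ?_
    · exact_mod_cast hn.ne'
    · rw [eq_intCast, Int.cast_natCast]
      exact_mod_cast hq.ne'

end HMx
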