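import Pool.Agent.Lib.MP_181146_gt.HM.SpecF

/-! # Project HM: Fla, fields of characteristic `0` are flat over finite free reduced `ℤ`-algebras -/

set_option autoImplicit false

namespace HMx

open MvPolynomial

theorem pFla : S_Fla := by
  intro F _ _ _ _ L _ _ _
  let M : Submonoid F := Algebra.algebraMapSubmonoid F (nonZeroDivisors ℤ)
  have hu : ∀ y : M, IsUnit (algebraMap F L y) := by
    rintro ⟨_, n, hn, rfl⟩
    rw [isUnit_iff_ne_zero]
    have h1 : algebraMap F L (algebraMap ℤ F n) = (n : L) := by simp
    change algebraMap F L (algebraMap ℤ F n) ≠ 0
    rw [h1]
    exact Int.cast_ne_zero.2 (nonZeroDivisors.ne_zero hn)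
  let _ : Algebra (Localization M) L := (IsLocalization.lift hu).toAlgebra
  have : IsScalarTower F (Localization M) L :=
    IsScalarTower.of_algebraMap_eq' (IsLocalization.lift_comp hu).symm
  have : IsReduced (Localization M) := inferInstance
  have : Module.Finite (FractionRing ℤ) (Localization M) := inferInstance
  have : IsArtinianRing (Localization M) := IsArtinianRing.of_finite (FractionRing ℤ) _
  have : IsSemisimpleRing (Localization M) := IsArtinianRing.isSemisimpleRing_of_isReduced _
  have : Module.Flat F (Localization M) := IsLocalization.flat _ M
  have : Module.Projective (Localization M) L := Module.projective_of_isSemisimpleRing _ _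
  have : Module.Flat (Localization M) L := inferInstance
  exact Module.Flat.trans F (Localization M) L

end HMx
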