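import Pool.Agent.Lib.MP_181146_gt.HM.SpecF

set_option autoImplicit false

namespace HMx

open MvPolynomial

private theorem Frb_rename_vd (k : ℕ) (σ : Equiv.Perm (Fin k)) :
    rename σ (vd k) = ((Equiv.Perm.sign σ : ℤˣ) : ℤ) * vd k := by
  unfold vd
  rw [AlgHom.map_det]
  have h : (rename σ : MvPolynomial (Fin k) ℤ →ₐ[ℤ] _).mapMatrix
      (Matrix.vandermonde (fun a : Fin k => (X a : MvPolynomial (Fin k) ℤ))) =
      (Matrix.vandermonde (fun a : Fin k => (X a : MvPolynomial (Fin k) ℤ))).submatrix σ id := by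
    ext1 i j
    change rename σ ((X i : MvPolynomial (Fin k) ℤ) ^ (j : ℕ)) = (X (σ i)) ^ (j : ℕ)
    rw [map_pow, rename_X]
  rw [h, Matrix.det_permute]

/-- Strictly increasing maps followed by permutations. -/
private def Frb_e (k m : ℕ) (p : (Fin k ↪o Fin m) × Equiv.Perm (Fin k)) : Fin k → Fin m :=
  fun a => p.1 (p.2 a)

private theorem Frb_inj (k m : ℕ) : Function.Injective (Frb_e k m) := by
  rintro ⟨S, σ⟩ ⟨S', σ'⟩ h
  have h1 : ∀ a, S (σ a) = S' (σ' a) := fun a => congrFun h a
  have h2 : Set.range S = Set.range S' := by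
    ext x
    constructor
    · rintro ⟨a, rfl⟩
      refine ⟨σ' (σ.symm a), ?_⟩
      rw [← h1, Equiv.apply_symm_apply]
    · rintro ⟨a, rfl⟩
      refine ⟨σ (σ'.symm a), ?_⟩
      rw [h1, Equiv.apply_symm_apply]
  have h3 : S = S' := OrderEmbedding.range_inj.mp h2
  subst h3
  have h4 : σ = σ' := Equiv.ext fun a => S.injective (h1 a)
  rw [h4]

private theorem Frb_surj (k m : ℕ) (s : Fin k → Fin m) (hs : Function.Injective s) :
    ∃ p, Frb_e k m p = s := by
  have hm : Monotone (s ∘ Tuple.sort s) := Tuple.monotone_sort s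
  have hs1 : StrictMono (s ∘ Tuple.sort s) :=
    hm.strictMono_of_injective (hs.comp (Tuple.sort s).injective)
  refine ⟨(OrderEmbedding.ofStrictMono _ hs1, (Tuple.sort s).symm), ?_⟩
  funext a
  change s (Tuple.sort s ((Tuple.sort s).symm a)) = _
  rw [Equiv.apply_symm_apply]

/-- The sum of an alternating function against any function. -/
private theorem Frb_sum {R : Type} [CommRing R] (k m : ℕ) (c g : (Fin k → Fin m) → R)
    (h0 : ∀ s, ¬ Function.Injective s → c s = 0)
    (h1 : ∀ (s : Fin k → Fin m) (σ : Equiv.Perm (Fin k)),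
      c (fun a => s (σ a)) = ((Equiv.Perm.sign σ : ℤˣ) : ℤ) * c s) :
    ∑ s, c s * g s = ∑ S : Fin k ↪o Fin m, c S *
      ∑ σ : Equiv.Perm (Fin k), ((Equiv.Perm.sign σ : ℤˣ) : ℤ) * g (fun a => S (σ a)) := by
  classical
  have e1 : ∑ p : (Fin k ↪o Fin m) × Equiv.Perm (Fin k), c (Frb_e k m p) * g (Frb_e k m p) =
      ∑ s, c s * g s := by
    refine Finset.sum_of_injOn (Frb_e k m) (Frb_inj k m).injOn (fun _ _ => Finset.mem_coe.mpr (Finset.mem_univ _))
      (fun s _ hs => ?_) (fun _ _ => rfl)
    by_cases hi : Function.Injective s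
    · obtain ⟨p, hp⟩ := Frb_surj k m s hi
      exact absurd ⟨p, Finset.mem_coe.mpr (Finset.mem_univ _), hp⟩ hs
    · rw [h0 s hi, zero_mul]
  rw [← e1, Fintype.sum_prod_type]
  refine Finset.sum_congr rfl (fun S _ => ?_)
  rw [Finset.mul_sum]
  refine Finset.sum_congr rfl (fun σ _ => ?_)
  change c (fun a => S (σ a)) * g (fun a => S (σ a)) = _
  rw [h1 S σ]
  ring

theorem pFrb (hAlB : S_AlB) (hGg : S_Gg) (hPrf : S_Prf) : S_Frb := by
  classical
  intro f m k hf hm
  obtain ⟨-, p2, p3, -, p5, -⟩ := hPrf f m k hf hm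
  obtain ⟨g1, -, -, -, -⟩ := hGg ℤ k
  constructor
  · intro u hu hK
    -- the coefficients
    let c0 : (Fin k → Fin m) → ℤ := fun s => u.v (∏ a, X a ^ (s a).val)
    have c1 : ∀ s, ¬ Function.Injective s → c0 s = 0 := by
      intro s hs
      have h1 : ∃ a b, s a = s b ∧ a ≠ b := by
        by_contra hcon
        refine hs (fun a b hab => ?_)
        by_contra hne
        exact hcon ⟨a, b, hab, hne⟩
      obtain ⟨a, b, hab, hne⟩ := h1
      refine hu a b hne _ ?_
      rw [map_prod]
      simp only [map_pow, rename_X]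
      refine Fintype.prod_equiv (Equiv.swap a b) _ _ (fun j => ?_)
      have h2 : s (Equiv.swap a b j) = s j := by
        rcases eq_or_ne j a with rfl | hja
        · rw [Equiv.swap_apply_left]
          exact hab.symm
        · rcases eq_or_ne j b with rfl | hjb
          · rw [Equiv.swap_apply_right]
            exact hab
          · rw [Equiv.swap_apply_of_ne_of_ne hja hjb]
      rw [h2]
    have c2 : ∀ (s : Fin k → Fin m) (σ : Equiv.Perm (Fin k)),
        c0 (fun a => s (σ a)) = ((Equiv.Perm.sign σ : ℤˣ) : ℤ) * c0 s := by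
      intro s σ
      have h1 := (hAlB ℤ ℤ k u hu).2 σ⁻¹ (∏ a, X a ^ (s a).val)
      have h2 : rename (σ⁻¹ : Equiv.Perm (Fin k)) (∏ a, (X a : MvPolynomial (Fin k) ℤ) ^ (s a).val) =
          ∏ a, X a ^ (s (σ a)).val := by
        rw [map_prod]
        simp only [map_pow, rename_X]
        refine Fintype.prod_equiv (σ⁻¹ : Equiv.Perm (Fin k)) _ _ (fun j => ?_)
        have h3 : σ ((σ⁻¹ : Equiv.Perm (Fin k)) j) = j := Equiv.apply_symm_apply σ j
        rw [h3]
      rw [h2, Equiv.Perm.sign_inv, smul_eq_mul] at h1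
      exact h1
    -- the determinants
    let A : (Fin k ↪o Fin m) → Matrix (Fin k) (Fin k) (Sy ℤ k) := fun S =>
      Matrix.of fun b l => ⟨lc k (cc f m (S b)) l.val, lc_sym k _ _⟩
    have hdet : ∀ S : Fin k ↪o Fin m, ∑ σ : Equiv.Perm (Fin k),
        (((Equiv.Perm.sign σ : ℤˣ) : ℤ) : MvPolynomial (Fin k) ℤ) *
          ∏ a, xe a (cc f m (S (σ a))) = vd k * (((A S).det : Sy ℤ k) : MvPolynomial (Fin k) ℤ) := by
      intro S
      have h1 : ((A S).det : MvPolynomial (Fin k) ℤ) =
          (Matrix.of fun b l : Fin k => lc k (cc f m (S b)) l.val).det := by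
        change (Sy ℤ k).val (A S).det = _
        rw [AlgHom.map_det]
        rfl
      have h2 : (Matrix.of fun b a : Fin k => xe a (cc f m (S b))) =
          (Matrix.of fun b l : Fin k => lc k (cc f m (S b)) l.val) *
            (Matrix.vandermonde (fun a : Fin k => (X a : MvPolynomial (Fin k) ℤ))).transpose := by
        ext1 b a
        rw [Matrix.mul_apply]
        change xe a (cc f m (S b)) = ∑ l : Fin k, lc k (cc f m (S b)) l.val * X a ^ l.val
        rw [g1, Finset.sum_range]
      have h3 := congrArg Matrix.det h2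
      rw [Matrix.det_mul, Matrix.det_transpose, ← h1, Matrix.det_apply] at h3
      rw [mul_comm, vd, ← h3]
      refine Finset.sum_congr rfl (fun σ _ => ?_)
      rw [Units.smul_def, zsmul_eq_mul]
      rfl
    refine ⟨∑ S : Fin k ↪o Fin m, C (c0 S) * (((A S).det : Sy ℤ k) : MvPolynomial (Fin k) ℤ), ?_, ?_⟩
    · refine Subalgebra.sum_mem _ (fun S _ => Subalgebra.mul_mem _ ?_ (A S).det.2)
      exact Subalgebra.algebraMap_mem (Sy ℤ k) (c0 S)
    · intro P
      rw [p5 u hK P]
      congr 2
      have h4 := Frb_sum (R := MvPolynomial (Fin k) ℤ) k m (fun s => C (c0 s))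
        (fun s => ∏ a, xe a (cc f m (s a)))
        (fun s hs => by
          change C (c0 s) = 0
          rw [c1 s hs, map_zero])
        (fun s σ => by
          change C (c0 (fun a => s (σ a))) = _ * C (c0 s)
          rw [c2 s σ, map_mul]
          congr 1)
      refine h4.trans ?_
      rw [Finset.mul_sum]
      refine Finset.sum_congr rfl (fun S _ => ?_)
      change C (c0 S) * (∑ σ : Equiv.Perm (Fin k),
        (((Equiv.Perm.sign σ : ℤˣ) : ℤ) : MvPolynomial (Fin k) ℤ) *
          ∏ a, xe a (cc f m (S (σ a)))) = _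
      rw [hdet S]
      ring
  · intro b hb
    constructor
    · intro a a' haa p hp
      change (tk f m k).v (vd k * b * p) = 0
      have h1 := p2 (Equiv.swap a a') (vd k * b * p)
      have h2 : rename (Equiv.swap a a') (vd k * b * p) = -(vd k * b * p) := by
        rw [map_mul, map_mul, Frb_rename_vd, hp, (mem_symmetricSubalgebra b).mp hb,
          Equiv.Perm.sign_swap haa]
        push_cast
        ring
      rw [h2, map_neg] at h1
      omega
    · intro a p
      change (tk f m k).v (vd k * b * (xe a f * p)) = 0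
      refine p3 _ ?_
      rw [mul_left_comm]
      exact Ideal.mul_mem_right _ _ (Ideal.subset_span ⟨a, rfl⟩)

end HMx
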