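import Pool.Agent.Lib.MP_181146_gt.HM.SpecM

/-!
# Project HM, module GdA: subtracting a multiple of `f₁` from `φ`
-/

set_option autoImplicit false

noncomputable section

namespace HMx

open MvPolynomial

private theorem GdA_coeff {L : Type} [CommRing L] (m : ℕ) (φ f₁ : Polynomial L) (i : ℕ) :
    (φ - Polynomial.C (φ.coeff m) * f₁).coeff i = φ.coeff i - φ.coeff m * f₁.coeff i := by
  rw [Polynomial.coeff_sub, Polynomial.coeff_C_mul]

theorem pGdA (hSoL : S_SoL) (hNlI : S_NlI) : S_GdA := by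
  intro L W _ _ _ m φ f₁ h hm hd
  obtain ⟨h1, h2, h3⟩ := h
  refine ⟨?_, ?_, ?_⟩
  · intro i hi
    rw [GdA_coeff]
    rcases Nat.eq_or_lt_of_le hi with h | hlt
    · have h4 : f₁.coeff i = 1 := by
        rw [← h, ← hd]
        exact hm.coeff_natDegree
      rw [h4, mul_one, h, sub_self]
    · have h4 : f₁.coeff i = 0 := Polynomial.coeff_eq_zero_of_natDegree_lt (by omega)
      rw [h1 i hlt, h4, mul_zero, sub_zero]
  · have h4 := hSoL L W (m + 1) m φ.coeff (fun j _ => -f₁.coeff j) (Nat.le_succ m) h2 h3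
    have e : (fun j => φ.coeff j + ∑ i ∈ Finset.Ico m (m + 1), -f₁.coeff j * φ.coeff i) =
        (φ - Polynomial.C (φ.coeff m) * f₁).coeff := by
      funext j
      rw [GdA_coeff, Nat.Ico_succ_singleton, Finset.sum_singleton]
      ring
    rw [← e]
    exact h4
  · intro i hi
    rw [GdA_coeff]
    have h4 := (hNlI L W (φ.coeff m) 0 (-f₁.coeff i) (h3 m (Nat.lt_succ_self m))).1
    have h5 := (hNlI L W (φ.coeff i) (-f₁.coeff i * φ.coeff m) 0 (h3 i (by omega))).2 h4
    have e : φ.coeff i - φ.coeff m * f₁.coeff i = φ.coeff i + -f₁.coeff i * φ.coeff m := by ring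
    rw [e]
    exact h5

end HMx
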