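import Pool.Agent.Lib.MP_181146_gt.HM.SpecM

/-!
# Project HM, module GdB: the kernel of `φ(t)` and division by `X - t`
-/

set_option autoImplicit false

namespace HMx

open MvPolynomial

section

variable {L : Type} [CommRing L] (φ : Polynomial L) (t : L)

private theorem GdB_div : Polynomial.C (φ.eval t) +
    (Polynomial.X - Polynomial.C t) * (φ /ₘ (Polynomial.X - Polynomial.C t)) = φ := by
  rw [← Polynomial.modByMonic_X_sub_C_eq_C_eval]
  exact Polynomial.modByMonic_add_div φ (Polynomial.X - Polynomial.C t)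

private theorem GdB_y0 : φ.coeff 0 =
    φ.eval t - t * (φ /ₘ (Polynomial.X - Polynomial.C t)).coeff 0 := by
  have h := congrArg (fun p : Polynomial L => p.coeff 0) (GdB_div φ t)
  simp only [Polynomial.coeff_add, Polynomial.coeff_C_zero, sub_mul, Polynomial.coeff_sub,
    Polynomial.coeff_C_mul, Polynomial.coeff_X_mul_zero] at h
  linear_combination -h

private theorem GdB_ys (i : ℕ) : φ.coeff (i + 1) =
    (φ /ₘ (Polynomial.X - Polynomial.C t)).coeff i -
      t * (φ /ₘ (Polynomial.X - Polynomial.C t)).coeff (i + 1) := by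
  have h := congrArg (fun p : Polynomial L => p.coeff (i + 1)) (GdB_div φ t)
  simp only [Polynomial.coeff_add, Polynomial.coeff_C_succ, sub_mul, Polynomial.coeff_sub,
    Polynomial.coeff_C_mul, Polynomial.coeff_X_mul] at h
  linear_combination -h

private theorem GdB_z0 (m : ℕ) (h : ∀ i, m + 1 ≤ i → φ.coeff i = 0) (i : ℕ) (hi : m ≤ i) :
    (φ /ₘ (Polynomial.X - Polynomial.C t)).coeff i = 0 := by
  rw [Polynomial.coeff_divByMonic_X_sub_C]
  refine Finset.sum_eq_zero (fun j hj => ?_)
  have h1 := (Finset.mem_Icc.mp hj).1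
  rw [h j (by omega), mul_zero]

private theorem GdB_s (m : ℕ) (h : ∀ i, m + 1 ≤ i → φ.coeff i = 0) :
    φ.eval t = ∑ i ∈ Finset.range (m + 1), φ.coeff i * t ^ i :=
  Polynomial.eval_eq_sum_range' (Nat.lt_succ_of_le
    (Polynomial.natDegree_le_iff_coeff_eq_zero.mpr (fun i hi => h i hi))) t

end

private theorem GdB_tel {L W : Type} [CommRing L] [AddCommGroup W] [Module L W] (t : L)
    (e c' : ℕ → W) (h0 : c' 0 = -(t • e 0)) (hs : ∀ i, c' (i + 1) = e i - t • e (i + 1)) (n : ℕ) :
    ∑ i ∈ Finset.range (n + 1), t ^ i • c' i = -(t ^ (n + 1) • e n) := by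
  induction n with
  | zero =>
    rw [Finset.sum_range_succ, Finset.sum_range_zero, h0]
    module
  | succ n ih =>
    rw [Finset.sum_range_succ, ih, hs]
    module

private theorem GdB_sur (hSoL : S_SoL) (L W : Type) [CommRing L] [AddCommGroup W] [Module L W]
    (m : ℕ) (φ : Polynomial L) (h : Good L W (m + 1) φ) (t : L) (w : W) :
    ∃ w' : W, φ.eval t • w' = w := by
  obtain ⟨h1, h2, h3⟩ := h
  obtain ⟨w', hw'⟩ := hSoL L W (m + 1) 1 φ.coeff (fun _ i => t ^ i) (by omega) h2 h3
    (fun _ => w) (by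
      intro i hi j hj
      have hi0 : i = 0 := by
        have := Finset.mem_range.mp hi
        omega
      have hj0 : j = 0 := by
        have := Finset.mem_range.mp hj
        omega
      rw [hi0, hj0])
  refine ⟨w', ?_⟩
  have h4 := hw' 0 (by simp)
  rw [GdB_s φ t m h1, Finset.sum_range_eq_add_Ico _ (by omega), pow_zero, mul_one]
  refine Eq.trans ?_ h4
  congr 2
  exact Finset.sum_congr rfl (fun i _ => mul_comm _ _)

private theorem GdB_sol (L W : Type) [CommRing L] [AddCommGroup W] [Module L W]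
    (m : ℕ) (φ : Polynomial L) (h1 : ∀ i, m + 1 ≤ i → φ.coeff i = 0)
    (h2 : Sol L W (Finset.range (m + 1)) φ.coeff) (t : L) :
    Sol L (Submodule.torsionBy L W (φ.eval t)) (Finset.range m)
      (φ /ₘ (Polynomial.X - Polynomial.C t)).coeff := by
  intro c hc
  obtain ⟨s, hs⟩ : ∃ s, s = φ.eval t := ⟨_, rfl⟩
  obtain ⟨z, hz⟩ : ∃ z : ℕ → L, z = (φ /ₘ (Polynomial.X - Polynomial.C t)).coeff := ⟨_, rfl⟩
  have y0 : φ.coeff 0 = s - t * z 0 := by rw [hs, hz]; exact GdB_y0 φ t
  have ys : ∀ i, φ.coeff (i + 1) = z i - t * z (i + 1) := by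
    intro i
    rw [hz]
    exact GdB_ys φ t i
  have z0 : ∀ i, m ≤ i → z i = 0 := by
    intro i hi
    rw [hz]
    exact GdB_z0 φ t m h1 i hi
  rw [← hz]
  let e : ℕ → W := fun i => if i < m then (c i : W) else 0
  have e1 : ∀ i, i < m → e i = c i := fun i hi => if_pos hi
  have e2 : ∀ i, m ≤ i → e i = 0 := fun i hi => if_neg (by omega)
  have F1 : ∀ i, s • e i = 0 := by
    intro i
    by_cases hi : i < m
    · rw [e1 i hi, hs]
      exact (Submodule.mem_torsionBy_iff _ _).mp (c i).2
    · rw [e2 i (by omega), smul_zero]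
  have F2 : ∀ i j, z i • e j = z j • e i := by
    intro i j
    by_cases hi : i < m
    · by_cases hj : j < m
      · rw [e1 i hi, e1 j hj, hz]
        exact congrArg Subtype.val (hc i (Finset.mem_range.mpr hi) j (Finset.mem_range.mpr hj))
      · rw [e2 j (by omega), z0 j (by omega), smul_zero, zero_smul]
    · rw [e2 i (by omega), z0 i (by omega), smul_zero, zero_smul]
  obtain ⟨c', k0, ks⟩ : ∃ c' : ℕ → W, c' 0 = -(t • e 0) ∧ ∀ i, c' (i + 1) = e i - t • e (i + 1) :=
    ⟨fun i => Nat.casesOn i (-(t • e 0)) (fun j => e j - t • e (j + 1)), rfl, fun i => rfl⟩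
  have G0 : ∀ j, φ.coeff 0 • c' (j + 1) = φ.coeff (j + 1) • c' 0 := by
    intro j
    rw [y0, ys, k0, ks]
    linear_combination (norm := module) F1 j - t • F1 (j + 1) - t • F2 0 j +
      (t * t) • F2 0 (j + 1)
  have G : ∀ i ∈ Finset.range (m + 1), ∀ j ∈ Finset.range (m + 1),
      φ.coeff i • c' j = φ.coeff j • c' i := by
    intro i _ j _
    rcases i with _ | i
    · rcases j with _ | j
      · rfl
      · exact G0 j
    · rcases j with _ | j
      · exact (G0 i).symm
      · rw [ys, ys, ks, ks]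
        linear_combination (norm := module) F2 i j - t • F2 i (j + 1) -
          t • F2 (i + 1) j + (t * t) • F2 (i + 1) (j + 1)
  obtain ⟨w, hw⟩ := h2 c' G
  have hsw : s • w = 0 := by
    rw [hs, GdB_s φ t m h1, Finset.sum_smul]
    have k1 : ∀ i ∈ Finset.range (m + 1), (φ.coeff i * t ^ i) • w = t ^ i • c' i := by
      intro i hi
      rw [mul_comm, mul_smul, hw i hi]
    rw [Finset.sum_congr rfl k1, GdB_tel t e c' k0 ks, e2 m le_rfl, smul_zero, neg_zero]
  have hzw : ∀ d i, i + d = m → z i • w = e i := by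
    intro d
    induction d with
    | zero =>
      intro i hi
      rw [z0 i (by omega), e2 i (by omega), zero_smul]
    | succ d ih =>
      intro i hi
      have k1 := ih (i + 1) (by omega)
      have k2 := hw (i + 1) (Finset.mem_range.mpr (by omega))
      rw [ys, ks] at k2
      linear_combination (norm := module) k2 + t • k1
  refine ⟨⟨w, (Submodule.mem_torsionBy_iff _ _).mpr (by rw [← hs]; exact hsw)⟩, ?_⟩
  intro i hi
  have hi' := Finset.mem_range.mp hi
  apply Subtype.ext
  change z i • w = c i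
  rw [hzw (m - i) i (by omega), e1 i hi']

private theorem GdB_nl (hNlI : S_NlI) (L W : Type) [CommRing L] [AddCommGroup W] [Module L W]
    (m : ℕ) (φ : Polynomial L) (h1 : ∀ i, m + 1 ≤ i → φ.coeff i = 0)
    (h3 : ∀ i < m + 1, Nl L W (φ.coeff i)) (t : L) :
    ∀ d i, i + d = m → Nl L W ((φ /ₘ (Polynomial.X - Polynomial.C t)).coeff i) := by
  intro d
  induction d with
  | zero =>
    intro i hi w
    refine ⟨1, ?_⟩
    rw [GdB_z0 φ t m h1 i (by omega), pow_one, zero_smul]
  | succ d ih =>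
    intro i hi
    have k1 := ih (i + 1) (by omega)
    have k2 := h3 (i + 1) (by omega)
    have k3 := (hNlI L W _ 0 t k1).1
    have k4 := (hNlI L W _ _ 0 k2).2 k3
    have k5 : φ.coeff (i + 1) + t * (φ /ₘ (Polynomial.X - Polynomial.C t)).coeff (i + 1) =
        (φ /ₘ (Polynomial.X - Polynomial.C t)).coeff i := by
      rw [GdB_ys φ t i]
      ring
    rw [k5] at k4
    exact k4

/-- **GdB.** The kernel of `φ(t)` and division by `X - t`. -/
theorem pGdB (hSoL : S_SoL) (hNlI : S_NlI) : S_GdB := by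
  intro L W _ _ _ m φ h t
  refine ⟨GdB_sur hSoL L W m φ h t, ?_⟩
  obtain ⟨h1, h2, h3⟩ := h
  refine ⟨GdB_z0 φ t m h1, GdB_sol L W m φ h1 h2 t, ?_⟩
  intro i hi w
  obtain ⟨n, hn⟩ := GdB_nl hNlI L W m φ h1 h3 t (m - i) i (by omega) (w : W)
  exact ⟨n, Subtype.ext hn⟩

end HMx
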