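import Pool.Agent.Lib.MP_181146_gt.HM.SpecM

/-!
# Project HM: GdC, base change of `Good` to a finite free algebra
-/

set_option autoImplicit false

noncomputable section

namespace HMx

open MvPolynomial TensorProduct

/-- **GdC.** -/
theorem pGdC : S_GdC := by
  intro L W L' _ _ _ _ _ _ _ m φ hG
  obtain ⟨h0, hS, hN⟩ := hG
  let b := Module.Free.chooseBasis L L'
  let e : L' ⊗[L] W ≃ₗ[L] (Module.Free.ChooseBasisIndex L L' →₀ W) :=
    TensorProduct.equivFinsuppOfBasisLeft b
  have hc : ∀ i, (φ.map (algebraMap L L')).coeff i = algebraMap L L' (φ.coeff i) := fun i =>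
    Polynomial.coeff_map _ _
  have ha : ∀ (y : L) (t : L' ⊗[L] W), algebraMap L L' y • t = y • t := fun y t =>
    algebraMap_smul L' y t
  refine ⟨fun i hi => by rw [hc, h0 i hi, map_zero], ?_, ?_⟩
  · intro c hcc
    have h1 : ∀ κ : Module.Free.ChooseBasisIndex L L', ∃ w : W, ∀ i ∈ Finset.range m,
        φ.coeff i • w = e (c i) κ := by
      intro κ
      refine hS (fun j => e (c j) κ) (fun i hi j hj => ?_)
      have h2 := hcc i hi j hj
      rw [hc, hc, ha, ha] at h2
      have h3 := congrArg (fun t => e t κ) h2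
      simp only [map_smul, Finsupp.smul_apply] at h3
      exact h3
    choose w hw using h1
    refine ⟨e.symm (Finsupp.equivFunOnFinite.symm w), fun i hi => ?_⟩
    rw [hc, ha]
    apply e.injective
    rw [map_smul, LinearEquiv.apply_symm_apply]
    ext κ
    rw [Finsupp.smul_apply, Finsupp.equivFunOnFinite_symm_apply_apply]
    exact hw κ i hi
  · intro i hi w
    rw [hc]
    have h1 : ∀ κ : Module.Free.ChooseBasisIndex L L', ∃ n : ℕ, φ.coeff i ^ n • e w κ = 0 :=
      fun κ => hN i hi (e w κ)
    choose n hn using h1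
    refine ⟨∑ κ, n κ, ?_⟩
    rw [← map_pow, ha]
    apply e.injective
    rw [map_smul, map_zero]
    ext κ
    rw [Finsupp.smul_apply, Finsupp.zero_apply]
    obtain ⟨d, hd⟩ := Nat.exists_eq_add_of_le
      (Finset.single_le_sum (f := n) (fun _ _ => Nat.zero_le _) (Finset.mem_univ κ))
    rw [hd, add_comm, pow_add, mul_smul, hn κ, smul_zero]

end HMx
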