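import Pool.Agent.Lib.MP_181146_gt.HM.SpecM

/-!
# Project HM, module Gg: division by `gg`
-/

set_option autoImplicit false

namespace HMx

open MvPolynomial

private theorem Gg_monic (L : Type) [CommRing L] (k : ℕ) : (gg L k).Monic :=
  Polynomial.monic_prod_of_monic _ _ (fun _ _ => Polynomial.monic_X_sub_C _)

private theorem Gg_nat (L : Type) [CommRing L] [Nontrivial L] (k : ℕ) : (gg L k).natDegree = k := by
  rw [gg, Polynomial.natDegree_prod_of_monic _ _ (fun _ _ => Polynomial.monic_X_sub_C _)]
  simp

private theorem Gg_deg (L : Type) [CommRing L] [Nontrivial L] (k : ℕ) : (gg L k).degree = k := by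
  rw [Polynomial.degree_eq_natDegree (Gg_monic L k).ne_zero, Gg_nat]

private theorem Gg_sub (L : Type) [CommRing L] [Subsingleton L] (k : ℕ)
    (p q : MvPolynomial (Fin k) L) : p = q :=
  MvPolynomial.ext _ _ fun _ => Subsingleton.elim _ _

private theorem Gg_eval (L : Type) [CommRing L] (k : ℕ) (p : Polynomial L) (a : Fin k) :
    (p.map (C : L →+* MvPolynomial (Fin k) L)).eval (X a) = xe a p := by
  rw [Polynomial.eval_map, xe, Polynomial.aeval_def, MvPolynomial.algebraMap_eq]

theorem pGg : S_Gg := by
  intro L _ k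
  have hm := Gg_monic L k
  rcases subsingleton_or_nontrivial L with hL | hL
  · refine ⟨fun p a => Gg_sub L k _ _, fun p j _ => Gg_sub L k _ _, fun p q j => Gg_sub L k _ _,
      fun c p j => Gg_sub L k _ _, fun i j _ => Gg_sub L k _ _⟩
  refine ⟨fun p a => ?_, fun p j hj => ?_, fun p q j => ?_, fun c p j => ?_, fun i j hi => ?_⟩
  · have hk : 0 < k := lt_of_le_of_lt (Nat.zero_le _) a.2
    have h1 : gg L k ≠ 1 := by
      intro h
      have h2 := Gg_nat L k
      rw [h, Polynomial.natDegree_one] at h2
      omega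
    have h2 := Polynomial.natDegree_modByMonic_lt (p.map (C : L →+* MvPolynomial (Fin k) L)) hm h1
    rw [Gg_nat] at h2
    have h3 : (gg L k).eval (X a) = 0 := by
      rw [gg, Polynomial.eval_prod]
      refine Finset.prod_eq_zero (Finset.mem_univ a) ?_
      rw [Polynomial.eval_sub, Polynomial.eval_X, Polynomial.eval_C, sub_self]
    have h4 := congrArg (Polynomial.eval (X a))
      (Polynomial.modByMonic_add_div (p.map (C : L →+* MvPolynomial (Fin k) L)) (gg L k))
    rw [Polynomial.eval_add, Polynomial.eval_mul, h3, zero_mul, add_zero,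
      Polynomial.eval_eq_sum_range' h2, Gg_eval] at h4
    exact h4.symm
  · refine Polynomial.coeff_eq_zero_of_degree_lt (lt_of_lt_of_le
      (Polynomial.degree_modByMonic_lt _ hm) ?_)
    rw [Gg_deg]
    exact_mod_cast hj
  · rw [lc, Polynomial.map_add, Polynomial.add_modByMonic, Polynomial.coeff_add]
    rfl
  · rw [lc, Polynomial.map_mul, Polynomial.map_C, Polynomial.C_mul', Polynomial.smul_modByMonic,
      Polynomial.coeff_smul, smul_eq_mul]
    rfl
  · rw [lc, Polynomial.map_pow, Polynomial.map_X, (Polynomial.modByMonic_eq_self_iff hm).2,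
      Polynomial.coeff_X_pow]
    · simp only [eq_comm]
    · rw [Polynomial.degree_X_pow, Gg_deg]
      exact_mod_cast hi

end HMx
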