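import Pool.Agent.Lib.MP_181146_gt.HM.SpecF

/-!
# Project HM, module InG: the inverse system is cofree
-/

set_option autoImplicit false

noncomputable section

namespace HMx

open MvPolynomial

private theorem InG_ext {m : ℕ} (u w : In m) (h : ∀ β, u.v β = w.v β) : u = w :=
  Finsupp.ext h

private theorem InG_coeff (m j : ℕ) :
    (gen m).coeff j = if h : j < m then (X ⟨j, h⟩ : Lm m) else 0 := by
  rw [gen, Polynomial.finsetSum_coeff]
  simp only [Polynomial.coeff_C_mul, Polynomial.coeff_X_pow]
  split_ifs with h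
  · rw [Finset.sum_eq_single (⟨j, h⟩ : Fin m)]
    · simp only [if_true, mul_one]
    · intro b _ hb
      have h1 : j ≠ b.val := fun h2 => hb (Fin.ext h2.symm)
      rw [if_neg h1, mul_zero]
    · intro h1
      exact absurd (Finset.mem_univ _) h1
  · refine Finset.sum_eq_zero (fun b _ => ?_)
    have h1 : j ≠ b.val := fun h2 => h (h2 ▸ b.isLt)
    rw [if_neg h1, mul_zero]

private theorem InG_coeffX (m : ℕ) (i : Fin m) : (gen m).coeff i.val = (X i : Lm m) := by
  rw [InG_coeff, dif_pos i.isLt]

private theorem InG_sol (m : ℕ) (c : Fin m → In m)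
    (hc : ∀ i j : Fin m, (X i : Lm m) • c j = (X j : Lm m) • c i) :
    ∃ w : In m, ∀ i : Fin m, (X i : Lm m) • w = c i := by
  classical
  let W : (Fin m → ℕ) → ℤ := fun β =>
    if h : ∃ i, 0 < β i then (c h.choose).v (β - Pi.single h.choose 1) else 0
  have hsub : ∀ (β : Fin m → ℕ) (i : Fin m), 0 < β i →
      β - Pi.single i 1 + Pi.single i 1 = β := by
    intro β i h
    funext j
    rw [Pi.add_apply, Pi.sub_apply]
    by_cases hj : j = i
    · subst hj
      rw [Pi.single_eq_same]
      omega
    · rw [Pi.single_eq_of_ne hj]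
      omega
  have hval : ∀ (β : Fin m → ℕ) (j : Fin m), W (β + Pi.single j 1) = (c j).v β := by
    intro β j
    have hex : ∃ i, 0 < (β + Pi.single j 1 : Fin m → ℕ) i := ⟨j, by
      rw [Pi.add_apply, Pi.single_eq_same]
      omega⟩
    have h1 : W (β + Pi.single j 1) =
        (c hex.choose).v (β + Pi.single j 1 - Pi.single hex.choose 1) := dif_pos hex
    rw [h1]
    have h2 := hex.choose_spec
    generalize hex.choose = i at h2 ⊢
    by_cases hij : i = j
    · subst hij
      congr 1
      funext l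
      rw [Pi.sub_apply, Pi.add_apply]
      omega
    · have h3 : 0 < β i := by
        rw [Pi.add_apply, Pi.single_eq_of_ne hij] at h2
        omega
      have h4 : β + Pi.single j 1 - Pi.single i 1 = (β - Pi.single i 1) + Pi.single j 1 := by
        funext l
        rw [Pi.sub_apply, Pi.add_apply, Pi.add_apply, Pi.sub_apply]
        by_cases hl : l = i
        · subst hl
          rw [Pi.single_eq_same, Pi.single_eq_of_ne hij]
          omega
        · rw [Pi.single_eq_of_ne hl]
          omega
      have h5 := congrArg (fun u : In m => u.v (β - Pi.single i 1)) (hc i j)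
      change ((X i : Lm m) • c j).v (β - Pi.single i 1) =
        ((X j : Lm m) • c i).v (β - Pi.single i 1) at h5
      rw [In.X_v, In.X_v, hsub β i h3] at h5
      rw [h4, ← h5]
  have hfin : (Function.support W).Finite := by
    refine (Set.Finite.subset (s := ⋃ i : Fin m, (fun γ : Fin m → ℕ => γ + Pi.single i 1) ''
      ((show (Fin m → ℕ) →₀ ℤ from c i).support : Set (Fin m → ℕ)))
      (Set.finite_iUnion fun i => (Finset.finite_toSet _).image _) ?_)
    intro β hβ
    rw [Function.mem_support] at hβ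
    by_cases hex : ∃ i, 0 < β i
    · have h1 : W β = (c hex.choose).v (β - Pi.single hex.choose 1) := dif_pos hex
      rw [h1] at hβ
      have h2 := hex.choose_spec
      refine Set.mem_iUnion.mpr ⟨hex.choose, ⟨β - Pi.single hex.choose 1, ?_, hsub β _ h2⟩⟩
      exact Finset.mem_coe.mpr (Finsupp.mem_support_iff.mpr hβ)
    · exact absurd (dif_neg hex) hβ
  let w0 : In m := (show In m from (Finsupp.ofSupportFinite W hfin : (Fin m → ℕ) →₀ ℤ))
  refine ⟨w0, fun i => InG_ext _ _ fun β => ?_⟩
  exact (In.X_v i w0 β).trans (hval β i)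

private theorem InG_nl (m : ℕ) (i : Fin m) (w : In m) : ∃ n : ℕ, (X i : Lm m) ^ n • w = 0 := by
  refine ⟨(show (Fin m → ℕ) →₀ ℤ from w).support.sup (fun β => β i) + 1, InG_ext _ _ fun β => ?_⟩
  rw [X_pow_eq_monomial, In.smul_v, one_mul]
  change (show (Fin m → ℕ) →₀ ℤ from w) _ = 0
  by_contra h
  have h1 : (β + ⇑(Finsupp.single i ((show (Fin m → ℕ) →₀ ℤ from w).support.sup
      (fun β => β i) + 1)) : Fin m → ℕ) ∈ (show (Fin m → ℕ) →₀ ℤ from w).support :=
    Finsupp.mem_support_iff.mpr h
  have h2 := Finset.le_sup (f := fun β : Fin m → ℕ => β i) h1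
  have h3 : (β + ⇑(Finsupp.single i ((show (Fin m → ℕ) →₀ ℤ from w).support.sup
      (fun β => β i) + 1)) : Fin m → ℕ) i = β i + ((show (Fin m → ℕ) →₀ ℤ from w).support.sup
      (fun β => β i) + 1) := by
    rw [Pi.add_apply, Finsupp.single_eq_same]
  change (β + ⇑(Finsupp.single i ((show (Fin m → ℕ) →₀ ℤ from w).support.sup
      (fun β => β i) + 1)) : Fin m → ℕ) i ≤ _ at h2
  rw [h3] at h2
  omega

theorem pInG : S_InG := by
  intro m
  refine ⟨fun i hi => ?_, fun c hc => ?_, fun i hi w => ?_⟩
  · rw [InG_coeff, dif_neg (by omega)]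
  · obtain ⟨w, hw⟩ := InG_sol m (fun i => c i.val) (fun i j => by
      have h1 := hc i.val (Finset.mem_range.mpr i.isLt) j.val (Finset.mem_range.mpr j.isLt)
      rw [InG_coeffX, InG_coeffX] at h1
      exact h1)
    refine ⟨w, fun i hi => ?_⟩
    have h1 := hw ⟨i, Finset.mem_range.mp hi⟩
    rw [← h1, InG_coeff, dif_pos (Finset.mem_range.mp hi)]
  · obtain ⟨n, hn⟩ := InG_nl m ⟨i, hi⟩ w
    refine ⟨n, ?_⟩
    rw [InG_coeff, dif_pos hi]
    exact hn

end HMx
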