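import Pool.Agent.Lib.MP_181146_gt.HM.SpecM

/-!
# Project HM, task IoB: elementary properties of contractions
-/

set_option linter.unusedVariables false
set_option autoImplicit false

namespace HMx

open MvPolynomial

section

variable {L : Type} [CommRing L] {W : Type} [AddCommGroup W] [Module L W]

private lemma IoB_ren {k l : ℕ} (g : Fin k → Fin l) (a : Fin k) (q : Polynomial L) :
    rename g (xe a q) = xe (g a) q := by
  unfold xe
  rw [← Polynomial.aeval_algHom_apply, rename_X]

private lemma IoB_v {k : ℕ} (q : Polynomial L) (u : Fu L (k + 1) W) (p : MvPolynomial (Fin k) L) :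
    (io q u).v p = u.v (xe 0 q * rename Fin.succ p) := rfl

private lemma IoB_ext {k : ℕ} {u w : Fu L k W} (h : ∀ p, u.v p = w.v p) : u = w :=
  LinearMap.ext h

private lemma IoB_swap {k : ℕ} (a b : Fin k) :
    (Equiv.swap a.succ b.succ : Fin (k + 1) → Fin (k + 1)) ∘ Fin.succ =
      Fin.succ ∘ (Equiv.swap a b : Fin k → Fin k) := by
  funext i
  change Equiv.swap a.succ b.succ i.succ = (Equiv.swap a b i).succ
  rw [Equiv.swap_apply_def, Equiv.swap_apply_def]
  simp only [Fin.succ_inj]
  split_ifs <;> rfl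

private lemma IoB_swap0 {k : ℕ} (a b : Fin k) : Equiv.swap a.succ b.succ 0 = 0 :=
  Equiv.swap_apply_of_ne_of_ne (Fin.succ_ne_zero a).symm (Fin.succ_ne_zero b).symm

private lemma IoB_1 {k : ℕ} (u : Fu L (k + 1) W) (q : Polynomial L) (hu : Al u) :
    Al (io q u) := by
  intro a b hab p hp
  rw [IoB_v]
  refine hu a.succ b.succ (fun h => hab (Fin.succ_injective _ h)) _ ?_
  rw [map_mul, IoB_ren, IoB_swap0, rename_rename, IoB_swap, ← rename_rename, hp]

private lemma IoB_2 {k : ℕ} (u : Fu L (k + 1) W) (q f : Polynomial L) (hu : Ki f u) :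
    Ki f (io q u) := by
  intro a p
  rw [IoB_v, map_mul (rename Fin.succ), IoB_ren, mul_left_comm]
  exact hu a.succ _

private lemma IoB_vv {k : ℕ} (p q : Polynomial L) (u : Fu L (k + 2) W)
    (r : MvPolynomial (Fin k) L) : (io p (io q u)).v r =
      u.v (xe 0 q * (xe 1 p * rename (Fin.succ ∘ Fin.succ) r)) := by
  rw [IoB_v, IoB_v, map_mul (rename Fin.succ), IoB_ren, rename_rename]
  rfl

private lemma IoB_sw01 {k : ℕ} : (Equiv.swap (0 : Fin (k + 2)) 1 : Fin (k + 2) → Fin (k + 2)) ∘
    (Fin.succ ∘ Fin.succ : Fin k → Fin (k + 2)) = Fin.succ ∘ Fin.succ := by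
  funext i
  refine Equiv.swap_apply_of_ne_of_ne (Fin.succ_ne_zero _) (fun h => ?_)
  have h1 : i.succ = 0 := Fin.succ_injective _ (h.trans (Fin.succ_zero_eq_one).symm)
  exact Fin.succ_ne_zero i h1

private lemma IoB_swr {k : ℕ} (p q : Polynomial L) (r : MvPolynomial (Fin k) L) :
    rename (Equiv.swap (0 : Fin (k + 2)) 1)
      (xe 0 q * (xe 1 p * rename (Fin.succ ∘ Fin.succ) r)) =
      xe 0 p * (xe 1 q * rename (Fin.succ ∘ Fin.succ) r) := by
  rw [map_mul, map_mul, IoB_ren, IoB_ren, Equiv.swap_apply_left, Equiv.swap_apply_right,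
    rename_rename, IoB_sw01]
  ring

end

theorem pIoB (hAlB : S_AlB) : S_IoB := by
  intro L _ W _ _
  refine ⟨fun k u q hu => IoB_1 u q hu, fun k u q f hu => IoB_2 u q f hu,
    fun k u p q hu => ?_, fun k u q hu => ?_, fun k u w q => ⟨?_, ?_, ?_⟩, fun k u q c => ?_,
    fun k u f h hu => ?_, fun k u f h h1 h2 => ?_, fun k u f q hu => ?_⟩
  · refine IoB_ext fun r => ?_
    change (io p (io q u)).v r = -(io q (io p u)).v r
    rw [IoB_vv, IoB_vv, ← IoB_swr p q r]
    have h := (hAlB L W (k + 2) u hu).1 0 1 (by simp)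
      (xe 0 q * (xe 1 p * rename (Fin.succ ∘ Fin.succ) r))
    rw [h, neg_neg]
  · refine IoB_ext fun r => ?_
    rw [IoB_vv]
    exact hu 0 1 (by simp) _ (IoB_swr q q r)
  · exact IoB_ext fun p => rfl
  · exact IoB_ext fun p => rfl
  · exact IoB_ext fun p => rfl
  · refine IoB_ext fun p => ?_
    change u.v (C c * (xe 0 q * rename Fin.succ p)) = u.v (xe 0 q * rename Fin.succ (C c * p))
    rw [map_mul (rename Fin.succ), rename_C, mul_left_comm]
  · intro a p
    have h1 : xe a (f * h) = (xe a f * xe a h : MvPolynomial (Fin k) L) := map_mul _ _ _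
    rw [h1, mul_assoc]
    exact hu a _
  · intro a p
    have h3 : xe a (f + h) = (xe a f + xe a h : MvPolynomial (Fin k) L) := map_add _ _ _
    rw [h3, add_mul, map_add, h1 a p, h2 a p, add_zero]
  · refine IoB_ext fun p => ?_
    change u.v (xe 0 (f * q) * rename Fin.succ p) = 0
    have h1 : xe 0 (f * q) = (xe 0 f * xe 0 q : MvPolynomial (Fin (k + 1)) L) := map_mul _ _ _
    rw [h1, mul_assoc]
    exact hu 0 _

end HMx
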