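import Pool.Agent.Lib.MP_181146_gt.HM.SpecM

/-!
# Project HM, module IoK: contraction with `f₁` preserves the conditions
-/

set_option autoImplicit false

noncomputable section

namespace HMx

open MvPolynomial

theorem pIoK (hGg : S_Gg) (hIoB : S_IoB) (hKiL : S_KiL) (hIoE : S_IoE) (hLcT : S_LcT) : S_IoK := by
  intro L _ W _ _ k u t f₁ hA hK
  have hAv : Al (io f₁ u) := (hIoB L W).1 k u f₁ hA
  have hE := (hIoE L W k u t f₁ hK).2
  have key : ∀ q : Polynomial L, Ki q u → Ki (q /ₘ (Polynomial.X - Polynomial.C t)) (io f₁ u) ∧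
      (C (q.eval t) : MvPolynomial (Fin k) L) • io f₁ u = 0 := by
    intro q hq
    have h1 := (hKiL L W (k + 1) u q hA).1 hq
    have h2 : ∀ j < k + 1, (aeval (Fin.cons (C t) X : Fin (k + 1) → MvPolynomial (Fin k) L)
        (lc (k + 1) q j)) • io f₁ u = 0 := by
      intro j hj
      rw [← hE, h1 j hj]
      have h0 := ((hIoB L W).2.2.2.2.1 k 0 0 f₁).1
      rw [add_zero] at h0
      exact left_eq_add.mp h0
    obtain ⟨h3, h4⟩ := hLcT L k t q
    have h5 : ∀ n ≤ k, lc k (q /ₘ (Polynomial.X - Polynomial.C t)) (k - n) • io f₁ u = 0 := by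
      intro n
      induction n with
      | zero =>
        intro _
        rw [(hGg L k).2.1 _ (k - 0) (by omega), zero_smul]
      | succ n ih =>
        intro hn
        have h6 := ih (by omega)
        have h7 := h2 (k - (n + 1) + 1) (by omega)
        rw [h4, sub_smul, mul_smul, show k - (n + 1) + 1 = k - n by omega, h6, smul_zero,
          sub_zero] at h7
        exact h7
    have h8 : ∀ j ≤ k, lc k (q /ₘ (Polynomial.X - Polynomial.C t)) j • io f₁ u = 0 := by
      intro j hj
      have h := h5 (k - j) (by omega)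
      rwa [show k - (k - j) = j by omega] at h
    refine ⟨(hKiL L W k (io f₁ u) _ hAv).2 (fun j hj => h8 j hj.le), ?_⟩
    have h9 := h2 0 (by omega)
    rw [h3, sub_smul, mul_smul, h8 0 (by omega), smul_zero, sub_zero] at h9
    exact h9
  refine ⟨key, ?_⟩
  have h := (key _ hK).1
  rwa [Polynomial.mul_divByMonic_cancel_left _ (Polynomial.monic_X_sub_C t)] at h

end HMx
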