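import Pool.Agent.Lib.MP_181146_gt.HM.SpecF

/-!
# Project HM, module KDE: exactness of `KD` in every degree
-/

set_option autoImplicit false

noncomputable section

namespace HMx

open MvPolynomial

/-! ## The part of degree `d` of an element of `In m` -/

/-- The part of degree `d`. -/
private def KDE_pt {m : ℕ} (d : ℕ) : In m →+ In m :=
  (Finsupp.filterAddHom (fun β : Fin m → ℕ => ∑ i, β i = d) :
    ((Fin m → ℕ) →₀ ℤ) →+ ((Fin m → ℕ) →₀ ℤ))

private theorem KDE_pt_v {m : ℕ} (d : ℕ) (u : In m) (β : Fin m → ℕ) :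
    (KDE_pt d u).v β = if ∑ i, β i = d then u.v β else 0 :=
  Finsupp.filter_apply (fun β : Fin m → ℕ => ∑ i, β i = d) (show (Fin m → ℕ) →₀ ℤ from u) β

private theorem KDE_iext {m : ℕ} {u w : In m} (h : ∀ β, u.v β = w.v β) : u = w :=
  Finsupp.ext h

private theorem KDE_sum {m : ℕ} {ι : Type} (s : Finset ι) (g : ι → In m) (β : Fin m → ℕ) :
    (∑ i ∈ s, g i : In m).v β = ∑ i ∈ s, (g i).v β := by
  classical
  induction s using Finset.induction_on with
  | empty => rfl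
  | insert a s ha ih => rw [Finset.sum_insert ha, Finset.sum_insert ha, In.add_v, ih]

private theorem KDE_smul {m : ℕ} (p : Lm m) (u : In m) (β : Fin m → ℕ) :
    (p • u).v β = ∑ s ∈ p.support, p.coeff s * u.v (β + (s : Fin m → ℕ)) := by
  have h : (p • u).v β = ((∑ s ∈ p.support, monomial s (p.coeff s) : Lm m) • u).v β :=
    congrArg (fun q : Lm m => (q • u).v β) p.as_sum
  rw [h, Finset.sum_smul, KDE_sum]
  exact Finset.sum_congr rfl (fun s _ => In.smul_v s _ u β)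

private theorem KDE_hom {m : ℕ} (p : Lm m) (n : ℕ) (hp : p.IsHomogeneous n) (e : ℕ) (u : In m)
    (β : Fin m → ℕ) :
    (p • KDE_pt e u).v β = if ∑ i, β i + n = e then (p • u).v β else 0 := by
  rw [KDE_smul, KDE_smul]
  have h1 : ∀ s ∈ p.support, p.coeff s * (KDE_pt e u).v (β + (s : Fin m → ℕ)) =
      if ∑ i, β i + n = e then p.coeff s * u.v (β + (s : Fin m → ℕ)) else 0 := by
    intro s hs
    have h2 : ∑ i, s i = n := by
      have h3 := hp (mem_support_iff.mp hs)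
      rw [Finsupp.weight_apply, Finsupp.sum_fintype _ _ (fun i => by simp)] at h3
      simpa using h3
    rw [KDE_pt_v]
    have h4 : ∑ i, (β + (s : Fin m → ℕ)) i = ∑ i, β i + n := by
      simp only [Pi.add_apply, Finset.sum_add_distrib, h2]
    rw [h4]
    split_ifs
    · rfl
    · rw [mul_zero]
  rw [Finset.sum_congr rfl h1]
  split_ifs
  · rfl
  · rw [Finset.sum_const_zero]

private theorem KDE_pt_self {m : ℕ} (d : ℕ) (u : In m) (h : ∀ β, u.v β ≠ 0 → ∑ i, β i = d) :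
    KDE_pt d u = u := by
  refine KDE_iext (fun β => ?_)
  rw [KDE_pt_v]
  split_ifs with h1
  · rfl
  · by_contra h2
    exact h1 (h β (fun h3 => h2 h3.symm))

/-! ## The part of degree `d` of a functional -/

/-- The functional with the parts of degree `d` of the values on the monomials. -/
private def KDE_pw {m k : ℕ} (d : ℕ) (w : Fu (Lm m) k (In m)) : Fu (Lm m) k (In m) :=
  Fu.mk fun s => KDE_pt d (w.v (monomial s 1))

private theorem KDE_ext {m k : ℕ} {u w : Fu (Lm m) k (In m)}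
    (h : ∀ s, u.v (monomial s 1) = w.v (monomial s 1)) : u = w :=
  (basisMonomials (Fin k) (Lm m)).ext (fun s => by
    rw [coe_basisMonomials]
    exact h s)

private theorem KDE_pw_v (hM : S_MkB) {m k : ℕ} (d : ℕ) (w : Fu (Lm m) k (In m)) (s : Fin k →₀ ℕ) :
    (KDE_pw d w).v (monomial s 1) = KDE_pt d (w.v (monomial s 1)) := by
  have h := (hM (Lm m) (In m) k (fun s => KDE_pt d (w.v (monomial s 1)))).1 s 1
  rw [one_smul] at h
  exact h

private theorem KDE_mk (hM : S_MkB) {m k : ℕ} (w : Fu (Lm m) k (In m)) :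
    (Fu.mk fun s => w.v (monomial s 1)) = w := by
  refine KDE_ext (fun s => ?_)
  have h := (hM (Lm m) (In m) k (fun s => w.v (monomial s 1))).1 s 1
  rw [one_smul] at h
  exact h

private theorem KDE_Ki (hM : S_MkB) {m k : ℕ} (q : Polynomial (Lm m)) (n : ℕ)
    (hq : ∀ i, (q.coeff i).IsHomogeneous n) (w : Fu (Lm m) k (In m)) (hw : Ki q w) (d : ℕ) :
    Ki q (KDE_pw d w) := by
  refine ((hM (Lm m) (In m) k (fun s => KDE_pt d (w.v (monomial s 1)))).2.2 q).mpr
    (fun a s => ?_)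
  have h1 : Ki q (Fu.mk fun s => w.v (monomial s 1)) := by
    rw [KDE_mk hM w]
    exact hw
  have h2 := ((hM (Lm m) (In m) k (fun s => w.v (monomial s 1))).2.2 q).mp h1 a s
  rw [Polynomial.sum_def] at h2 ⊢
  refine KDE_iext (fun β => ?_)
  have h3 := congrArg (fun z : In m => z.v β) h2
  change (∑ i ∈ q.support, q.coeff i • w.v (monomial (s + Finsupp.single a i) 1) : In m).v β =
    (0 : In m).v β at h3
  rw [KDE_sum] at h3 ⊢
  rw [Finset.sum_congr rfl (fun i _ => KDE_hom (q.coeff i) n (hq i) d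
    (w.v (monomial (s + Finsupp.single a i) 1)) β)]
  split_ifs
  · exact h3
  · rw [Finset.sum_const_zero]
    rfl

private theorem KDE_swap {k : ℕ} (a b : Fin k) (s : Fin k →₀ ℕ) (h : s a = s b) :
    s.mapDomain (Equiv.swap a b) = s := by
  ext i
  have h1 : s.mapDomain (Equiv.swap a b) i = s (Equiv.swap a b i) := by
    have h2 := Finsupp.mapDomain_apply (Equiv.swap a b).injective s (Equiv.swap a b i)
    rw [Equiv.swap_apply_self] at h2
    exact h2
  rw [h1]
  by_cases hi : i = a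
  · rw [hi, Equiv.swap_apply_left, h]
  · by_cases hj : i = b
    · rw [hj, Equiv.swap_apply_right, h]
    · rw [Equiv.swap_apply_of_ne_of_ne hi hj]

private theorem KDE_Al (hA : S_AlB) (hM : S_MkB) {m k : ℕ} (w : Fu (Lm m) k (In m)) (hw : Al w)
    (d : ℕ) : Al (KDE_pw d w) := by
  refine (hM (Lm m) (In m) k (fun s => KDE_pt d (w.v (monomial s 1)))).2.1
    (fun a b hab s => ⟨fun hs => ?_, ?_⟩)
  · have h1 : w.v (monomial s 1) = 0 := by
      refine hw a b hab _ ?_
      rw [rename_monomial, KDE_swap a b s hs]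
    change KDE_pt d (w.v (monomial s 1)) = 0
    rw [h1, map_zero]
  · have h1 := (hA (Lm m) (In m) k w hw).1 a b hab (monomial s 1)
    rw [rename_monomial] at h1
    change KDE_pt d (w.v (monomial (s.mapDomain (Equiv.swap a b)) 1)) =
      -KDE_pt d (w.v (monomial s 1))
    rw [h1, map_neg]

private theorem KDE_Dg (hM : S_MkB) {m k : ℕ} (w : Fu (Lm m) k (In m)) (d : ℕ) :
    Dg d (KDE_pw d w) := by
  intro s β h
  rw [KDE_pw_v hM, KDE_pt_v] at h
  by_contra h1
  exact h (if_neg h1)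

private theorem KDE_self (hM : S_MkB) {m k : ℕ} (w : Fu (Lm m) k (In m)) (d : ℕ) (h : Dg d w) :
    KDE_pw d w = w := by
  refine KDE_ext (fun s => ?_)
  rw [KDE_pw_v hM]
  exact KDE_pt_self d _ (h s)

private theorem KDE_iov {m k : ℕ} (w : Fu (Lm m) (k + 1) (In m)) (s : Fin k →₀ ℕ) :
    (io 1 w).v (monomial s 1) = w.v (monomial (s.mapDomain Fin.succ) 1) := by
  change w.v (xe 0 1 * rename Fin.succ (monomial s 1)) = _
  have h : (xe 0 (1 : Polynomial (Lm m)) : MvPolynomial (Fin (k + 1)) (Lm m)) = 1 := map_one _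
  rw [h, one_mul, rename_monomial]

private theorem KDE_io (hM : S_MkB) {m k : ℕ} (w : Fu (Lm m) (k + 1) (In m)) (d : ℕ) :
    io 1 (KDE_pw d w) = KDE_pw d (io 1 w) := by
  refine KDE_ext (fun s => ?_)
  rw [KDE_iov, KDE_pw_v hM, KDE_pw_v hM, KDE_iov]

/-! ## The polynomials `fm f m` and `gen m` -/

private theorem KDE_fm (f : Polynomial ℤ) (m : ℕ) (i : ℕ) :
    ((fm f m).coeff i).IsHomogeneous 0 := by
  rw [fm, Polynomial.coeff_map]
  exact isHomogeneous_C _ _

private theorem KDE_gen (m : ℕ) (i : ℕ) : ((gen m).coeff i).IsHomogeneous 1 := by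
  rw [gen, Polynomial.finset_sum_coeff]
  refine IsHomogeneous.sum _ _ _ (fun j _ => ?_)
  rw [Polynomial.coeff_C_mul_X_pow]
  split_ifs
  · exact isHomogeneous_X _ _
  · exact isHomogeneous_zero _ _ _

private theorem KDE_Kf (hA : S_AlB) (hM : S_MkB) {f : Polynomial ℤ} {m k : ℕ}
    (w : Fu (Lm m) k (In m)) (hw : Kf (fm f m) (gen m) w) (d : ℕ) :
    KDE_pw d w ∈ KDs f m k d :=
  ⟨⟨KDE_Al hA hM w hw.1 d, KDE_Ki hM _ 0 (KDE_fm f m) w hw.2.1 d,
    KDE_Ki hM _ 1 (KDE_gen m) w hw.2.2 d⟩, KDE_Dg hM w d⟩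

/-! ## Functions on exponents -/

private theorem KDE_of {m : ℕ} (d : ℕ) (u : (Fin m → ℕ) → ℤ) (hu : u ∈ fn ℤ m ∅ d) :
    ∃ w : In m, (∀ β, w.v β = u β) ∧ KDE_pt d w = w := by
  have hfin : (Function.support u).Finite := by
    refine (Set.finite_Iic (fun _ : Fin m => d)).subset (fun β hβ => ?_)
    have h1 := (hu β hβ).1
    intro i
    have h2 : β i ≤ ∑ j, β j := Finset.single_le_sum (fun j _ => Nat.zero_le _) (Finset.mem_univ i)
    change β i ≤ d
    omega
  refine ⟨(Finsupp.ofSupportFinite u hfin : (Fin m → ℕ) →₀ ℤ), fun β => rfl, ?_⟩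
  exact KDE_pt_self d _ (fun β hβ => (hu β hβ).1)

private theorem KDE_kapO (f : Polynomial ℤ) (m : ℕ) (w : In m) (β : Fin m → ℕ) :
    kapO f m (fun γ => w.v γ) β = (kapP f m • w).v β := by
  rw [KDE_smul]
  change (∑ s ∈ (kapP f m).support, (kapP f m).coeff s •
    (LinearMap.proj (β + (s : Fin m → ℕ)) : ((Fin m → ℕ) → ℤ) →ₗ[ℤ] ℤ)) (fun γ => w.v γ) = _
  rw [LinearMap.sum_apply]
  exact Finset.sum_congr rfl (fun s _ => rfl)

theorem pKDE (hAlB : S_AlB) (hIoB : S_IoB) (hMkB : S_MkB) (hExG : S_ExG) (hExK : S_ExK)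
    (hInG : S_InG) : S_KDE := by
  intro f m hf hm hk
  have hmon : (fm f m).Monic := hf.map _
  have hdeg : (fm f m).natDegree = m := by
    rw [fm, hf.natDegree_map, hm]
  obtain ⟨E1, E2, E3⟩ := hExG (Lm m) (In m) m (fm f m) (gen m) hmon hdeg (hInG m)
  obtain ⟨K1, K2⟩ := hExK (Lm m) (In m) m (fm f m) (gen m) hmon hdeg (hInG m).1
  have hkap : Polynomial.resultant (fm f m) (gen m) m (m - 1) = kapP f m := rfl
  rw [hkap] at E2 E3 K1
  have hone : ∀ j : ℕ, (monomial 0 1 : MvPolynomial (Fin j) (Lm m)) = 1 := fun j => rfl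
  refine ⟨?_, ?_, ?_, ?_, ?_, ?_⟩
  · -- (1)
    intro k d u hu h0
    obtain ⟨u', h1, h2⟩ := E1 k u hu.1 h0
    refine ⟨KDE_pw d u', KDE_Kf hAlB hMkB u' h1 d, ?_⟩
    rw [KDE_io hMkB, h2, KDE_self hMkB u d hu.2]
  · -- (2)
    intro d u hu
    exact K2 u hu.1.1 hu.1.2.1
  · -- (3)
    intro d u hu h0
    obtain ⟨w, h1, h2⟩ := KDE_of d u hu
    have h3 : kapP f m • w = 0 := by
      refine KDE_iext (fun β => ?_)
      rw [← KDE_kapO]
      have h4 : (fun γ => w.v γ) = u := funext h1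
      rw [h4, h0]
      rfl
    obtain ⟨U, h5, h6⟩ := E2 w h3
    refine ⟨KDE_pw d U, KDE_Kf hAlB hMkB U h5 d, fun β => ?_⟩
    have h7 := KDE_pw_v hMkB d U 0
    rw [hone, h6, h2] at h7
    rw [h7, h1]
  · -- (4)
    intro d w hw
    refine ⟨fun β hβ => ⟨hw.2 0 β hβ, fun i hi => absurd hi (Finset.notMem_empty i)⟩, ?_⟩
    funext β
    rw [KDE_kapO]
    have h1 := congrArg (fun z : Fu (Lm m) 1 (In m) => z.v 1) (K1 0 w hw.1)
    change w.v (C (kapP f m) * 1) = 0 at h1
    rw [C_mul', map_smul] at h1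
    rw [h1]
    rfl
  · -- (5)
    intro k d u hu
    obtain ⟨I1, I2, -⟩ := hIoB (Lm m) (In m)
    refine ⟨⟨I1 k u 1 hu.1.1, I2 k u 1 _ hu.1.2.1, I2 k u 1 _ hu.1.2.2⟩, fun s β h => ?_⟩
    rw [KDE_iov] at h
    exact hu.2 _ β h
  · -- (6)
    intro d u hu
    obtain ⟨w, h1, h2⟩ := KDE_of d u hu
    obtain ⟨w', h3⟩ := E3 w
    refine ⟨fun γ => (KDE_pt (d + m) w').v γ, fun β hβ => ⟨?_, fun i hi =>
      absurd hi (Finset.notMem_empty i)⟩, ?_⟩
    · change (KDE_pt (d + m) w').v β ≠ 0 at hβ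
      rw [KDE_pt_v] at hβ
      by_contra h4
      exact hβ (if_neg h4)
    · funext β
      rw [KDE_kapO, KDE_hom _ m hk, h3, ← h1 β]
      by_cases h4 : ∑ i, β i = d
      · rw [if_pos (by rw [h4])]
      · rw [if_neg (fun h5 => h4 (Nat.add_right_cancel h5))]
        by_contra h5
        have h6 : u β ≠ 0 := fun h7 => h5 (by rw [h1 β, h7])
        exact h4 (hu β h6).1

end HMx
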