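import Pool.Agent.Lib.MP_181146_gt.HM.SpecF

/-!
# Project HM, module KLk: the norm form acts as zero on `Dk` and `Dkap`
-/

set_option autoImplicit false

noncomputable section

namespace HMx

open MvPolynomial

private theorem KLk_fin {m : ℕ} (d : ℕ) : {β : Fin m → ℕ | ∑ i, β i = d}.Finite := by
  refine (Finset.finite_toSet (Fintype.piFinset fun _ : Fin m => Finset.range (d + 1))).subset ?_
  intro β hβ
  rw [Finset.mem_coe, Fintype.mem_piFinset]
  intro i
  have h1 : ∑ i, β i = d := hβ
  have h2 : β i ≤ ∑ i, β i := Finset.single_le_sum (fun _ _ => Nat.zero_le _) (Finset.mem_univ i)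
  rw [Finset.mem_range]
  omega

/-- The functions of degree `d` as elements of the inverse system. -/
private def KLk_e (f : Polynomial ℤ) (m d : ℕ) : (Dkap f m).D d →+ In m where
  toFun u := (Finsupp.ofSupportFinite u.1 ((KLk_fin d).subset fun β h => (u.2.1 β h).1) :
    (Fin m → ℕ) →₀ ℤ)
  map_zero' := Finsupp.ext fun _ => rfl
  map_add' _ _ := Finsupp.ext fun _ => rfl

private theorem KLk_ev (f : Polynomial ℤ) (m d : ℕ) (u : (Dkap f m).D d) (β : Fin m → ℕ) :
    (KLk_e f m d u).v β = u.1 β := rfl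

/-- The evaluation at an exponent. -/
private def KLk_v {m : ℕ} (β : Fin m → ℕ) : In m →+ ℤ where
  toFun u := u.v β
  map_zero' := rfl
  map_add' _ _ := rfl

private theorem KLk_smul {m : ℕ} (p : Lm m) (u : In m) (β : Fin m → ℕ) :
    (p • u).v β = ∑ s ∈ p.support, p.coeff s * u.v (β + s) := by
  have h1 : p • u = ∑ s ∈ p.support, (monomial s (p.coeff s) : Lm m) • u := by
    rw [← Finset.sum_smul, ← p.as_sum]
  rw [h1]
  change KLk_v β (∑ s ∈ p.support, (monomial s (p.coeff s) : Lm m) • u) = _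
  rw [map_sum]
  exact Finset.sum_congr rfl fun s _ => In.smul_v s _ u β

private theorem KLk_kapO (f : Polynomial ℤ) (m : ℕ) (u : (Fin m → ℕ) → ℤ) (β : Fin m → ℕ) :
    kapO f m u β = ∑ s ∈ (kapP f m).support, (kapP f m).coeff s * u (β + s) := by
  change (∑ s ∈ (kapP f m).support, (kapP f m).coeff s •
    (LinearMap.proj (β + (s : Fin m → ℕ)) : ((Fin m → ℕ) → ℤ) →ₗ[ℤ] ℤ)) u = _
  rw [LinearMap.sum_apply]
  rfl

private theorem KLk_gen (m : ℕ) (i : ℕ) (hi : m ≤ i) : (gen m).coeff i = 0 := by
  rw [gen, Polynomial.finset_sum_coeff]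
  refine Finset.sum_eq_zero fun j _ => ?_
  rw [Polynomial.coeff_C_mul_X_pow, if_neg]
  have := j.2
  omega

theorem pKLk (hE : S_EvE) (hX : S_ExK) (hD : S_DKi) : S_KLk := by
  intro f m k hf hm hh
  constructor
  · intro hk
    obtain ⟨k, rfl⟩ : ∃ k', k = k' + 1 := ⟨k - 1, by omega⟩
    obtain ⟨e, he⟩ := hD f m (k + 1) hf hm
    let inst : Module (Lm m) (Fu (Lm m) (k + 1) (In m)) :=
      Module.compHom _ (C : Lm m →+* MvPolynomial (Fin (k + 1)) (Lm m))
    let e' : ∀ d, (Dk f m (k + 1)).toZ.D d →+ Fu (Lm m) (k + 1) (In m) := fun d =>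
      { toFun := fun x => (e.f d x).1
        map_zero' := congrArg Subtype.val (map_zero (e.f d))
        map_add' := fun x y => congrArg Subtype.val (map_add (e.f d) x y) }
    have h1 := hE m m (Dk f m (k + 1)).toZ (Fu (Lm m) (k + 1) (In m)) e' (by
      intro a d x
      exact congrArg Subtype.val (e.fY a d x)) (kapP f m) hh
    have h2 : (fm f m).Monic := hf.map _
    have h3 : (fm f m).natDegree = m := by
      unfold fm
      rw [hf.natDegree_map, hm]
    have h4 := (hX (Lm m) (In m) m (fm f m) (gen m) h2 h3 (KLk_gen m)).1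
    refine LinearMap.ext fun x => funext fun d => ?_
    have h5 := h1 x d
    have h6 : (kapP f m : Lm m) • e' (d + m) (x (d + m)) = 0 :=
      h4 k (e' (d + m) (x (d + m))) (e.f (d + m) (x (d + m))).2.1
    rw [h6] at h5
    have h7 : e.f d ((Dk f m (k + 1)).toZ.ev (kapP f m) x d) = e.f d 0 := by
      rw [map_zero]
      exact Subtype.ext h5
    exact (he d).1 h7
  · have h1 := hE m m (Dkap f m) (In m) (KLk_e f m) (by
      intro a d x
      refine Finsupp.ext fun β => ?_
      exact (In.X_v a (KLk_e f m (d + 1) x) β).symm) (kapP f m) hh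
    refine LinearMap.ext fun x => funext fun d => ?_
    have h5 := h1 x d
    have h6 : (kapP f m : Lm m) • KLk_e f m (d + m) (x (d + m)) = 0 := by
      refine Finsupp.ext fun β => ?_
      refine (KLk_smul (kapP f m) (KLk_e f m (d + m) (x (d + m))) β).trans ?_
      have h7 : kapO f m (x (d + m)).1 = 0 := (x (d + m)).2.2
      have h8 := congrFun h7 β
      rw [KLk_kapO] at h8
      exact h8
    rw [h6] at h5
    refine Subtype.ext (funext fun β => ?_)
    rw [← KLk_ev f m d, h5]
    rfl

end HMx
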