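import Pool.Agent.Lib.MP_181146_gt.HM.SpecM

/-!
# Project HM, module Ker: the kernel of the contraction (helper84)
-/

set_option autoImplicit false

noncomputable section

namespace HMx

open MvPolynomial

private theorem Ker_xe {L : Type} [CommRing L] {k : ℕ} (σ : Equiv.Perm (Fin k)) (a : Fin k)
    (q : Polynomial L) : rename σ (xe a q) = xe (σ a) q := by
  unfold xe
  rw [← Polynomial.aeval_algHom_apply, rename_X]

theorem pKer (hB : S_AlB) (hE : S_IoE) : S_Ker := by
  intro L _ W _ _ k u t f₁ hAl hKi hio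
  obtain ⟨h1, -⟩ := hE L W k u t f₁ hKi
  have h0 : ∀ p, u.v (xe 0 f₁ * p) = 0 := by
    intro p
    have h2 := h1 p 1
    rw [mul_one, mul_one] at h2
    rw [h2]
    have h3 : (io f₁ u).v
        (aeval (Fin.cons (C t) X : Fin (k + 1) → MvPolynomial (Fin k) L) p) = 0 := by
      rw [hio]
      rfl
    exact h3
  intro a p
  by_cases ha : a = 0
  · subst ha
    exact h0 p
  · have h2 := (hB L W (k + 1) u hAl).1 0 a (Ne.symm ha) (xe a f₁ * p)
    rw [map_mul, Ker_xe, Equiv.swap_apply_right, h0] at h2
    exact neg_eq_zero.1 h2.symm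

end HMx
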