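import Pool.Agent.Lib.MP_181146_gt.HM.SpecM

/-!
# HM/KiL: killing multiples of `q (x_a)` = killed by the coefficients of `q` modulo `gg`
-/

set_option autoImplicit false

noncomputable section

namespace HMx

open MvPolynomial

private lemma KiL_inv {L : Type} [CommRing L] {k : ℕ} (c b : MvPolynomial (Fin k) L)
    (hc : c ∈ Sy L k) (hb : b ∈ Sy L k) (i j : Fin k) (hij : i ≠ j) :
    rename (Equiv.swap i j) (c * X j ^ i.val *
      (b * ∏ a ∈ Finset.univ.erase j, (X a : MvPolynomial (Fin k) L) ^ a.val)) =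
      c * X j ^ i.val * (b * ∏ a ∈ Finset.univ.erase j, (X a : MvPolynomial (Fin k) L) ^ a.val) := by
  have hi : i ∈ Finset.univ.erase j := Finset.mem_erase.2 ⟨hij, Finset.mem_univ _⟩
  have h1 := Finset.mul_prod_erase (Finset.univ.erase j)
    (fun a : Fin k => (X a : MvPolynomial (Fin k) L) ^ a.val) hi
  rw [← h1]
  have h2 : rename (Equiv.swap i j) (∏ a ∈ (Finset.univ.erase j).erase i,
      (X a : MvPolynomial (Fin k) L) ^ a.val) =
      ∏ a ∈ (Finset.univ.erase j).erase i, (X a : MvPolynomial (Fin k) L) ^ a.val := by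
    rw [map_prod]
    refine Finset.prod_congr rfl fun a ha => ?_
    have ha1 := (Finset.mem_erase.1 ha).1
    have ha2 := (Finset.mem_erase.1 (Finset.mem_erase.1 ha).2).1
    rw [map_pow, rename_X, Equiv.swap_apply_of_ne_of_ne ha1 ha2]
  have hc' : rename (Equiv.swap i j) c = c := (mem_symmetricSubalgebra c).mp hc (Equiv.swap i j)
  have hb' : rename (Equiv.swap i j) b = b := (mem_symmetricSubalgebra b).mp hb (Equiv.swap i j)
  rw [map_mul, map_mul, map_mul, map_mul, h2, hc', hb', map_pow, map_pow, rename_X, rename_X,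
    Equiv.swap_apply_left, Equiv.swap_apply_right]
  ring

theorem pKiL (hGg : S_Gg) (hCyc : S_Cyc) : S_KiL := by
  intro L _ W _ _ k u q hu
  constructor
  · intro hq j hj
    have hal : Al (lc k q j • u) := by
      intro a b hab p hp
      change u.v (lc k q j * p) = 0
      refine hu a b hab _ ?_
      rw [map_mul, hp, (mem_symmetricSubalgebra _).mp (lc_sym k q j)]
    refine hCyc L W k _ hal fun b hb => ?_
    change u.v (lc k q j * (b * ∏ a : Fin k, X a ^ a.val)) = 0
    have h1 := hq ⟨j, hj⟩ (b * ∏ a ∈ Finset.univ.erase (⟨j, hj⟩ : Fin k), X a ^ a.val)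
    rw [(hGg L k).1 q ⟨j, hj⟩, Finset.sum_mul, map_sum, Finset.sum_eq_single j] at h1
    · rw [← h1]
      congr 1
      rw [← Finset.mul_prod_erase Finset.univ
        (fun a : Fin k => (X a : MvPolynomial (Fin k) L) ^ a.val) (Finset.mem_univ ⟨j, hj⟩)]
      ring
    · intro i hi hij
      have hne : (⟨i, Finset.mem_range.1 hi⟩ : Fin k) ≠ ⟨j, hj⟩ := fun h => hij (Fin.mk.inj_iff.1 h)
      exact hu _ _ hne _ (KiL_inv _ b (lc_sym k q i) hb _ _ hne)
    · intro h
      exact absurd (Finset.mem_range.2 hj) h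
  · intro h a p
    rw [(hGg L k).1 q a, Finset.sum_mul, map_sum]
    refine Finset.sum_eq_zero fun j hj => ?_
    rw [mul_assoc]
    exact congrArg (fun w : Fu L k W => w.v (X a ^ j * p)) (h j (Finset.mem_range.1 hj))

end HMx
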