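import Pool.Agent.Lib.MP_181146_gt.HM.SpecM

/-!
# HM/LSo: integrability for the coefficients of `φ` modulo `gg`
-/

set_option autoImplicit false

noncomputable section

namespace HMx

open MvPolynomial

private lemma LSo_zero (hG : S_Gg) (L : Type) [CommRing L] (k j : ℕ) :
    lc k (0 : Polynomial L) j = 0 := by
  have h := (hG L k).2.2.2.1 0 0 j
  rw [mul_zero, map_zero, zero_mul] at h
  exact h

private lemma LSo_sum (hG : S_Gg) (L : Type) [CommRing L] (k j : ℕ) (s : Finset ℕ)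
    (f : ℕ → Polynomial L) : lc k (∑ i ∈ s, f i) j = ∑ i ∈ s, lc k (f i) j := by
  classical
  induction s using Finset.induction_on with
  | empty => rw [Finset.sum_empty, Finset.sum_empty, LSo_zero hG]
  | insert a s ha ih =>
    rw [Finset.sum_insert ha, Finset.sum_insert ha, (hG L k).2.2.1, ih]

private lemma LSo_poly (L : Type) [CommRing L] (m : ℕ) (φ : Polynomial L)
    (h : ∀ i, m ≤ i → φ.coeff i = 0) :
    φ = ∑ i ∈ Finset.range m, Polynomial.C (φ.coeff i) * Polynomial.X ^ i := by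
  ext n
  rw [Polynomial.finsetSum_coeff]
  simp only [Polynomial.coeff_C_mul, Polynomial.coeff_X_pow, mul_ite, mul_one, mul_zero,
    Finset.sum_ite_eq, Finset.mem_range]
  split_ifs with h1
  · rfl
  · exact h n (by omega)

private lemma LSo_lc (hG : S_Gg) (L : Type) [CommRing L] (m k : ℕ) (hk : k ≤ m) (φ : Polynomial L)
    (h : ∀ i, m ≤ i → φ.coeff i = 0) (j : ℕ) (hj : j < k) :
    lc k φ j = C (φ.coeff j) +
      ∑ i ∈ Finset.Ico k m, lc k (Polynomial.X ^ i : Polynomial L) j * C (φ.coeff i) := by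
  conv_lhs => rw [LSo_poly L m φ h]
  rw [LSo_sum hG, ← Finset.sum_range_add_sum_Ico _ hk]
  congr 1
  · rw [Finset.sum_eq_single_of_mem j (Finset.mem_range.2 hj)]
    · rw [(hG L k).2.2.2.1, (hG L k).2.2.2.2 j j hj, if_pos rfl, mul_one]
    · intro i hi hij
      rw [(hG L k).2.2.2.1, (hG L k).2.2.2.2 i j (Finset.mem_range.1 hi), if_neg hij, mul_zero]
  · exact Finset.sum_congr rfl fun i _ => by rw [(hG L k).2.2.2.1, mul_comm]

/-- **Module LSo.** -/
theorem pLSo (hZ : S_ZSo) (hS : S_SoL) (hG : S_Gg) : S_LSo := by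
  intro L _ W _ _ ts φ hφ k n hn hc
  obtain ⟨hφ0, hφ1, hφ2⟩ := hφ
  obtain ⟨z1, z2, z3⟩ := hZ L W ts k
  rcases Nat.lt_or_ge ts.length k with hk | hk
  · have h0 : ∀ j < k, n j = 0 := fun j hj => z3 hk (n j) (hn j hj).1 (hn j hj).2
    refine ⟨0, fun _ _ _ _ _ => rfl, fun _ _ => rfl, fun j hj => ?_⟩
    rw [h0 j hj, smul_zero]
  · have hSol := hS (Sy L k) (ZZ (pl ts) : Submodule (Sy L k) (Fu L k W)) ts.length k
      (fun i => algebraMap L (Sy L k) (φ.coeff i))
      (fun j i => (⟨lc k (Polynomial.X ^ i) j, lc_sym k _ j⟩ : Sy L k)) hk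
      (z1 ts.length φ.coeff hφ1) (fun i hi => z2 (φ.coeff i) (hφ2 i hi))
    have hz : ∀ j < k, ((algebraMap L (Sy L k) (φ.coeff j) + ∑ i ∈ Finset.Ico k ts.length,
        (⟨lc k (Polynomial.X ^ i) j, lc_sym k _ j⟩ : Sy L k) *
          algebraMap L (Sy L k) (φ.coeff i) : Sy L k) : MvPolynomial (Fin k) L) = lc k φ j := by
      intro j hj
      rw [LSo_lc hG L ts.length k hk φ hφ0 j hj, Subalgebra.coe_add, AddSubmonoidClass.coe_finsetSum]
      rfl
    have hsm : ∀ (b : Sy L k) (u : Fu L k W), b • u = (b : MvPolynomial (Fin k) L) • u :=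
      fun _ _ => rfl
    obtain ⟨w, hw⟩ := hSol (fun j => if h : j < k then ⟨n j, hn j h⟩ else 0) (by
      intro i hi j hj
      rw [Finset.mem_range] at hi hj
      apply Subtype.ext
      rw [Submodule.coe_smul, Submodule.coe_smul, dif_pos hi, dif_pos hj, hsm, hsm, hz i hi, hz j hj]
      exact hc i hi j hj)
    refine ⟨w.1, w.2.1, w.2.2, fun j hj => ?_⟩
    have h1 := congrArg Subtype.val (hw j (Finset.mem_range.2 hj))
    rw [Submodule.coe_smul, hsm, hz j hj] at h1
    rw [h1]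
    simp only [dif_pos hj]

end HMx
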