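import Pool.Agent.Lib.MP_181146_gt.HM.SpecM

/-!
# Project HM: coefficients modulo `gg` under `x_0 ↦ t` (`S_LcT`)

Author helper69, after the docstring of `S_LcT`.
-/

set_option autoImplicit false

noncomputable section

namespace HMx

open MvPolynomial

private lemma LcT_gg (L : Type) [CommRing L] (k : ℕ) (t : L) :
    (gg L (k + 1)).map (aeval (Fin.cons (C t) X : Fin (k + 1) → MvPolynomial (Fin k) L) :
      MvPolynomial (Fin (k + 1)) L →ₐ[L] MvPolynomial (Fin k) L).toRingHom =
      (Polynomial.X - Polynomial.C (C t)) * gg L k := by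
  rw [gg, Polynomial.map_prod, Fin.prod_univ_succ, gg]
  congr 1
  · rw [Polynomial.map_sub, Polynomial.map_X, Polynomial.map_C]
    change Polynomial.X - Polynomial.C (aeval (Fin.cons (C t) X :
      Fin (k + 1) → MvPolynomial (Fin k) L) (X 0)) = _
    rw [aeval_X, Fin.cons_zero]
  · refine Finset.prod_congr rfl fun a _ => ?_
    rw [Polynomial.map_sub, Polynomial.map_X, Polynomial.map_C]
    change Polynomial.X - Polynomial.C (aeval (Fin.cons (C t) X :
      Fin (k + 1) → MvPolynomial (Fin k) L) (X (Fin.succ a))) = _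
    rw [aeval_X, Fin.cons_succ]

private lemma LcT_monic (L : Type) [CommRing L] (k : ℕ) : (gg L k).Monic :=
  Polynomial.monic_prod_of_monic _ _ (fun _ _ => Polynomial.monic_X_sub_C _)

private lemma LcT_map (L : Type) [CommRing L] (k : ℕ) (t : L) (q : Polynomial L) :
    (q.map (C : L →+* MvPolynomial (Fin (k + 1)) L)).map
      (aeval (Fin.cons (C t) X : Fin (k + 1) → MvPolynomial (Fin k) L) :
      MvPolynomial (Fin (k + 1)) L →ₐ[L] MvPolynomial (Fin k) L).toRingHom =
      q.map (C : L →+* MvPolynomial (Fin k) L) := by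
  rw [Polynomial.map_map]
  congr 1
  refine RingHom.ext fun c => ?_
  change aeval (Fin.cons (C t) X : Fin (k + 1) → MvPolynomial (Fin k) L) (C c) = C c
  rw [aeval_C]
  rfl

private lemma LcT_coeff (L : Type) [CommRing L] (k : ℕ) (t : L) (q : Polynomial L) (j : ℕ) :
    aeval (Fin.cons (C t) X : Fin (k + 1) → MvPolynomial (Fin k) L) (lc (k + 1) q j) =
      (q.map (C : L →+* MvPolynomial (Fin k) L) %ₘ
        ((Polynomial.X - Polynomial.C (C t)) * gg L k)).coeff j := by
  have h := Polynomial.map_modByMonic (aeval (Fin.cons (C t) X :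
    Fin (k + 1) → MvPolynomial (Fin k) L) : MvPolynomial (Fin (k + 1)) L →ₐ[L]
      MvPolynomial (Fin k) L).toRingHom (LcT_monic L (k + 1))
    (p := q.map (C : L →+* MvPolynomial (Fin (k + 1)) L))
  rw [LcT_gg, LcT_map] at h
  rw [← h, Polynomial.coeff_map]
  rfl

private lemma LcT_nat (L : Type) [CommRing L] [Nontrivial L] (k : ℕ) :
    (gg L k).degree = (k : WithBot ℕ) := by
  rw [gg, Polynomial.degree_prod_of_monic _ _ (fun _ _ => Polynomial.monic_X_sub_C _)]
  simp

private lemma LcT_mod (L : Type) [CommRing L] [Nontrivial L] (k : ℕ) (t : L) (q : Polynomial L) :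
    q.map (C : L →+* MvPolynomial (Fin k) L) %ₘ
        ((Polynomial.X - Polynomial.C (C t)) * gg L k) =
      Polynomial.C (C (q.eval t)) + (Polynomial.X - Polynomial.C (C t)) *
        ((q /ₘ (Polynomial.X - Polynomial.C t)).map (C : L →+* MvPolynomial (Fin k) L) %ₘ
          gg L k) := by
  have hG := LcT_monic L k
  have hX : (Polynomial.X - Polynomial.C (C t : MvPolynomial (Fin k) L)).Monic :=
    Polynomial.monic_X_sub_C _
  set q₁ := q /ₘ (Polynomial.X - Polynomial.C t) with hq₁
  set R := q₁.map (C : L →+* MvPolynomial (Fin k) L) %ₘ gg L k with hR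
  have hRd : ∀ i, k ≤ i → R.coeff i = 0 := by
    have h1 : R.degree < (gg L k).degree := Polynomial.degree_modByMonic_lt _ hG
    rw [LcT_nat] at h1
    exact Polynomial.degree_lt_iff_coeff_zero _ _ |>.1 h1
  refine (Polynomial.div_modByMonic_unique (q₁.map (C : L →+* MvPolynomial (Fin k) L) /ₘ gg L k)
    _ (hX.mul hG) ⟨?_, ?_⟩).2
  · have h1 := Polynomial.modByMonic_add_div q (Polynomial.X - Polynomial.C t)
    have h2 := Polynomial.modByMonic_add_div (q₁.map (C : L →+* MvPolynomial (Fin k) L)) (gg L k)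
    rw [Polynomial.modByMonic_X_sub_C_eq_C_eval, ← hq₁] at h1
    rw [← hR] at h2
    have h3 : q.map (C : L →+* MvPolynomial (Fin k) L) = Polynomial.C (C (q.eval t)) +
        (Polynomial.X - Polynomial.C (C t)) * q₁.map (C : L →+* MvPolynomial (Fin k) L) := by
      conv_lhs => rw [← h1]
      rw [Polynomial.map_add, Polynomial.map_mul, Polynomial.map_C, Polynomial.map_sub,
        Polynomial.map_X, Polynomial.map_C]
    rw [h3]
    conv_rhs => rw [← h2]
    ring
  · have h1 : ((Polynomial.X - Polynomial.C (C t : MvPolynomial (Fin k) L)) * gg L k).degree =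
        ((k + 1 : ℕ) : WithBot ℕ) := by
      rw [hG.degree_mul, Polynomial.degree_X_sub_C, LcT_nat, add_comm]
      rfl
    rw [h1]
    refine (Polynomial.degree_lt_iff_coeff_zero _ _).2 fun i hi => ?_
    obtain ⟨i', rfl⟩ : ∃ i', i = i' + 1 := ⟨i - 1, by omega⟩
    rw [Polynomial.coeff_add, Polynomial.coeff_C_succ, sub_mul, Polynomial.coeff_sub,
      Polynomial.coeff_X_mul, Polynomial.coeff_C_mul, hRd i' (by omega), hRd (i' + 1) (by omega),
      mul_zero, sub_zero, add_zero]

theorem pLcT : S_LcT := by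
  intro L _ k t q
  rcases subsingleton_or_nontrivial L with hL | hL
  · have : Subsingleton (MvPolynomial (Fin k) L) := inferInstance
    exact ⟨Subsingleton.elim _ _, fun j => Subsingleton.elim _ _⟩
  · refine ⟨?_, fun j => ?_⟩
    · rw [LcT_coeff, LcT_mod, Polynomial.coeff_add, Polynomial.coeff_C_zero, sub_mul,
        Polynomial.coeff_sub, Polynomial.coeff_X_mul_zero, Polynomial.coeff_C_mul, zero_sub,
        ← sub_eq_add_neg]
      rfl
    · rw [LcT_coeff, LcT_mod, Polynomial.coeff_add, Polynomial.coeff_C_succ, sub_mul,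
        Polynomial.coeff_sub, Polynomial.coeff_X_mul, Polynomial.coeff_C_mul, zero_add]
      rfl

end HMx
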