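import Pool.Agent.Lib.MP_181146_gt.HM.SpecM

/-!
# Project HM, module MkB: functionals given by their values on the monomials
-/

set_option autoImplicit false

noncomputable section

namespace HMx

open MvPolynomial

private theorem MkB_mono {L : Type} [CommRing L] {W : Type} [AddCommGroup W] [Module L W] {k : ℕ}
    (c : (Fin k →₀ ℕ) → W) (s : Fin k →₀ ℕ) (a : L) :
    (Fu.mk c : Fu L k W).v (monomial s a) = a • c s := by
  change (basisMonomials (Fin k) L).constr L c (monomial s a) = a • c s
  have h1 : (monomial s a : MvPolynomial (Fin k) L) = a • basisMonomials (Fin k) L s := by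
    rw [coe_basisMonomials, smul_monomial, smul_eq_mul, mul_one]
  rw [h1, map_smul, Module.Basis.constr_basis]

private theorem MkB_sum {L : Type} [CommRing L] {W : Type} [AddCommGroup W] [Module L W] {k : ℕ}
    (c : (Fin k →₀ ℕ) → W) (p : MvPolynomial (Fin k) L) :
    (Fu.mk c : Fu L k W).v p = ∑ s ∈ p.support, p.coeff s • c s := by
  conv_lhs => rw [p.as_sum]
  rw [map_sum]
  exact Finset.sum_congr rfl (fun s _ => MkB_mono c s _)

private theorem MkB_al {L : Type} [CommRing L] {W : Type} [AddCommGroup W] [Module L W] {k : ℕ}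
    (c : (Fin k →₀ ℕ) → W)
    (h : ∀ (a b : Fin k), a ≠ b → ∀ s : Fin k →₀ ℕ, (s a = s b → c s = 0) ∧
      c (s.mapDomain (Equiv.swap a b)) = -c s) : Al (Fu.mk c : Fu L k W) := by
  intro a b hab p hp
  have hco : ∀ s : Fin k →₀ ℕ, p.coeff (s.mapDomain (Equiv.swap a b)) = p.coeff s := by
    intro s
    have h1 := coeff_rename_mapDomain (⇑(Equiv.swap a b)) (Equiv.swap a b).injective p s
    rw [hp] at h1
    exact h1
  rw [MkB_sum]
  refine Finset.sum_involution (fun s _ => s.mapDomain (Equiv.swap a b)) ?_ ?_ ?_ ?_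
  · intro s _
    rw [hco, (h a b hab s).2, smul_neg, add_neg_cancel]
  · intro s _ hs h2
    refine hs ?_
    have h3 : s a = s b := by
      have h4 := Finsupp.mapDomain_apply (Equiv.swap a b).injective s a
      rw [Equiv.swap_apply_left, h2] at h4
      exact h4.symm
    rw [(h a b hab s).1 h3, smul_zero]
  · intro s hs
    rw [mem_support_iff] at hs ⊢
    rw [hco]
    exact hs
  · intro s _
    change Finsupp.mapDomain (⇑(Equiv.swap a b)) (Finsupp.mapDomain (⇑(Equiv.swap a b)) s) = s
    rw [← Finsupp.mapDomain_comp]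
    have h5 : (⇑(Equiv.swap a b) ∘ ⇑(Equiv.swap a b)) = id := by
      funext x
      exact Equiv.swap_apply_self a b x
    rw [h5, Finsupp.mapDomain_id]

private theorem MkB_xe {L : Type} [CommRing L] {W : Type} [AddCommGroup W] [Module L W] {k : ℕ}
    (c : (Fin k →₀ ℕ) → W) (q : Polynomial L) (a : Fin k) (s : Fin k →₀ ℕ) (t : L) :
    (Fu.mk c : Fu L k W).v (xe a q * monomial s t) =
      t • q.sum (fun i x => x • c (s + Finsupp.single a i)) := by
  have h1 : xe a q = q.sum (fun i x => (C x * X a ^ i : MvPolynomial (Fin k) L)) := by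
    rw [xe, Polynomial.aeval_def, Polynomial.eval₂_eq_sum]
    rfl
  rw [h1, Polynomial.sum_def, Polynomial.sum_def, Finset.sum_mul, map_sum, Finset.smul_sum]
  refine Finset.sum_congr rfl (fun i _ => ?_)
  have h2 : (C (q.coeff i) * X a ^ i * monomial s t : MvPolynomial (Fin k) L) =
      monomial (s + Finsupp.single a i) (t * q.coeff i) := by
    rw [X_pow_eq_monomial, C_mul_monomial, monomial_mul, mul_one, add_comm s, mul_comm t]
  rw [h2, MkB_mono, mul_smul]

theorem pMkB : S_MkB := by
  intro L _ W _ _ k c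
  refine ⟨MkB_mono c, MkB_al c, fun q => ⟨fun h a s => ?_, fun h a p => ?_⟩⟩
  · have h1 := h a (monomial s 1)
    rw [MkB_xe, one_smul] at h1
    exact h1
  · induction p using MvPolynomial.induction_on' with
    | monomial s t => rw [MkB_xe, h a s, smul_zero]
    | add p q hp hq => rw [mul_add, map_add, hp, hq, add_zero]

end HMx
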