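import Pool.Agent.Lib.MP_181146_gt.HM.NA

/-!
# Values of the norm form

`nKap`: for `m = q ^ j` every sum `∑ a t * x t ^ m` with `k t ∣ q * a t` is a value of the norm form
of `X ^ m - q` modulo the `k t * x t`.  `nPrim`: divisibility by the binomial coefficients.
`nHom`, `nMon`: `kapP f m` is homogeneous of degree `m` and monic in the first variable.
-/

set_option autoImplicit false

noncomputable section

namespace HMx

open MvPolynomial

/-! ## Arithmetic -/

/-- Divisibility by the binomial coefficients. -/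
theorem nPrim (k m : ℕ) (a : ℤ) (hm : 2 ≤ m)
    (h : ∀ i, 0 < i → i < m → (k : ℤ) ∣ a * (m.choose i : ℕ)) :
    (∀ q j : ℕ, q.Prime → m = q ^ j → (k : ℤ) ∣ q * a) ∧
      ((∀ q j : ℕ, q.Prime → m ≠ q ^ j) → (k : ℤ) ∣ a) := by
  have h1 : (k : ℤ) ∣ a * (((Finset.Icc 1 (m - 1)).gcd m.choose : ℕ) : ℤ) := by
    have h0 : (Finset.Icc 1 (m - 1)).gcd (fun i => a.natAbs * m.choose i) =
        a.natAbs * (Finset.Icc 1 (m - 1)).gcd m.choose := by
      rw [Finset.gcd_mul_left, normalize_eq]
    rw [Int.natCast_dvd, Int.natAbs_mul, Int.natAbs_natCast, ← h0]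
    refine Finset.dvd_gcd (fun i hi => ?_)
    rw [Finset.mem_Icc] at hi
    have h2 := h i (by omega) (by omega)
    rwa [Int.natCast_dvd, Int.natAbs_mul, Int.natAbs_natCast] at h2
  constructor
  · intro q j hq hmq
    have hj : j ≠ 0 := by
      rintro rfl
      rw [pow_zero] at hmq
      omega
    have h2 : IsPrimePow m := by
      rw [hmq]
      exact hq.isPrimePow.pow hj
    rw [Choose.gcd_choose_eq_minFac_of_isPrimePow h2] at h1
    have h3 : m.minFac = q := by rw [hmq, hq.pow_minFac hj]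
    rw [h3, mul_comm] at h1
    exact h1
  · intro hne
    have h2 : ¬IsPrimePow m := by
      intro h3
      obtain ⟨p, k, hp, -, h4⟩ := (isPrimePow_nat_iff m).mp h3
      exact hne p k hp h4.symm
    rw [Choose.gcd_choose_eq_one_of_not_isPrimePow (by omega) h2, Nat.cast_one, mul_one] at h1
    exact h1

/-- The choice of the exponent and of the coefficient. -/
theorem nEx {q j k : ℕ} (hq : q.Prime) (hk : 0 < k) (a : ℤ) (h : (k : ℤ) ∣ q * a) :
    ∃ (E : ℕ) (b : ℤ), (k : ℤ) ∣ (q : ℤ) ^ (E + 1) * b ∧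
      (k : ℤ) ∣ ((-1) ^ (q ^ j + 1) * (q : ℤ)) ^ E * b ^ (q ^ j) - a := by
  have hm0 : q ^ j ≠ 0 := (pow_pos hq.pos j).ne'
  obtain ⟨e, o, ho, rfl⟩ := Nat.exists_eq_pow_mul_and_not_dvd hk.ne' q hq.one_lt.ne'
  have hpz : Prime (q : ℤ) := Nat.prime_iff_prime_int.mp hq
  have hco : IsCoprime (o : ℤ) (q : ℤ) := by
    rw [Nat.isCoprime_iff_coprime]
    exact ((Nat.Prime.coprime_iff_not_dvd hq).mpr ho).symm
  rw [Nat.cast_mul, Nat.cast_pow] at h ⊢
  obtain _ | e := e
  · refine ⟨0, 0, by rw [mul_zero]; exact dvd_zero _, ?_⟩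
    rw [zero_pow hm0, mul_zero, zero_sub, dvd_neg, pow_zero, one_mul]
    rw [pow_zero, one_mul] at h
    exact hco.dvd_of_dvd_mul_left h
  · have h1 : (q : ℤ) ^ e * o ∣ a := by
      have h2 : (q : ℤ) * ((q : ℤ) ^ e * o) ∣ q * a := by
        rw [← mul_assoc, ← pow_succ']
        exact h
      exact (mul_dvd_mul_iff_left hpz.ne_zero).mp h2
    obtain ⟨c, hc⟩ := h1
    refine ⟨e, o * c, ⟨c, by ring⟩, ?_⟩
    have h3 : (q : ℤ) * o ∣ ((-1) ^ (q ^ j + 1)) ^ e * (o * c : ℤ) ^ (q ^ j) - o * c := by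
      rw [mul_comm]
      refine hco.mul_dvd ?_ ?_
      · refine dvd_sub (Dvd.dvd.mul_left (dvd_pow (dvd_mul_right _ _) hm0) _) (dvd_mul_right _ _)
      · have : Fact q.Prime := ⟨hq⟩
        rw [← ZMod.intCast_zmod_eq_zero_iff_dvd _ q]
        push_cast
        rw [ZMod.pow_card_pow]
        have h4 : ((-1 : ZMod q)) ^ (q ^ j + 1) = 1 := by
          rw [pow_succ, ZMod.pow_card_pow, neg_one_mul, neg_neg]
        rw [h4, one_pow, one_mul, sub_self]
    have h5 : ((-1) ^ (q ^ j + 1) * (q : ℤ)) ^ e * (o * c : ℤ) ^ (q ^ j) - a =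
        (q : ℤ) ^ e * (((-1) ^ (q ^ j + 1)) ^ e * (o * c : ℤ) ^ (q ^ j) - o * c) := by
      rw [hc]
      ring
    rw [h5, pow_succ, mul_assoc]
    exact mul_dvd_mul_left _ h3

/-! ## The values -/

/-- The value of the norm form. -/
theorem nVal {A : Type} [CommRing A] [Algebra ℤ A] (c : ℤ) {m : ℕ} (hm : m ≠ 0) (y : Fin m → A) :
    MvPolynomial.aeval y (kapP (Polynomial.X ^ m - Polynomial.C c) m) =
      Nm (Polynomial.X ^ m - Polynomial.C (c : A)) m
        (∑ i : Fin m, Polynomial.C (y i) * Polynomial.X ^ i.val) := by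
  have h1 : (∑ i : Fin m, Polynomial.C (y i) * Polynomial.X ^ i.val).natDegree ≤ m - 1 := by
    refine Polynomial.natDegree_sum_le_of_forall_le _ _ (fun i _ => ?_)
    refine (Polynomial.natDegree_C_mul_X_pow_le _ _).trans ?_
    have := i.isLt
    omega
  rw [← nmDeg (xqC (c : A) hm) h1]
  have h2 := Polynomial.resultant_map_map ((Polynomial.X ^ m - Polynomial.C c).map
    (C : ℤ →+* MvPolynomial (Fin m) ℤ)) (gen m) m (m - 1) (MvPolynomial.aeval y).toRingHom
  rw [kapP]
  refine Eq.trans h2.symm ?_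
  have h3 : ((Polynomial.X ^ m - Polynomial.C c).map (C : ℤ →+* MvPolynomial (Fin m) ℤ)).map
      (MvPolynomial.aeval y).toRingHom = Polynomial.X ^ m - Polynomial.C (c : A) := by
    simp
  have h4 : (gen m).map (MvPolynomial.aeval y).toRingHom =
      ∑ i : Fin m, Polynomial.C (y i) * Polynomial.X ^ i.val := by
    simp [gen, Polynomial.map_sum]
  rw [h3, h4]

/-- Reduction of the exponents modulo `X ^ m - c`. -/
theorem nRed {A : Type} [CommRing A] (c : A) {m : ℕ} (hm : m ≠ 0) {T : Type} [Fintype T]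
    (E : T → ℕ) (z : T → A) :
    Nm (Polynomial.X ^ m - Polynomial.C c) m (∑ i : Fin m,
      Polynomial.C (∑ t, if E t % m = i.val then z t * c ^ (E t / m) else 0) * Polynomial.X ^ i.val) =
      Nm (Polynomial.X ^ m - Polynomial.C c) m (∑ t, Polynomial.C (z t) * Polynomial.X ^ E t) := by
  have h1 : ∀ t, ∃ p : Polynomial A, Polynomial.C (z t) * Polynomial.X ^ E t =
      Polynomial.C (z t * c ^ (E t / m)) * Polynomial.X ^ (E t % m) +
        (Polynomial.X ^ m - Polynomial.C c) * p := by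
    intro t
    obtain ⟨p, hp⟩ := sub_dvd_pow_sub_pow (Polynomial.X ^ m : Polynomial A) (Polynomial.C c) (E t / m)
    refine ⟨Polynomial.C (z t) * p * Polynomial.X ^ (E t % m), ?_⟩
    have h2 : (Polynomial.X : Polynomial A) ^ E t =
        (Polynomial.X ^ m) ^ (E t / m) * Polynomial.X ^ (E t % m) := by
      rw [← pow_mul, ← pow_add, Nat.div_add_mod]
    rw [h2]
    have h3 : ((Polynomial.X : Polynomial A) ^ m) ^ (E t / m) =
        Polynomial.C c ^ (E t / m) + (Polynomial.X ^ m - Polynomial.C c) * p := by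
      rw [← hp]
      ring
    rw [h3, Polynomial.C_mul, Polynomial.C_pow]
    ring
  choose p hp using h1
  rw [Finset.sum_congr rfl (fun t _ => hp t), Finset.sum_add_distrib, ← Finset.mul_sum,
    nmAdd (xqD c) (xqC c hm)]
  refine congrArg _ ?_
  simp only [map_sum, Finset.sum_mul]
  rw [Finset.sum_comm]
  refine Finset.sum_congr rfl (fun t _ => ?_)
  have hlt : E t % m < m := Nat.mod_lt _ (Nat.pos_of_ne_zero hm)
  rw [Finset.sum_eq_single (⟨E t % m, hlt⟩ : Fin m)]
  · rw [if_pos rfl]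
  · intro i _ hi
    rw [if_neg (fun h => hi (Fin.ext h.symm)), Polynomial.C_0, zero_mul]
  · intro h
    exact absurd (Finset.mem_univ _) h

/-- Every sum of `m`-th powers with coefficients `a t`, where `k t ∣ q * a t`, is a value of the norm
form modulo the `k t * x t`. -/
theorem nKap (q j : ℕ) (hq : q.Prime) (_hj : 1 ≤ j) (T : Type) [Fintype T] [DecidableEq T]
    (k : T → ℕ) (hk : ∀ t, 0 < k t) (a : T → ℤ) (h : ∀ t, (k t : ℤ) ∣ q * a t) :
    ∃ psi : Fin (q ^ j) → T → ℤ,
      MvPolynomial.aeval (fun i => ∑ t, C (psi i t) * X t)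
          (kapP (Polynomial.X ^ (q ^ j) - Polynomial.C (q : ℤ)) (q ^ j)) -
        ∑ t, C (a t) * X t ^ (q ^ j) ∈
      Ideal.span (Set.range fun t : T => (C (k t : ℤ) * X t : MvPolynomial T ℤ)) := by
  set m := q ^ j with hm
  have hm0 : m ≠ 0 := (pow_pos hq.pos j).ne'
  set I : Ideal (MvPolynomial T ℤ) := Ideal.span (Set.range fun t : T => C (k t : ℤ) * X t) with hI
  choose E b h1 h2 using fun t => nEx (j := j) hq (hk t) (a t) (h t)
  refine ⟨fun i t => if E t % m = i.val then b t * (q : ℤ) ^ (E t / m) else 0, ?_⟩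
  rw [nVal _ hm0]
  have h3 : ∀ i : Fin m, ∑ t, C (if E t % m = i.val then b t * (q : ℤ) ^ (E t / m) else 0) *
      (X t : MvPolynomial T ℤ) = ∑ t, if E t % m = i.val then
        (C (b t) * X t) * (((q : ℤ) : MvPolynomial T ℤ)) ^ (E t / m) else 0 := by
    intro i
    refine Finset.sum_congr rfl (fun t _ => ?_)
    split_ifs
    · rw [C_mul, C_pow]
      have h4 : (C (q : ℤ) : MvPolynomial T ℤ) = ((q : ℤ) : MvPolynomial T ℤ) := by simp
      rw [h4]
      ring
    · rw [C_0, zero_mul]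
  simp only [h3]
  rw [nRed _ hm0, ← Ideal.Quotient.eq_zero_iff_mem, map_sub, sub_eq_zero]
  set π := Ideal.Quotient.mk I with hπ
  have hker : ∀ (t : T) (x : ℤ), (k t : ℤ) ∣ x → π (C x * X t) = 0 := by
    rintro t x ⟨y, rfl⟩
    rw [hπ, Ideal.Quotient.eq_zero_iff_mem, C_mul, mul_right_comm]
    exact Ideal.mul_mem_right _ _ (Ideal.subset_span ⟨t, rfl⟩)
  rw [← nmMap π (xqC _ hm0)]
  have h5 : (Polynomial.X ^ m - Polynomial.C (((q : ℤ) : MvPolynomial T ℤ))).map π =
      Polynomial.X ^ m - Polynomial.C (q : MvPolynomial T ℤ ⧸ I) := by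
    simp
  have h6 : (∑ t, Polynomial.C (C (b t) * X t) * Polynomial.X ^ E t).map π =
      ∑ t, Polynomial.C (π (C (b t) * X t)) * Polynomial.X ^ E t := by
    simp [Polynomial.map_sum]
  rw [h5, h6, hm, nmS hq E (fun t => π (C (b t) * X t)), ← hm, map_sum]
  · refine Finset.sum_congr rfl (fun t _ => ?_)
    rw [← sub_eq_zero]
    have h7 : ((-1) ^ (m + 1) * (q : MvPolynomial T ℤ ⧸ I)) ^ E t * π (C (b t) * X t) ^ m -
        π (C (a t) * X t ^ m) =
        π (C (((-1) ^ (m + 1) * (q : ℤ)) ^ E t * b t ^ m - a t) * X t) * π (X t) ^ (m - 1) := by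
      have h8 : (m - 1) + 1 = m := by omega
      have h9 : π (X t) ^ m = π (X t) * π (X t) ^ (m - 1) := by
        rw [← pow_succ', h8]
      simp only [map_mul, map_sub, map_pow, map_neg, map_one, map_natCast, mul_pow, h9]
      ring
    rw [h7, hker t _ (h2 t), zero_mul]
  · intro t
    have h7 : (q : MvPolynomial T ℤ ⧸ I) ^ (E t + 1) * π (C (b t) * X t) =
        π (C ((q : ℤ) ^ (E t + 1) * b t) * X t) := by
      simp only [map_mul, map_pow, map_natCast]
      ring
    rw [h7, hker t _ (h1 t)]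

/-! ## The norm form is homogeneous and monic -/

/-- The coefficients of the generic polynomial. -/
theorem genCoeff (m n : ℕ) : ((gen m).coeff n).IsHomogeneous 1 := by
  rw [gen, Polynomial.finsetSum_coeff]
  refine IsHomogeneous.sum _ _ _ (fun i _ => ?_)
  rw [Polynomial.coeff_C_mul, Polynomial.coeff_X_pow]
  split_ifs
  · rw [mul_one]
    exact isHomogeneous_X _ _
  · rw [mul_zero]
    exact isHomogeneous_zero _ _ _

/-- The norm form is homogeneous. -/
theorem nHom (f : Polynomial ℤ) (m : ℕ) : (kapP f m).IsHomogeneous m := by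
  rw [kapP, Polynomial.resultant, Matrix.det_apply']
  refine IsHomogeneous.sum _ _ _ (fun σ _ => ?_)
  have h0 : (((Equiv.Perm.sign σ : ℤˣ) : ℤ) : MvPolynomial (Fin m) ℤ).IsHomogeneous 0 := by
    have h1 : (((Equiv.Perm.sign σ : ℤˣ) : ℤ) : MvPolynomial (Fin m) ℤ) =
      C ((Equiv.Perm.sign σ : ℤˣ) : ℤ) := by simp
    rw [h1]
    exact isHomogeneous_C _ _
  have h2 := IsHomogeneous.prod Finset.univ (fun i => ((f.map (C : ℤ →+* MvPolynomial (Fin m) ℤ)).sylvester
    (gen m) m (m - 1)) (σ i) i) (fun i => Fin.addCases (fun _ => 1) (fun _ => 0) i) (by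
      intro i _
      induction i using Fin.addCases with
      | left i =>
        simp only [Polynomial.sylvester, Matrix.of_apply, Fin.addCases_left]
        split_ifs
        · exact genCoeff _ _
        · exact isHomogeneous_zero _ _ _
      | right i =>
        simp only [Polynomial.sylvester, Matrix.of_apply, Fin.addCases_right]
        split_ifs
        · rw [Polynomial.coeff_map]
          exact isHomogeneous_C _ _
        · exact isHomogeneous_zero _ _ _)
  have h3 : ∑ i : Fin (m + (m - 1)), (Fin.addCases (fun _ => 1) (fun _ => 0) i : ℕ) = m := by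
    rw [Fin.sum_univ_add]
    simp only [Fin.addCases_left, Fin.addCases_right, Finset.sum_const, Finset.card_univ,
      Fintype.card_fin, smul_eq_mul, mul_one, mul_zero, add_zero]
  rw [h3] at h2
  have h4 := h0.mul h2
  rwa [zero_add] at h4

/-- The value of a homogeneous polynomial at `(1, 0, .., 0)`. -/
theorem homEv {m : ℕ} (hm : 0 < m) {p : MvPolynomial (Fin m) ℤ} (hp : p.IsHomogeneous m) :
    MvPolynomial.aeval (fun i : Fin m => if i = ⟨0, hm⟩ then (1 : ℤ) else 0) p =
      p.coeff (Finsupp.single ⟨0, hm⟩ m) := by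
  rw [MvPolynomial.aeval_def, MvPolynomial.eval₂_eq']
  rw [Finset.sum_eq_single (Finsupp.single ⟨0, hm⟩ m)]
  · rw [Finset.prod_eq_one, mul_one]
    · simp
    · intro i _
      split_ifs with hi
      · exact one_pow _
      · rw [Finsupp.single_eq_of_ne hi, pow_zero]
  · intro d hd hne
    have h1 : d.degree = m := by
      have h2 := hp (MvPolynomial.mem_support_iff.mp hd)
      refine Eq.trans ?_ h2
      rw [Finsupp.degree_eq_weight_one]
      rfl
    have h2 : ∃ i, i ≠ ⟨0, hm⟩ ∧ d i ≠ 0 := by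
      by_contra hcon
      push Not at hcon
      refine hne (Finsupp.ext fun i => ?_)
      by_cases hi : i = ⟨0, hm⟩
      · rw [hi, Finsupp.single_eq_same]
        refine Eq.trans ?_ h1
        rw [Finsupp.degree_eq_sum, Finset.sum_eq_single (⟨0, hm⟩ : Fin m) (fun b _ hb => hcon b hb)
            (fun h => absurd (Finset.mem_univ _) h)]
      · rw [hcon i hi, Finsupp.single_eq_of_ne hi]
    obtain ⟨i, hi, hdi⟩ := h2
    rw [Finset.prod_eq_zero (Finset.mem_univ i), mul_zero]
    rw [if_neg hi, zero_pow hdi]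
  · intro h
    rw [MvPolynomial.notMem_support_iff.mp h, map_zero, zero_mul]

/-- The norm form is monic in the first variable. -/
theorem nMon (f : Polynomial ℤ) (m : ℕ) (hf : f.Monic) (hd : f.natDegree = m) (hm : 0 < m) :
    (kapP f m).coeff (Finsupp.single ⟨0, hm⟩ m) = 1 := by
  rw [← homEv hm (nHom f m), kapP]
  have h2 := Polynomial.resultant_map_map (f.map (C : ℤ →+* MvPolynomial (Fin m) ℤ)) (gen m) m (m - 1)
    (MvPolynomial.aeval (fun i : Fin m => if i = ⟨0, hm⟩ then (1 : ℤ) else 0)).toRingHom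
  refine Eq.trans h2.symm ?_
  have h3 : (f.map (C : ℤ →+* MvPolynomial (Fin m) ℤ)).map
      (MvPolynomial.aeval (fun i : Fin m => if i = ⟨0, hm⟩ then (1 : ℤ) else 0)).toRingHom = f := by
    rw [Polynomial.map_map]
    have h5 : ((MvPolynomial.aeval (fun i : Fin m => if i = ⟨0, hm⟩ then (1 : ℤ) else 0)).toRingHom.comp
        (C : ℤ →+* MvPolynomial (Fin m) ℤ)) = RingHom.id ℤ := Subsingleton.elim _ _
    rw [h5, Polynomial.map_id]
  have h4 : (gen m).map (MvPolynomial.aeval
      (fun i : Fin m => if i = ⟨0, hm⟩ then (1 : ℤ) else 0)).toRingHom = 1 := by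
    rw [gen, Polynomial.map_sum, Finset.sum_eq_single (⟨0, hm⟩ : Fin m)]
    · simp
    · intro i _ hi
      simp [hi]
    · intro h
      exact absurd (Finset.mem_univ _) h
  rw [h3, h4, Polynomial.resultant_one_right, ← hd, Polynomial.coeff_natDegree, hf.leadingCoeff,
    one_pow]

end HMx
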