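import Pool.Agent.Lib.MP_181146_gt.HM.SpecM

/-! # Project HM: NlI, locally nilpotent elements form an ideal -/

set_option autoImplicit false

namespace HMx

open MvPolynomial

private theorem NlI_iff {A N : Type} [CommRing A] [AddCommGroup N] [Module A N] (x : A) :
    Nl A N x ↔ ∀ w : N, x ∈ Ideal.radical (LinearMap.ker (LinearMap.toSpanSingleton A N w)) := by
  refine forall_congr' fun w => exists_congr fun n => ?_
  rw [LinearMap.mem_ker, LinearMap.toSpanSingleton_apply]

theorem pNlI : S_NlI := by
  intro A N _ _ _ a b c ha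
  rw [NlI_iff] at ha
  refine ⟨?_, fun hb => ?_⟩
  · rw [NlI_iff]
    exact fun w => Ideal.mul_mem_left _ c (ha w)
  · rw [NlI_iff] at hb ⊢
    exact fun w => Ideal.add_mem _ (ha w) (hb w)

end HMx
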