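import Pool.Agent.Lib.MP_181146_gt.HM.SpecF

/-!
# Project HM (part E), module Pri: the induction principle
-/

set_option autoImplicit false

noncomputable section

namespace HMx

open MvPolynomial

/-! ## Operators and morphisms -/

section

variable {m : ℕ} {k : Type} [CommRing k] {D D' : DM k m}

/-- The map induced by a morphism on sequences. -/
private def Pri_E (e : DM.Hom D D') : (∀ j, D.D j) →+ (∀ j, D'.D j) where
  toFun x := fun j => e.f j (x j)
  map_zero' := by
    funext j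
    exact map_zero (e.f j)
  map_add' x y := by
    funext j
    exact map_add (e.f j) (x j) (y j)

private theorem Pri_E_Yt (e : DM.Hom D D') (i : Fin m) (x : ∀ j, D.D j) :
    Pri_E e (D.Yt i x) = D'.Yt i (Pri_E e x) := by
  funext j
  exact e.fY i j (x (j + 1))

private theorem Pri_E_pow (e : DM.Hom D D') (i : Fin m) (n : ℕ) :
    ∀ x : (∀ j, D.D j), Pri_E e ((D.Yt i ^ n) x) = (D'.Yt i ^ n) (Pri_E e x) := by
  induction n with
  | zero => exact fun x => rfl
  | succ n ih =>
    intro x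
    rw [pow_succ, pow_succ, Module.End.mul_apply, Module.End.mul_apply, ih, Pri_E_Yt]

private theorem Pri_E_list (e : DM.Hom D D') (s : Fin m →₀ ℕ) (l : List (Fin m)) :
    ∀ x : (∀ j, D.D j), Pri_E e ((l.map fun i => D.Yt i ^ s i).prod x) =
      (l.map fun i => D'.Yt i ^ s i).prod (Pri_E e x) := by
  induction l with
  | nil => exact fun x => rfl
  | cons a l ih =>
    intro x
    rw [List.map_cons, List.map_cons, List.prod_cons, List.prod_cons, Module.End.mul_apply,
      Module.End.mul_apply, Pri_E_pow, ih]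

/-- The morphism is linear. -/
private def Pri_L (e : DM.Hom D D') : Prop := ∀ j (c : k) x, e.f j (c • x) = c • e.f j x

private theorem Pri_E_ev (e : DM.Hom D D') (hl : Pri_L e)
    (p : MvPolynomial (Fin m) k) (x : ∀ j, D.D j) : Pri_E e (D.ev p x) = D'.ev p (Pri_E e x) := by
  have hl' : ∀ (c : k) (x : ∀ j, D.D j), Pri_E e (c • x) = c • Pri_E e x := by
    intro c x
    funext j
    exact hl j c (x j)
  unfold DM.ev
  rw [LinearMap.sum_apply, LinearMap.sum_apply, map_sum]
  refine Finset.sum_congr rfl (fun s _ => ?_)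
  rw [LinearMap.smul_apply, LinearMap.smul_apply, hl']
  congr 1
  unfold DM.pw
  rw [List.ofFn_eq_map, List.ofFn_eq_map]
  exact Pri_E_list e s _ x

private theorem Pri_inj (e : DM.Hom D D') (hl : Pri_L e)
    (p : MvPolynomial (Fin m) k) (he : ∀ d, Function.Injective (e.f d)) (h : D'.ev p = 0) :
    D.ev p = 0 := by
  refine LinearMap.ext (fun x => ?_)
  funext j
  apply he j
  have h1 := congrFun (Pri_E_ev e hl p x) j
  rw [h] at h1
  exact h1.trans (map_zero (e.f j)).symm

private theorem Pri_sur (e : DM.Hom D D') (hl : Pri_L e)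
    (p : MvPolynomial (Fin m) k) (he : ∀ d, Function.Surjective (e.f d)) (h : D.ev p = 0) :
    D'.ev p = 0 := by
  refine LinearMap.ext (fun y => ?_)
  have h0 : ∀ j, ∃ z, e.f j z = y j := fun j => he j (y j)
  choose x hx using h0
  have h2 : Pri_E e x = y := by
    funext j
    exact hx j
  have h1 := Pri_E_ev e hl p x
  rw [h, h2] at h1
  exact h1.symm.trans (map_zero (Pri_E e))

end

private theorem Pri_lin {m : ℕ} {D D' : DM ℤ m} (e : DM.Hom D D') : Pri_L e := fun j c x =>
  @map_intCast_smul (D.D j) (D'.D j) _ _ (D.D j →+ D'.D j) _ _ (e.f j) ℤ ℤ _ _ (D.mo j) (D'.mo j) c x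

private theorem Pri_KL_inj {m : ℕ} {D D' : DM ℤ m} {f : Polynomial ℤ} (e : DM.Hom D D')
    (he : ∀ d, Function.Injective (e.f d)) (h : D'.KL f) : D.KL f :=
  Pri_inj e (Pri_lin e) (kapP f m) he h

private theorem Pri_KL_sur {m : ℕ} {D D' : DM ℤ m} {f : Polynomial ℤ} (e : DM.Hom D D')
    (he : ∀ d, Function.Surjective (e.f d)) (h : D.KL f) : D'.KL f :=
  Pri_sur e (Pri_lin e) (kapP f m) he h

/-! ## The images of the contraction -/

private def Pri_io (m k : ℕ) : Fu (Lm m) (k + 1) (In m) →+ Fu (Lm m) k (In m) where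
  toFun u := io 1 u
  map_zero' := LinearMap.ext fun _ => rfl
  map_add' _ _ := LinearMap.ext fun _ => rfl

private theorem Pri_io_C {m k : ℕ} (c : Lm m) (u : Fu (Lm m) (k + 1) (In m)) :
    io 1 ((C c : MvPolynomial (Fin (k + 1)) (Lm m)) • u) =
      (C c : MvPolynomial (Fin k) (Lm m)) • io 1 u := by
  refine LinearMap.ext (fun p => ?_)
  change u.v (C c * (xe 0 1 * rename Fin.succ p)) = u.v (xe 0 1 * rename Fin.succ (C c * p))
  rw [map_mul (rename Fin.succ), rename_C, mul_left_comm]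

/-- The image of the contraction with `1`. -/
private def Pri_I (f : Polynomial ℤ) (m k : ℕ) : DM ℤ m where
  D := fun d => ((KDs f m (k + 1) d).map (Pri_io m k)).toIntSubmodule
  Y := fun a d =>
    { toFun := fun w => ⟨(C (X a : Lm m) : MvPolynomial (Fin k) (Lm m)) • w.1, by
        obtain ⟨u, hu, hw⟩ := w.2
        refine ⟨(C (X a : Lm m) : MvPolynomial (Fin (k + 1)) (Lm m)) • u, KDs_X f m (k + 1) a hu, ?_⟩
        rw [← hw]
        exact Pri_io_C (X a) u⟩
      map_add' := fun u w => Subtype.ext (smul_add _ u.1 w.1)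
      map_smul' := fun c u => Subtype.ext (smul_comm _ c u.1) }
  comm := fun a b d w => Subtype.ext (by
    change (C (X a : Lm m) : MvPolynomial (Fin k) (Lm m)) • ((C (X b : Lm m) :
      MvPolynomial (Fin k) (Lm m)) • w.1) = _
    rw [smul_smul, mul_comm, ← smul_smul]
    rfl)

/-- The contraction, onto its image. -/
private def Pri_b (f : Polynomial ℤ) (m k : ℕ) : DM.Hom (KD f m (k + 1)) (Pri_I f m k) where
  f := fun _ => AddMonoidHom.mk' (fun w => ⟨io 1 w.1, ⟨w.1, w.2, rfl⟩⟩)
    (fun u w => Subtype.ext (map_add (Pri_io m k) u.1 w.1))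
  fY := fun a _ w => Subtype.ext (Pri_io_C (X a) w.1)

/-- The inclusion of the image. -/
private def Pri_a (f : Polynomial ℤ) (m k : ℕ)
    (h5 : ∀ d, ∀ u ∈ KDs f m (k + 1) d, io 1 u ∈ KDs f m k d) :
    DM.Hom (Pri_I f m k) (KD f m k) where
  f := fun d => AddMonoidHom.mk' (fun w => ⟨w.1, by
      obtain ⟨u, hu, hw⟩ := w.2
      rw [← hw]
      exact h5 d u hu⟩)
    (fun u w => Subtype.ext rfl)
  fY := fun a d w => Subtype.ext rfl

private theorem Pri_v1 {m : ℕ} (u : Fu (Lm m) 1 (In m)) : (io 1 u).v 1 = u.v 1 := by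
  change u.v (xe 0 1 * rename Fin.succ 1) = u.v 1
  have h : (xe 0 1 : MvPolynomial (Fin 1) (Lm m)) = 1 := map_one _
  rw [h, map_one, one_mul]

private theorem Pri_zero {m : ℕ} (w : Fu (Lm m) 0 (In m)) (h : ∀ β, (w.v 1).v β = 0) : w = 0 := by
  have h1 : w.v 1 = 0 := Finsupp.ext h
  refine LinearMap.ext (fun p => ?_)
  change w.v p = 0
  obtain ⟨c, hc⟩ := MvPolynomial.C_surjective (Fin 0) p
  rw [← hc, ← mul_one (C c), C_mul', map_smul, h1, smul_zero]

/-- The image in degree `0` and the functions on exponents. -/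
private def Pri_c (f : Polynomial ℤ) (m : ℕ)
    (h4 : ∀ d, ∀ w ∈ KDs f m 1 d, (fun β => (w.v 1).v β) ∈ fn ℤ m ∅ d ∧
      kapO f m (fun β => (w.v 1).v β) = 0) :
    DM.Hom (Pri_I f m 0) (Dkap f m) where
  f := fun d => AddMonoidHom.mk' (fun w => ⟨fun β => (w.1.v 1).v β, by
      obtain ⟨u, hu, hw⟩ := w.2
      have h := h4 d u hu
      have e : w.1.v 1 = u.v 1 := by
        rw [← hw]
        exact Pri_v1 u
      rw [e]
      exact h⟩)
    (fun u w => Subtype.ext rfl)
  fY := fun a d w => Subtype.ext (by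
    funext β
    change (w.1.v (C (X a : Lm m) * 1)).v β = (w.1.v 1).v (β + Pi.single a 1)
    rw [C_mul', map_smul, In.X_v])

theorem pPri (hIoB : S_IoB) (hDKi : S_DKi) (hKDE : S_KDE) (hKLk : S_KLk) : S_Pri := by
  intro f m hf hm hm1 hh P hiso hex hP
  obtain ⟨h1, h2, h3, h4, h5, -⟩ := hKDE f m hf hm hh
  -- the modules of forms
  have hK : ∀ k, 1 ≤ k → ∃ e : DM.Hom (Dk f m k).toZ (KD f m k),
      ∀ d, Function.Bijective (e.f d) := by
    intro k _
    obtain ⟨e, he⟩ := hDKi f m k hf hm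
    exact ⟨⟨e.f, e.fY⟩, he⟩
  have hPK : ∀ k, 1 ≤ k → k ≤ m → P (KD f m k) := by
    intro k hk hkm
    obtain ⟨e, he⟩ := hK k hk
    exact hiso _ _ e he (hP k hk hkm)
  have hKK : ∀ k, 1 ≤ k → (KD f m k).KL f := by
    intro k hk
    obtain ⟨e, he⟩ := hK k hk
    exact Pri_KL_sur e (fun d => (he d).2) ((hKLk f m k hf hm hh).1 hk)
  -- the images
  have hbs : ∀ k d, Function.Surjective ((Pri_b f m k).f d) := by
    rintro k d ⟨w, u, hu, hw⟩
    exact ⟨⟨u, hu⟩, Subtype.ext hw⟩
  have hai : ∀ k d, Function.Injective ((Pri_a f m k (h5 k)).f d) := by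
    intro k d u w h
    exact Subtype.ext (congrArg (fun z => z.1) h)
  have hind : ∀ n k, k + n + 1 = m → P (Pri_I f m k) := by
    intro n
    induction n with
    | zero =>
      intro k hk
      refine hiso _ _ (Pri_b f m k) (fun d => ⟨?_, hbs k d⟩) (hPK (k + 1) (by omega) (by omega))
      refine (injective_iff_map_eq_zero _).mpr (fun w hw => ?_)
      have hw0 : io 1 w.1 = 0 := congrArg (fun z => z.1) hw
      obtain ⟨u, hu, huw⟩ := h1 k d w.1 w.2 hw0
      have hkm : k + 1 = m := by omega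
      have hu0 : u = 0 := by
        subst hkm
        exact h2 d u hu
      refine Subtype.ext ?_
      rw [← huw, hu0]
      exact LinearMap.ext fun p => rfl
    | succ n ih =>
      intro k hk
      refine hex _ _ _ (Pri_a f m (k + 1) (h5 (k + 1))) (Pri_b f m k) ?_ ?_ ?_ ?_
        (ih (k + 1) (by omega)) (hPK (k + 1) (by omega) (by omega))
      · refine ⟨fun j x hx => ?_, fun j x => ?_, fun j x hx => ?_, fun j z => hbs k j z⟩
        · exact hai (k + 1) j (hx.trans (map_zero _).symm)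
        · obtain ⟨u, hu, hw⟩ := x.2
          refine Subtype.ext ?_
          change io 1 x.1 = 0
          rw [← hw]
          exact (hIoB (Lm m) (In m)).2.2.2.1 k u 1 hu.1.1
        · have hx0 : io 1 x.1 = 0 := congrArg (fun z => z.1) hx
          obtain ⟨u, hu, hux⟩ := h1 k j x.1 x.2 hx0
          exact ⟨⟨x.1, ⟨u, hu, hux⟩⟩, Subtype.ext rfl⟩
      · exact Pri_KL_inj _ (hai (k + 1)) (hKK (k + 1) (by omega))
      · exact hKK (k + 1) (by omega)
      · exact Pri_KL_sur _ (hbs k) (hKK (k + 1) (by omega))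
  -- the last step
  refine hiso _ _ (Pri_c f m h4) (fun d => ⟨?_, ?_⟩) (hind (m - 1) 0 (by omega))
  · refine (injective_iff_map_eq_zero _).mpr (fun w hw => ?_)
    refine Subtype.ext (Pri_zero w.1 (fun β => ?_))
    have h := congrArg (fun z => z.1) hw
    exact congrFun h β
  · rintro ⟨u, hu, hku⟩
    obtain ⟨w, hw, hwu⟩ := h3 d u hu hku
    refine ⟨⟨io 1 w, ⟨w, hw, rfl⟩⟩, Subtype.ext ?_⟩
    funext β
    change ((io 1 w).v 1).v β = u β
    rw [Pri_v1]
    exact hwu β

end HMx
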