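import Pool.Agent.Lib.MP_181146_gt.HM.SpecF

/-!
# Project HM: RpB

Functionals represented by functions on exponents.
-/

set_option autoImplicit false

noncomputable section

namespace HMx

open MvPolynomial

section

variable (f : Polynomial ℤ) (m k : ℕ)

private theorem RpB_mk (h3 : ∀ P ∈ JJ f k, (tk f m k).v P = 0) (b : Sy ℤ k)
    (P : MvPolynomial (Fin k) ℤ) :
    pr f m k (Ideal.Quotient.mk (FI f k) b) P =
      (tk f m k).v (vd k * (b : MvPolynomial (Fin k) ℤ) * P) := by
  have h1 : Ideal.Quotient.mk (FI f k)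
      (Quotient.out (Ideal.Quotient.mk (FI f k) b) : Sy ℤ k) = Ideal.Quotient.mk (FI f k) b :=
    Quotient.out_eq' _
  have h2 : (Quotient.out (Ideal.Quotient.mk (FI f k) b) : Sy ℤ k) - b ∈ FI f k :=
    Ideal.Quotient.eq.mp h1
  have h4 : vd k * (((Quotient.out (Ideal.Quotient.mk (FI f k) b) : Sy ℤ k) :
      MvPolynomial (Fin k) ℤ) - b) ∈ JJ f k := h2
  have h5 := h3 _ (Ideal.mul_mem_right P _ h4)
  rw [mul_sub, sub_mul, map_sub, sub_eq_zero] at h5
  exact h5

private theorem RpB_ex (b : FF f k) : ∃ s : Sy ℤ k, Ideal.Quotient.mk (FI f k) s = b :=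
  Ideal.Quotient.mk_surjective b

private theorem RpB_add (h3 : ∀ P ∈ JJ f k, (tk f m k).v P = 0) (b b' : FF f k)
    (P : MvPolynomial (Fin k) ℤ) : pr f m k (b + b') P = pr f m k b P + pr f m k b' P := by
  obtain ⟨s, rfl⟩ := RpB_ex f k b
  obtain ⟨s', rfl⟩ := RpB_ex f k b'
  rw [← map_add, RpB_mk f m k h3, RpB_mk f m k h3, RpB_mk f m k h3, ← map_add]
  congr 1
  rw [AddMemClass.coe_add]
  ring

private theorem RpB_zero (h3 : ∀ P ∈ JJ f k, (tk f m k).v P = 0)
    (P : MvPolynomial (Fin k) ℤ) : pr f m k 0 P = 0 := by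
  have h := RpB_add f m k h3 0 0 P
  rw [add_zero] at h
  omega

private theorem RpB_sum (h3 : ∀ P ∈ JJ f k, (tk f m k).v P = 0) {ι : Type} (S : Finset ι)
    (g : ι → FF f k) (P : MvPolynomial (Fin k) ℤ) :
    pr f m k (∑ i ∈ S, g i) P = ∑ i ∈ S, pr f m k (g i) P := by
  classical
  induction S using Finset.induction_on with
  | empty => rw [Finset.sum_empty, Finset.sum_empty, RpB_zero f m k h3]
  | insert a S ha ih => rw [Finset.sum_insert ha, Finset.sum_insert ha, RpB_add f m k h3, ih]

private theorem RpB_mul (h3 : ∀ P ∈ JJ f k, (tk f m k).v P = 0) (s : Sy ℤ k) (b : FF f k)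
    (P : MvPolynomial (Fin k) ℤ) :
    pr f m k (Ideal.Quotient.mk (FI f k) s * b) P =
      pr f m k b ((s : MvPolynomial (Fin k) ℤ) * P) := by
  obtain ⟨t, rfl⟩ := RpB_ex f k b
  rw [← map_mul, RpB_mk f m k h3, RpB_mk f m k h3]
  congr 1
  rw [MulMemClass.coe_mul]
  ring

private theorem RpB_padd (b : FF f k) (P Q : MvPolynomial (Fin k) ℤ) :
    pr f m k b (P + Q) = pr f m k b P + pr f m k b Q := by
  unfold pr
  rw [mul_add, map_add]

private theorem RpB_pmon (b : FF f k) (s : Fin k →₀ ℕ) (a : ℤ) :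
    pr f m k b (monomial s a) = a * pr f m k b (monomial s 1) := by
  unfold pr
  have h : (monomial s a : MvPolynomial (Fin k) ℤ) = a • monomial s 1 := by
    rw [smul_monomial, smul_eq_mul, mul_one]
  rw [h, mul_smul_comm, map_smul, smul_eq_mul]

private theorem RpB_nd (h3 : ∀ P ∈ JJ f k, (tk f m k).v P = 0)
    (h4 : ∀ h, (∀ P, (tk f m k).v (h * P) = 0) → h ∈ JJ f k) (b b' : FF f k)
    (h : ∀ P, pr f m k b P = pr f m k b' P) : b = b' := by
  obtain ⟨s, rfl⟩ := RpB_ex f k b
  obtain ⟨s', rfl⟩ := RpB_ex f k b'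
  refine Ideal.Quotient.eq.mpr ?_
  change vd k * ((s : MvPolynomial (Fin k) ℤ) - s') ∈ JJ f k
  refine h4 _ (fun P => ?_)
  have h5 := h P
  rw [RpB_mk f m k h3, RpB_mk f m k h3] at h5
  rw [mul_sub, sub_mul, map_sub, h5, sub_self]

private theorem RpB_mon (b : FF f k) (h : ∀ s, pr f m k b (monomial s 1) = 0)
    (P : MvPolynomial (Fin k) ℤ) : pr f m k b P = 0 := by
  induction P using MvPolynomial.induction_on' with
  | monomial s a => rw [RpB_pmon, h, mul_zero]
  | add p q hp hq => rw [RpB_padd, hp, hq, add_zero]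

end

section

variable {m : ℕ}

private theorem RpB_ext {u w : In m} (h : ∀ β, u.v β = w.v β) : u = w :=
  Finsupp.ext (f := (show (Fin m → ℕ) →₀ ℤ from u)) (g := (show (Fin m → ℕ) →₀ ℤ from w)) h

private theorem RpB_C (a : ℤ) (u : In m) (β : Fin m → ℕ) :
    ((C a : Lm m) • u).v β = a * u.v β := by
  have h := In.smul_v 0 a u β
  have h1 : (β + (⇑(0 : Fin m →₀ ℕ)) : Fin m → ℕ) = β := by
    funext i
    rfl
  rw [h1] at h
  exact h

private def RpB_ev (β : Fin m → ℕ) : In m →+ ℤ where
  toFun u := u.v β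
  map_zero' := rfl
  map_add' := fun u w => In.add_v u w β

private theorem RpB_sumv {ι : Type} (S : Finset ι) (g : ι → In m) (β : Fin m → ℕ) :
    (∑ i ∈ S, g i).v β = ∑ i ∈ S, (g i).v β :=
  map_sum (RpB_ev β) g S

end

section

variable (f : Polynomial ℤ) (m k : ℕ)

private theorem RpB_bcm (s : Fin k →₀ ℕ) (a : ℤ) :
    bc m k (monomial s a) = monomial s (C a : Lm m) := map_monomial _ _ _

private theorem RpB_xe (a : Fin k) (q : Polynomial ℤ) :
    bc m k (xe a q) = xe a (fm q m) := by
  have h : bc m k (xe a q) = Polynomial.eval₂ ((bc m k).comp (algebraMap ℤ (MvPolynomial (Fin k) ℤ)))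
      (bc m k (X a)) q := Polynomial.hom_eval₂ q _ (bc m k) (X a)
  have h1 : xe a (fm q m) = Polynomial.eval₂ (algebraMap (Lm m) (MvPolynomial (Fin k) (Lm m)))
      (X a) (q.map (C : ℤ →+* MvPolynomial (Fin m) ℤ)) := rfl
  rw [h, h1, Polynomial.eval₂_map]
  have h2 : bc m k (X a) = X a := map_X _ _
  have h3 : (bc m k).comp (algebraMap ℤ (MvPolynomial (Fin k) ℤ)) =
      (algebraMap (Lm m) (MvPolynomial (Fin k) (Lm m))).comp (C : ℤ →+* MvPolynomial (Fin m) ℤ) :=
    RingHom.ext_int _ _
  rw [h2, h3]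

/-- A family of values on the monomials determines the values on all polynomials. -/
private theorem RpB_iff (c : (Fin m → ℕ) → FF f k) (w : Fu (Lm m) k (In m))
    (h : ∀ (s : Fin k →₀ ℕ) (β : Fin m → ℕ), (w.v (monomial s 1)).v β =
      pr f m k (c β) (monomial s 1)) : Rp f c w := by
  intro P β
  induction P using MvPolynomial.induction_on' with
  | monomial s a =>
    rw [RpB_bcm, RpB_pmon]
    have h1 : (monomial s (C a : Lm m) : MvPolynomial (Fin k) (Lm m)) = (C a : Lm m) • monomial s 1 := by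
      rw [smul_monomial, smul_eq_mul, mul_one]
    rw [h1, map_smul, RpB_C, h]
  | add p q hp hq => rw [map_add, map_add, In.add_v, hp, hq, RpB_padd]

private theorem RpB_uni (w w' : Fu (Lm m) k (In m))
    (h : ∀ (s : Fin k →₀ ℕ), w.v (monomial s 1) = w'.v (monomial s 1)) : w = w' := by
  refine LinearMap.ext (fun p => ?_)
  change w.v p = w'.v p
  induction p using MvPolynomial.induction_on' with
  | monomial s a =>
    have h1 : (monomial s a : MvPolynomial (Fin k) (Lm m)) = a • monomial s 1 := by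
      rw [smul_monomial, smul_eq_mul, mul_one]
    rw [h1, map_smul, map_smul, h]
  | add p q hp hq => rw [map_add, map_add, hp, hq]

private theorem RpB_lc (l i : ℕ) :
    lc k (Polynomial.X ^ l : Polynomial (Lm m)) i = bc m k (lc k (Polynomial.X ^ l : Polynomial ℤ) i) := by
  have hm : (gg ℤ k).Monic :=
    Polynomial.monic_prod_of_monic _ _ (fun a _ => Polynomial.monic_X_sub_C _)
  have h := Polynomial.map_modByMonic (bc m k) hm
    (p := (Polynomial.X ^ l : Polynomial ℤ).map (C : ℤ →+* MvPolynomial (Fin k) ℤ))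
  have h1 := congrArg (fun r => Polynomial.coeff r i) h
  simp only [Polynomial.coeff_map] at h1
  have hg : (gg ℤ k).map (bc m k) = gg (Lm m) k := by
    rw [gg, gg, Polynomial.map_prod]
    refine Finset.prod_congr rfl (fun a _ => ?_)
    rw [Polynomial.map_sub, Polynomial.map_X, Polynomial.map_C]
    congr 2
    exact map_X _ _
  rw [hg] at h1
  simp only [Polynomial.map_pow, Polynomial.map_X] at h1
  unfold lc
  rw [Polynomial.map_pow, Polynomial.map_X, Polynomial.map_pow, Polynomial.map_X]
  exact h1.symm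

private theorem RpB_lcg (hG : S_Gg) (i : ℕ) :
    lc k (gen m) i = ∑ l : Fin m, C (X l : Lm m) * bc m k (lc k (Polynomial.X ^ l.val : Polynomial ℤ) i) := by
  obtain ⟨-, -, h3, h4, -⟩ := hG (Lm m) k
  have h0 : lc k (0 : Polynomial (Lm m)) i = 0 := by
    have h := h3 0 0 i
    rw [add_zero] at h
    exact (left_eq_add.mp h)
  have h5 : ∀ (S : Finset (Fin m)), lc k (∑ l ∈ S, Polynomial.C (X l : Lm m) * Polynomial.X ^ l.val) i =
      ∑ l ∈ S, C (X l : Lm m) * bc m k (lc k (Polynomial.X ^ l.val : Polynomial ℤ) i) := by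
    intro S
    classical
    induction S using Finset.induction_on with
    | empty => rw [Finset.sum_empty, Finset.sum_empty, h0]
    | insert a S ha ih => rw [Finset.sum_insert ha, Finset.sum_insert ha, h3, h4, ih, RpB_lc]
  exact h5 Finset.univ

/-- The value of index `s` of the functional represented by `c`. -/
private def RpB_val (h3 : ∀ P ∈ JJ f k, (tk f m k).v P = 0) (d : ℕ) (c : (Fin m → ℕ) → FF f k)
    (hc : c ∈ fn (FF f k) m ∅ d) (P : MvPolynomial (Fin k) ℤ) : In m :=
  (Finsupp.onFinset (Finset.piAntidiag Finset.univ d) (fun β => pr f m k (c β) P) (fun β h => by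
    rw [Finset.mem_piAntidiag]
    refine ⟨(hc β (fun h0 => h ?_)).1, fun i _ => Finset.mem_univ i⟩
    rw [h0]
    exact RpB_zero f m k h3 P) : (Fin m → ℕ) →₀ ℤ)

end

theorem pRpB (hA : S_AlB) (hM : S_MkB) (hG : S_Gg) (hP : S_Prf) (hF : S_Frb) : S_RpB := by
  intro f m k hf hm
  obtain ⟨-, -, h3, h4, -, -⟩ := hP f m k hf hm
  obtain ⟨hF1, hF2⟩ := hF f m k hf hm
  have hX : ∀ c (w : Fu (Lm m) k (In m)) (a : Fin m), Rp f c w →
      Rp f (sf _ m a c) ((C (X a : Lm m) : MvPolynomial (Fin k) (Lm m)) • w) := by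
    intro c w a h P β
    change (w.v (C (X a : Lm m) * bc m k P)).v β = pr f m k (c (β + Pi.single a 1)) P
    rw [C_mul', map_smul, In.X_v]
    exact h P _
  refine ⟨?_, ?_, ?_, ?_, ?_, hX, ?_, ?_⟩
  · intro d c hc
    obtain ⟨hM1, hM2, hM3⟩ := hM (Lm m) (In m) k (fun s => RpB_val f m k h3 d c hc (monomial s 1))
    have hv : ∀ P β, (RpB_val f m k h3 d c hc P).v β = pr f m k (c β) P := fun P β => rfl
    refine ⟨Fu.mk (fun s => RpB_val f m k h3 d c hc (monomial s 1)), ?_, ?_, ?_, ?_⟩
    · refine RpB_iff f m k c _ (fun s β => ?_)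
      rw [hM1, one_smul]
      rfl
    · refine hM2 (fun a b hab s => ⟨fun hs => ?_, ?_⟩)
      · refine RpB_ext (fun β => ?_)
        rw [hv]
        refine (hF2 _ (Quotient.out (c β) : Sy ℤ k).2).1 a b hab (monomial s 1) ?_
        have h0 : s.mapDomain (Equiv.swap a b) = s := by
          refine Finsupp.ext (fun i => ?_)
          rw [Finsupp.mapDomain_equiv_apply, Equiv.symm_swap]
          by_cases h1 : i = a
          · rw [h1, Equiv.swap_apply_left, hs]
          · by_cases h2 : i = b
            · rw [h2, Equiv.swap_apply_right, hs]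
            · rw [Equiv.swap_apply_of_ne_of_ne h1 h2]
        rw [rename_monomial, h0]
      · refine RpB_ext (fun β => ?_)
        have h5 := (hA ℤ ℤ k ((vd k * ((Quotient.out (c β) : Sy ℤ k) : MvPolynomial (Fin k) ℤ)) •
          tk f m k) (hF2 _ (Quotient.out (c β) : Sy ℤ k).2).1).1 a b hab (monomial s 1)
        rw [rename_monomial] at h5
        exact h5
    · rw [hM3]
      intro a s
      refine RpB_ext (fun β => ?_)
      have h5 := (hF2 _ (Quotient.out (c β) : Sy ℤ k).2).2 a (monomial s 1)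
      have h6 : (fm f m).sum (fun i x => x • RpB_val f m k h3 d c hc
          (monomial (s + Finsupp.single a i) 1)) = ∑ i ∈ Finset.range (f.natDegree + 1),
          (C (f.coeff i) : Lm m) • RpB_val f m k h3 d c hc (monomial (s + Finsupp.single a i) 1) := by
        rw [Polynomial.sum_over_range' (fm f m) _ (f.natDegree + 1)
          (Nat.lt_succ_of_le (Polynomial.natDegree_map_le))]
        · refine Finset.sum_congr rfl (fun i _ => ?_)
          rw [fm, Polynomial.coeff_map]
        · intro i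
          exact zero_smul _ _
      have h7 : (xe a f * monomial s 1 : MvPolynomial (Fin k) ℤ) =
          ∑ i ∈ Finset.range (f.natDegree + 1), monomial (s + Finsupp.single a i) (f.coeff i) := by
        rw [xe, Polynomial.aeval_eq_sum_range, Finset.sum_mul]
        refine Finset.sum_congr rfl (fun i _ => ?_)
        rw [X_pow_eq_monomial, smul_monomial, monomial_mul, add_comm, smul_eq_mul, mul_one, mul_one]
      rw [h6, RpB_sumv]
      have h8 : ((vd k * ((Quotient.out (c β) : Sy ℤ k) : MvPolynomial (Fin k) ℤ)) • tk f m k).v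
          (xe a f * monomial s 1) = ∑ i ∈ Finset.range (f.natDegree + 1),
          pr f m k (c β) (monomial (s + Finsupp.single a i) (f.coeff i)) := by
        rw [h7, map_sum]
        rfl
      rw [h8] at h5
      change _ = (0 : ℤ)
      rw [← h5]
      refine Finset.sum_congr rfl (fun i _ => ?_)
      rw [RpB_C, hv, RpB_pmon f m k _ _ (f.coeff i)]
    · intro s β h
      rw [hM1, one_smul, hv] at h
      refine (hc β (fun h0 => h ?_)).1
      rw [h0]
      exact RpB_zero f m k h3 _
  · intro w hw1 hw2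
    have h5 : ∀ β : Fin m → ℕ, ∃ b : FF f k, ∀ P, (w.v (bc m k P)).v β = pr f m k b P := by
      intro β
      have h6 := hF1 (((RpB_ev β).comp (w.v.toAddMonoidHom.comp (bc m k).toAddMonoidHom)).toIntLinearMap :
        MvPolynomial (Fin k) ℤ →ₗ[ℤ] ℤ)
        (by
          intro a b hab p hp
          change (w.v (bc m k p)).v β = 0
          rw [hw1 a b hab (bc m k p) (by
            have h := map_rename (C : ℤ →+* MvPolynomial (Fin m) ℤ) (Equiv.swap a b) p
            rw [hp] at h
            exact h.symm)]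
          rfl)
        (by
          intro a p
          change (w.v (bc m k (xe a f * p))).v β = 0
          rw [map_mul, RpB_xe, hw2]
          rfl)
      obtain ⟨b, hb, h7⟩ := h6
      refine ⟨Ideal.Quotient.mk (FI f k) ⟨b, hb⟩, fun P => ?_⟩
      rw [RpB_mk f m k h3]
      exact h7 P
    choose c hc using h5
    exact ⟨c, fun P β => hc β P⟩
  · intro c w w' h h'
    refine RpB_uni m k w w' (fun s => RpB_ext (fun β => ?_))
    have h5 := h (monomial s 1) β
    have h6 := h' (monomial s 1) β
    rw [RpB_bcm, map_one] at h5 h6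
    rw [h5, h6]
  · intro c c' w h h'
    funext β
    exact RpB_nd f m k h3 h4 _ _ (fun P => by rw [← h P β, ← h' P β])
  · intro c c' w w' h h' P β
    change (w.v (bc m k P) + w'.v (bc m k P)).v β = pr f m k (c β + c' β) P
    rw [In.add_v, h P β, h' P β, RpB_add f m k h3]
  · intro c w i h hi P β
    obtain ⟨-, -, -, -, hG5⟩ := hG ℤ k
    change (w.v (lc k (gen m) i * bc m k P)).v β = _
    have h5 : ∀ l : Fin m, (w.v (C (X l : Lm m) * bc m k (lc k (Polynomial.X ^ l.val : Polynomial ℤ) i) *
        bc m k P)).v β = pr f m k (Ideal.Quotient.mk (FI f k)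
          ⟨lc k (Polynomial.X ^ l.val : Polynomial ℤ) i, lc_sym k _ _⟩ * c (β + Pi.single l 1)) P := by
      intro l
      rw [mul_assoc, ← map_mul, C_mul', map_smul, In.X_v, h, RpB_mul f m k h3]
    rw [RpB_lcg m k hG, Finset.sum_mul, map_sum, RpB_sumv, Finset.sum_congr rfl (fun l _ => h5 l),
      ← RpB_sum f m k h3]
    congr 1
    rw [← Finset.sum_filter_add_sum_filter_not Finset.univ (fun l : Fin m => k ≤ l.val), add_comm]
    change _ = sf (FF f k) m i c β + zo (FF f k) m k (rr f m k) i c β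
    congr 1
    · rw [Finset.sum_eq_single i]
      · have h6 : (⟨lc k (Polynomial.X ^ i.val : Polynomial ℤ) i, lc_sym k _ _⟩ : Sy ℤ k) = 1 := by
          refine Subtype.ext ?_
          change lc k (Polynomial.X ^ i.val : Polynomial ℤ) i = 1
          rw [hG5 i.val i.val hi, if_pos rfl]
        rw [h6, map_one, one_mul]
        rfl
      · intro l hl hli
        rw [Finset.mem_filter, not_le] at hl
        have h6 : (⟨lc k (Polynomial.X ^ l.val : Polynomial ℤ) i, lc_sym k _ _⟩ : Sy ℤ k) = 0 := by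
          refine Subtype.ext ?_
          change lc k (Polynomial.X ^ l.val : Polynomial ℤ) i = 0
          rw [hG5 l.val i.val hl.2, if_neg (fun h => hli (Fin.ext h))]
        rw [h6, map_zero, zero_mul]
      · intro h6
        refine absurd ?_ h6
        rw [Finset.mem_filter]
        exact ⟨Finset.mem_univ i, not_le.mpr hi⟩
    · rw [zo, LinearMap.sum_apply, Finset.sum_apply]
      rfl
  · intro c w d h hd β hβ
    refine ⟨?_, fun i hi => absurd hi (Finset.notMem_empty i)⟩
    by_contra h5
    refine hβ (RpB_nd f m k h3 h4 _ _ (fun P => ?_))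
    rw [RpB_zero f m k h3]
    refine RpB_mon f m k _ (fun s => ?_) P
    by_contra h6
    refine h5 (hd s β ?_)
    have h7 := h (monomial s 1) β
    rw [RpB_bcm, map_one] at h7
    rw [h7]
    exact h6

end HMx
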