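import Pool.Agent.Lib.MP_181146_gt.HM.SpecM

/-!
# Project HM, module Rs1: resultant identity for one argument
-/

set_option autoImplicit false

namespace HMx

open MvPolynomial

section

variable {L : Type} [CommRing L]

private theorem Rs1_div (p : Polynomial L) (s : L) :
    Polynomial.C (p.eval s) + (Polynomial.X - Polynomial.C s) * (p /ₘ (Polynomial.X - Polynomial.C s))
      = p := by
  have h := Polynomial.modByMonic_add_div p (Polynomial.X - Polynomial.C s)
  rwa [Polynomial.modByMonic_X_sub_C_eq_C_eval] at h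

private theorem Rs1_uni {p q : Polynomial L} {s c : L}
    (h : Polynomial.C c + (Polynomial.X - Polynomial.C s) * q = p) :
    p /ₘ (Polynomial.X - Polynomial.C s) = q := by
  rcases subsingleton_or_nontrivial L with h0 | h0
  · exact Subsingleton.elim _ _
  · refine (Polynomial.div_modByMonic_unique q (Polynomial.C c) (Polynomial.monic_X_sub_C s)
      ⟨h, ?_⟩).1
    rw [Polynomial.degree_X_sub_C]
    exact lt_of_le_of_lt Polynomial.degree_C_le (by decide)

private theorem Rs1_mulX (p : Polynomial L) (s : L) :
    (p * Polynomial.X) /ₘ (Polynomial.X - Polynomial.C s) =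
      (p /ₘ (Polynomial.X - Polynomial.C s)) * Polynomial.X + Polynomial.C (p.eval s) := by
  refine Rs1_uni (c := s * p.eval s) ?_
  have h := Rs1_div p s
  conv_rhs => rw [← h]
  rw [map_mul]
  ring

private theorem Rs1_addC (p : Polynomial L) (a s : L) :
    (p + Polynomial.C a) /ₘ (Polynomial.X - Polynomial.C s) =
      p /ₘ (Polynomial.X - Polynomial.C s) := by
  refine Rs1_uni (c := p.eval s + a) ?_
  have h := Rs1_div p s
  conv_rhs => rw [← h]
  rw [map_add]
  ring

private theorem Rs1_sym (p : Polynomial L) (s t : L) :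
    (p /ₘ (Polynomial.X - Polynomial.C s)).eval t =
      (p /ₘ (Polynomial.X - Polynomial.C t)).eval s := by
  induction p using Polynomial.recOnHorner with
  | M0 => rw [Polynomial.zero_divByMonic, Polynomial.zero_divByMonic, Polynomial.eval_zero,
      Polynomial.eval_zero]
  | MC p a _ _ ih => rw [Rs1_addC, Rs1_addC, ih]
  | MX p _ ih =>
    rw [Rs1_mulX, Rs1_mulX]
    have h1 := congrArg (Polynomial.eval t) (Rs1_div p s)
    simp only [Polynomial.eval_add, Polynomial.eval_mul, Polynomial.eval_sub, Polynomial.eval_X,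
      Polynomial.eval_C] at h1 ⊢
    linear_combination h1 + s * ih

variable {W : Type} [AddCommGroup W] [Module L W]

/-- The functional `q ↦ u (q (x 0))`. -/
private noncomputable def Rs1_U (u : Fu L 1 W) : Polynomial L →ₗ[L] W :=
  u.v ∘ₗ (Polynomial.aeval (X 0 : MvPolynomial (Fin 1) L)).toLinearMap

private theorem Rs1_U_apply (u : Fu L 1 W) (q : Polynomial L) : Rs1_U u q = u.v (xe 0 q) := rfl

private theorem Rs1_ki {u : Fu L 1 W} {q : Polynomial L} (h : Ki q u) (r : Polynomial L) :
    Rs1_U u (q * r) = 0 := by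
  rw [Rs1_U_apply]
  have h1 := h 0 (xe 0 r)
  have h2 : xe (0 : Fin 1) (q * r) = xe 0 q * xe 0 r := map_mul _ _ _
  rw [h2]
  exact h1

private theorem Rs1_step1 {u : Fu L 1 W} {φ : Polynomial L} (h : Ki φ u) (ts : List L) :
    ∀ Q : Polynomial L, (ts.map fun s => φ.eval s).prod • Rs1_U u Q =
      ((-1 : L) ^ ts.length) • Rs1_U u (pl ts *
        (ts.map fun s => φ /ₘ (Polynomial.X - Polynomial.C s)).prod * Q) := by
  induction ts with
  | nil =>
    intro Q
    simp only [List.map_nil, List.prod_nil, List.length_nil, pow_zero, pl, one_mul]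
  | cons s ts ih =>
    intro Q
    have e1 : pl (s :: ts) = (Polynomial.X - Polynomial.C s) * pl ts := by
      simp only [pl, List.map_cons, List.prod_cons]
    rw [e1, List.map_cons, List.prod_cons, List.map_cons, List.prod_cons, List.length_cons, mul_smul,
      ih Q, smul_comm, ← map_smul, pow_succ, mul_smul]
    congr 1
    rw [neg_smul, one_smul, ← map_neg, ← sub_eq_zero, ← map_sub]
    have e2 : φ.eval s • (pl ts *
          (ts.map fun s => φ /ₘ (Polynomial.X - Polynomial.C s)).prod * Q) -
        -((Polynomial.X - Polynomial.C s) * pl ts *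
          (φ /ₘ (Polynomial.X - Polynomial.C s) *
            (ts.map fun s => φ /ₘ (Polynomial.X - Polynomial.C s)).prod) * Q) =
        φ * (pl ts * (ts.map fun s => φ /ₘ (Polynomial.X - Polynomial.C s)).prod * Q) := by
      rw [Polynomial.smul_eq_C_mul]
      have h3 := Rs1_div φ s
      linear_combination (pl ts *
        (ts.map fun s => φ /ₘ (Polynomial.X - Polynomial.C s)).prod * Q) * h3
    rw [e2]
    exact Rs1_ki h _

theorem pRs1 : S_Rs1 := by
  intro L _ W _ _ ts t φ u h1 h2
  have e1 := Rs1_step1 h1 ts 1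
  have e2 : Rs1_U u 1 = u.v 1 := by
    rw [Rs1_U_apply]
    congr 1
    exact map_one _
  rw [e2, mul_one] at e1
  rw [e1, mul_smul]
  congr 1
  have e3 : ∀ q : Polynomial L, Rs1_U u (pl ts * q) = q.eval t • Rs1_U u (pl ts) := by
    intro q
    rw [← map_smul, ← sub_eq_zero, ← map_sub]
    have e4 : pl ts * q - q.eval t • pl ts =
        ((Polynomial.X - Polynomial.C t) * pl ts) * (q /ₘ (Polynomial.X - Polynomial.C t)) := by
      rw [Polynomial.smul_eq_C_mul]
      have h3 := Rs1_div q t
      conv_lhs => rw [← h3]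
      simp only [Polynomial.eval_add, Polynomial.eval_mul, Polynomial.eval_sub, Polynomial.eval_X,
        Polynomial.eval_C, sub_self, zero_mul, add_zero]
      ring
    rw [e4]
    exact Rs1_ki h2 _
  rw [e3, Rs1_U_apply]
  congr 1
  rw [Polynomial.eval_list_prod, List.map_map]
  congr 1
  refine List.map_congr_left fun s _ => ?_
  exact Rs1_sym φ s t

end

end HMx
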