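import Pool.Agent.Lib.MP_181146_gt.HM.DefsG

set_option autoImplicit false

namespace HMx

private theorem Sec_low_self {m : ℕ} (i : Fin m) (β : Fin m → ℕ) :
    low i (β + Pi.single i 1) = β := by
  funext l
  by_cases h : l = i
  · subst h
    simp only [low, Function.update_self, Pi.add_apply, Pi.single_eq_same]
    omega
  · simp only [low, Function.update_of_ne h, Pi.add_apply, Pi.single_eq_of_ne h, add_zero]

private theorem Sec_low_ne {m : ℕ} {i a : Fin m} (h : a ≠ i) (β : Fin m → ℕ) :
    low i (β + Pi.single a 1) = low i β + Pi.single a 1 := by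
  funext l
  by_cases h1 : l = i
  · subst h1
    simp only [low, Function.update_self, Pi.add_apply, Pi.single_eq_of_ne (Ne.symm h), add_zero]
  · simp only [low, Function.update_of_ne h1, Pi.add_apply]

private theorem Sec_app {F : Type} [CommRing F] {m : ℕ} (i : Fin m) (u : (Fin m → ℕ) → F)
    (β : Fin m → ℕ) : tu F m i u β = if β i = 0 then 0 else u (low i β) := by
  change (if β i = 0 then (0 : ((Fin m → ℕ) → F) →ₗ[F] F) else LinearMap.proj (low i β)) u = _
  split_ifs <;> rfl

private theorem Sec_sf {F : Type} [CommRing F] {m : ℕ} {i a : Fin m} (h : a ≠ i)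
    (u : (Fin m → ℕ) → F) : sf F m a (tu F m i u) = tu F m i (sf F m a u) := by
  funext β
  change tu F m i u (β + Pi.single a 1) = _
  rw [Sec_app, Sec_app, Sec_low_ne h]
  have e : (β + Pi.single a 1 : Fin m → ℕ) i = β i := by
    rw [Pi.add_apply, Pi.single_eq_of_ne (Ne.symm h), add_zero]
  rw [e]
  rfl

theorem pSec : S_Sec := by
  intro F _ m c r S i hi hS
  refine ⟨fun d u hu β hβ => ?_, fun u => ?_, fun a ha u => ?_, fun j u => ?_⟩
  · rw [Sec_app] at hβ
    split_ifs at hβ with h0
    · exact absurd rfl hβ
    · obtain ⟨h1, h2⟩ := hu _ hβ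
      constructor
      · have e : ∑ l, low i β l + 1 = ∑ l, β l := by
          rw [← Finset.add_sum_erase _ _ (Finset.mem_univ i),
            ← Finset.add_sum_erase _ β (Finset.mem_univ i)]
          have e1 : ∑ l ∈ Finset.univ.erase i, low i β l = ∑ l ∈ Finset.univ.erase i, β l :=
            Finset.sum_congr rfl (fun l hl => by
              rw [low, Function.update_of_ne (Finset.ne_of_mem_erase hl)])
          rw [e1, low, Function.update_self]
          omega
        omega
      · intro l hl
        have h3 := h2 l hl
        have hne : l ≠ i := fun h => hi (h ▸ hl)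
        rwa [low, Function.update_of_ne hne] at h3
  · funext β
    change tu F m i u (β + Pi.single i 1) = _
    rw [Sec_app, Sec_low_self, if_neg]
    rw [Pi.add_apply, Pi.single_eq_same]
    omega
  · unfold yo
    split_ifs with h
    · have hc : i.val < c := hS ⟨a, h⟩
      simp only [LinearMap.neg_apply, map_neg, zo, LinearMap.sum_apply, LinearMap.smul_apply,
        map_sum, map_smul]
      congr 1
      refine Finset.sum_congr rfl (fun l hl => ?_)
      rw [Sec_sf]
      rintro rfl
      exact absurd hc (not_lt.mpr (Finset.mem_filter.mp hl).2)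
    · exact Sec_sf ha u
  · by_cases hij : j = i
    · subst hij
      rfl
    · funext β
      rw [Sec_app, Sec_app, Sec_app, Sec_app]
      have e1 : low j β i = β i := by rw [low, Function.update_of_ne (Ne.symm hij)]
      have e2 : low i β j = β j := by rw [low, Function.update_of_ne hij]
      have e3 : low i (low j β) = low j (low i β) := by
        simp only [low, Function.update_of_ne (Ne.symm hij), Function.update_of_ne hij]
        exact Function.update_comm (Ne.symm hij) _ _ _ |>.symm
      rw [e1, e2, e3]
      split_ifs <;> rfl

end HMx
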