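import Pool.Agent.Lib.MP_181146_gt.HM.SpecM

set_option autoImplicit false

namespace HMx

section

variable {A N : Type} [CommRing A] [AddCommGroup N] [Module A N]

/-- Change of variables. -/
private theorem SoL_chg {m k : ℕ} {y : ℕ → A} {r : ℕ → ℕ → A} (h : Sol A N (Finset.range m) y)
    (hk : k ≤ m) : Sol A N (Finset.range m)
      (fun j => if j < k then y j + ∑ i ∈ Finset.Ico k m, r j i * y i else y j) := by
  intro c hc
  set z : ℕ → A := fun j => if j < k then y j + ∑ i ∈ Finset.Ico k m, r j i * y i else y j with hz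
  have zlt : ∀ j, j < k → z j = y j + ∑ i ∈ Finset.Ico k m, r j i * y i := fun j hj => by
    simp only [hz, if_pos hj]
  have zge : ∀ j, k ≤ j → z j = y j := fun j hj => by
    simp only [hz, if_neg (not_lt.mpr hj)]
  let c' : ℕ → N := fun j => if j < k then c j - ∑ i ∈ Finset.Ico k m, r j i • c i else c j
  have clt : ∀ j, j < k → c' j = c j - ∑ i ∈ Finset.Ico k m, r j i • c i := fun j hj => by
    simp only [c', if_pos hj]
  have cge : ∀ j, k ≤ j → c' j = c j := fun j hj => by
    simp only [c', if_neg (not_lt.mpr hj)]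
  have hm : ∀ j, j < k → j ∈ Finset.range m := fun j hj => Finset.mem_range.mpr (by omega)
  have hI : ∀ i ∈ Finset.Ico k m, i ∈ Finset.range m ∧ k ≤ i := fun i hi =>
    ⟨Finset.mem_range.mpr (Finset.mem_Ico.mp hi).2, (Finset.mem_Ico.mp hi).1⟩
  -- `y i • c j = z j • c i` for `i ≥ k`
  have e1 : ∀ i ∈ Finset.Ico k m, ∀ j ∈ Finset.range m, y i • c j = z j • c i := by
    intro i hi j hj
    have h1 := hc i (hI i hi).1 j hj
    rw [← h1, zge i (hI i hi).2]
  have e2 : ∀ a, a < k → ∀ b ∈ Finset.Ico k m, y a • c' b = y b • c' a := by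
    intro a ha b hb
    rw [cge b (hI b hb).2, clt a ha, smul_sub, e1 b hb a (hm a ha), zlt a ha, add_smul,
      Finset.sum_smul, Finset.smul_sum]
    have : ∀ i ∈ Finset.Ico k m, y b • r a i • c i = (r a i * y i) • c b := by
      intro i hi
      rw [smul_comm, mul_smul, ← zge i (hI i hi).2, hc i (hI i hi).1 b (hI b hb).1,
        zge b (hI b hb).2]
    rw [Finset.sum_congr rfl this]
    abel
  have e3 : ∀ a, a < k → ∀ b, b < k → y a • c' b = y b • c' a := by
    intro a ha b hb
    have f1 : ∀ a, a < k → ∀ b, b < k → y a • c' b = z a • c b -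
        ∑ i ∈ Finset.Ico k m, (r a i) • (z b • c i) - ∑ i ∈ Finset.Ico k m, (r b i) • (z a • c i) +
        ∑ i ∈ Finset.Ico k m, ∑ j ∈ Finset.Ico k m, (r a i * r b j) • (y i • c j) := by
      intro a ha b hb
      have g1 : y a = z a - ∑ i ∈ Finset.Ico k m, r a i * y i := by
        rw [zlt a ha]
        ring
      rw [clt b hb, g1, smul_sub, sub_smul, sub_smul, Finset.sum_smul, Finset.sum_smul,
        Finset.smul_sum]
      have g2 : ∀ i ∈ Finset.Ico k m, (r a i * y i) • c b = r a i • (z b • c i) := by
        intro i hi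
        rw [mul_smul, e1 i hi b (hm b hb)]
      have g3 : ∀ i ∈ Finset.Ico k m, z a • r b i • c i = r b i • (z a • c i) := fun i _ =>
        smul_comm _ _ _
      have g4 : ∀ i ∈ Finset.Ico k m, (r a i * y i) • ∑ j ∈ Finset.Ico k m, r b j • c j =
          ∑ j ∈ Finset.Ico k m, (r a i * r b j) • (y i • c j) := by
        intro i _
        rw [Finset.smul_sum]
        refine Finset.sum_congr rfl (fun j _ => ?_)
        rw [smul_smul, smul_smul]
        congr 1
        ring
      rw [Finset.sum_congr rfl g2, Finset.sum_congr rfl g3, Finset.sum_congr rfl g4]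
      abel
    rw [f1 a ha b hb, f1 b hb a ha, hc a (hm a ha) b (hm b hb)]
    have g5 : ∑ i ∈ Finset.Ico k m, ∑ j ∈ Finset.Ico k m, (r a i * r b j) • (y i • c j) =
        ∑ i ∈ Finset.Ico k m, ∑ j ∈ Finset.Ico k m, (r b i * r a j) • (y i • c j) := by
      rw [Finset.sum_comm]
      refine Finset.sum_congr rfl (fun i hi => Finset.sum_congr rfl (fun j hj => ?_))
      rw [mul_comm (r a j), e1 j hj i (hI i hi).1, zge i (hI i hi).2]
    rw [g5]
    abel
  have e4 : ∀ i ∈ Finset.range m, ∀ j ∈ Finset.range m, y i • c' j = y j • c' i := by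
    intro i hi j hj
    rw [Finset.mem_range] at hi hj
    by_cases h1 : i < k
    · by_cases h2 : j < k
      · exact e3 i h1 j h2
      · exact e2 i h1 j (Finset.mem_Ico.mpr ⟨not_lt.mp h2, hj⟩)
    · by_cases h2 : j < k
      · exact (e2 j h2 i (Finset.mem_Ico.mpr ⟨not_lt.mp h1, hi⟩)).symm
      · have h1' := not_lt.mp h1
        have h2' := not_lt.mp h2
        rw [cge i h1', cge j h2', ← zge i h1', ← zge j h2']
        exact hc i (Finset.mem_range.mpr hi) j (Finset.mem_range.mpr hj)
  obtain ⟨w, hw⟩ := h c' e4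
  refine ⟨w, fun j hj => ?_⟩
  by_cases h1 : j < k
  · rw [zlt j h1, add_smul, hw j hj, clt j h1, Finset.sum_smul]
    have : ∀ i ∈ Finset.Ico k m, (r j i * y i) • w = r j i • c i := by
      intro i hi
      rw [mul_smul, hw i (hI i hi).1, cge i (hI i hi).2]
    rw [Finset.sum_congr rfl this, sub_add_cancel]
  · rw [zge j (not_lt.mp h1), hw j hj, cge j (not_lt.mp h1)]

/-- Drop one index. -/
private theorem SoL_drop {S : Finset ℕ} {a : ℕ} {z : ℕ → A} (h : Sol A N (insert a S) z)
    (ha : a ∉ S) (hn : Nl A N (z a)) : Sol A N S z := by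
  have key : ∀ n : ℕ, ∀ c : ℕ → N, (∀ j ∈ S, z a ^ n • c j = 0) →
      (∀ i ∈ S, ∀ j ∈ S, z i • c j = z j • c i) → ∃ w : N, ∀ i ∈ S, z i • w = c i := by
    intro n
    induction n with
    | zero =>
      intro c h0 _
      refine ⟨0, fun i hi => ?_⟩
      have := h0 i hi
      rw [pow_zero, one_smul] at this
      rw [this, smul_zero]
    | succ n ih =>
      intro c h0 hc
      obtain ⟨v, hv⟩ := ih (fun j => z a • c j)
        (fun j hj => by rw [smul_smul, ← pow_succ]; exact h0 j hj)
        (fun i hi j hj => by rw [smul_comm, hc i hi j hj, smul_comm])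
      have hne : ∀ j ∈ S, j ≠ a := fun j hj e => ha (e ▸ hj)
      obtain ⟨w, hw⟩ := h (Function.update c a v) (by
        intro i hi j hj
        rcases Finset.mem_insert.mp hi with rfl | hi'
        · rcases Finset.mem_insert.mp hj with rfl | hj'
          · rfl
          · rw [Function.update_self, Function.update_of_ne (hne j hj'), hv j hj']
        · rcases Finset.mem_insert.mp hj with rfl | hj'
          · rw [Function.update_self, Function.update_of_ne (hne i hi'), hv i hi']
          · rw [Function.update_of_ne (hne i hi'), Function.update_of_ne (hne j hj')]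
            exact hc i hi' j hj')
      refine ⟨w, fun i hi => ?_⟩
      rw [hw i (Finset.mem_insert_of_mem hi), Function.update_of_ne (hne i hi)]
  intro c hc
  choose n hn' using fun j => hn (c j)
  refine key (∑ j ∈ S, n j) c (fun j hj => ?_) hc
  obtain ⟨e, he⟩ := Nat.exists_eq_add_of_le (Finset.single_le_sum (f := n) (fun i _ => Nat.zero_le _) hj)
  rw [he, add_comm, pow_add, mul_smul, hn' j, smul_zero]

end

theorem pSoL : S_SoL := by
  intro A N _ _ _ m k y r hk h hn
  set z : ℕ → A := fun j => if j < k then y j + ∑ i ∈ Finset.Ico k m, r j i * y i else y j with hz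
  have h1 : Sol A N (Finset.range m) z := SoL_chg h hk
  have h2 : ∀ d, d ≤ m - k → Sol A N (Finset.range (m - d)) z := by
    intro d
    induction d with
    | zero => exact fun _ => h1
    | succ d ih =>
      intro hd
      have h3 := ih (by omega)
      have e : m - d = m - (d + 1) + 1 := by omega
      rw [e, Finset.range_add_one] at h3
      refine SoL_drop h3 Finset.notMem_range_self ?_
      have : z (m - (d + 1)) = y (m - (d + 1)) := by
        simp only [hz]
        rw [if_neg (by omega)]
      rw [this]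
      exact hn _ (by omega)
  have h3 := h2 (m - k) le_rfl
  rw [Nat.sub_sub_self hk] at h3
  intro c hc
  obtain ⟨w, hw⟩ := h3 c (fun i hi j hj => by
    have hi' := Finset.mem_range.mp hi
    have hj' := Finset.mem_range.mp hj
    simp only [hz, if_pos hi', if_pos hj']
    exact hc i hi j hj)
  refine ⟨w, fun i hi => ?_⟩
  have hi' := Finset.mem_range.mp hi
  have := hw i hi
  simp only [hz, if_pos hi'] at this
  exact this

end HMx
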