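import Pool.Agent.Lib.MP_181146_gt.HM.SpecM

/-!
# Project HM: splitting ring with a retraction (`S_SpR`)

Author helper69, after the docstring of `S_SpR`.
-/

set_option autoImplicit false

noncomputable section

namespace HMx

open MvPolynomial

theorem pSpR : S_SpR := by
  intro n
  induction n with
  | zero =>
    intro L _ f hf h0
    refine ⟨L, inferInstance, Algebra.id L, LinearMap.id, [], inferInstance, inferInstance, rfl,
      rfl, ?_⟩
    rw [(Polynomial.Monic.natDegree_eq_zero hf).1 h0, Polynomial.map_one]
    rfl
  | succ n ih =>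
    intro L _ f hf hn
    have hL : Nontrivial L := by
      by_contra hne
      have := not_nontrivial_iff_subsingleton.1 hne
      rw [Subsingleton.elim f 0, Polynomial.natDegree_zero] at hn
      omega
    set pb := AdjoinRoot.powerBasis' hf with hpb
    have hdim : 0 < pb.dim := by
      change 0 < f.natDegree
      omega
    let ρ₁ : AdjoinRoot f →ₗ[L] L := pb.basis.coord ⟨0, hdim⟩
    have hρ₁ : ρ₁ 1 = 1 := by
      have h1 : (1 : AdjoinRoot f) = pb.basis ⟨0, hdim⟩ := by
        rw [PowerBasis.basis_eq_pow]
        exact (pow_zero _).symm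
      change pb.basis.coord ⟨0, hdim⟩ 1 = 1
      rw [h1, Module.Basis.coord_apply, Module.Basis.repr_self, Finsupp.single_eq_same]
    have : Nontrivial (AdjoinRoot f) := by
      refine ⟨⟨1, 0, fun h => ?_⟩⟩
      rw [h, map_zero] at hρ₁
      exact zero_ne_one hρ₁
    have : Module.Free L (AdjoinRoot f) := Module.Free.of_basis pb.basis
    have : Module.Finite L (AdjoinRoot f) := pb.finite
    set x : AdjoinRoot f := AdjoinRoot.root f with hx
    set F : Polynomial (AdjoinRoot f) := f.map (algebraMap L (AdjoinRoot f)) with hF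
    have hFm : F.Monic := hf.map _
    have hroot : F.IsRoot x := AdjoinRoot.isRoot_root f
    set g : Polynomial (AdjoinRoot f) := F /ₘ (Polynomial.X - Polynomial.C x) with hg
    have hfac : (Polynomial.X - Polynomial.C x) * g = F :=
      Polynomial.mul_divByMonic_eq_iff_isRoot.2 hroot
    have hgm : g.Monic := by
      refine Polynomial.Monic.of_mul_monic_left (Polynomial.monic_X_sub_C x) ?_
      rw [hfac]
      exact hFm
    have hgn : g.natDegree = n := by
      rw [hg, Polynomial.natDegree_divByMonic _ (Polynomial.monic_X_sub_C x),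
        Polynomial.natDegree_X_sub_C, hF, Polynomial.Monic.natDegree_map hf, hn]
      omega
    obtain ⟨L', cr, al, ρ', ts, h1, h2, h3, h4, h5⟩ := ih (AdjoinRoot f) g hgm hgn
    let alg : Algebra L L' := ((algebraMap (AdjoinRoot f) L').comp
      (algebraMap L (AdjoinRoot f))).toAlgebra
    have tow : IsScalarTower L (AdjoinRoot f) L' := IsScalarTower.of_algebraMap_eq fun _ => rfl
    refine ⟨L', cr, alg, ρ₁ ∘ₗ ρ'.restrictScalars L, algebraMap (AdjoinRoot f) L' x :: ts,
      Module.Free.trans (S := AdjoinRoot f), Module.Finite.trans (AdjoinRoot f) L', ?_, ?_, ?_⟩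
    · change ρ₁ (ρ' 1) = 1
      rw [h3, hρ₁]
    · rw [List.length_cons, h4]
    · have e1 : f.map (algebraMap L L') = F.map (algebraMap (AdjoinRoot f) L') := by
        rw [hF, Polynomial.map_map]
        rfl
      rw [e1, ← hfac, Polynomial.map_mul, h5, Polynomial.map_sub, Polynomial.map_X,
        Polynomial.map_C]
      simp only [pl, List.map_cons, List.prod_cons]

end HMx
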