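import Pool.Agent.Lib.MP_181146_gt.HM.SpecM

/-!
# Project HM, module Sur: surjectivity of the contraction with the product of linear factors
-/

set_option autoImplicit false

namespace HMx

open MvPolynomial

private lemma Sur_al {L : Type} [CommRing L] {W : Type} [AddCommGroup W] [Module L W] {k : ℕ}
    {u : Fu L k W} (hu : Al u) {b : MvPolynomial (Fin k) L} (hb : b ∈ Sy L k) : Al (b • u) := by
  intro a c hac p hp
  change u.v (b * p) = 0
  refine hu a c hac _ ?_
  rw [map_mul, hp, (mem_symmetricSubalgebra b).mp hb]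

private lemma Sur_ki {L : Type} [CommRing L] {W : Type} [AddCommGroup W] [Module L W] {k : ℕ}
    {u : Fu L k W} {q : Polynomial L} (hu : Ki q u) (b : MvPolynomial (Fin k) L) :
    Ki q (b • u) := by
  intro a p
  change u.v (b * (xe a q * p)) = 0
  rw [mul_left_comm]
  exact hu a _

private lemma Sur_mon {L : Type} [CommRing L] (ts : List L) : (pl ts).Monic := by
  induction ts with
  | nil => exact Polynomial.monic_one
  | cons t ts ih =>
    have h : pl (t :: ts) = (Polynomial.X - Polynomial.C t) * pl ts := by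
      rw [pl, pl, List.map_cons, List.prod_cons]
    rw [h]
    exact (Polynomial.monic_X_sub_C t).mul ih

private lemma Sur_deg {L : Type} [CommRing L] [Nontrivial L] (ts : List L) :
    (pl ts).natDegree = ts.length := by
  induction ts with
  | nil => exact Polynomial.natDegree_one
  | cons t ts ih =>
    have h : pl (t :: ts) = (Polynomial.X - Polynomial.C t) * pl ts := by
      rw [pl, pl, List.map_cons, List.prod_cons]
    rw [h, (Polynomial.monic_X_sub_C t).natDegree_mul (Sur_mon ts), ih,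
      Polynomial.natDegree_X_sub_C, List.length_cons, add_comm]

/-- **Sur.** -/
theorem pSur (hIoB : S_IoB) (hGg : S_Gg) (hKiL : S_KiL) (hIoE : S_IoE) (hLcT : S_LcT)
    (hKer : S_Ker) (hWed : S_Wed) (hGdA : S_GdA) (hLSo : S_LSo) : S_Sur := by
  intro L _ W _ _ ts t φ hφ k v hv
  obtain ⟨hv1, hv2, hv3⟩ := hv
  rcases subsingleton_or_nontrivial L with hL | hL
  · haveI : Subsingleton W := Module.subsingleton L W
    exact ⟨0, ⟨fun _ _ _ _ _ => rfl, fun _ _ => rfl, fun _ _ => rfl⟩,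
      LinearMap.ext fun p => Subsingleton.elim _ _⟩
  obtain ⟨-, -, -, -, io5, -, io7, -, io9⟩ := hIoB L W
  set v' : Fu L k W := Fu.mp (Submodule.subtype _) v with hv'
  have a1 : Al v' := fun a b hab p hp => by
    change ((v.v p : Submodule.torsionBy L W (φ.eval t)) : W) = 0
    rw [hv1 a b hab p hp]
    rfl
  have a2 : Ki (pl ts) v' := fun a p => by
    change ((v.v (xe a (pl ts) * p) : Submodule.torsionBy L W (φ.eval t)) : W) = 0
    rw [hv2 a p]
    rfl
  have a3 : Ki (φ /ₘ (Polynomial.X - Polynomial.C t)) v' := fun a p => by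
    change ((v.v (xe a (φ /ₘ (Polynomial.X - Polynomial.C t)) * p) :
      Submodule.torsionBy L W (φ.eval t)) : W) = 0
    rw [hv3 a p]
    rfl
  have a4 : (C (φ.eval t) : MvPolynomial (Fin k) L) • v' = 0 := by
    refine LinearMap.ext fun p => ?_
    change v'.v (C (φ.eval t) * p) = 0
    rw [C_mul', map_smul]
    exact (Submodule.mem_torsionBy_iff (φ.eval t) _).mp (v.v p).2
  obtain ⟨u₀, b1, b2, b3⟩ := hWed L W k v' t (pl ts) (Sur_mon ts) a1 a2
  have a5 : ∀ j, lc k (φ /ₘ (Polynomial.X - Polynomial.C t)) j • v' = 0 := by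
    intro j
    by_cases hj : j < k
    · exact (hKiL L W k v' _ a1).mp a3 j hj
    · rw [(hGg L k).2.1 _ j (not_lt.mp hj), zero_smul]
  have a6 : ∀ j, io (pl ts) (lc (k + 1) φ j • u₀) = 0 := by
    intro j
    rw [(hIoE L W k u₀ t (pl ts) b2).2, b3]
    cases j with
    | zero =>
      rw [(hLcT L k t φ).1, sub_smul, mul_smul, a5, a4, smul_zero, sub_zero]
    | succ j =>
      rw [(hLcT L k t φ).2, sub_smul, mul_smul, a5, a5, smul_zero, sub_zero]
  have n1 : ∀ j, Al (lc (k + 1) φ j • u₀) := fun j => Sur_al b1 (lc_sym (k + 1) φ j)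
  have n2 : ∀ j, Ki (pl ts) (lc (k + 1) φ j • u₀) := fun j =>
    hKer L W k _ t (pl ts) (n1 j) (Sur_ki b2 _) (a6 j)
  have hψ := hGdA L W ts.length φ (pl ts) hφ (Sur_mon ts) (Sur_deg ts)
  set ψ : Polynomial L := φ - Polynomial.C (φ.coeff ts.length) * pl ts with hψd
  have c1 : ∀ w : Fu L (k + 1) W, Al w → Ki (pl ts) w → ∀ j < k + 1,
      lc (k + 1) φ j • w = lc (k + 1) ψ j • w := by
    intro w hw1 hw2 j hj
    have h1 : φ = ψ + Polynomial.C (φ.coeff ts.length) * pl ts := by
      rw [hψd, sub_add_cancel]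
    have h2 : lc (k + 1) φ j = lc (k + 1) ψ j + C (φ.coeff ts.length) * lc (k + 1) (pl ts) j := by
      refine (congrArg (fun q => lc (k + 1) q j) h1).trans ?_
      change lc (k + 1) (ψ + Polynomial.C (φ.coeff ts.length) * pl ts) j = _
      rw [(hGg L (k + 1)).2.2.1, (hGg L (k + 1)).2.2.2.1]
    rw [h2, add_smul, mul_smul, (hKiL L W (k + 1) w _ hw1).mp hw2 j hj, smul_zero, add_zero]
  obtain ⟨u₁, d1, d2, d3⟩ := hLSo L W ts ψ hψ (k + 1) (fun j => lc (k + 1) φ j • u₀)
    (fun j _ => ⟨n1 j, n2 j⟩) (fun i hi j hj => by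
      change lc (k + 1) ψ i • lc (k + 1) φ j • u₀ = lc (k + 1) ψ j • lc (k + 1) φ i • u₀
      rw [← c1 _ (n1 j) (n2 j) i hi, ← c1 _ (n1 i) (n2 i) j hj, smul_comm])
  have e1 : Al (u₀ - u₁) := fun a b hab p hp => by
    change u₀.v p - u₁.v p = 0
    rw [b1 a b hab p hp, d1 a b hab p hp, sub_zero]
  refine ⟨u₀ - u₁, ⟨e1, fun a p => ?_, (hKiL L W (k + 1) _ φ e1).mpr fun j hj => ?_⟩, ?_⟩
  · change u₀.v _ - u₁.v _ = 0
    rw [b2 a p, mul_comm (Polynomial.X - Polynomial.C t) (pl ts), io7 _ u₁ _ _ d2 a p, sub_zero]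
  · rw [smul_sub, c1 u₁ d1 d2 j hj, d3 j hj, sub_self]
  · rw [(io5 k u₀ u₁ (pl ts)).2.1, b3]
    have h3 := io9 k u₁ (pl ts) 1 d2
    rw [mul_one] at h3
    rw [h3, sub_zero]

end HMx
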