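import Pool.Agent.Lib.MP_181146_gt.HM.SpecM

/-!
# Wed: lift of an alternating functional

The wedge product with the form `coefficient of index n modulo f`.
-/

set_option autoImplicit false

noncomputable section

namespace HMx

open MvPolynomial

section

variable {L : Type} [CommRing L] {k : ℕ}

/-- The coefficient of index `n` modulo `f`, with respect to the variable `x_0`. -/
private def Wed_T (k : ℕ) (f : Polynomial L) (n : ℕ) :
    MvPolynomial (Fin (k + 1)) L →ₗ[L] MvPolynomial (Fin k) L :=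
  (Polynomial.lcoeff (MvPolynomial (Fin k) L) n).restrictScalars L ∘ₗ
    (Polynomial.modByMonicHom (f.map (C : L →+* MvPolynomial (Fin k) L))).restrictScalars L ∘ₗ
      (finSuccEquiv L k).toLinearMap

private lemma Wed_T_apply (f : Polynomial L) (n : ℕ) (P : MvPolynomial (Fin (k + 1)) L) :
    Wed_T k f n P = ((finSuccEquiv L k P) %ₘ (f.map (C : L →+* MvPolynomial (Fin k) L))).coeff n :=
  rfl

private lemma Wed_fse_xe (q : Polynomial L) :
    finSuccEquiv L k (xe 0 q) = q.map (C : L →+* MvPolynomial (Fin k) L) := by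
  have h := Polynomial.aeval_algHom_apply (finSuccEquiv L k).toAlgHom
    (X 0 : MvPolynomial (Fin (k + 1)) L) q
  change Polynomial.aeval (finSuccEquiv L k (X 0)) q = finSuccEquiv L k (xe 0 q) at h
  rw [← h, finSuccEquiv_X_zero, Polynomial.aeval_X_left_eq_map]
  rfl

private lemma Wed_fse_rename (q : MvPolynomial (Fin k) L) :
    finSuccEquiv L k (rename Fin.succ q) = Polynomial.C q := by
  have h : (finSuccEquiv L k).toAlgHom.comp (rename Fin.succ) =
      (Polynomial.CAlgHom : MvPolynomial (Fin k) L →ₐ[L] _) := by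
    refine MvPolynomial.algHom_ext fun i => ?_
    change finSuccEquiv L k (rename Fin.succ (X i)) = Polynomial.C (X i)
    rw [rename_X, finSuccEquiv_X_succ]
  exact DFunLike.congr_fun h q

private lemma Wed_fse_swap (a b : Fin k) (P : MvPolynomial (Fin (k + 1)) L) :
    finSuccEquiv L k (rename (Equiv.swap a.succ b.succ) P) =
      (finSuccEquiv L k P).map (rename (Equiv.swap a b) : MvPolynomial (Fin k) L →ₐ[L] _).toRingHom := by
  have h : (finSuccEquiv L k).toAlgHom.comp (rename (Equiv.swap a.succ b.succ)) =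
      (Polynomial.mapAlgHom (rename (Equiv.swap a b) : MvPolynomial (Fin k) L →ₐ[L] _)).comp
        (finSuccEquiv L k).toAlgHom := by
    refine MvPolynomial.algHom_ext fun i => ?_
    change finSuccEquiv L k (rename (Equiv.swap a.succ b.succ) (X i)) =
      (finSuccEquiv L k (X i)).map (rename (Equiv.swap a b) : MvPolynomial (Fin k) L →ₐ[L] _).toRingHom
    refine Fin.cases ?_ (fun j => ?_) i
    · rw [rename_X, Equiv.swap_apply_of_ne_of_ne (Fin.succ_ne_zero a).symm (Fin.succ_ne_zero b).symm,
        finSuccEquiv_X_zero, Polynomial.map_X]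
    · have h1 : Equiv.swap a.succ b.succ j.succ = (Equiv.swap a b j).succ := by
        rw [Equiv.swap_apply_def, Equiv.swap_apply_def]
        simp only [Fin.succ_inj]
        split_ifs <;> rfl
      rw [rename_X, h1, finSuccEquiv_X_succ, finSuccEquiv_X_succ, Polynomial.map_C]
      change _ = Polynomial.C (rename (Equiv.swap a b) (X j))
      rw [rename_X]
  exact DFunLike.congr_fun h P

private lemma Wed_xe_rename {j : ℕ} (g : Fin k → Fin j) (a : Fin k) (q : Polynomial L) :
    rename g (xe a q) = xe (g a) q := by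
  have h := Polynomial.aeval_algHom_apply (rename g : MvPolynomial (Fin k) L →ₐ[L] _) (X a) q
  change Polynomial.aeval (rename g (X a)) q = rename g (xe a q) at h
  rw [← h, rename_X]
  rfl

private lemma Wed_T2 {f : Polynomial L} (hf : f.Monic) (n : ℕ) (P : MvPolynomial (Fin (k + 1)) L) :
    Wed_T k f n (xe 0 f * P) = 0 := by
  rw [Wed_T_apply, map_mul, Wed_fse_xe, Polynomial.self_mul_modByMonic (hf.map _),
    Polynomial.coeff_zero]

private lemma Wed_T3 (f : Polynomial L) (n : ℕ) (q : MvPolynomial (Fin k) L)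
    (P : MvPolynomial (Fin (k + 1)) L) :
    Wed_T k f n (rename Fin.succ q * P) = q * Wed_T k f n P := by
  rw [Wed_T_apply, Wed_T_apply, map_mul, Wed_fse_rename, ← Polynomial.smul_eq_C_mul,
    Polynomial.smul_modByMonic, Polynomial.coeff_smul, smul_eq_mul]

private lemma Wed_T4 {f : Polynomial L} (hf : f.Monic) (n : ℕ) (a b : Fin k)
    (P : MvPolynomial (Fin (k + 1)) L) :
    Wed_T k f n (rename (Equiv.swap a.succ b.succ) P) = rename (Equiv.swap a b) (Wed_T k f n P) := by
  have h1 : (f.map (C : L →+* MvPolynomial (Fin k) L)).map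
      (rename (Equiv.swap a b) : MvPolynomial (Fin k) L →ₐ[L] _).toRingHom =
      f.map (C : L →+* MvPolynomial (Fin k) L) := by
    rw [Polynomial.map_map]
    congr 1
    refine RingHom.ext fun c => ?_
    change rename (Equiv.swap a b) (C c) = C c
    rw [rename_C]
  have h2 : (finSuccEquiv L k P).map
      (rename (Equiv.swap a b) : MvPolynomial (Fin k) L →ₐ[L] _).toRingHom %ₘ
        f.map (C : L →+* MvPolynomial (Fin k) L) =
      (finSuccEquiv L k P %ₘ f.map (C : L →+* MvPolynomial (Fin k) L)).map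
        (rename (Equiv.swap a b) : MvPolynomial (Fin k) L →ₐ[L] _).toRingHom := by
    rw [Polynomial.map_modByMonic _ (hf.map _), h1]
  rw [Wed_T_apply, Wed_T_apply, Wed_fse_swap, h2, Polynomial.coeff_map]
  rfl

private lemma Wed_T1 [Nontrivial L] (t : L) {f₁ : Polynomial L} (hf : f₁.Monic)
    (p : MvPolynomial (Fin k) L) :
    Wed_T k ((Polynomial.X - Polynomial.C t) * f₁) f₁.natDegree (xe 0 f₁ * rename Fin.succ p) = p := by
  have hm : ((Polynomial.X - Polynomial.C t) * f₁).Monic := (Polynomial.monic_X_sub_C t).mul hf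
  have hd : ((Polynomial.X - Polynomial.C t) * f₁).natDegree = 1 + f₁.natDegree := by
    rw [(Polynomial.monic_X_sub_C t).natDegree_mul hf, Polynomial.natDegree_X_sub_C]
  rw [Wed_T_apply, map_mul, Wed_fse_xe, Wed_fse_rename,
    (Polynomial.modByMonic_eq_self_iff (hm.map _)).2, Polynomial.coeff_mul_C, Polynomial.coeff_map,
    hf.coeff_natDegree, map_one, one_mul]
  refine Polynomial.degree_lt_degree (lt_of_le_of_lt (Polynomial.natDegree_mul_C_le _ _) ?_)
  rw [hf.natDegree_map, hm.natDegree_map, hd]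
  omega

end

section

variable {L : Type} [CommRing L] {W : Type} [AddCommGroup W] [Module L W] {k : ℕ}

/-- The wedge product. -/
private def Wed_u (f : Polynomial L) (n : ℕ) (v : Fu L k W) : Fu L (k + 1) W :=
  (v.v ∘ₗ Wed_T k f n - ∑ i : Fin k, v.v ∘ₗ Wed_T k f n ∘ₗ
    (rename (Equiv.swap 0 i.succ) : MvPolynomial (Fin (k + 1)) L →ₐ[L] _).toLinearMap :
    MvPolynomial (Fin (k + 1)) L →ₗ[L] W)

private lemma Wed_u_apply (f : Polynomial L) (n : ℕ) (v : Fu L k W)
    (P : MvPolynomial (Fin (k + 1)) L) :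
    (Wed_u f n v).v P = v.v (Wed_T k f n P) -
      ∑ i : Fin k, v.v (Wed_T k f n (rename (Equiv.swap 0 i.succ) P)) := by
  change (v.v ∘ₗ Wed_T k f n - ∑ i : Fin k, v.v ∘ₗ Wed_T k f n ∘ₗ
    (rename (Equiv.swap 0 i.succ) : MvPolynomial (Fin (k + 1)) L →ₐ[L] _).toLinearMap :
    MvPolynomial (Fin (k + 1)) L →ₗ[L] W) P = _
  rw [LinearMap.sub_apply, LinearMap.sum_apply]
  rfl

private lemma Wed_ren_mul {m : ℕ} (s r : Equiv.Perm (Fin m)) (P : MvPolynomial (Fin m) L) :
    rename s (rename r P) = rename (s * r : Equiv.Perm (Fin m)) P := by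
  rw [rename_rename]
  rfl

/-- Values at polynomials whose image under `T` is invariant. -/
private lemma Wed_inv {f : Polynomial L} (hf : f.Monic) (n : ℕ) {v : Fu L k W} (hv : Al v)
    {a b : Fin k} (hab : a ≠ b) {P : MvPolynomial (Fin (k + 1)) L}
    (hP : rename (Equiv.swap a.succ b.succ) P = P) : v.v (Wed_T k f n P) = 0 := by
  refine hv a b hab _ ?_
  rw [← Wed_T4 hf, hP]

private lemma Wed_al0 {f : Polynomial L} (hf : f.Monic) (n : ℕ) {v : Fu L k W} (hv : Al v)
    (b : Fin k) {P : MvPolynomial (Fin (k + 1)) L}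
    (hP : rename (Equiv.swap 0 b.succ) P = P) : (Wed_u f n v).v P = 0 := by
  rw [Wed_u_apply, Finset.sum_eq_single b, hP, sub_self]
  · intro i _ hib
    refine Wed_inv hf n hv hib ?_
    have h1 : (Equiv.swap i.succ b.succ : Equiv.Perm (Fin (k + 1))) * Equiv.swap 0 i.succ =
        Equiv.swap 0 i.succ * Equiv.swap 0 b.succ := by
      rw [Equiv.mul_swap_eq_swap_mul (Equiv.swap 0 i.succ) 0 b.succ, Equiv.swap_apply_left,
        Equiv.swap_apply_of_ne_of_ne (Fin.succ_ne_zero b)
          (fun h => hib (Fin.succ_injective _ h).symm)]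
    rw [Wed_ren_mul, h1, ← Wed_ren_mul, hP]
  · intro h
    exact absurd (Finset.mem_univ b) h

private lemma Wed_al1 (hAlB : S_AlB) {f : Polynomial L} (hf : f.Monic) (n : ℕ) {v : Fu L k W}
    (hv : Al v) {a b : Fin k} (hab : a ≠ b) {P : MvPolynomial (Fin (k + 1)) L}
    (hP : rename (Equiv.swap a.succ b.succ) P = P) : (Wed_u f n v).v P = 0 := by
  have key : ∀ i : Fin k, rename (Equiv.swap 0 (Equiv.swap a b i).succ) P =
      rename (Equiv.swap a.succ b.succ) (rename (Equiv.swap 0 i.succ) P) := by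
    intro i
    have h1 : Equiv.swap a.succ b.succ i.succ = (Equiv.swap a b i).succ := by
      rw [Equiv.swap_apply_def, Equiv.swap_apply_def]
      simp only [Fin.succ_inj]
      split_ifs <;> rfl
    rw [Wed_ren_mul, Equiv.mul_swap_eq_swap_mul,
      Equiv.swap_apply_of_ne_of_ne (Fin.succ_ne_zero a).symm (Fin.succ_ne_zero b).symm, h1,
      ← Wed_ren_mul, hP]
  rw [Wed_u_apply, Wed_inv hf n hv hab hP, zero_sub, neg_eq_zero]
  refine Finset.sum_involution (fun i _ => Equiv.swap a b i) ?_ ?_ (fun _ _ => Finset.mem_univ _) ?_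
  · intro i _
    rw [key, Wed_T4 hf, (hAlB L W k v hv).1 a b hab, add_neg_cancel]
  · intro i _ hne heq
    refine hne (Wed_inv hf n hv hab ?_)
    rw [← key, heq]
  · intro i _
    exact DFunLike.congr_fun (Equiv.swap_swap a b) i

private lemma Wed_al (hAlB : S_AlB) {f : Polynomial L} (hf : f.Monic) (n : ℕ) {v : Fu L k W}
    (hv : Al v) : Al (Wed_u f n v) := by
  intro a b
  refine Fin.cases ?_ (fun a' => ?_) a
  · refine Fin.cases (fun h => absurd rfl h) (fun b' _ P hP => ?_) b
    exact Wed_al0 hf n hv b' hP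
  · refine Fin.cases (fun _ P hP => ?_) (fun b' hab P hP => ?_) b
    · rw [Equiv.swap_comm] at hP
      exact Wed_al0 hf n hv a' hP
    · exact Wed_al1 hAlB hf n hv (fun h => hab (congrArg Fin.succ h)) hP

private lemma Wed_kill (f : Polynomial L) {g : Polynomial L} (n : ℕ) {v : Fu L k W}
    (hg : Ki g v) (i : Fin k) (P : MvPolynomial (Fin (k + 1)) L) :
    v.v (Wed_T k f n (xe i.succ g * P)) = 0 := by
  rw [← Wed_xe_rename Fin.succ i g, Wed_T3]
  exact hg i _

private lemma Wed_ki {f : Polynomial L} (hf : f.Monic) (n : ℕ) {v : Fu L k W} (hv : Ki f v) :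
    Ki f (Wed_u f n v) := by
  have h : ∀ (c : Fin (k + 1)) (P : MvPolynomial (Fin (k + 1)) L),
      v.v (Wed_T k f n (xe c f * P)) = 0 := by
    intro c P
    refine Fin.cases ?_ (fun i => ?_) c
    · rw [Wed_T2 hf, map_zero]
    · exact Wed_kill f n hv i P
  intro a P
  rw [Wed_u_apply, h, zero_sub, neg_eq_zero]
  refine Finset.sum_eq_zero fun i _ => ?_
  rw [map_mul, Wed_xe_rename]
  exact h _ _

private lemma Wed_io {q : Polynomial L} {u : Fu L (k + 1) W} {v : Fu L k W}
    (h : ∀ p, u.v (xe 0 q * rename Fin.succ p) = v.v p) : io q u = v :=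
  LinearMap.ext h

end

theorem pWed (hAlB : S_AlB) : S_Wed := by
  intro L _ W _ _ k v t f₁ hf₁ hAl hKi
  rcases subsingleton_or_nontrivial L with hL | hL
  · have hW : Subsingleton W := Module.subsingleton L W
    exact ⟨0, fun _ _ _ _ _ => rfl, fun _ _ => rfl,
      LinearMap.ext fun p => Subsingleton.elim _ _⟩
  · have hf : ((Polynomial.X - Polynomial.C t) * f₁).Monic := (Polynomial.monic_X_sub_C t).mul hf₁
    have hKf : Ki ((Polynomial.X - Polynomial.C t) * f₁) v := by
      intro a p
      have h1 : xe a ((Polynomial.X - Polynomial.C t) * f₁) * p =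
          xe a f₁ * (xe a (Polynomial.X - Polynomial.C t) * p) := by
        unfold xe
        rw [map_mul]
        ring
      rw [h1]
      exact hKi a _
    refine ⟨Wed_u ((Polynomial.X - Polynomial.C t) * f₁) f₁.natDegree v,
      Wed_al hAlB hf _ hAl, Wed_ki hf _ hKf, Wed_io fun p => ?_⟩
    rw [Wed_u_apply, Wed_T1 t hf₁, Finset.sum_eq_zero, sub_zero]
    intro i _
    rw [map_mul, Wed_xe_rename, Equiv.swap_apply_left]
    exact Wed_kill _ _ hKi i _

end HMx
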