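import Pool.Agent.Lib.MP_181146_gt.HM.SpecM

/-!
# Project HM, module `ZSo`: integrability in the module `ZZ (pl ts)`
-/

set_option autoImplicit false

namespace HMx

open MvPolynomial

section

variable {L : Type} [CommRing L] {W : Type} [AddCommGroup W] [Module L W]

private theorem ZSo_C_mem {k : ℕ} {q : Polynomial L} {u : Fu L k W}
    (hu : u ∈ (ZZ q : Submodule (Sy L k) (Fu L k W))) (a : L) :
    (C a : MvPolynomial (Fin k) L) • u ∈ (ZZ q : Submodule (Sy L k) (Fu L k W)) :=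
  (ZZ q : Submodule (Sy L k) (Fu L k W)).smul_mem (algebraMap L (Sy L k) a) hu

private theorem ZSo_pow_mem {k : ℕ} {q : Polynomial L} {u : Fu L k W}
    (hu : u ∈ (ZZ q : Submodule (Sy L k) (Fu L k W))) (a : L) (n : ℕ) :
    (C a ^ n : MvPolynomial (Fin k) L) • u ∈ (ZZ q : Submodule (Sy L k) (Fu L k W)) := by
  rw [← C_pow]
  exact ZSo_C_mem hu _

private theorem ZSo_ext0 {u w : Fu L 0 W} (h : u.v 1 = w.v 1) : u = w := by
  refine LinearMap.ext fun p => ?_
  change u.v p = w.v p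
  rw [eq_C_of_isEmpty p]
  have h0 : (C (coeff 0 p) : MvPolynomial (Fin 0) L) = coeff 0 p • 1 := by
    rw [smul_eq_C_mul, mul_one]
  rw [h0, map_smul, map_smul, h]

/-- The functional in zero variables with value `w` at `1`. -/
private noncomputable def ZSo_mk0 (w : W) : Fu L 0 W :=
  (LinearMap.toSpanSingleton L W w ∘ₗ (isEmptyAlgEquiv L (Fin 0)).toLinearMap :
    MvPolynomial (Fin 0) L →ₗ[L] W)

private theorem ZSo_mk0_v (w : W) : (ZSo_mk0 w : Fu L 0 W).v 1 = w := by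
  change LinearMap.toSpanSingleton L W w (isEmptyAlgEquiv L (Fin 0) 1) = w
  rw [map_one, LinearMap.toSpanSingleton_apply, one_smul]

private theorem ZSo_smul_v {k : ℕ} (u : Fu L k W) (a : L) :
    ((C a : MvPolynomial (Fin k) L) • u).v 1 = a • u.v 1 := by
  change u.v (C a * 1) = _
  rw [C_mul', map_smul]

private theorem ZSo_mem0 {q : Polynomial L} (u : Fu L 0 W) :
    u ∈ (ZZ q : Submodule (Sy L 0) (Fu L 0 W)) :=
  ⟨fun a => a.elim0, fun a => a.elim0⟩

private theorem ZSo_nil {k : ℕ} {u : Fu L (k + 1) W}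
    (hu : u ∈ (ZZ (pl []) : Submodule (Sy L (k + 1)) (Fu L (k + 1) W))) : u = 0 := by
  refine LinearMap.ext fun p => ?_
  change u.v p = 0
  have h := hu.2 0 p
  have h1 : (xe 0 (pl [] : Polynomial L) : MvPolynomial (Fin (k + 1)) L) = 1 := by
    change Polynomial.aeval _ (1 : Polynomial L) = 1
    rw [map_one]
  rwa [h1, one_mul] at h

private theorem ZSo_monic (ts : List L) : (pl ts).Monic := by
  induction ts with
  | nil => exact Polynomial.monic_one
  | cons t ts ih => exact (Polynomial.monic_X_sub_C t).mul ih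

private theorem ZSo_main (hI : S_IoB) (hK : S_IoK) (hKer : S_Ker) (hW : S_Wed) (ts : List L) :
    ∀ k : ℕ,
    (∀ (n : ℕ) (y : ℕ → L), Sol L W (Finset.range n) y → ∀ c : ℕ → Fu L k W,
      (∀ i ∈ Finset.range n, c i ∈ (ZZ (pl ts) : Submodule (Sy L k) (Fu L k W))) →
      (∀ i ∈ Finset.range n, ∀ j ∈ Finset.range n,
        (C (y i) : MvPolynomial (Fin k) L) • c j = (C (y j) : MvPolynomial (Fin k) L) • c i) →
      ∃ w ∈ (ZZ (pl ts) : Submodule (Sy L k) (Fu L k W)), ∀ i ∈ Finset.range n,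
        (C (y i) : MvPolynomial (Fin k) L) • w = c i) ∧
    (∀ a : L, Nl L W a → ∀ u ∈ (ZZ (pl ts) : Submodule (Sy L k) (Fu L k W)), ∃ n : ℕ,
      (C a ^ n : MvPolynomial (Fin k) L) • u = 0) ∧
    (ts.length < k → ∀ u ∈ (ZZ (pl ts) : Submodule (Sy L k) (Fu L k W)), u = 0) := by
  obtain ⟨i1, -, -, -, i5, i6, i7, -, -⟩ := hI L W
  have hbase1 : ∀ (q : Polynomial L) (n : ℕ) (y : ℕ → L), Sol L W (Finset.range n) y →
      ∀ c : ℕ → Fu L 0 W, (∀ i ∈ Finset.range n, ∀ j ∈ Finset.range n,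
        (C (y i) : MvPolynomial (Fin 0) L) • c j = (C (y j) : MvPolynomial (Fin 0) L) • c i) →
      ∃ w ∈ (ZZ q : Submodule (Sy L 0) (Fu L 0 W)), ∀ i ∈ Finset.range n,
        (C (y i) : MvPolynomial (Fin 0) L) • w = c i := by
    intro q n y hy c hc
    obtain ⟨w, hw⟩ := hy (fun i => (c i).v 1) (fun i hi j hj => by
      have h := congrArg (fun u : Fu L 0 W => u.v 1) (hc i hi j hj)
      change ((C (y i) : MvPolynomial (Fin 0) L) • c j).v 1 =
        ((C (y j) : MvPolynomial (Fin 0) L) • c i).v 1 at h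
      rwa [ZSo_smul_v, ZSo_smul_v] at h)
    refine ⟨ZSo_mk0 w, ZSo_mem0 _, fun i hi => ZSo_ext0 ?_⟩
    rw [ZSo_smul_v, ZSo_mk0_v]
    exact hw i hi
  have hbase2 : ∀ a : L, Nl L W a → ∀ u : Fu L 0 W, ∃ n : ℕ,
      (C a ^ n : MvPolynomial (Fin 0) L) • u = 0 := by
    intro a ha u
    obtain ⟨n, hn⟩ := ha (u.v 1)
    refine ⟨n, ZSo_ext0 ?_⟩
    rw [← C_pow, ZSo_smul_v, hn]
    rfl
  induction ts with
  | nil =>
    intro k
    cases k with
    | zero =>
      exact ⟨fun n y hy c _ hc => hbase1 _ n y hy c hc, fun a ha u _ => hbase2 a ha u,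
        fun h => absurd h (Nat.not_lt_zero _)⟩
    | succ k =>
      refine ⟨fun n y _ c hc _ => ⟨0, Submodule.zero_mem _, fun i hi => ?_⟩,
        fun a _ u hu => ⟨0, ?_⟩, fun _ u hu => ZSo_nil hu⟩
      · rw [smul_zero, ZSo_nil (hc i hi)]
      · rw [ZSo_nil hu, smul_zero]
  | cons t ts ih =>
    intro k
    cases k with
    | zero =>
      exact ⟨fun n y hy c _ hc => hbase1 _ n y hy c hc, fun a ha u _ => hbase2 a ha u,
        fun h => absurd h (Nat.not_lt_zero _)⟩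
    | succ k =>
      have hpl : pl (t :: ts) = (Polynomial.X - Polynomial.C t) * pl ts := rfl
      -- the image of the contraction
      have hio : ∀ u ∈ (ZZ (pl (t :: ts)) : Submodule (Sy L (k + 1)) (Fu L (k + 1) W)),
          io (pl ts) u ∈ (ZZ (pl ts) : Submodule (Sy L k) (Fu L k W)) := fun u hu =>
        ⟨i1 k u _ hu.1, (hK L W k u t (pl ts) hu.1 hu.2).2⟩
      have hker : ∀ u ∈ (ZZ (pl (t :: ts)) : Submodule (Sy L (k + 1)) (Fu L (k + 1) W)),
          io (pl ts) u = 0 →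
          u ∈ (ZZ (pl ts) : Submodule (Sy L (k + 1)) (Fu L (k + 1) W)) := fun u hu h0 =>
        ⟨hu.1, hKer L W k u t (pl ts) hu.1 hu.2 h0⟩
      have hup : ∀ u ∈ (ZZ (pl ts) : Submodule (Sy L (k + 1)) (Fu L (k + 1) W)),
          u ∈ (ZZ (pl (t :: ts)) : Submodule (Sy L (k + 1)) (Fu L (k + 1) W)) := fun u hu =>
        ⟨hu.1, by
          rw [hpl, mul_comm]
          exact i7 (k + 1) u _ _ hu.2⟩
      have hlift : ∀ v ∈ (ZZ (pl ts) : Submodule (Sy L k) (Fu L k W)),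
          ∃ u ∈ (ZZ (pl (t :: ts)) : Submodule (Sy L (k + 1)) (Fu L (k + 1) W)),
            io (pl ts) u = v := fun v hv => by
        obtain ⟨u, h1, h2, h3⟩ := hW L W k v t (pl ts) (ZSo_monic ts) hv.1 hv.2
        exact ⟨u, ⟨h1, h2⟩, h3⟩
      obtain ⟨a1, a2, a3⟩ := ih k
      obtain ⟨b1, b2, b3⟩ := ih (k + 1)
      refine ⟨fun n y hy c hc hcc => ?_, fun a ha u hu => ?_, fun hlen u hu => ?_⟩
      · obtain ⟨v, hv, hv1⟩ := a1 n y hy (fun i => io (pl ts) (c i)) (fun i hi => hio _ (hc i hi))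
          (fun i hi j hj => by
            rw [← i6, ← i6, hcc i hi j hj])
        obtain ⟨u₀, hu₀, hu₀v⟩ := hlift v hv
        obtain ⟨u₁, hu₁, hu₁e⟩ := b1 n y hy
          (fun i => c i - (C (y i) : MvPolynomial (Fin (k + 1)) L) • u₀) (fun i hi => by
            refine hker _ (Submodule.sub_mem _ (hc i hi) (ZSo_C_mem hu₀ _)) ?_
            rw [(i5 k _ _ _).2.1, i6, hu₀v, hv1 i hi, sub_self])
          (fun i hi j hj => by
            rw [smul_sub, smul_sub, hcc i hi j hj, smul_smul, smul_smul, mul_comm (C (y i))])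
        refine ⟨u₀ + u₁, Submodule.add_mem _ hu₀ (hup _ hu₁), fun i hi => ?_⟩
        rw [smul_add, hu₁e i hi, add_sub_cancel]
      · obtain ⟨n, hn⟩ := a2 a ha _ (hio u hu)
        have h1 : (C a ^ n : MvPolynomial (Fin (k + 1)) L) • u ∈
            (ZZ (pl ts) : Submodule (Sy L (k + 1)) (Fu L (k + 1) W)) := by
          refine hker _ (ZSo_pow_mem hu a n) ?_
          rw [← C_pow, i6, C_pow, hn]
        obtain ⟨n', hn'⟩ := b2 a ha _ h1
        refine ⟨n' + n, ?_⟩
        rw [pow_add, mul_smul, hn']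
      · have h0 : io (pl ts) u = 0 := a3 (by
          rw [List.length_cons] at hlen
          omega) _ (hio u hu)
        exact b3 (by
          rw [List.length_cons] at hlen
          omega) _ (hker u hu h0)

end

theorem pZSo (hIoB : S_IoB) (hIoK : S_IoK) (hKer : S_Ker) (hWed : S_Wed) : S_ZSo := by
  intro L _ W _ _ ts k
  obtain ⟨m1, m2, m3⟩ := ZSo_main (W := W) hIoB hIoK hKer hWed ts k
  refine ⟨fun n y hy c hc => ?_, fun a ha w => ?_, fun h u h1 h2 => m3 h u ⟨h1, h2⟩⟩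
  · obtain ⟨w, hw, hw1⟩ := m1 n y hy (fun i => (c i).1) (fun i _ => (c i).2)
      (fun i hi j hj => congrArg Subtype.val (hc i hi j hj))
    exact ⟨⟨w, hw⟩, fun i hi => Subtype.ext (hw1 i hi)⟩
  · obtain ⟨n, hn⟩ := m2 a ha w.1 w.2
    refine ⟨n, Subtype.ext ?_⟩
    rw [← map_pow]
    rw [← C_pow] at hn
    exact hn

end HMx
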