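import Pool.Agent.Lib.MP_181146_gt.HM.AlB
import Pool.Agent.Lib.MP_181146_gt.HM.Cyc
import Pool.Agent.Lib.MP_181146_gt.HM.DKi
import Pool.Agent.Lib.MP_181146_gt.HM.Ds
import Pool.Agent.Lib.MP_181146_gt.HM.DsE
import Pool.Agent.Lib.MP_181146_gt.HM.DsS
import Pool.Agent.Lib.MP_181146_gt.HM.Dua
import Pool.Agent.Lib.MP_181146_gt.HM.EvE
import Pool.Agent.Lib.MP_181146_gt.HM.ExG
import Pool.Agent.Lib.MP_181146_gt.HM.ExK
import Pool.Agent.Lib.MP_181146_gt.HM.ExS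
import Pool.Agent.Lib.MP_181146_gt.HM.FFi
import Pool.Agent.Lib.MP_181146_gt.HM.FRe
import Pool.Agent.Lib.MP_181146_gt.HM.Fla
import Pool.Agent.Lib.MP_181146_gt.HM.Frb
import Pool.Agent.Lib.MP_181146_gt.HM.GdA
import Pool.Agent.Lib.MP_181146_gt.HM.GdB
import Pool.Agent.Lib.MP_181146_gt.HM.GdC
import Pool.Agent.Lib.MP_181146_gt.HM.Gg
import Pool.Agent.Lib.MP_181146_gt.HM.InG
import Pool.Agent.Lib.MP_181146_gt.HM.IoB
import Pool.Agent.Lib.MP_181146_gt.HM.IoE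
import Pool.Agent.Lib.MP_181146_gt.HM.IoK
import Pool.Agent.Lib.MP_181146_gt.HM.KDE
import Pool.Agent.Lib.MP_181146_gt.HM.KLk
import Pool.Agent.Lib.MP_181146_gt.HM.Ker
import Pool.Agent.Lib.MP_181146_gt.HM.KiL
import Pool.Agent.Lib.MP_181146_gt.HM.LSo
import Pool.Agent.Lib.MP_181146_gt.HM.LcT
import Pool.Agent.Lib.MP_181146_gt.HM.MkB
import Pool.Agent.Lib.MP_181146_gt.HM.NMain
import Pool.Agent.Lib.MP_181146_gt.HM.NlI
import Pool.Agent.Lib.MP_181146_gt.HM.Prf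
import Pool.Agent.Lib.MP_181146_gt.HM.Pri
import Pool.Agent.Lib.MP_181146_gt.HM.RpB
import Pool.Agent.Lib.MP_181146_gt.HM.Rs1
import Pool.Agent.Lib.MP_181146_gt.HM.Sec
import Pool.Agent.Lib.MP_181146_gt.HM.SoL
import Pool.Agent.Lib.MP_181146_gt.HM.SpR
import Pool.Agent.Lib.MP_181146_gt.HM.Sur
import Pool.Agent.Lib.MP_181146_gt.HM.Wed
import Pool.Agent.Lib.MP_181146_gt.HM.ZSo

/-!
# Project HM (part E of 181146): assembly of the modules
-/

set_option autoImplicit false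

namespace HMx

theorem aAlB : S_AlB := pAlB
theorem aIoB : S_IoB := pIoB aAlB
theorem aGg : S_Gg := pGg
theorem aCyc : S_Cyc := pCyc aAlB aGg
theorem aKiL : S_KiL := pKiL aGg aCyc
theorem aIoE : S_IoE := pIoE
theorem aLcT : S_LcT := pLcT
theorem aIoK : S_IoK := pIoK aGg aIoB aKiL aIoE aLcT
theorem aKer : S_Ker := pKer aAlB aIoE
theorem aWed : S_Wed := pWed aAlB
theorem aSoL : S_SoL := pSoL
theorem aNlI : S_NlI := pNlI
theorem aGdA : S_GdA := pGdA aSoL aNlI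
theorem aGdB : S_GdB := pGdB aSoL aNlI
theorem aGdC : S_GdC := pGdC
theorem aZSo : S_ZSo := pZSo aIoB aIoK aKer aWed
theorem aLSo : S_LSo := pLSo aZSo aSoL aGg
theorem aSur : S_Sur := pSur aIoB aGg aKiL aIoE aLcT aKer aWed aGdA aLSo
theorem aRs1 : S_Rs1 := pRs1
theorem aExS : S_ExS := pExS aIoB aIoK aKer aGdA aGdB aSur aRs1
theorem aSpR : S_SpR := pSpR
theorem aMkB : S_MkB := pMkB
theorem aExG : S_ExG := pExG aSpR aGdC aMkB aExS aAlB
theorem aExK : S_ExK := pExK aKiL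
theorem aDua : S_Dua := pDua
theorem aPrf : S_Prf := pPrf aDua
theorem aFrb : S_Frb := pFrb aAlB aGg aPrf
theorem aFFi : S_FFi := pFFi aPrf
theorem aFRe : S_FRe := pFRe aPrf
theorem aFla : S_Fla := pFla
theorem aDs : S_Ds := pDs
theorem aDsE : S_DsE := pDsE aDs
theorem aInG : S_InG := pInG
theorem aRpB : S_RpB := pRpB aAlB aMkB aGg aPrf aFrb
theorem aDKi : S_DKi := pDKi aGg aKiL aDsE aRpB
theorem aKDE : S_KDE := pKDE aAlB aIoB aMkB aExG aExK aInG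
theorem aEvE : S_EvE := pEvE
theorem aKLk : S_KLk := pKLk aEvE aExK aDKi
theorem aPri : S_Pri := pPri aIoB aDKi aKDE aKLk
theorem aDsS : S_DsS := pDsS aDs
theorem aSec : S_Sec := pSec

/-! ## The outputs for `f = X ^ m - q`, `m = q ^ j` -/

/-- The polynomial `X ^ m - q`. -/
noncomputable def fq (q m : ℕ) : Polynomial ℤ := Polynomial.X ^ m - Polynomial.C (q : ℤ)

theorem fq_monic (q : ℕ) {m : ℕ} (hm : 0 < m) : (fq q m).Monic :=
  Polynomial.monic_X_pow_sub_C (q : ℤ) hm.ne'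

theorem fq_deg (q m : ℕ) : (fq q m).natDegree = m := Polynomial.natDegree_X_pow_sub_C

/-- The ring `FF f k` for `f = X ^ m - q` is finite, free and reduced over the integers. -/
theorem fq_ring (q m k : ℕ) (hm : 0 < m) (hq : 0 < q) :
    Module.Finite ℤ (FF (fq q m) k) ∧ Module.Free ℤ (FF (fq q m) k) ∧
      IsReduced (FF (fq q m) k) ∧ (k ≤ m → Nontrivial (FF (fq q m) k)) :=
  ⟨(aFFi _ m k (fq_monic q hm) (fq_deg q m)).1, (aFFi _ m k (fq_monic q hm) (fq_deg q m)).2.1,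
    aFRe.1 _ k (fq_monic q hm) (aFRe.2 m q hm hq), (aFFi _ m k (fq_monic q hm) (fq_deg q m)).2.2⟩

/-- The induction principle for `f = X ^ m - q`. -/
theorem fq_pri (q m : ℕ) (hm : 0 < m) (P : DM ℤ m → Prop)
    (h1 : ∀ (D D' : DM ℤ m) (e : DM.Hom D D'), (∀ d, Function.Bijective (e.f d)) → P D → P D')
    (h2 : ∀ (D' D D'' : DM ℤ m) (a : DM.Hom D' D) (b : DM.Hom D D''), DM.Ex a b → D'.KL (fq q m) →
      D.KL (fq q m) → D''.KL (fq q m) → P D' → P D → P D'')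
    (h3 : ∀ k, 1 ≤ k → k ≤ m → P (Dk (fq q m) m k).toZ) : P (Dkap (fq q m) m) :=
  aPri (fq q m) m (fq_monic q hm) (fq_deg q m) hm (nHom _ _) P h1 h2 h3

/-- The norm form is onto on the functions on exponents. -/
theorem fq_onto (q m : ℕ) (hm : 0 < m) : ∀ d, ∀ u ∈ fn ℤ m ∅ d, ∃ w ∈ fn ℤ m ∅ (d + m),
    kapO (fq q m) m w = u :=
  (aKDE (fq q m) m (fq_monic q hm) (fq_deg q m) (nHom _ _)).2.2.2.2.2

end HMx
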