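import Pool.Agent.Lib.MP_181146_gt.HM.DefsM

/-!
# Project HM (part E): further definitions
-/

set_option autoImplicit false

noncomputable section

namespace HMx

open MvPolynomial

/-! ## Functionals -/

section

variable {L : Type} [CommRing L] {k : ℕ} {W W' : Type} [AddCommGroup W] [Module L W]
  [AddCommGroup W'] [Module L W']

/-- A functional followed by a linear map. -/
def Fu.mp (g : W →ₗ[L] W') (u : Fu L k W) : Fu L k W' := (g ∘ₗ u.v : MvPolynomial (Fin k) L →ₗ[L] W')

/-- The functional with given values on the monomials. -/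
def Fu.mk (c : (Fin k →₀ ℕ) → W) : Fu L k W :=
  ((basisMonomials (Fin k) L).constr L c : MvPolynomial (Fin k) L →ₗ[L] W)

/-- The product of the `T - t`, `t` in a list. -/
def pl (ts : List L) : Polynomial L := (ts.map fun t => Polynomial.X - Polynomial.C t).prod

end

/-! ## The inverse system -/

section

variable (m : ℕ)

/-- Finitely supported functions on exponents. -/
def In : Type := (Fin m → ℕ) →₀ ℤ

instance : AddCommGroup (In m) := inferInstanceAs (AddCommGroup ((Fin m → ℕ) →₀ ℤ))

/-- The values of an element of `In m`. -/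
def In.v {m : ℕ} (u : In m) (β : Fin m → ℕ) : ℤ := (show (Fin m → ℕ) →₀ ℤ from u) β

/-- The shift by `t`: `(shi t u) (β) = u (β + t)`. -/
def shi {m : ℕ} (t : Fin m → ℕ) : ((Fin m → ℕ) →₀ ℤ) →+ ((Fin m → ℕ) →₀ ℤ) where
  toFun u := Finsupp.comapDomain (fun β => β + t) u (fun _ _ _ _ h => add_right_cancel h)
  map_zero' := by
    ext β
    rfl
  map_add' u v := by
    ext β
    rfl

/-- The action of the polynomials on the inverse system. -/
def actI : MvPolynomial (Fin m) ℤ →+* Module.End ℤ ((Fin m → ℕ) →₀ ℤ) :=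
  ((AddMonoidAlgebra.lift ℤ (Module.End ℤ ((Fin m → ℕ) →₀ ℤ)) (Fin m →₀ ℕ))
    { toFun := fun t => (shi (⇑(Multiplicative.toAdd t))).toIntLinearMap
      map_one' := LinearMap.ext fun u => Finsupp.ext fun β => rfl
      map_mul' := fun s t => LinearMap.ext fun u => Finsupp.ext fun β => by
        change u (β + (⇑(Multiplicative.toAdd s) + ⇑(Multiplicative.toAdd t))) =
          u (β + ⇑(Multiplicative.toAdd s) + ⇑(Multiplicative.toAdd t))
        rw [add_assoc] } : AddMonoidAlgebra ℤ (Fin m →₀ ℕ) →ₐ[ℤ] _).toRingHom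

instance : Module (MvPolynomial (Fin m) ℤ) (In m) :=
  Module.compHom ((Fin m → ℕ) →₀ ℤ) (actI m)

/-- The action of a monomial (for reading the definition). -/
theorem In.smul_v {m : ℕ} (s : Fin m →₀ ℕ) (c : ℤ) (u : In m) (β : Fin m → ℕ) :
    ((monomial s c : MvPolynomial (Fin m) ℤ) • u).v β = c * u.v (β + s) := by
  have h : actI m (monomial s c) = c • (shi (⇑s)).toIntLinearMap := by
    change (AddMonoidAlgebra.lift ℤ (Module.End ℤ ((Fin m → ℕ) →₀ ℤ)) (Fin m →₀ ℕ)) _
      (AddMonoidAlgebra.single s c) = _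
    rw [AddMonoidAlgebra.lift_single]
    rfl
  change (actI m (monomial s c) u) β = _
  rw [h]
  rfl

end

/-! ## The forms and their coefficients -/

section

variable (f : Polynomial ℤ) (m k : ℕ)

theorem lc_sym {L : Type} [CommRing L] (k : ℕ) (p : Polynomial L) (j : ℕ) : lc k p j ∈ Sy L k := by
  rw [mem_symmetricSubalgebra]
  intro σ
  have hg : (gg L k).map (rename σ : MvPolynomial (Fin k) L →ₐ[L] _).toRingHom = gg L k := by
    rw [gg, Polynomial.map_prod]
    simp only [Polynomial.map_sub, Polynomial.map_X, Polynomial.map_C]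
    exact Fintype.prod_equiv σ _ _ (fun a => by
      change Polynomial.X - Polynomial.C (rename σ (X a)) = _
      rw [rename_X])
  have hp : (p.map (C : L →+* MvPolynomial (Fin k) L)).map
      (rename σ : MvPolynomial (Fin k) L →ₐ[L] _).toRingHom = p.map C := by
    rw [Polynomial.map_map]
    congr 1
    ext c
    change coeff _ (rename σ (C c)) = _
    rw [rename_C]
  have hm : (gg L k).Monic := Polynomial.monic_prod_of_monic _ _ (fun a _ => Polynomial.monic_X_sub_C _)
  have h := Polynomial.map_modByMonic (rename σ : MvPolynomial (Fin k) L →ₐ[L] _).toRingHom hm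
    (p := p.map (C : L →+* MvPolynomial (Fin k) L))
  rw [hg, hp] at h
  have h1 := congrArg (fun r => Polynomial.coeff r j) h
  rw [Polynomial.coeff_map] at h1
  exact h1

/-- The coefficient of index `j` of `X ^ i` modulo `gg`, in the ring `FF f k`. -/
def rr (j i : Fin m) : FF f k :=
  Ideal.Quotient.mk (FI f k) ⟨lc k (Polynomial.X ^ i.val) j, lc_sym k _ j⟩

/-- The places `i < k`. -/
def Lt : Finset (Fin m) := Finset.univ.filter (fun i => i.val < k)

/-- The module `D_k` of the exact sequence, over `FF f k`. -/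
def Dk : DM (FF f k) m := DSt (FF f k) m k (rr f m k) (Lt m k)

variable {m} in
/-- The norm form acts as zero. -/
def DM.KL (f : Polynomial ℤ) (D : DM ℤ m) : Prop := D.ev (kapP f m) = 0

/-- The functional `p ↦ (p mod f).coeff (m - 1)`. -/
def tau (p : Polynomial ℤ) : ℤ := (p %ₘ f).coeff (m - 1)

/-- The dual basis of `1, X, .., X ^ (m - 1)` with respect to `tau`. -/
def cc (i : ℕ) : Polynomial ℤ :=
  ∑ l ∈ Finset.Ioc i m, Polynomial.C (f.coeff l) * Polynomial.X ^ (l - i - 1)

/-- The product of the `tau`'s: the value on a monomial is the product of the `tau (X ^ s)`. -/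
def tk : Fu ℤ k ℤ := Fu.mk fun s => ∏ a, tau f m (Polynomial.X ^ s a)

end

end HMx
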