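import Mathlib

/-!
# Project HM (part E): commutative algebra of the norm form

`f` is a monic polynomial of degree `m` with integer coefficients (`X ^ m - q` in the application).
`FF f k` is the ring of the monic factors of degree `k` of `f`, `kapP f m` the norm of the generic
polynomial of degree `< m` modulo `f`.  `DM k m`: graded modules with `m` commuting operators of
degree `-1`; `DSt F m c r S`: functions on exponents.
-/

set_option autoImplicit false

noncomputable section

namespace HMx

open MvPolynomial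

/-! ## Graded modules with commuting operators -/

/-- A graded module with `m` commuting operators of degree `-1`. -/
structure DM (k : Type) [CommRing k] (m : ℕ) where
  D : ℕ → Type
  [ac : ∀ j, AddCommGroup (D j)]
  [mo : ∀ j, Module k (D j)]
  Y : Fin m → ∀ j, D (j + 1) →ₗ[k] D j
  comm : ∀ a b j x, Y a j (Y b (j + 1) x) = Y b j (Y a (j + 1) x)

attribute [instance] DM.ac DM.mo

section

variable {k : Type} [CommRing k] {m : ℕ}

/-- The operator `Y i` on all sequences `(x j)`. -/
def DM.Yt (D : DM k m) (i : Fin m) : Module.End k (∀ j, D.D j) :=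
  LinearMap.pi fun j => D.Y i j ∘ₗ LinearMap.proj (j + 1)

/-- The monomial `Y ^ s`. -/
def DM.pw (D : DM k m) (s : Fin m →₀ ℕ) : Module.End k (∀ j, D.D j) :=
  (List.ofFn fun i => D.Yt i ^ s i).prod

/-- The operator `p(Y)`. -/
def DM.ev (D : DM k m) (p : MvPolynomial (Fin m) k) : Module.End k (∀ j, D.D j) :=
  ∑ s ∈ p.support, p.coeff s • D.pw s

/-- Restriction of scalars to the integers. -/
def DM.toZ (D : DM k m) : DM ℤ m where
  D := D.D
  Y := fun i j => (D.Y i j).toAddMonoidHom.toIntLinearMap
  comm := fun a b j x => D.comm a b j x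

/-- Morphisms (additive maps commuting with the operators). -/
structure DM.Hom {k' : Type} [CommRing k'] (D : DM k m) (D' : DM k' m) where
  f : ∀ j, D.D j →+ D'.D j
  fY : ∀ i j x, f j (D.Y i j x) = D'.Y i j (f (j + 1) x)

/-- `0 → D' → D → D'' → 0` is exact in every degree. -/
structure DM.Ex {k' k'' : Type} [CommRing k'] [CommRing k''] {D' : DM k' m} {D : DM k m}
    {D'' : DM k'' m} (a : DM.Hom D' D) (b : DM.Hom D D'') : Prop where
  inj : ∀ j x, a.f j x = 0 → x = 0
  zer : ∀ j x, b.f j (a.f j x) = 0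
  ex : ∀ j x, b.f j x = 0 → ∃ y, a.f j y = x
  sur : ∀ j z, ∃ x, b.f j x = z

end

/-! ## Functions on exponents -/

section

variable (F : Type) [CommRing F] (m : ℕ)

/-- The shift `(sf a u) (β) = u (β + e_a)`. -/
def sf (a : Fin m) : Module.End F ((Fin m → ℕ) → F) :=
  LinearMap.pi fun β => LinearMap.proj (β + Pi.single a 1)

/-- The operator `sum over l ≥ c of r a l * shift l`. -/
def zo (c : ℕ) (r : Fin m → Fin m → F) (a : Fin m) : Module.End F ((Fin m → ℕ) → F) :=
  ∑ l ∈ Finset.univ.filter (fun l : Fin m => c ≤ l.val), r a l • sf F m l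

/-- Functions supported on the exponents of degree `d` which vanish at the places in `S`. -/
def fn (S : Finset (Fin m)) (d : ℕ) : Submodule F ((Fin m → ℕ) → F) where
  carrier := {u | ∀ β, u β ≠ 0 → ∑ i, β i = d ∧ ∀ i ∈ S, β i = 0}
  add_mem' := by
    intro u v hu hv β h
    by_cases h1 : u β = 0
    · by_cases h2 : v β = 0
      · exact absurd (by rw [Pi.add_apply, h1, h2, add_zero]) h
      · exact hv β h2
    · exact hu β h1
  zero_mem' := fun β h => absurd rfl h
  smul_mem' := by
    intro c u hu β h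
    refine hu β (fun h1 => h ?_)
    rw [Pi.smul_apply, h1, smul_zero]

variable {F m}

theorem sf_mem {S : Finset (Fin m)} {d : ℕ} (a : Fin m) {u : (Fin m → ℕ) → F}
    (hu : u ∈ fn F m S (d + 1)) : sf F m a u ∈ fn F m S d := by
  intro β h
  obtain ⟨h1, h2⟩ := hu (β + Pi.single a 1) h
  constructor
  · have h3 : ∑ i, (β + Pi.single a 1 : Fin m → ℕ) i = ∑ i, β i + 1 := by
      simp only [Pi.add_apply, Finset.sum_add_distrib, Finset.sum_pi_single', Finset.mem_univ,
        if_true]
    omega
  · intro i hi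
    have h3 := h2 i hi
    rw [Pi.add_apply] at h3
    omega

theorem zo_mem {c : ℕ} {r : Fin m → Fin m → F} {S : Finset (Fin m)} {d : ℕ} (a : Fin m)
    {u : (Fin m → ℕ) → F} (hu : u ∈ fn F m S (d + 1)) : zo F m c r a u ∈ fn F m S d := by
  rw [zo, LinearMap.sum_apply]
  refine Submodule.sum_mem _ (fun l _ => ?_)
  rw [LinearMap.smul_apply]
  exact Submodule.smul_mem _ _ (sf_mem l hu)

theorem sf_comm (a b : Fin m) (u : (Fin m → ℕ) → F) :
    sf F m a (sf F m b u) = sf F m b (sf F m a u) := by
  funext β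
  change u (β + Pi.single a 1 + Pi.single b 1) = u (β + Pi.single b 1 + Pi.single a 1)
  rw [add_right_comm]

theorem zo_sf (c : ℕ) (r : Fin m → Fin m → F) (a b : Fin m)
    (u : (Fin m → ℕ) → F) : zo F m c r a (sf F m b u) = sf F m b (zo F m c r a u) := by
  simp only [zo, LinearMap.sum_apply, LinearMap.smul_apply, map_sum, map_smul]
  exact Finset.sum_congr rfl (fun l _ => by rw [sf_comm])

theorem zo_zo (c : ℕ) (r : Fin m → Fin m → F) (a b : Fin m)
    (u : (Fin m → ℕ) → F) : zo F m c r a (zo F m c r b u) = zo F m c r b (zo F m c r a u) := by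
  simp only [zo, LinearMap.sum_apply, LinearMap.smul_apply, map_sum, map_smul, Finset.smul_sum]
  rw [Finset.sum_comm]
  refine Finset.sum_congr rfl (fun l _ => Finset.sum_congr rfl (fun l' _ => ?_))
  rw [smul_comm, sf_comm]

/-- The operator of index `a`: the shift for `a` outside `S`, `- zo` for `a` in `S`. -/
def yo (F : Type) [CommRing F] (m c : ℕ) (r : Fin m → Fin m → F) (S : Finset (Fin m)) (a : Fin m) :
    Module.End F ((Fin m → ℕ) → F) := if a ∈ S then -zo F m c r a else sf F m a

theorem yo_mem {c : ℕ} {r : Fin m → Fin m → F} {S : Finset (Fin m)} {d : ℕ} (a : Fin m)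
    {u : (Fin m → ℕ) → F} (hu : u ∈ fn F m S (d + 1)) : yo F m c r S a u ∈ fn F m S d := by
  unfold yo
  split_ifs
  · rw [LinearMap.neg_apply]
    exact Submodule.neg_mem _ (zo_mem a hu)
  · exact sf_mem a hu

theorem yo_comm (c : ℕ) (r : Fin m → Fin m → F) (S : Finset (Fin m)) (a b : Fin m)
    (u : (Fin m → ℕ) → F) : yo F m c r S a (yo F m c r S b u) = yo F m c r S b (yo F m c r S a u) := by
  unfold yo
  split_ifs
  · simp only [LinearMap.neg_apply, map_neg, zo_zo]
  · simp only [LinearMap.neg_apply, map_neg, zo_sf]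
  · simp only [LinearMap.neg_apply, map_neg, zo_sf]
  · rw [sf_comm]

/-- Functions on the exponents which vanish at the places in `S`, with values in `F`; the operator
`Y a` is the shift for `a` outside `S` and `- sum over l ≥ c of r a l * shift l` for `a` in `S`
(`S` is a subset of `{i | i < c}` in the applications). -/
def DSt (F : Type) [CommRing F] (m c : ℕ) (r : Fin m → Fin m → F) (S : Finset (Fin m)) : DM F m where
  D := fun d => fn F m S d
  Y := fun a _ => (yo F m c r S a).restrict (fun _ hu => yo_mem a hu)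
  comm := fun a b _ u => Subtype.ext (yo_comm c r S a b u.1)

end

/-! ## The norm form -/

section

variable (f : Polynomial ℤ) (m : ℕ)

/-- The generic polynomial of degree `< m`. -/
def gen : Polynomial (MvPolynomial (Fin m) ℤ) :=
  ∑ i : Fin m, Polynomial.C (X i) * Polynomial.X ^ i.val

/-- The norm of the generic polynomial modulo `f` (`f` monic of degree `m`). -/
def kapP : MvPolynomial (Fin m) ℤ :=
  Polynomial.resultant (f.map (C : ℤ →+* MvPolynomial (Fin m) ℤ)) (gen m) m (m - 1)

/-- The operator `kapP (Y)` on the functions on exponents. -/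
def kapO : Module.End ℤ ((Fin m → ℕ) → ℤ) :=
  LinearMap.pi fun β => ∑ s ∈ (kapP f m).support, (kapP f m).coeff s •
    LinearMap.proj (β + (s : Fin m → ℕ))

theorem kapO_sf (a : Fin m) (u : (Fin m → ℕ) → ℤ) :
    kapO f m (sf ℤ m a u) = sf ℤ m a (kapO f m u) := by
  funext β
  change (∑ s ∈ (kapP f m).support, (kapP f m).coeff s •
    (LinearMap.proj (β + (s : Fin m → ℕ)) : ((Fin m → ℕ) → ℤ) →ₗ[ℤ] ℤ)) (sf ℤ m a u) =
    (∑ s ∈ (kapP f m).support, (kapP f m).coeff s •
    (LinearMap.proj (β + Pi.single a 1 + (s : Fin m → ℕ)) : ((Fin m → ℕ) → ℤ) →ₗ[ℤ] ℤ)) u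
  rw [LinearMap.sum_apply, LinearMap.sum_apply]
  refine Finset.sum_congr rfl (fun s _ => ?_)
  rw [LinearMap.smul_apply, LinearMap.smul_apply]
  change _ • u (β + (s : Fin m → ℕ) + Pi.single a 1) = _ • u (β + Pi.single a 1 + (s : Fin m → ℕ))
  rw [add_right_comm]

/-- The module of the functions killed by the norm form. -/
def Dkap : DM ℤ m where
  D := fun d => (fn ℤ m ∅ d ⊓ LinearMap.ker (kapO f m) : Submodule ℤ ((Fin m → ℕ) → ℤ))
  Y := fun a _ => (sf ℤ m a).restrict (fun u hu => ⟨sf_mem a hu.1, by
    change kapO f m (sf ℤ m a u) = 0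
    rw [kapO_sf, LinearMap.mem_ker.mp hu.2, map_zero]⟩)
  comm := fun a b _ u => Subtype.ext (sf_comm a b u.1)

end

/-! ## The rings of the monic factors -/

section

variable (f : Polynomial ℤ) (k : ℕ)

/-- The symmetric polynomials in `k` variables. -/
abbrev Sy (L : Type) [CommRing L] (k : ℕ) := symmetricSubalgebra (Fin k) L

/-- The Vandermonde polynomial. -/
def vd : MvPolynomial (Fin k) ℤ := (Matrix.vandermonde (fun a : Fin k => (X a : MvPolynomial (Fin k) ℤ))).det

/-- The ideal generated by the `f (x a)`. -/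
def JJ : Ideal (MvPolynomial (Fin k) ℤ) :=
  Ideal.span (Set.range fun a : Fin k => Polynomial.aeval (X a : MvPolynomial (Fin k) ℤ) f)

/-- The symmetric polynomials `b` with `vd * b` in `JJ`. -/
def FI : Ideal (Sy ℤ k) where
  carrier := {b | vd k * (b : MvPolynomial (Fin k) ℤ) ∈ JJ f k}
  add_mem' := by
    intro a b ha hb
    change vd k * ((a : MvPolynomial (Fin k) ℤ) + b) ∈ JJ f k
    rw [mul_add]
    exact Ideal.add_mem _ ha hb
  zero_mem' := by
    change vd k * (0 : MvPolynomial (Fin k) ℤ) ∈ JJ f k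
    rw [mul_zero]
    exact Ideal.zero_mem _
  smul_mem' := by
    intro c b hb
    change vd k * ((c : MvPolynomial (Fin k) ℤ) * b) ∈ JJ f k
    rw [mul_left_comm]
    exact Ideal.mul_mem_left _ _ hb

/-- The ring of the monic factors of degree `k` of `f`. -/
abbrev FF := Sy ℤ k ⧸ FI f k

end

/-! ## Alternating functionals -/

section

variable (L : Type) [CommRing L] (k : ℕ)

/-- `p (x a)`. -/
def xe {L : Type} [CommRing L] {k : ℕ} (a : Fin k) (p : Polynomial L) : MvPolynomial (Fin k) L :=
  Polynomial.aeval (X a : MvPolynomial (Fin k) L) p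

/-- The polynomial `∏ (T - x a)`. -/
def gg : Polynomial (MvPolynomial (Fin k) L) := ∏ a : Fin k, (Polynomial.X - Polynomial.C (X a))

/-- The coefficient of index `j` of `p` modulo `gg`. -/
def lc {L : Type} [CommRing L] (k : ℕ) (p : Polynomial L) (j : ℕ) : MvPolynomial (Fin k) L :=
  ((p.map (C : L →+* MvPolynomial (Fin k) L)) %ₘ gg L k).coeff j

/-- Linear functionals on the polynomials in `k` variables with values in `W`. -/
def Fu (W : Type) [AddCommGroup W] [Module L W] : Type := MvPolynomial (Fin k) L →ₗ[L] W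

variable {L k} {W : Type} [AddCommGroup W] [Module L W]

instance : AddCommGroup (Fu L k W) := inferInstanceAs (AddCommGroup (MvPolynomial (Fin k) L →ₗ[L] W))

/-- The value of a functional. -/
def Fu.v (u : Fu L k W) : MvPolynomial (Fin k) L →ₗ[L] W := u

/-- Polynomials act on functionals: `(b • u) p = u (b * p)`. -/
instance : Module (MvPolynomial (Fin k) L) (Fu L k W) where
  smul b u := (u.v ∘ₗ LinearMap.mulLeft L b : MvPolynomial (Fin k) L →ₗ[L] W)
  one_smul u := LinearMap.ext fun p => congrArg u.v (one_mul p)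
  mul_smul a b u := LinearMap.ext fun p => congrArg u.v (by
    change a * b * p = b * (a * p)
    rw [mul_comm a b, mul_assoc])
  smul_zero b := LinearMap.ext fun p => rfl
  smul_add b u v := LinearMap.ext fun p => rfl
  add_smul a b u := LinearMap.ext fun p => by
    change u.v ((a + b) * p) = u.v (a * p) + u.v (b * p)
    rw [add_mul, map_add]
  zero_smul u := LinearMap.ext fun p => by
    change u.v (0 * p) = 0
    rw [zero_mul, map_zero]

/-- `u` is alternating: it vanishes on polynomials invariant under a transposition. -/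
def Al (u : Fu L k W) : Prop :=
  ∀ a b : Fin k, a ≠ b → ∀ p, rename (Equiv.swap a b) p = p → u.v p = 0

/-- `u` vanishes on the multiples of `q (x a)`. -/
def Ki (q : Polynomial L) (u : Fu L k W) : Prop := ∀ (a : Fin k) p, u.v (xe a q * p) = 0

/-- The alternating functionals which vanish on the multiples of `q (x a)`, as a module over the
symmetric polynomials. -/
def ZZ (q : Polynomial L) : Submodule (Sy L k) (Fu L k W) where
  carrier := {u | Al u ∧ Ki q u}
  add_mem' := by
    rintro u v ⟨h1, h2⟩ ⟨h3, h4⟩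
    refine ⟨fun a b hab p hp => ?_, fun a p => ?_⟩
    · change u.v p + v.v p = 0
      rw [h1 a b hab p hp, h3 a b hab p hp, add_zero]
    · change u.v _ + v.v _ = 0
      rw [h2 a p, h4 a p, add_zero]
  zero_mem' := ⟨fun _ _ _ _ _ => rfl, fun _ _ => rfl⟩
  smul_mem' := by
    rintro ⟨c, hc⟩ u ⟨h1, h2⟩
    refine ⟨fun a b hab p hp => ?_, fun a p => ?_⟩
    · change u.v (c * p) = 0
      refine h1 a b hab _ ?_
      rw [map_mul, hp, (mem_symmetricSubalgebra c).mp hc]
    · change u.v (c * (xe a q * p)) = 0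
      rw [mul_left_comm]
      exact h2 a _

/-- Contraction with `q`: `(io q u) (p) = u (q (x 0) * p (x 1, .., x k))`. -/
def io (q : Polynomial L) (u : Fu L (k + 1) W) : Fu L k W :=
  (u.v ∘ₗ LinearMap.mulLeft L (xe 0 q) ∘ₗ (rename Fin.succ : MvPolynomial (Fin k) L →ₐ[L] _).toLinearMap :
    MvPolynomial (Fin k) L →ₗ[L] W)

/-- The forms on `L[X] / (f, φ)`. -/
def Kf (f φ : Polynomial L) (u : Fu L k W) : Prop := Al u ∧ Ki f u ∧ Ki φ u

end

/-! ## Integrability of compatible families -/

/-- Every compatible family indexed by `S` can be integrated. -/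
def Sol (A N : Type) [CommRing A] [AddCommGroup N] [Module A N] (S : Finset ℕ) (y : ℕ → A) : Prop :=
  ∀ c : ℕ → N, (∀ i ∈ S, ∀ j ∈ S, y i • c j = y j • c i) → ∃ w : N, ∀ i ∈ S, y i • w = c i

/-- `a` acts locally nilpotently. -/
def Nl (A N : Type) [CommRing A] [AddCommGroup N] [Module A N] (a : A) : Prop :=
  ∀ w : N, ∃ n : ℕ, a ^ n • w = 0

/-- `W` is cofree with respect to the coefficients of `φ` (of degree `< m`). -/
def Good (L W : Type) [CommRing L] [AddCommGroup W] [Module L W] (m : ℕ) (φ : Polynomial L) : Prop :=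
  (∀ i, m ≤ i → φ.coeff i = 0) ∧ Sol L W (Finset.range m) φ.coeff ∧ ∀ i < m, Nl L W (φ.coeff i)

end HMx
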