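import Pool.Agent.Lib.MP_181146_gt.HM.SpecF

/-!
# Project HM (part E), further outputs: sections of the shifts, embeddings for every set `S`
-/

set_option autoImplicit false

noncomputable section

namespace HMx

/-- Exponents lowered by one at the place `i`. -/
def low {m : ℕ} (i : Fin m) (β : Fin m → ℕ) : Fin m → ℕ := Function.update β i (β i - 1)

/-- The section of the shift: `(tu i u) β = u (β - e_i)` if `β i > 0`, `0` otherwise. -/
def tu (F : Type) [CommRing F] (m : ℕ) (i : Fin m) : Module.End F ((Fin m → ℕ) → F) :=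
  LinearMap.pi fun β => if β i = 0 then 0 else LinearMap.proj (low i β)

/-- **Sec.** The section `tu i` on `fn F m S` for `i` outside `S` (`i < c`, or `S` empty). -/
def S_Sec : Prop :=
  ∀ (F : Type) [CommRing F] (m c : ℕ) (r : Fin m → Fin m → F) (S : Finset (Fin m)) (i : Fin m),
    i ∉ S → (S.Nonempty → i.val < c) →
    (∀ d, ∀ u ∈ fn F m S d, tu F m i u ∈ fn F m S (d + 1)) ∧
    (∀ u, sf F m i (tu F m i u) = u) ∧
    (∀ a, a ≠ i → ∀ u, yo F m c r S a (tu F m i u) = tu F m i (yo F m c r S a u)) ∧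
    (∀ j u, tu F m j (tu F m i u) = tu F m i (tu F m j u))

/-- **DsS.** The module `DSt` for every set `S` of places `< c` inside the functions on all exponents. -/
def S_DsS : Prop :=
  ∀ (F : Type) [CommRing F] (m c : ℕ) (r : Fin m → Fin m → F) (S : Finset (Fin m)),
    (∀ a ∈ S, a.val < c) →
    ∃ J : Module.End F ((Fin m → ℕ) → F),
      (∀ d, ∀ u ∈ fn F m S d, J u ∈ fn F m ∅ d) ∧
      (∀ d, ∀ u ∈ fn F m S d, J u = 0 → u = 0) ∧
      (∀ a d, ∀ u ∈ fn F m S d, J (yo F m c r S a u) = sf F m a (J u)) ∧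
      (∀ d, ∀ u ∈ fn F m S d, ∀ i ∈ S, sf F m i (J u) + zo F m c r i (J u) = 0) ∧
      ∀ d, ∀ u ∈ fn F m ∅ d, (∀ i ∈ S, sf F m i u + zo F m c r i u = 0) →
        ∃ u' ∈ fn F m S d, J u' = u

end HMx
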