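import Pool.Agent.Lib.MP_181146_gt.HM.SpecM

/-!
# Project HM: S_AlB
-/

set_option autoImplicit false

namespace HMx

open MvPolynomial

/-- **AlB.** Transpositions and permutations of alternating functionals. -/
theorem pAlB : S_AlB := by
  intro L _ W _ _ k u hu
  have h1 : ∀ a b : Fin k, a ≠ b → ∀ p, u.v (rename (Equiv.swap a b) p) = -u.v p := by
    intro a b hab p
    have hs : (⇑(Equiv.swap a b) ∘ ⇑(Equiv.swap a b) : Fin k → Fin k) = id := by
      rw [← Equiv.Perm.coe_mul, Equiv.swap_mul_self]
      rfl
    have h := hu a b hab (p + rename (Equiv.swap a b) p) (by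
      rw [map_add, rename_rename, hs, rename_id_apply, add_comm])
    rw [map_add] at h
    exact eq_neg_of_add_eq_zero_right h
  refine ⟨h1, ?_⟩
  intro σ
  induction σ using Equiv.Perm.swap_induction_on with
  | one =>
    intro p
    rw [Equiv.Perm.sign_one, Equiv.Perm.coe_one, rename_id_apply]
    simp
  | swap_mul σ a b hab ih =>
    intro p
    have h : rename (⇑(Equiv.swap a b * σ)) p = rename (⇑(Equiv.swap a b)) (rename (⇑σ) p) := by
      rw [rename_rename, Equiv.Perm.coe_mul]
    rw [h, h1 a b hab, ih, Equiv.Perm.sign_mul, Equiv.Perm.sign_swap hab]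
    simp

end HMx
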