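import Pool.Agent.Lib.MP_181146_gt.HM.DefsE

/-!
# Project HM (part E): definitions for the transport to functions on exponents
-/

set_option autoImplicit false

noncomputable section

namespace HMx

open MvPolynomial

variable (f : Polynomial ℤ) (m k : ℕ)

/-- The base ring of the inverse system. -/
abbrev Lm := MvPolynomial (Fin m) ℤ

/-- The polynomial `f` over `Lm m`. -/
def fm : Polynomial (Lm m) := f.map (C : ℤ →+* MvPolynomial (Fin m) ℤ)

/-- The pairing of `FF f k` with the polynomials in `k` variables. -/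
def pr (b : FF f k) (P : MvPolynomial (Fin k) ℤ) : ℤ :=
  (tk f m k).v (vd k * ((Quotient.out b : Sy ℤ k) : MvPolynomial (Fin k) ℤ) * P)

/-- Base change of polynomials in `k` variables from `ℤ` to `Lm m`. -/
def bc : MvPolynomial (Fin k) ℤ →+* MvPolynomial (Fin k) (Lm m) := MvPolynomial.map C

variable {m k} in
/-- The functional `w` is represented by the function `c` on exponents with values in `FF f k`. -/
def Rp (c : (Fin m → ℕ) → FF f k) (w : Fu (Lm m) k (In m)) : Prop :=
  ∀ (P : MvPolynomial (Fin k) ℤ) (β : Fin m → ℕ), (w.v (bc m k P)).v β = pr f m k (c β) P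

variable {m k} in
/-- All values on monomials are supported in degree `d`. -/
def Dg (d : ℕ) (w : Fu (Lm m) k (In m)) : Prop :=
  ∀ (s : Fin k →₀ ℕ) (β : Fin m → ℕ), (w.v (monomial s 1)).v β ≠ 0 → ∑ i, β i = d

theorem In.add_v {m : ℕ} (u w : In m) (β : Fin m → ℕ) : (u + w).v β = u.v β + w.v β := rfl

theorem In.X_v {m : ℕ} (a : Fin m) (u : In m) (β : Fin m → ℕ) :
    ((X a : Lm m) • u).v β = u.v (β + Pi.single a 1) := by
  have h := In.smul_v (Finsupp.single a 1) 1 u β
  rw [one_mul] at h
  have e : (⇑(Finsupp.single a 1) : Fin m → ℕ) = Pi.single a 1 := by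
    funext i
    rw [Finsupp.single_apply, Pi.single_apply]
    simp only [eq_comm]
  rw [e] at h
  exact h

/-- The forms of degree `d`. -/
def KDs (d : ℕ) : AddSubgroup (Fu (Lm m) k (In m)) where
  carrier := {w | Kf (fm f m) (gen m) w ∧ Dg d w}
  add_mem' := by
    rintro u w ⟨⟨h1, h2, h3⟩, h4⟩ ⟨⟨h5, h6, h7⟩, h8⟩
    refine ⟨⟨fun a b hab p hp => ?_, fun a p => ?_, fun a p => ?_⟩, fun s β h => ?_⟩
    · change u.v p + w.v p = 0
      rw [h1 a b hab p hp, h5 a b hab p hp, add_zero]
    · change u.v _ + w.v _ = 0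
      rw [h2 a p, h6 a p, add_zero]
    · change u.v _ + w.v _ = 0
      rw [h3 a p, h7 a p, add_zero]
    · by_cases h9 : (u.v (monomial s 1)).v β = 0
      · by_cases h10 : (w.v (monomial s 1)).v β = 0
        · refine absurd ?_ h
          change (u.v (monomial s 1) + w.v (monomial s 1)).v β = 0
          rw [In.add_v, h9, h10, add_zero]
        · exact h8 s β h10
      · exact h4 s β h9
  zero_mem' := ⟨⟨fun _ _ _ _ _ => rfl, fun _ _ => rfl, fun _ _ => rfl⟩, fun s β h => absurd rfl h⟩
  neg_mem' := by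
    rintro u ⟨⟨h1, h2, h3⟩, h4⟩
    refine ⟨⟨fun a b hab p hp => ?_, fun a p => ?_, fun a p => ?_⟩, fun s β h => ?_⟩
    · change -u.v p = 0
      rw [h1 a b hab p hp, neg_zero]
    · change -u.v _ = 0
      rw [h2 a p, neg_zero]
    · change -u.v _ = 0
      rw [h3 a p, neg_zero]
    · refine h4 s β (fun h5 => h ?_)
      change -(u.v (monomial s 1)).v β = 0
      rw [h5, neg_zero]

theorem KDs_X (a : Fin m) {d : ℕ} {w : Fu (Lm m) k (In m)} (hw : w ∈ KDs f m k (d + 1)) :
    (C (X a : Lm m) : MvPolynomial (Fin k) (Lm m)) • w ∈ KDs f m k d := by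
  obtain ⟨⟨h1, h2, h3⟩, h4⟩ := hw
  have h0 : ∀ p, ((C (X a : Lm m) : MvPolynomial (Fin k) (Lm m)) • w).v p = (X a : Lm m) • w.v p := by
    intro p
    change w.v (C (X a : Lm m) * p) = _
    rw [C_mul', map_smul]
  refine ⟨⟨fun b c hbc p hp => ?_, fun b p => ?_, fun b p => ?_⟩, fun s β h => ?_⟩
  · rw [h0, h1 b c hbc p hp, smul_zero]
  · rw [h0, h2 b p, smul_zero]
  · rw [h0, h3 b p, smul_zero]
  · rw [h0, In.X_v] at h
    have h5 := h4 s _ h
    have h6 : ∑ i, (β + Pi.single a 1 : Fin m → ℕ) i = ∑ i, β i + 1 := by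
      simp only [Pi.add_apply, Finset.sum_add_distrib, Finset.sum_pi_single', Finset.mem_univ,
        if_true]
    omega

/-- The forms as a graded module with operators. -/
def KD : DM ℤ m where
  D := fun d => (KDs f m k d).toIntSubmodule
  Y := fun a d =>
    { toFun := fun w => ⟨(C (X a : Lm m) : MvPolynomial (Fin k) (Lm m)) • w.1, KDs_X f m k a w.2⟩
      map_add' := fun u w => Subtype.ext (smul_add _ u.1 w.1)
      map_smul' := fun c u => Subtype.ext (smul_comm _ c u.1) }
  comm := fun a b d w => Subtype.ext (by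
    change (C (X a : Lm m) : MvPolynomial (Fin k) (Lm m)) • ((C (X b : Lm m) :
      MvPolynomial (Fin k) (Lm m)) • w.1) = _
    rw [smul_smul, mul_comm, ← smul_smul]
    rfl)

end HMx
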