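import Pool.Agent.Lib.MP_181146_gt.HM.SpecM

/-!
# Project HM, module ExS: exactness for a product of linear factors
-/

set_option autoImplicit false

noncomputable section

namespace HMx

open MvPolynomial

section

variable {L : Type} [CommRing L] {W : Type} [AddCommGroup W] [Module L W]

private theorem ExS_cons (t : L) (ts : List L) :
    pl (t :: ts) = (Polynomial.X - Polynomial.C t) * pl ts := by
  rw [pl, pl, List.map_cons, List.prod_cons]

private theorem ExS_mon (ts : List L) : (pl ts).Monic := by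
  induction ts with
  | nil => exact Polynomial.monic_one
  | cons t ts ih =>
    rw [ExS_cons]
    exact (Polynomial.monic_X_sub_C t).mul ih

private theorem ExS_deg [Nontrivial L] (ts : List L) : (pl ts).natDegree = ts.length := by
  induction ts with
  | nil => exact Polynomial.natDegree_one
  | cons t ts ih =>
    rw [ExS_cons, (Polynomial.monic_X_sub_C t).natDegree_mul (ExS_mon ts), ih,
      Polynomial.natDegree_X_sub_C, List.length_cons, add_comm]

private theorem ExS_eval (ts : List L) : ∀ a ∈ ts, (pl ts).eval a = 0 := by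
  induction ts with
  | nil =>
    intro a ha
    cases ha
  | cons t ts ih =>
    intro a ha
    rw [ExS_cons, Polynomial.eval_mul]
    rcases List.mem_cons.mp ha with rfl | h
    · rw [Polynomial.eval_sub, Polynomial.eval_X, Polynomial.eval_C, sub_self, zero_mul]
    · rw [ih a h, mul_zero]

private theorem ExS_kf0 (f φ : Polynomial L) {k : ℕ} : Kf f φ (0 : Fu L k W) :=
  ⟨fun _ _ _ _ _ => rfl, fun _ _ => rfl, fun _ _ => rfl⟩

private theorem ExS_add {f φ : Polynomial L} {k : ℕ} {u w : Fu L k W} (hu : Kf f φ u)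
    (hw : Kf f φ w) : Kf f φ (u + w) := by
  refine ⟨fun a b hab p hp => ?_, fun a p => ?_, fun a p => ?_⟩
  · change u.v p + w.v p = 0
    rw [hu.1 a b hab p hp, hw.1 a b hab p hp, add_zero]
  · change u.v _ + w.v _ = 0
    rw [hu.2.1 a p, hw.2.1 a p, add_zero]
  · change u.v _ + w.v _ = 0
    rw [hu.2.2 a p, hw.2.2 a p, add_zero]

private theorem ExS_sub {f φ : Polynomial L} {k : ℕ} {u w : Fu L k W} (hu : Kf f φ u)
    (hw : Kf f φ w) : Kf f φ (u - w) := by
  refine ⟨fun a b hab p hp => ?_, fun a p => ?_, fun a p => ?_⟩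
  · change u.v p - w.v p = 0
    rw [hu.1 a b hab p hp, hw.1 a b hab p hp, sub_zero]
  · change u.v _ - w.v _ = 0
    rw [hu.2.1 a p, hw.2.1 a p, sub_zero]
  · change u.v _ - w.v _ = 0
    rw [hu.2.2 a p, hw.2.2 a p, sub_zero]

/-- A functional killed by the constant `s` has values in the torsion submodule. -/
private theorem ExS_lift {k : ℕ} {s : L} (v : Fu L k W)
    (h : (C s : MvPolynomial (Fin k) L) • v = 0) :
    ∃ v₁ : Fu L k (Submodule.torsionBy L W s), ∀ p, ((v₁.v p : Submodule.torsionBy L W s) : W) = v.v p := by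
  refine ⟨(LinearMap.codRestrict (Submodule.torsionBy L W s) v.v (fun p => ?_) :
    MvPolynomial (Fin k) L →ₗ[L] Submodule.torsionBy L W s), fun p => rfl⟩
  rw [Submodule.mem_torsionBy_iff, ← map_smul, ← C_mul']
  have h1 : ((C s : MvPolynomial (Fin k) L) • v).v p = 0 := by
    rw [h]
    rfl
  exact h1

private theorem ExS_xe1 {k : ℕ} (a : Fin k) : xe a (1 : Polynomial L) = 1 := map_one _

private theorem ExS_io1 (u : Fu L 1 W) (q : Polynomial L) : (io q u).v 1 = u.v (xe 0 q) := by
  change u.v (xe 0 q * rename Fin.succ (1 : MvPolynomial (Fin 0) L)) = _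
  rw [map_one, mul_one]

/-- A functional on the constants is determined by its value at `1`. -/
private theorem ExS_fin0 (u w : Fu L 0 W) (h : u.v 1 = w.v 1) : u = w := by
  refine LinearMap.ext fun p => ?_
  have hp : p = (coeff 0 p) • (1 : MvPolynomial (Fin 0) L) := by
    rw [← C_mul', mul_one]
    exact eq_C_of_isEmpty p
  change u.v p = w.v p
  rw [hp, map_smul, map_smul, h]

private theorem ExS_sign (n : ℕ) (x : W) : ((-1 : L) ^ n) • ((-1 : L) ^ n) • x = x := by
  rw [smul_smul, ← mul_pow, neg_mul_neg, one_mul, one_pow, one_smul]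

end

/-- **ExS.** -/
theorem pExS (hIoB : S_IoB) (hIoK : S_IoK) (hKer : S_Ker) (hGdA : S_GdA) (hGdB : S_GdB)
    (hSur : S_Sur) (hRs1 : S_Rs1) : S_ExS := by
  intro L _ ts
  rcases subsingleton_or_nontrivial L with hL | hL
  · intro W _ _ φ _
    haveI : Subsingleton W := Module.subsingleton L W
    exact ⟨fun k u _ _ => ⟨0, ExS_kf0 _ _, LinearMap.ext fun p => Subsingleton.elim _ _⟩,
      fun w _ => ⟨0, ExS_kf0 _ _, Subsingleton.elim _ _⟩, fun w => ⟨0, Subsingleton.elim _ _⟩⟩
  induction ts with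
  | nil =>
    intro W _ _ φ _
    refine ⟨fun k u hu _ => ⟨0, ExS_kf0 _ _, ?_⟩, fun w hw => ⟨0, ExS_kf0 _ _, ?_⟩,
      fun w => ⟨w, ?_⟩⟩
    · have h0 : u = 0 := by
        refine LinearMap.ext fun p => ?_
        have h1 := hu.2.1 0 p
        have h2 : xe (0 : Fin (k + 1)) (pl ([] : List L)) = 1 := ExS_xe1 0
        rw [h2, one_mul] at h1
        exact h1
      rw [h0]
      exact LinearMap.ext fun p => rfl
    · rw [List.map_nil, List.prod_nil, one_smul] at hw
      rw [hw]
      rfl
    · rw [List.map_nil, List.prod_nil, one_smul]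
  | cons t ts ih =>
    intro W _ _ φ hφ0
    have hφ : Good L W (ts.length + 1) φ := hφ0
    rw [ExS_cons, List.map_cons, List.prod_cons]
    obtain ⟨io1, io2, io3, io4, io5, -, io7, io8, -⟩ := hIoB L W
    obtain ⟨hs, hφ1⟩ := hGdB L W ts.length φ hφ t
    have hψ := hGdA L W ts.length φ (pl ts) hφ (ExS_mon ts) (ExS_deg ts)
    obtain ⟨i1, i2, i3⟩ := ih W _ hψ
    obtain ⟨j1, j2, j3⟩ := ih (Submodule.torsionBy L W (φ.eval t)) _ hφ1
    set c : L := φ.coeff ts.length with hc
    set ψ : Polynomial L := φ - Polynomial.C c * pl ts with hψd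
    set φ₁ : Polynomial L := φ /ₘ (Polynomial.X - Polynomial.C t) with hφ₁
    have hP : (ts.map fun s => ψ.eval s).prod = (ts.map fun s => φ.eval s).prod := by
      congr 1
      refine List.map_congr_left fun a ha => ?_
      rw [hψd, Polynomial.eval_sub, Polynomial.eval_mul, ExS_eval ts a ha, mul_zero, sub_zero]
    rw [hP] at i2 i3
    set P : L := (ts.map fun s => φ.eval s).prod with hPd
    set P₁ : L := (ts.map fun s => φ₁.eval s).prod with hP₁d
    have kφ : ∀ (k : ℕ) (w : Fu L k W), Kf (pl ts) ψ w →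
        Kf ((Polynomial.X - Polynomial.C t) * pl ts) φ w := by
      intro k w hw
      refine ⟨hw.1, ?_, ?_⟩
      · rw [mul_comm]
        exact io7 k w _ _ hw.2.1
      · have e : φ = ψ + pl ts * Polynomial.C c := by
          rw [hψd]
          ring
        rw [e]
        exact io8 k w _ _ hw.2.2 (io7 k w _ _ hw.2.1)
    have kψ : ∀ (k : ℕ) (w : Fu L k W), Al w → Ki (pl ts) w → Ki φ w → Kf (pl ts) ψ w := by
      intro k w h1 h2 h3
      refine ⟨h1, h2, ?_⟩
      have e : ψ = φ + pl ts * Polynomial.C (-c) := by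
        rw [hψd, Polynomial.C_neg]
        ring
      rw [e]
      exact io8 k w _ _ h3 (io7 k w _ _ h2)
    refine ⟨?_, ?_, ?_⟩
    · intro k u hu hu1
      obtain ⟨k1, k2⟩ := hIoK L W k u t (pl ts) hu.1 hu.2.1
      obtain ⟨k3, k4⟩ := k1 φ hu.2.2
      have hvA := io1 k u (pl ts) hu.1
      obtain ⟨v₁, hv₁⟩ := ExS_lift (io (pl ts) u) k4
      have hKv : Kf (pl ts) φ₁ v₁ := by
        refine ⟨fun a b hab p hp => ?_, fun a p => ?_, fun a p => ?_⟩
        · refine Subtype.ext ?_
          rw [hv₁, hvA a b hab p hp]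
          rfl
        · refine Subtype.ext ?_
          rw [hv₁, k2 a p]
          rfl
        · refine Subtype.ext ?_
          rw [hv₁, k3 a p]
          rfl
      obtain ⟨v', hv', hv'1⟩ : ∃ v' : Fu L (k + 1) (Submodule.torsionBy L W (φ.eval t)),
          Kf (pl ts) φ₁ v' ∧ io 1 v' = v₁ := by
        cases k with
        | zero =>
          have h1 := hRs1 L W ts t φ u hu.2.2 hu.2.1
          have h2 : u.v 1 = 0 := by
            have h3 := ExS_io1 u 1
            rw [hu1, ExS_xe1] at h3
            rw [← h3]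
            rfl
          rw [h2, smul_zero, mul_smul] at h1
          have h4 : P₁ • (v₁.v 1) = 0 := by
            refine Subtype.ext ?_
            change P₁ • ((v₁.v 1 : Submodule.torsionBy L W (φ.eval t)) : W) = 0
            rw [hv₁, ExS_io1, ← ExS_sign (L := L) ts.length (P₁ • u.v (xe 0 (pl ts))), ← h1,
              smul_zero]
          obtain ⟨v', g1, g2⟩ := j2 (v₁.v 1) h4
          refine ⟨v', g1, ExS_fin0 _ _ ?_⟩
          rw [ExS_io1, ExS_xe1]
          exact g2
        | succ k =>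
          refine j1 k v₁ hKv ?_
          refine LinearMap.ext fun p => Subtype.ext ?_
          change ((v₁.v (xe 0 1 * rename Fin.succ p) : Submodule.torsionBy L W (φ.eval t)) : W) = 0
          rw [hv₁]
          change (io 1 (io (pl ts) u)).v p = 0
          rw [io3 k u 1 (pl ts) hu.1, hu1]
          change -((0 : Fu L (k + 1) W).v (xe 0 (pl ts) * rename Fin.succ p)) = 0
          exact neg_zero
      obtain ⟨u'', hu'', hu''1⟩ := hSur L W ts t φ hφ (k + 1) v' hv'
      have g1 : io (pl ts) (u + io 1 u'') = 0 := by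
        rw [(io5 k u (io 1 u'') (pl ts)).1, io3 k u'' (pl ts) 1 hu''.1, hu''1]
        refine LinearMap.ext fun p => ?_
        change (io (pl ts) u).v p + -(((v'.v (xe 0 1 * rename Fin.succ p) :
          Submodule.torsionBy L W (φ.eval t)) : W)) = 0
        have g2 : v'.v (xe 0 1 * rename Fin.succ p) = v₁.v p := by
          rw [← hv'1]
          rfl
        rw [g2, hv₁, add_neg_cancel]
      have g3 : io 1 (u + io 1 u'') = 0 := by
        rw [(io5 k u (io 1 u'') 1).1, io4 k u'' 1 hu''.1, hu1, add_zero]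
      have g4 : Kf ((Polynomial.X - Polynomial.C t) * pl ts) φ (io 1 u'') :=
        ⟨io1 _ _ _ hu''.1, io2 _ _ _ _ hu''.2.1, io2 _ _ _ _ hu''.2.2⟩
      have g5 := ExS_add hu g4
      have g6 := hKer L W k (u + io 1 u'') t (pl ts) g5.1 g5.2.1 g1
      obtain ⟨u₁, m1, m2⟩ := i1 k (u + io 1 u'') (kψ _ _ g5.1 g6 g5.2.2) g3
      refine ⟨u₁ - u'', ExS_sub (kφ _ _ m1) hu'', ?_⟩
      rw [(io5 (k + 1) u₁ u'' 1).2.1, m2, add_sub_cancel_right]
    · intro w hw
      have hmem : P • w ∈ Submodule.torsionBy L W (φ.eval t) := by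
        rw [Submodule.mem_torsionBy_iff, smul_smul]
        exact hw
      obtain ⟨x, hx⟩ := j3 (((-1 : L) ^ ts.length) • (⟨P • w, hmem⟩ : Submodule.torsionBy L W (φ.eval t)))
      let v0 : Fu L 0 (Submodule.torsionBy L W (φ.eval t)) :=
        ((LinearMap.toSpanSingleton L _ x) ∘ₗ (isEmptyAlgEquiv L (Fin 0)).toLinearMap :
          MvPolynomial (Fin 0) L →ₗ[L] Submodule.torsionBy L W (φ.eval t))
      have hv0 : v0.v 1 = x := by
        change (LinearMap.toSpanSingleton L _ x) ((isEmptyAlgEquiv L (Fin 0)) 1) = x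
        rw [map_one, LinearMap.toSpanSingleton_apply, one_smul]
      have hK0 : Kf (pl ts) φ₁ v0 :=
        ⟨fun a => a.elim0, fun a => a.elim0, fun a => a.elim0⟩
      obtain ⟨u₁, hu₁, hu₁1⟩ := hSur L W ts t φ hφ 0 v0 hK0
      have h1 := hRs1 L W ts t φ u₁ hu₁.2.2 hu₁.2.1
      have h2 : u₁.v (xe 0 (pl ts)) = (x : W) := by
        rw [← ExS_io1, hu₁1, ← hv0]
        rfl
      have h3 : P₁ • (x : W) = ((-1 : L) ^ ts.length) • (P • w) := congrArg Subtype.val hx
      rw [h2, mul_smul] at h1
      have h4 : P • u₁.v 1 = P • w := by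
        refine h1.trans ?_
        change ((-1 : L) ^ ts.length) • (P₁ • (x : W)) = _
        rw [h3, ExS_sign]
      obtain ⟨u₂, m1, m2⟩ := i2 (w - u₁.v 1) (by rw [smul_sub, h4, sub_self])
      refine ⟨u₁ + u₂, ExS_add hu₁ (kφ _ _ m1), ?_⟩
      change u₁.v 1 + u₂.v 1 = w
      rw [m2, add_sub_cancel]
    · intro w
      obtain ⟨w1, h1⟩ := hs w
      obtain ⟨w2, h2⟩ := i3 w1
      refine ⟨w2, ?_⟩
      rw [mul_smul, h2, h1]

end HMx
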