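import Pool.Agent.Lib.MP_181146_gt.HM.SpecM

/-! HM, module `IoE`: contraction with `f₁` and the evaluation `x_0 ↦ t`. -/

set_option autoImplicit false

namespace HMx

open MvPolynomial

private theorem IoE_dec {L : Type} [CommRing L] {k : ℕ} (t : L)
    (b : MvPolynomial (Fin (k + 1)) L) :
    ∃ c : MvPolynomial (Fin (k + 1)) L, b = rename Fin.succ
      (aeval (Fin.cons (C t) X : Fin (k + 1) → MvPolynomial (Fin k) L) b) + (X 0 - C t) * c := by
  induction b using MvPolynomial.induction_on with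
  | C a =>
    refine ⟨0, ?_⟩
    rw [mul_zero, add_zero, aeval_C, algebraMap_eq, rename_C]
  | add p q hp hq =>
    obtain ⟨c, hc⟩ := hp
    obtain ⟨d, hd⟩ := hq
    refine ⟨c + d, ?_⟩
    rw [map_add, map_add]
    conv_lhs => rw [hc, hd]
    ring
  | mul_X p i hp =>
    obtain ⟨c, hc⟩ := hp
    rw [map_mul, map_mul, aeval_X]
    refine Fin.cases ?_ (fun j => ?_) i
    · rw [Fin.cons_zero, rename_C]
      refine ⟨rename Fin.succ
        (aeval (Fin.cons (C t) X : Fin (k + 1) → MvPolynomial (Fin k) L) p) + c * X 0, ?_⟩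
      conv_lhs => rw [hc]
      ring
    · rw [Fin.cons_succ, rename_X]
      refine ⟨c * X j.succ, ?_⟩
      conv_lhs => rw [hc]
      ring

theorem pIoE : S_IoE := by
  intro L _ W _ _ k u t f₁ hK
  have h1 : ∀ b p : MvPolynomial (Fin (k + 1)) L, u.v (xe 0 f₁ * (b * p)) =
      u.v (xe 0 f₁ * (rename Fin.succ
        (aeval (Fin.cons (C t) X : Fin (k + 1) → MvPolynomial (Fin k) L) b) * p)) := by
    intro b p
    obtain ⟨c, hc⟩ := IoE_dec t b
    have h2 := hK 0 (c * p)
    have h3 : xe (0 : Fin (k + 1)) ((Polynomial.X - Polynomial.C t) * f₁) =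
        (X 0 - C t) * xe 0 f₁ := by
      unfold xe
      rw [map_mul, map_sub, Polynomial.aeval_X, Polynomial.aeval_C, algebraMap_eq]
    rw [h3] at h2
    have h4 : xe 0 f₁ * (b * p) = xe 0 f₁ * (rename Fin.succ
        (aeval (Fin.cons (C t) X : Fin (k + 1) → MvPolynomial (Fin k) L) b) * p) +
        (X 0 - C t) * xe 0 f₁ * (c * p) := by
      generalize aeval (Fin.cons (C t) X : Fin (k + 1) → MvPolynomial (Fin k) L) b = z at hc ⊢
      rw [hc]
      ring
    rw [h4, map_add, h2, add_zero]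
  refine ⟨h1, fun b => ?_⟩
  refine LinearMap.ext fun p => ?_
  change u.v (b * (xe 0 f₁ * rename Fin.succ p)) = u.v (xe 0 f₁ * rename Fin.succ
    (aeval (Fin.cons (C t) X : Fin (k + 1) → MvPolynomial (Fin k) L) b * p))
  have h5 : rename Fin.succ (aeval (Fin.cons (C t) X : Fin (k + 1) → MvPolynomial (Fin k) L) b * p) =
      rename Fin.succ (aeval (Fin.cons (C t) X : Fin (k + 1) → MvPolynomial (Fin k) L) b) *
        rename Fin.succ p := map_mul _ _ _
  rw [h5, mul_left_comm]
  exact h1 b _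

end HMx
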