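import Pool.Agent.Lib.MP_181146_gt.HM.DefsM

/-!
# The norm modulo a monic polynomial

`Nm f m g` is the resultant of `f` (monic of degree `m`) and `g`.
-/

set_option autoImplicit false

noncomputable section

namespace HMx

open Polynomial

/-- The norm of `g` modulo `f`. -/
def Nm {B : Type} [CommRing B] (f : B[X]) (m : ℕ) (g : B[X]) : B := resultant f g m g.natDegree

section

variable {B : Type} [CommRing B] {f : B[X]} {m : ℕ}

theorem nmDeg (hc : f.coeff m = 1) {g : B[X]} {n : ℕ} (hn : g.natDegree ≤ n) :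
    resultant f g m n = Nm f m g := by
  obtain ⟨k, rfl⟩ := Nat.exists_eq_add_of_le hn
  rw [resultant_add_right_deg _ _ _ _ _ le_rfl, hc, one_pow, one_mul, Nm]

theorem nmMul (hf : f.natDegree ≤ m) (hc : f.coeff m = 1) (g h : B[X]) :
    Nm f m (g * h) = Nm f m g * Nm f m h := by
  rw [← nmDeg hc (natDegree_mul_le (p := g) (q := h)), resultant_mul_right _ _ _ _ hf, Nm, Nm]

theorem nmAdd (hf : f.natDegree ≤ m) (hc : f.coeff m = 1) (g p : B[X]) :
    Nm f m (g + f * p) = Nm f m g := by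
  have h1 : (g + f * p).natDegree ≤ max g.natDegree (p.natDegree + m) := by
    refine (natDegree_add_le _ _).trans (max_le_max le_rfl ?_)
    refine natDegree_mul_le.trans ?_
    omega
  rw [← nmDeg hc h1, resultant_add_mul_right _ _ _ _ _ (le_max_right _ _) hf,
    nmDeg hc (le_max_left _ _)]

theorem nmC (z : B) : Nm f m (C z) = z ^ m := by
  rw [Nm, natDegree_C, resultant_C_zero_right]

theorem nmZero (hm : m ≠ 0) : Nm f m 0 = 0 := by
  rw [← C_0, nmC, zero_pow hm]

theorem nmX (hf : f.natDegree ≤ m) (hc : f.coeff m = 1) :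
    Nm f m X = (-1) ^ m * f.coeff 0 := by
  rw [← nmDeg hc (natDegree_X_le), ← pow_one (X : B[X]), resultant_X_pow_right _ _ _ hf, mul_one,
    pow_one]

theorem nmMap {A : Type} [CommRing A] (φ : A →+* B) {f : A[X]} {m : ℕ} (hc : f.coeff m = 1)
    (g : A[X]) : Nm (f.map φ) m (g.map φ) = φ (Nm f m g) := by
  have h1 : (f.map φ).coeff m = 1 := by rw [coeff_map, hc, map_one]
  rw [← nmDeg h1 (natDegree_map_le), resultant_map_map, Nm]

end

/-! ## The polynomial `X ^ m - q` -/

section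

variable {B : Type} [CommRing B] {m : ℕ} (c : B)

theorem xqD : (X ^ m - C c : B[X]).natDegree ≤ m :=
  (natDegree_sub_C (a := c) (p := X ^ m)).le.trans (natDegree_X_pow_le m)

theorem xqC (hm : m ≠ 0) : (X ^ m - C c : B[X]).coeff m = 1 := by
  rw [coeff_sub, coeff_X_pow, if_pos rfl, coeff_C, if_neg hm, sub_zero]

theorem xq0 (hm : m ≠ 0) : (X ^ m - C c : B[X]).coeff 0 = -c := by
  rw [coeff_sub, coeff_X_pow, if_neg (Ne.symm hm), coeff_C_zero, zero_sub]

/-- The norm of `z + H`. -/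
theorem nmK {q j : ℕ} (hq : q.Prime) (z : B) (H : B[X]) :
    ∃ w, Nm (X ^ (q ^ j) - C (q : B)) (q ^ j) (C z + H) =
      Nm (X ^ (q ^ j) - C (q : B)) (q ^ j) H + z ^ (q ^ j) + q * (z * w) := by
  set m := q ^ j with hm
  have hm0 : m ≠ 0 := (pow_pos hq.pos j).ne'
  -- the generic norm
  set f : B[X] := X ^ m - C (q : B) with hf
  set D : B[X] := Nm (f.map C) m (C X + H.map C) with hD
  have e1 : ∀ x : B, Nm f m (C x + H) = D.eval x := by
    intro x
    have h1 : (f.map (C : B →+* B[X])).coeff m = 1 := by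
      rw [coeff_map, xqC _ hm0, map_one]
    have h2 := nmMap (evalRingHom x) h1 (C X + H.map C)
    rw [Polynomial.map_map, Polynomial.map_add, Polynomial.map_map, map_C] at h2
    have h3 : (evalRingHom x).comp C = RingHom.id B := by
      ext y
      simp
    rw [h3, Polynomial.map_id, Polynomial.map_id] at h2
    rw [coe_evalRingHom, eval_X] at h2
    exact h2
  -- modulo `q`
  have e2 : ∃ W : B[X], D = X ^ m + C (H.coeff 0) ^ m + C (q : B) * W := by
    obtain ⟨r, hr⟩ := exists_add_pow_prime_pow_eq hq (X : B[X]) (C (H.coeff 0)) j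
    have h1 : D - (X + C (H.coeff 0)) ^ m ∈ Ideal.span {C (q : B)} := by
      rw [← Ideal.Quotient.eq]
      set π := Ideal.Quotient.mk (Ideal.span {C (q : B)}) with hπ
      have h2 : (f.map (C : B →+* B[X])).coeff m = 1 := by
        rw [coeff_map, xqC _ hm0, map_one]
      rw [hD, ← nmMap π h2]
      have h3 : (f.map (C : B →+* B[X])).map π = X ^ m := by
        rw [hf]
        simp only [Polynomial.map_sub, Polynomial.map_pow, map_X, map_C]
        have h4 : π (C (q : B)) = 0 :=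
          Ideal.Quotient.eq_zero_iff_mem.mpr (Ideal.mem_span_singleton_self _)
        rw [h4, C_0, sub_zero]
      rw [h3, Nm, resultant_X_pow_left _ _ _ le_rfl]
      simp
    obtain ⟨W, hW⟩ := Ideal.mem_span_singleton'.mp h1
    refine ⟨X * C (H.coeff 0) * r + W, ?_⟩
    rw [← hm] at hr
    have h5 : D = (X + C (H.coeff 0)) ^ m + W * C (q : B) := by
      rw [hW]
      ring
    rw [h5, hr, map_natCast]
    ring
  obtain ⟨W, hW⟩ := e2
  have e3 : Nm f m H = D.eval 0 := by
    rw [← e1, C_0, zero_add]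
  obtain ⟨w, hw⟩ := sub_dvd_eval_sub z 0 W
  rw [sub_zero] at hw
  refine ⟨w, ?_⟩
  rw [e1, e3, ← hw, hW]
  simp only [eval_add, eval_pow, eval_X, eval_C, eval_mul]
  rw [zero_pow hm0]
  ring

theorem nmX' (hm : m ≠ 0) : Nm (X ^ m - C c) m X = (-1) ^ (m + 1) * c := by
  rw [nmX (xqD c) (xqC c hm), xq0 c hm]
  ring

/-- The norm of a sum. -/
theorem nmS {q j : ℕ} (hq : q.Prime) {T : Type} [DecidableEq T] (E : T → ℕ) (z : T → B)
    (hz : ∀ t, (q : B) ^ (E t + 1) * z t = 0) (S : Finset T) :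
    Nm (X ^ (q ^ j) - C (q : B)) (q ^ j) (∑ t ∈ S, C (z t) * X ^ E t) =
      ∑ t ∈ S, ((-1) ^ (q ^ j + 1) * (q : B)) ^ E t * z t ^ (q ^ j) := by
  set m := q ^ j with hm
  have hm0 : m ≠ 0 := (pow_pos hq.pos j).ne'
  have hf := xqD (m := m) (q : B)
  have hc := xqC (q : B) hm0
  have hX : ∀ n, Nm (X ^ m - C (q : B)) m (X ^ n) = ((-1) ^ (m + 1) * (q : B)) ^ n := by
    intro n
    induction n with
    | zero => rw [pow_zero, pow_zero, ← C_1, nmC, one_pow]
    | succ n ih =>
      rw [pow_succ, nmMul hf hc, ih, nmX' _ hm0]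
      exact (pow_succ _ _).symm
  induction S using Finset.induction_on_min_value E with
  | empty => rw [Finset.sum_empty, Finset.sum_empty, nmZero hm0]
  | insert a S ha hmin ih =>
    rw [Finset.sum_insert ha, Finset.sum_insert ha]
    have h1 : ∑ t ∈ S, C (z t) * X ^ E t = X ^ E a * ∑ t ∈ S, C (z t) * X ^ (E t - E a) := by
      rw [Finset.mul_sum]
      refine Finset.sum_congr rfl (fun t ht => ?_)
      rw [mul_left_comm, ← pow_add, Nat.add_sub_cancel' (hmin t ht)]
    rw [h1, nmMul hf hc, hX] at ih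
    rw [h1, mul_comm (C (z a)), ← mul_add, nmMul hf hc, hX]
    obtain ⟨w, hw⟩ := nmK (j := j) hq (z a) (∑ t ∈ S, C (z t) * X ^ (E t - E a))
    rw [← hm] at hw
    rw [hw, mul_add, mul_add, ih, add_comm (∑ t ∈ S, _)]
    have h2 : ((-1) ^ (m + 1) * (q : B)) ^ E a * ((q : B) * (z a * w)) = 0 := by
      have h3 := hz a
      calc _ = ((-1) ^ (m + 1)) ^ E a * (((q : B) ^ (E a + 1) * z a) * w) := by ring
        _ = 0 := by rw [h3, zero_mul, mul_zero]
    rw [h2, add_zero]

end

end HMx
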