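import Pool.Agent.Lib.MP_181146_gt.HM.SpecF

/-!
# Project HM, module Prf: the perfect pairing on the polynomials modulo the `f (x a)`
-/

set_option autoImplicit false

noncomputable section

namespace HMx

open MvPolynomial

/-- `tau` as a linear map. -/
private def Prf_tau (f : Polynomial ℤ) (m : ℕ) : Polynomial ℤ →ₗ[ℤ] ℤ :=
  Polynomial.lcoeff ℤ (m - 1) ∘ₗ Polynomial.modByMonicHom f

private theorem Prf_tau_apply (f : Polynomial ℤ) (m : ℕ) (p : Polynomial ℤ) :
    Prf_tau f m p = tau f m p := rfl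

/-- `tau` kills the multiples of `f`. -/
private theorem Prf_tau_mul (f : Polynomial ℤ) (m : ℕ) (hf : f.Monic) (p : Polynomial ℤ) :
    tau f m (p * f) = 0 := by
  unfold tau
  rw [Polynomial.mul_self_modByMonic hf, Polynomial.coeff_zero]

private theorem Prf_xe_mul {k : ℕ} (a : Fin k) (p q : Polynomial ℤ) :
    xe a (p * q) = xe a p * xe a q := map_mul _ _ _

private theorem Prf_xe_one {k : ℕ} (a : Fin k) : xe a (1 : Polynomial ℤ) = 1 := map_one _

private theorem Prf_xe_pow {k : ℕ} (a : Fin k) (n : ℕ) :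
    xe a ((Polynomial.X : Polynomial ℤ) ^ n) = X a ^ n := by
  unfold xe
  rw [map_pow, Polynomial.aeval_X]

/-- A monomial is a product of powers of the variables. -/
private theorem Prf_mono {k : ℕ} (s : Fin k →₀ ℕ) :
    (monomial s 1 : MvPolynomial (Fin k) ℤ) = ∏ a, X a ^ s a := by
  rw [monomial_eq, C_1, one_mul, Finsupp.prod_fintype]
  intro i
  exact pow_zero _

private theorem Prf_mono' {k : ℕ} (s : Fin k → ℕ) :
    (∏ a, X a ^ s a : MvPolynomial (Fin k) ℤ) = monomial (Finsupp.equivFunOnFinite.symm s) 1 := by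
  rw [Prf_mono]
  rfl

private theorem Prf_tk_mono (f : Polynomial ℤ) (m k : ℕ) (s : Fin k →₀ ℕ) :
    (tk f m k).v (monomial s 1) = ∏ a, tau f m (Polynomial.X ^ s a) := by
  have h : (tk f m k).v = (basisMonomials (Fin k) ℤ).constr ℤ
    (fun s => ∏ a, tau f m (Polynomial.X ^ s a)) := rfl
  have h1 : (monomial s 1 : MvPolynomial (Fin k) ℤ) = basisMonomials (Fin k) ℤ s := by
    rw [coe_basisMonomials]
  rw [h, h1, Module.Basis.constr_basis]

private theorem Prf_one (f : Polynomial ℤ) (m k : ℕ) (p : Fin k → Polynomial ℤ) :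
    (tk f m k).v (∏ a, xe a (p a)) = ∏ a, tau f m (p a) := by
  let A : MultilinearMap ℤ (fun _ : Fin k => Polynomial ℤ) ℤ :=
    (tk f m k).v.compMultilinearMap
      ((MultilinearMap.mkPiAlgebra ℤ (Fin k) (MvPolynomial (Fin k) ℤ)).compLinearMap
        (fun a => (Polynomial.aeval (X a : MvPolynomial (Fin k) ℤ)).toLinearMap))
  let B : MultilinearMap ℤ (fun _ : Fin k => Polynomial ℤ) ℤ :=
    (MultilinearMap.mkPiAlgebra ℤ (Fin k) ℤ).compLinearMap (fun _ => Prf_tau f m)
  have hA : ∀ p, A p = (tk f m k).v (∏ a, xe a (p a)) := fun p => rfl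
  have hB : ∀ p, B p = ∏ a, tau f m (p a) := fun p => rfl
  have hAB : A = B := by
    refine Module.Basis.ext_multilinear (fun _ => Polynomial.basisMonomials ℤ) ?_
    intro s
    have e : (fun i : Fin k => Polynomial.basisMonomials ℤ (s i)) =
        fun i => (Polynomial.X : Polynomial ℤ) ^ s i := by
      funext i
      rw [Polynomial.coe_basisMonomials]
      exact Polynomial.monomial_one_right_eq_X_pow _
    rw [e, hA, hB]
    have e2 : (∏ a, xe a ((Polynomial.X : Polynomial ℤ) ^ s a) : MvPolynomial (Fin k) ℤ) =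
        monomial (Finsupp.equivFunOnFinite.symm s) 1 := by
      rw [← Prf_mono']
      exact Finset.prod_congr rfl fun a _ => Prf_xe_pow a _
    rw [e2, Prf_tk_mono]
    rfl
  rw [← hA, ← hB, hAB]

/-- Linear maps which agree on the monomials. -/
private theorem Prf_ext {k : ℕ} {u v : MvPolynomial (Fin k) ℤ →ₗ[ℤ] ℤ}
    (h : ∀ s : Fin k → ℕ, u (∏ a, X a ^ s a) = v (∏ a, X a ^ s a)) : u = v := by
  refine (basisMonomials (Fin k) ℤ).ext ?_
  intro s
  rw [coe_basisMonomials]
  change u (monomial s 1) = v (monomial s 1)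
  rw [Prf_mono]
  exact h _

private theorem Prf_two (f : Polynomial ℤ) (m k : ℕ) (σ : Equiv.Perm (Fin k))
    (P : MvPolynomial (Fin k) ℤ) : (tk f m k).v (rename σ P) = (tk f m k).v P := by
  have h : (tk f m k).v ∘ₗ (rename σ : MvPolynomial (Fin k) ℤ →ₐ[ℤ] _).toLinearMap =
      (tk f m k).v := by
    refine Prf_ext ?_
    intro s
    rw [LinearMap.comp_apply, AlgHom.toLinearMap_apply, Prf_mono', rename_monomial, Prf_tk_mono, Prf_tk_mono]
    have e : ∀ a, (Finsupp.mapDomain σ (Finsupp.equivFunOnFinite.symm s)) a = s (σ.symm a) := by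
      intro a
      rw [Finsupp.mapDomain_equiv_apply]
      rfl
    have e2 : ∀ a, (Finsupp.equivFunOnFinite.symm s) a = s a := fun a => rfl
    simp only [e, e2]
    exact Equiv.prod_comp σ.symm (fun a => tau f m (Polynomial.X ^ s a))
  have h1 := LinearMap.congr_fun h P
  rwa [LinearMap.comp_apply, AlgHom.toLinearMap_apply] at h1

/-- The product `∏ xe b (p b)` times `xe a q`. -/
private theorem Prf_prod {k : ℕ} (p : Fin k → Polynomial ℤ) (a : Fin k) (q : Polynomial ℤ) :
    (∏ b, xe b (p b * if b = a then q else 1) : MvPolynomial (Fin k) ℤ) =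
      (∏ b, xe b (p b)) * xe a q := by
  simp only [Prf_xe_mul, Finset.prod_mul_distrib]
  congr 1
  rw [Finset.prod_eq_single a]
  · rw [if_pos rfl]
  · intro b _ hb
    rw [if_neg hb, Prf_xe_one]
  · intro h
    exact absurd (Finset.mem_univ a) h

private theorem Prf_three0 (f : Polynomial ℤ) (m k : ℕ) (hf : f.Monic) (a : Fin k)
    (Q : MvPolynomial (Fin k) ℤ) : (tk f m k).v (Q * xe a f) = 0 := by
  have h : (tk f m k).v ∘ₗ LinearMap.mulRight ℤ (xe a f) = 0 := by
    refine Prf_ext ?_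
    intro s
    rw [LinearMap.comp_apply, LinearMap.mulRight_apply, LinearMap.zero_apply]
    have e : (∏ b, X b ^ s b : MvPolynomial (Fin k) ℤ) = ∏ b, xe b (Polynomial.X ^ s b) :=
      Finset.prod_congr rfl fun b _ => (Prf_xe_pow b _).symm
    rw [e, ← Prf_prod, Prf_one]
    refine Finset.prod_eq_zero (Finset.mem_univ a) ?_
    rw [if_pos rfl, Prf_tau_mul f m hf]
  have h1 := LinearMap.congr_fun h Q
  rwa [LinearMap.comp_apply, LinearMap.mulRight_apply, LinearMap.zero_apply] at h1

private theorem Prf_three (f : Polynomial ℤ) (m k : ℕ) (hf : f.Monic)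
    (P : MvPolynomial (Fin k) ℤ) (hP : P ∈ JJ f k) : (tk f m k).v P = 0 := by
  have h : ∀ Q, (tk f m k).v (Q * P) = 0 := by
    unfold JJ at hP
    induction hP using Submodule.span_induction with
    | mem x hx =>
      obtain ⟨a, rfl⟩ := hx
      intro Q
      exact Prf_three0 f m k hf a Q
    | zero =>
      intro Q
      rw [mul_zero, map_zero]
    | add x y _ _ hx hy =>
      intro Q
      rw [mul_add, map_add, hx, hy, add_zero]
    | smul a x _ hx =>
      intro Q
      rw [smul_eq_mul, ← mul_assoc]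
      exact hx _
  have := h 1
  rwa [one_mul] at this

private theorem Prf_mem {k : ℕ} (f : Polynomial ℤ) (a : Fin k) : xe a f ∈ JJ f k :=
  Ideal.subset_span ⟨a, rfl⟩

/-- Reduction modulo `f` in one variable. -/
private theorem Prf_mod (f : Polynomial ℤ) (m : ℕ) {k : ℕ} (hf : f.Monic) (hm : f.natDegree = m)
    (a : Fin k) (p : Polynomial ℤ) :
    Ideal.Quotient.mk (JJ f k) (xe a p) =
      Ideal.Quotient.mk (JJ f k) (∑ i : Fin m, C ((p %ₘ f).coeff i.val) * X a ^ i.val) := by
  have h1 : xe a p = xe a (p %ₘ f) + xe a f * xe a (p /ₘ f) := by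
    rw [← Prf_xe_mul]
    unfold xe
    rw [← map_add, Polynomial.modByMonic_add_div]
  have h2 : (p %ₘ f).degree < (m : ℕ) := by
    have h3 := Polynomial.degree_modByMonic_lt p hf
    rwa [Polynomial.degree_eq_natDegree hf.ne_zero, hm] at h3
  have h3 : ∑ i : Fin m, Polynomial.C ((p %ₘ f).coeff i.val) * Polynomial.X ^ i.val = p %ₘ f := by
    rw [Polynomial.sum_fin (fun i c => Polynomial.C c * Polynomial.X ^ i)
      (fun i => by rw [Polynomial.C_0, zero_mul]) h2, Polynomial.sum_C_mul_X_pow_eq]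
  have h4 : xe a (p %ₘ f) = ∑ i : Fin m, C ((p %ₘ f).coeff i.val) * X a ^ i.val := by
    rw [← h3]
    unfold xe
    rw [map_sum, h3]
    refine Finset.sum_congr rfl fun i _ => ?_
    rw [map_mul, map_pow, Polynomial.aeval_X, Polynomial.aeval_C]
    rfl
  rw [h1, map_add, h4]
  have h5 : Ideal.Quotient.mk (JJ f k) (xe a f * xe a (p /ₘ f)) = 0 := by
    rw [Ideal.Quotient.eq_zero_iff_mem]
    exact Ideal.mul_mem_right _ _ (Prf_mem f a)
  rw [h5, add_zero]

private theorem Prf_six (f : Polynomial ℤ) (m k : ℕ) (hf : f.Monic) (hm : f.natDegree = m)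
    (P : MvPolynomial (Fin k) ℤ) : ∃ c : (Fin k → Fin m) → ℤ,
      P - ∑ s, C (c s) * ∏ a, X a ^ (s a).val ∈ JJ f k := by
  induction P using MvPolynomial.induction_on' with
  | monomial u a =>
    refine ⟨fun s => a * ∏ b, (((Polynomial.X : Polynomial ℤ) ^ u b) %ₘ f).coeff (s b).val, ?_⟩
    rw [← Ideal.Quotient.eq]
    have h1 : (monomial u a : MvPolynomial (Fin k) ℤ) = C a * ∏ b, xe b (Polynomial.X ^ u b) := by
      have h2 : (monomial u a : MvPolynomial (Fin k) ℤ) = C a * monomial u 1 := by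
        rw [C_mul_monomial, mul_one]
      rw [h2, Prf_mono]
      congr 1
      exact Finset.prod_congr rfl fun b _ => (Prf_xe_pow b _).symm
    have h3 : (∑ s : Fin k → Fin m, C (a * ∏ b, (((Polynomial.X : Polynomial ℤ) ^ u b) %ₘ f).coeff
        (s b).val) * ∏ b, X b ^ (s b).val : MvPolynomial (Fin k) ℤ) =
        C a * ∏ b, ∑ i : Fin m, C ((((Polynomial.X : Polynomial ℤ) ^ u b) %ₘ f).coeff i.val) *
          X b ^ i.val := by
      rw [Finset.prod_univ_sum, Finset.mul_sum, Fintype.piFinset_univ]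
      refine Finset.sum_congr rfl fun s _ => ?_
      rw [Finset.prod_mul_distrib, map_mul, map_prod, mul_assoc]
    rw [h1, h3, map_mul, map_mul, map_prod, map_prod]
    congr 1
    exact Finset.prod_congr rfl fun b _ => Prf_mod f m hf hm b _
  | add p q hp hq =>
    obtain ⟨c, hc⟩ := hp
    obtain ⟨d, hd⟩ := hq
    refine ⟨c + d, ?_⟩
    have h1 : (∑ s : Fin k → Fin m, C ((c + d) s) * ∏ a, X a ^ (s a).val :
        MvPolynomial (Fin k) ℤ) = (∑ s : Fin k → Fin m, C (c s) * ∏ a, X a ^ (s a).val) +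
        ∑ s : Fin k → Fin m, C (d s) * ∏ a, X a ^ (s a).val := by
      rw [← Finset.sum_add_distrib]
      refine Finset.sum_congr rfl fun s _ => ?_
      rw [Pi.add_apply, map_add, add_mul]
    rw [h1, add_sub_add_comm]
    exact Ideal.add_mem _ hc hd

/-- The dual basis. -/
private theorem Prf_dual (hDua : S_Dua) (f : Polynomial ℤ) (m k : ℕ) (hf : f.Monic)
    (hm : f.natDegree = m) (s t : Fin k → Fin m) :
    (tk f m k).v ((∏ a, xe a (cc f m (s a))) * ∏ a, X a ^ (t a).val) =
      if s = t then 1 else 0 := by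
  have e : ((∏ a, xe a (cc f m (s a))) * ∏ a, X a ^ (t a).val : MvPolynomial (Fin k) ℤ) =
      ∏ a, xe a (cc f m (s a) * Polynomial.X ^ (t a).val) := by
    simp only [Prf_xe_mul, Prf_xe_pow, Finset.prod_mul_distrib]
  rw [e, Prf_one]
  have e2 : ∀ a, tau f m (cc f m (s a) * Polynomial.X ^ (t a).val) = if s a = t a then 1 else 0 := by
    intro a
    rw [hDua f m hf hm _ (s a).2 _ (t a).2]
    by_cases h : s a = t a
    · rw [if_pos h, if_pos (congrArg Fin.val h)]
    · rw [if_neg h, if_neg (fun h' => h (Fin.ext h'))]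
  simp only [e2]
  by_cases h : s = t
  · subst h
    simp
  · rw [if_neg h]
    obtain ⟨a, ha⟩ := Function.ne_iff.1 h
    exact Finset.prod_eq_zero (Finset.mem_univ a) (if_neg ha)

private theorem Prf_four (hDua : S_Dua) (f : Polynomial ℤ) (m k : ℕ) (hf : f.Monic)
    (hm : f.natDegree = m) (h : MvPolynomial (Fin k) ℤ)
    (h0 : ∀ P, (tk f m k).v (h * P) = 0) : h ∈ JJ f k := by
  obtain ⟨c, hc⟩ := Prf_six f m k hf hm h
  have hc0 : ∀ t, c t = 0 := by
    intro t
    have h1 := Prf_three f m k hf _ (Ideal.mul_mem_right (∏ a, xe a (cc f m (t a))) _ hc)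
    rw [sub_mul, map_sub, h0, zero_sub, neg_eq_zero, Finset.sum_mul, map_sum] at h1
    have h2 : ∀ s : Fin k → Fin m, (tk f m k).v ((C (c s) * ∏ a, X a ^ (s a).val) *
        ∏ a, xe a (cc f m (t a))) = if t = s then c s else 0 := by
      intro s
      rw [mul_assoc, C_mul', map_smul, mul_comm (∏ a, X a ^ (s a).val),
        Prf_dual hDua f m k hf hm, smul_eq_mul, mul_ite, mul_one, mul_zero]
    simp only [h2] at h1
    rwa [Finset.sum_ite_eq, if_pos (Finset.mem_univ t)] at h1
  have h3 : (∑ s : Fin k → Fin m, C (c s) * ∏ a, X a ^ (s a).val : MvPolynomial (Fin k) ℤ) = 0 := by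
    refine Finset.sum_eq_zero fun s _ => ?_
    rw [hc0 s, C_0, zero_mul]
  rwa [h3, sub_zero] at hc

private theorem Prf_Ki {k : ℕ} (f : Polynomial ℤ) (u : Fu ℤ k ℤ) (hu : Ki f u)
    (P : MvPolynomial (Fin k) ℤ) (hP : P ∈ JJ f k) : u.v P = 0 := by
  have h : ∀ Q, u.v (Q * P) = 0 := by
    unfold JJ at hP
    induction hP using Submodule.span_induction with
    | mem x hx =>
      obtain ⟨a, rfl⟩ := hx
      intro Q
      rw [mul_comm]
      exact hu a Q
    | zero =>
      intro Q
      rw [mul_zero, map_zero]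
    | add x y _ _ hx hy =>
      intro Q
      rw [mul_add, map_add, hx, hy, add_zero]
    | smul a x _ hx =>
      intro Q
      rw [smul_eq_mul, ← mul_assoc]
      exact hx _
  have := h 1
  rwa [one_mul] at this

private theorem Prf_five (hDua : S_Dua) (f : Polynomial ℤ) (m k : ℕ) (hf : f.Monic)
    (hm : f.natDegree = m) (u : Fu ℤ k ℤ) (hu : Ki f u) (P : MvPolynomial (Fin k) ℤ) :
    u.v P = (tk f m k).v ((∑ s : Fin k → Fin m, C (u.v (∏ a, X a ^ (s a).val)) *
      ∏ a, xe a (cc f m (s a))) * P) := by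
  obtain ⟨c, hc⟩ := Prf_six f m k hf hm P
  set H : MvPolynomial (Fin k) ℤ := ∑ s : Fin k → Fin m, C (u.v (∏ a, X a ^ (s a).val)) *
      ∏ a, xe a (cc f m (s a)) with hH
  set R : MvPolynomial (Fin k) ℤ := ∑ s : Fin k → Fin m, C (c s) * ∏ a, X a ^ (s a).val with hR
  have h1 : u.v P = u.v R := by
    have := Prf_Ki f u hu _ hc
    rw [map_sub] at this
    exact sub_eq_zero.1 this
  have h2 : (tk f m k).v (H * P) = (tk f m k).v (H * R) := by
    have := Prf_three f m k hf _ (Ideal.mul_mem_left _ H hc)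
    rw [mul_sub, map_sub] at this
    exact sub_eq_zero.1 this
  have h3 : ∀ t : Fin k → Fin m, (tk f m k).v (H * ∏ a, X a ^ (t a).val) =
      u.v (∏ a, X a ^ (t a).val) := by
    intro t
    rw [hH, Finset.sum_mul, map_sum]
    have h4 : ∀ s : Fin k → Fin m, (tk f m k).v ((C (u.v (∏ a, X a ^ (s a).val)) *
        ∏ a, xe a (cc f m (s a))) * ∏ a, X a ^ (t a).val) =
        if s = t then u.v (∏ a, X a ^ (s a).val) else 0 := by
      intro s
      rw [mul_assoc, C_mul', map_smul, Prf_dual hDua f m k hf hm, smul_eq_mul, mul_ite, mul_one,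
        mul_zero]
    simp only [h4]
    rw [Finset.sum_ite_eq', if_pos (Finset.mem_univ t)]
  rw [h1, h2, hR, Finset.mul_sum, map_sum, map_sum]
  refine Finset.sum_congr rfl fun t _ => ?_
  rw [C_mul', map_smul, mul_smul_comm, map_smul, h3]

/-- The perfect pairing. -/
theorem pPrf (hDua : S_Dua) : S_Prf := by
  intro f m k hf hm
  exact ⟨Prf_one f m k, Prf_two f m k, Prf_three f m k hf, Prf_four hDua f m k hf hm,
    Prf_five hDua f m k hf hm, Prf_six f m k hf hm⟩

end HMx
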