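import Pool.Agent.Lib.MP_181146_gt.HM.DefsE

/-!
# Project HM (part E of 181146), specification: the exact sequence of the norm form

Every statement `S_X` is a `Prop`; module `X` delivers `theorem pX : S_X`.  Statements used in a proof
are hypotheses of the theorem (`theorem pX (h : S_Y) : S_X`), so all modules are independent.

Notation.  `L` is a commutative ring, `W` an `L`-module; a functional `u : Fu L k W` is a linear map
from the polynomials in `x_0, .., x_(k-1)` to `W`, `(b • u) (p) = u (b p)`.  `Al u`: `u p = 0` if `p`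
is invariant under a transposition `(a b)`, `a ≠ b`.  `Ki q u`: `u (q (x_a) p) = 0` for all `a`, `p`.
`io q u (p) = u (q (x_0) p (x_1, .., x_k))`.  In a definition unfold with `change` (all equations such as
`(b • u).v p = u.v (b * p)`, `(io q u).v p = u.v (xe 0 q * rename Fin.succ p)`, `(u + w).v p = u.v p + w.v p`
hold by `rfl`).
-/

set_option autoImplicit false

noncomputable section

namespace HMx

open MvPolynomial

/-! ## A. Alternating functionals -/

/-- **AlB.** PROOF.  First: `q := p + rename (swap a b) p` is invariant under `swap a b` (`rename_rename`,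
`swap a b ∘ swap a b = id`), so `u q = 0`.  Second: `Equiv.Perm.swap_induction_on σ`: identity
(`rename_id`), and `rename (swap a b * σ) p = rename (swap a b) (rename σ p)` with
`Equiv.Perm.sign_swap`, `sign_mul`. -/
def S_AlB : Prop :=
  ∀ (L : Type) [CommRing L] (W : Type) [AddCommGroup W] [Module L W] (k : ℕ) (u : Fu L k W), Al u →
    (∀ a b : Fin k, a ≠ b → ∀ p, u.v (rename (Equiv.swap a b) p) = -u.v p) ∧
    ∀ (σ : Equiv.Perm (Fin k)) p, u.v (rename σ p) = (Equiv.Perm.sign σ : ℤ) • u.v p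

/-- **IoB.** Elementary properties of contractions.  PROOF.
(1) for `a ≠ b` and `rename (swap a b) p = p` the polynomial `xe 0 q * rename succ p` is invariant
under `swap a.succ b.succ` (`rename (swap a.succ b.succ) (xe 0 q) = xe 0 q`, as `swap` fixes `0`:
`Polynomial.aeval` composed with an algebra map, `Polynomial.aeval_algHom_apply`;
`swap a.succ b.succ ∘ succ = succ ∘ swap a b`).
(2) `xe 0 q * rename succ (xe a f * p) = xe a.succ f * (xe 0 q * rename succ p)`.
(3) `(io p (io q u)) r = u (xe 0 q * (xe 1 p * r'))`, `r' = rename (succ ∘ succ) r`;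
`rename (swap 0 1)` exchanges `xe 0 q * xe 1 p * r'` and `xe 1 q * xe 0 p * r'`; use `S_AlB`.
(4) `xe 0 q * (xe 1 q * r')` is invariant under `swap 0 1`.
(5)-(9) by definition (`xe` is a ring homomorphism in the polynomial; for (9) `xe 0 (f * q) = xe 0 f * xe 0 q`). -/
def S_IoB : Prop :=
  ∀ (L : Type) [CommRing L] (W : Type) [AddCommGroup W] [Module L W],
    (∀ (k : ℕ) (u : Fu L (k + 1) W) (q : Polynomial L), Al u → Al (io q u)) ∧
    (∀ (k : ℕ) (u : Fu L (k + 1) W) (q f : Polynomial L), Ki f u → Ki f (io q u)) ∧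
    (∀ (k : ℕ) (u : Fu L (k + 2) W) (p q : Polynomial L), Al u → io p (io q u) = -io q (io p u)) ∧
    (∀ (k : ℕ) (u : Fu L (k + 2) W) (q : Polynomial L), Al u → io q (io q u) = 0) ∧
    (∀ (k : ℕ) (u w : Fu L (k + 1) W) (q : Polynomial L),
      io q (u + w) = io q u + io q w ∧ io q (u - w) = io q u - io q w ∧ io q (-u) = -io q u) ∧
    (∀ (k : ℕ) (u : Fu L (k + 1) W) (q : Polynomial L) (c : L),
      io q ((C c : MvPolynomial (Fin (k + 1)) L) • u) = (C c : MvPolynomial (Fin k) L) • io q u) ∧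
    (∀ (k : ℕ) (u : Fu L k W) (f h : Polynomial L), Ki f u → Ki (f * h) u) ∧
    (∀ (k : ℕ) (u : Fu L k W) (f h : Polynomial L), Ki f u → Ki h u → Ki (f + h) u) ∧
    ∀ (k : ℕ) (u : Fu L (k + 1) W) (f q : Polynomial L), Ki f u → io (f * q) u = 0

/-- **Gg.** Division by `gg = ∏ (T - x_a)`.  PROOF.  `gg` is monic of degree `k`
(`Polynomial.monic_prod_of_monic`, `Polynomial.natDegree_prod_of_monic`), and `(gg L k).eval (X a) = 0`.
(1) `p.map C = gg * (p.map C /ₘ gg) + p.map C %ₘ gg`; evaluate at `X a`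
(`(p.map C).eval (X a) = xe a p`: `Polynomial.eval_map`, `aeval_def`), and write the remainder (degree
`< k`, `Polynomial.degree_modByMonic_lt`, `gg` has degree `k`; the case of the trivial ring is trivial) as
the sum over `range k` of its coefficients (`Polynomial.eval_eq_sum_range'`).
(2) degree of the remainder.  (3), (4) `Polynomial.add_modByMonic`, `Polynomial.smul_modByMonic`.
(5) `Polynomial.modByMonic_eq_self_iff`. -/
def S_Gg : Prop :=
  ∀ (L : Type) [CommRing L] (k : ℕ),
    (∀ (p : Polynomial L) (a : Fin k), xe a p = ∑ j ∈ Finset.range k, lc k p j * X a ^ j) ∧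
    (∀ (p : Polynomial L) (j : ℕ), k ≤ j → lc k p j = 0) ∧
    (∀ (p q : Polynomial L) (j : ℕ), lc k (p + q) j = lc k p j + lc k q j) ∧
    (∀ (c : L) (p : Polynomial L) (j : ℕ), lc k (Polynomial.C c * p) j = C c * lc k p j) ∧
    ∀ i j : ℕ, i < k → lc k (Polynomial.X ^ i : Polynomial L) j = if i = j then 1 else 0

/-- **Cyc.** PROOF.  Let `M` be the set of the finite sums of products `b * ∏ X a ^ s a`, `b` symmetric,
`s a < k` for all `a` (span over `Sy L k` in the polynomials).  (a) `M` contains `1` and is stable under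
multiplication with constants, with symmetric polynomials and with every `X a`: only
`X a * X a ^ (k - 1) = X a ^ k = xe a (X ^ k) = ∑ j < k, lc k (X ^ k) j * X a ^ j` is not obvious
(`S_Gg (1)`, `lc_sym`).  Hence `M` is everything (`MvPolynomial.induction_on`).
(b) It remains to see `u (b * ∏ X a ^ s a) = 0` for `b` symmetric, `s : Fin k → Fin k`.  If `s a = s b`
for some `a ≠ b`, the polynomial is invariant under `swap a b`.  Otherwise `s` is a permutation and the
polynomial is `rename s⁻¹ (b * ∏ X a ^ a)` (reindex the product), so the value is `± u (b * ∏ X a ^ a)`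
by `S_AlB`. -/
def S_Cyc : Prop :=
  ∀ (L : Type) [CommRing L] (W : Type) [AddCommGroup W] [Module L W] (k : ℕ) (u : Fu L k W), Al u →
    (∀ b : MvPolynomial (Fin k) L, b ∈ Sy L k → u.v (b * ∏ a : Fin k, X a ^ a.val) = 0) → u = 0

/-- **KiL.** A functional kills the multiples of `q (x_a)` iff the coefficients of `q` modulo `gg`
kill it.  PROOF.  (←) `xe a q * p = ∑ j, lc k q j * (X a ^ j * p)` (`S_Gg (1)`) and
`u (lc j * r) = (lc j • u) r = 0`.
(→) `lc j • u` is alternating (`lc_sym`, `b * p` is invariant if `p` and `b` are), so by `S_Cyc` it is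
enough to see `u (lc j * (b * ∏ X a ^ a)) = 0` for `b` symmetric, `j < k`.  Consider
`P = xe j q * (b * ∏ (a ≠ j) X a ^ a)` (`u P = 0` by hypothesis; here `j : Fin k`).  By `S_Gg (1)`
`P = ∑ i < k, lc i * b * X j ^ i * ∏ (a ≠ j) X a ^ a`; for `i ≠ j` the term is invariant under
`swap i j` (the exponents of `x_i` and `x_j` are both `i`), so `u` vanishes on it; the term `i = j` is
`lc j * (b * ∏ X a ^ a)`. -/
def S_KiL : Prop :=
  ∀ (L : Type) [CommRing L] (W : Type) [AddCommGroup W] [Module L W] (k : ℕ) (u : Fu L k W)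
    (q : Polynomial L), Al u → (Ki q u ↔ ∀ j < k, lc k q j • u = 0)

/-- **IoE.** PROOF.  Let `β : MvPolynomial (Fin (k+1)) L → MvPolynomial (Fin k) L` be the evaluation
`x_0 ↦ C t`, `x_(a+1) ↦ x_a`.  For every `b` there is `c` with `b = rename succ (β b) + (X 0 - C t) * c`
(induction on `b`: `MvPolynomial.induction_on`).  So
`u (xe 0 f₁ * b * p) = u (xe 0 f₁ * rename succ (β b) * p) + u (xe 0 ((X - C t) * f₁) * (c * p))`
and the last term vanishes.  First claim: this equation.  Second claim: take `p = rename succ p'`. -/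
def S_IoE : Prop :=
  ∀ (L : Type) [CommRing L] (W : Type) [AddCommGroup W] [Module L W] (k : ℕ) (u : Fu L (k + 1) W)
    (t : L) (f₁ : Polynomial L), Ki ((Polynomial.X - Polynomial.C t) * f₁) u →
    (∀ b p : MvPolynomial (Fin (k + 1)) L, u.v (xe 0 f₁ * (b * p)) =
      u.v (xe 0 f₁ * (rename Fin.succ (aeval (Fin.cons (C t) X : Fin (k + 1) → MvPolynomial (Fin k) L) b) * p))) ∧
    ∀ b : MvPolynomial (Fin (k + 1)) L, io f₁ (b • u) =
      (aeval (Fin.cons (C t) X : Fin (k + 1) → MvPolynomial (Fin k) L) b) • io f₁ u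

/-- **LcT.** Put `q₁ = q /ₘ (X - C t)`.  PROOF.  Let `β` be the evaluation `x_0 ↦ C t`,
`x_(a+1) ↦ x_a`.  `(gg L (k+1)).map β = (X - C (C t)) * gg L k` (`Fin.prod_univ_succ`), so by
`Polynomial.map_modByMonic` `β (lc (k+1) q j)` is the coefficient of index `j` of
`q.map C %ₘ ((X - C (C t)) * gg L k)`.  From `q = C (q.eval t) + (X - C t) * q₁`
(`Polynomial.modByMonic_X_sub_C_eq_C_eval`, `modByMonic_add_div`) and `q₁.map C = gg * Q + R`,
`R = q₁.map C %ₘ gg`, we get `q.map C = ((X - C (C t)) * gg) * Q + (C (C (q.eval t)) + (X - C (C t)) * R)`,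
and the last bracket has degree `< k + 1`; uniqueness of division
(`Polynomial.div_modByMonic_unique`).  Compare the coefficients of index `0` and `j + 1`. -/
def S_LcT : Prop :=
  ∀ (L : Type) [CommRing L] (k : ℕ) (t : L) (q : Polynomial L),
    aeval (Fin.cons (C t) X : Fin (k + 1) → MvPolynomial (Fin k) L) (lc (k + 1) q 0) =
      C (q.eval t) - C t * lc k (q /ₘ (Polynomial.X - Polynomial.C t)) 0 ∧
    ∀ j, aeval (Fin.cons (C t) X : Fin (k + 1) → MvPolynomial (Fin k) L) (lc (k + 1) q (j + 1)) =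
      lc k (q /ₘ (Polynomial.X - Polynomial.C t)) j -
        C t * lc k (q /ₘ (Polynomial.X - Polynomial.C t)) (j + 1)

/-- **IoK.** Contraction with `f₁`, where `f = (X - t) f₁`.  PROOF.  Put `v = io f₁ u`,
`l j = lc k (q /ₘ (X - C t)) j`.  By `S_KiL` `lc (k+1) q j • u = 0` for `j < k + 1`, so by `S_IoE` (2) and
`S_LcT`: `(l j - C t * l (j+1)) • v = 0` for `j < k` and `(C (q.eval t) - C t * l 0) • v = 0`.
`l k = 0` (`S_Gg (2)`), so by downward induction `l j • v = 0` for all `j ≤ k`, in particular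
(`S_KiL` for `v`, which is alternating by `S_IoB (1)`) `Ki (q /ₘ (X - C t)) v`; and
`C (q.eval t) • v = 0`.  The last claim is the first one for `q = (X - C t) * f₁`
(`Polynomial.mul_divByMonic_cancel_left`). -/
def S_IoK : Prop :=
  ∀ (L : Type) [CommRing L] (W : Type) [AddCommGroup W] [Module L W] (k : ℕ) (u : Fu L (k + 1) W)
    (t : L) (f₁ : Polynomial L), Al u → Ki ((Polynomial.X - Polynomial.C t) * f₁) u →
    (∀ q : Polynomial L, Ki q u → Ki (q /ₘ (Polynomial.X - Polynomial.C t)) (io f₁ u) ∧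
      (C (q.eval t) : MvPolynomial (Fin k) L) • io f₁ u = 0) ∧ Ki f₁ (io f₁ u)

/-- **Ker.** PROOF.  For `a = 0`: by `S_IoE` (1) with `p = 1`, `u (xe 0 f₁ * b) =
u (xe 0 f₁ * rename succ (β b)) = (io f₁ u) (β b) = 0`.  For `a ≠ 0`: `rename (swap 0 a)` maps
`xe a f₁ * p` to `xe 0 f₁ * rename (swap 0 a) p`, and `u (rename (swap 0 a) r) = - u r` (`S_AlB`). -/
def S_Ker : Prop :=
  ∀ (L : Type) [CommRing L] (W : Type) [AddCommGroup W] [Module L W] (k : ℕ) (u : Fu L (k + 1) W)
    (t : L) (f₁ : Polynomial L), Al u → Ki ((Polynomial.X - Polynomial.C t) * f₁) u → io f₁ u = 0 →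
    Ki f₁ u

/-- **Wed.** Existence of a lift (wedge product with the form `τ`: coefficient of index `m` modulo
`f`).  PROOF.  Let `n = f₁.natDegree`, so `f` is monic of degree `n + 1`.  Let
`T : MvPolynomial (Fin (k+1)) L → MvPolynomial (Fin k) L`,
`T P = ((finSuccEquiv L k P) %ₘ (f.map C)).coeff n` (`finSuccEquiv`: `x_0 ↦ Polynomial.X`,
`x_(a+1) ↦ Polynomial.C x_a`); linear over `L` (`Polynomial.modByMonicHom`).  Facts:
(T1) `T (xe 0 f₁ * rename succ p) = p` (`finSuccEquiv` maps it to `f₁.map C * C p`, of degree `< n+1`, the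
coefficient of index `n` is `p`).  (T2) `T (xe 0 f * P) = 0`.  (T3) `T (rename succ q * P) = q * T P`.
(T4) `T (rename (swap a.succ b.succ) P) = rename (swap a b) (T P)` (`finSuccEquiv` intertwines with
`Polynomial.map (rename (swap a b))`: check on `X i`; `Polynomial.map_modByMonic`; `f.map C` is fixed).
Define `u P = v (T P) - ∑ i : Fin k, v (T (rename (swap 0 i.succ) P))`.
ALTERNATING: let `rename (swap a b) P = P`.  Case `a = a'.succ`, `b = b'.succ`: `v (T P) = 0` by (T4); for
`i ≠ a', b'` the polynomial `rename (swap 0 i.succ) P` is invariant under `swap a b`, so its term is `0`;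
the terms of `a'` and `b'` cancel: `swap 0 b = swap a b * swap 0 a * swap a b` gives
`rename (swap 0 b) P = rename (swap a b) (rename (swap 0 a) P)`, so by (T4) and `S_AlB` for `v` the term
of `b'` is minus the term of `a'`.  Case `a = 0`, `b = b'.succ` (and symmetric): the term of `b'` is
`- v (T P)`, which cancels the first term; for `i ≠ b'` the polynomial `rename (swap 0 i.succ) P` is
invariant under `swap i.succ b'.succ` (`swap 0 i * swap 0 b * swap 0 i = swap i b`), so the term is `0`.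
`Ki f u`: `T (xe 0 f * P') = 0`; for `c ≠ 0`, `T (xe c f * P') = xe c' f * T P'` by (T3), and `v` kills
multiples of `xe c' f` (a multiple of `xe c' f₁`); each term of `u (xe a f * P)` is of one of these
forms.  `io f₁ u = v`: the first term of `u (xe 0 f₁ * rename succ p)` is `v p` by (T1); the others are
`v (T (xe i.succ f₁ * ..)) = v (xe i f₁ * T ..) = 0` by (T3) and `Ki f₁ v`. -/
def S_Wed : Prop :=
  ∀ (L : Type) [CommRing L] (W : Type) [AddCommGroup W] [Module L W] (k : ℕ) (v : Fu L k W)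
    (t : L) (f₁ : Polynomial L), f₁.Monic → Al v → Ki f₁ v →
    ∃ u : Fu L (k + 1) W, Al u ∧ Ki ((Polynomial.X - Polynomial.C t) * f₁) u ∧ io f₁ u = v

/-! ## B. Integrability -/

/-- **SoL.** PROOF.  STEP 1 (change of variables).  Let `z j = y j` for `k ≤ j` and
`z j = y j + ∑ i ∈ Ico k m, r j i * y i` for `j < k`.  Then `Sol A N (range m) z`: let `c` be compatible for
`z`; put `c' j = c j` for `k ≤ j`, `c' j = c j - ∑ i ∈ Ico k m, r j i • c i` for `j < k`; then
`y a • c' b = y b • c' a` (expand, four cases), so there is `w` with `y j • w = c' j`, and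
`z j • w = c j`.  The elements `z j`, `k ≤ j < m`, are locally nilpotent.
STEP 2 (drop one index): if `Sol A N (insert a S) z`, `a ∉ S` and `z a` is locally nilpotent, then
`Sol A N S z`.  Let `c` be compatible on `S`.  There is `n` with `z a ^ n • c j = 0` for all `j ∈ S`
(finitely many); induction on `n` (for all `c`).  `n = 0`: `c = 0` on `S`, take `w = 0`.  `n + 1`: the family
`z a • c j` is compatible on `S` and killed by `z a ^ n`, so there is `v` with `z j • v = z a • c j` for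
`j ∈ S`; the family `c` with `c a := v` (`Function.update`) is compatible on `insert a S`.
STEP 3: remove `m - 1, .., k` from `range m` one after the other (induction on `m - k`). -/
def S_SoL : Prop :=
  ∀ (A N : Type) [CommRing A] [AddCommGroup N] [Module A N] (m k : ℕ) (y : ℕ → A) (r : ℕ → ℕ → A),
    k ≤ m → Sol A N (Finset.range m) y → (∀ i < m, Nl A N (y i)) →
    Sol A N (Finset.range k) (fun j => y j + ∑ i ∈ Finset.Ico k m, r j i * y i)

/-- **NlI.** Locally nilpotent elements form an ideal.  PROOF.  `a ^ n • w = 0`, and for each of the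
finitely many `b ^ i • w`... simpler: given `w`, choose `n` with `b ^ n • w = 0` and `n'` with
`a ^ n' • (b ^ i • w) = 0` for all `i < n`; then `(a + b) ^ (n + n') • w = 0` (binomial theorem `add_pow`:
in each term either the exponent of `b` is `≥ n` or the exponent of `a` is `≥ n'`).
`(c * a) ^ n • w = c ^ n • a ^ n • w`. -/
def S_NlI : Prop :=
  ∀ (A N : Type) [CommRing A] [AddCommGroup N] [Module A N] (a b c : A), Nl A N a →
    Nl A N (c * a) ∧ (Nl A N b → Nl A N (a + b))

/-- **GdA.** PROOF.  `(φ - C (φ.coeff m) * f₁).coeff i = φ.coeff i - φ.coeff m * f₁.coeff i`, which is `0`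
for `i = m` (`f₁.coeff m = 1`) and for `i > m`.  `Sol`: `S_SoL` with `m + 1`, `k = m`,
`r j i = - f₁.coeff j` (`Finset.Ico m (m+1) = {m}`).  Nilpotence: `S_NlI`. -/
def S_GdA : Prop :=
  ∀ (L W : Type) [CommRing L] [AddCommGroup W] [Module L W] (m : ℕ) (φ f₁ : Polynomial L),
    Good L W (m + 1) φ → f₁.Monic → f₁.natDegree = m →
    Good L W m (φ - Polynomial.C (φ.coeff m) * f₁)

/-- **GdB.** PROOF.  Put `y i = φ.coeff i`, `s = φ.eval t`, `z i = (φ /ₘ (X - C t)).coeff i`.  From
`φ = C s + (X - C t) * (φ /ₘ (X - C t))`: `y 0 = s - t z 0`, `y (i+1) = z i - t z (i+1)`; `z i = 0` for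
`i ≥ m` (degree).  `s = ∑ i < m+1, y i t ^ i`.
FIRST CLAIM: `S_SoL` with `m+1`, `k = 1`, `r 0 i = t ^ i`: `Sol` on `range 1` of `s`, i.e. `s` is onto.
`Sol` for `z` on `N = torsionBy s`: let `c` be compatible on `range m`; let `e i = c i` (in `W`) for
`i < m`, `e i = 0` for `i ≥ m`; `c' 0 = - t • e 0`, `c' (i+1) = e i - t • e (i+1)`.  For `i, j < m + 1`
`y i • c' j = y j • c' i` (use `s • e i = 0`, `z i • e j = z j • e i` for all `i`, `j`; note `z i = 0` for
`i ≥ m`).  So there is `w` with `y i • w = c' i` for `i ≤ m`.  `s • w = ∑ t ^ i • c' i = 0` (telescoping,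
`e m = 0`), so `w ∈ N`.  `z i • w = e i` by downward induction from `i = m` (both sides `0`):
`z i = y (i+1) + t z (i+1)`.
`Nl`: on `W` the `z i` are locally nilpotent by downward induction and `S_NlI`, hence on `N`. -/
def S_GdB : Prop :=
  ∀ (L W : Type) [CommRing L] [AddCommGroup W] [Module L W] (m : ℕ) (φ : Polynomial L),
    Good L W (m + 1) φ → ∀ t : L, (∀ w : W, ∃ w' : W, φ.eval t • w' = w) ∧
    Good L (Submodule.torsionBy L W (φ.eval t)) m (φ /ₘ (Polynomial.X - Polynomial.C t))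

open TensorProduct in
/-- **GdC.** PROOF.  Choose a basis of `L'` over `L`, indexed by a finite type `ι`; then
`L' ⊗ W ≃ (ι →₀ W)` over `L` (`TensorProduct.equivFinsuppOfBasisLeft`), `algebraMap L L' y` acts on
`L' ⊗ W` as `y` (`algebraMap_smul`), and on `ι →₀ W` coordinatewise: a compatible family has compatible
coordinates; choose solutions coordinatewise.  `Nl`: maximum over the coordinates
(`map_pow`). -/
def S_GdC : Prop :=
  ∀ (L W L' : Type) [CommRing L] [AddCommGroup W] [Module L W] [CommRing L'] [Algebra L L']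
    [Module.Free L L'] [Module.Finite L L'] (m : ℕ) (φ : Polynomial L), Good L W m φ →
    Good L' (L' ⊗[L] W) m (φ.map (algebraMap L L'))

/-! ## C. Exactness -/

/-- **ZSo.** The module `ZZ (pl ts)` for a product of linear factors.  PROOF by induction on `ts`, for
all `k`.  `k = 0`: a functional on `MvPolynomial (Fin 0) L` is determined by its value at `1`
(`MvPolynomial.isEmptyRingEquiv`, `eq_C_of_isEmpty`), and `Al`, `Ki` are empty conditions, symmetric
polynomials are constants; so the claims are the hypotheses on `W`; (3) does not occur.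
`ts = []`, `k > 0`: `Ki 1 u` gives `u = 0`.
`ts = t :: ts'`, `k + 1`, `f₁ = pl ts'`, `f = (X - C t) * f₁`: by `S_Ker`, `S_IoK`, `S_Wed` (and
`S_IoB (7)`: `Ki f₁ u → Ki f u`) the sequence `0 → ZZ f₁ (k+1) → ZZ f (k+1) → ZZ f₁ k → 0`, second map
`io f₁`, is exact; it commutes with constants (`S_IoB (6)`).  (1) `Sol`: given a compatible family `c` in
`ZZ f (k+1)`, solve for the images (`io f₁ (c i)`) in `ZZ f₁ k`, lift the solution, subtract; the
difference is a compatible family in `ZZ f₁ (k+1)`; solve.  (2) if `a ^ n` kills `io f₁ u`, then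
`a ^ n • u ∈ ZZ f₁ (k+1)`, killed by some `a ^ n'`.  (3) both outer modules vanish. -/
def S_ZSo : Prop :=
  ∀ (L : Type) [CommRing L] (W : Type) [AddCommGroup W] [Module L W] (ts : List L) (k : ℕ),
    (∀ (n : ℕ) (y : ℕ → L), Sol L W (Finset.range n) y →
      Sol (Sy L k) (ZZ (pl ts) : Submodule (Sy L k) (Fu L k W)) (Finset.range n)
        (fun i => algebraMap L (Sy L k) (y i))) ∧
    (∀ a : L, Nl L W a → Nl (Sy L k) (ZZ (pl ts) : Submodule (Sy L k) (Fu L k W))
      (algebraMap L (Sy L k) a)) ∧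
    (ts.length < k → ∀ u : Fu L k W, Al u → Ki (pl ts) u → u = 0)

/-- **LSo.** PROOF.  If `ts.length < k`, all `n j` (`j < k`) are `0` (`S_ZSo (3)`): `u = 0`.  Otherwise let
`m = ts.length`, `A = Sy L k`, `N = ZZ (pl ts)`, `y i = algebraMap (φ.coeff i)`,
`r j i = ⟨lc k (X ^ i) j, lc_sym ..⟩`.  `S_ZSo (1), (2)` and `S_SoL` give `Sol A N (range k)` for
`y j + ∑ i ∈ Ico k m, r j i * y i`, which is `lc k φ j` (write `φ = ∑ i < m, C (φ.coeff i) * X ^ i` and use
`S_Gg (3), (4), (5)`).  Apply it to the family `j ↦ ⟨n j, _⟩` (`0` for `j ≥ k`). -/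
def S_LSo : Prop :=
  ∀ (L : Type) [CommRing L] (W : Type) [AddCommGroup W] [Module L W] (ts : List L) (φ : Polynomial L),
    Good L W ts.length φ → ∀ (k : ℕ) (n : ℕ → Fu L k W), (∀ j < k, Al (n j) ∧ Ki (pl ts) (n j)) →
    (∀ i < k, ∀ j < k, lc k φ i • n j = lc k φ j • n i) →
    ∃ u : Fu L k W, Al u ∧ Ki (pl ts) u ∧ ∀ j < k, lc k φ j • u = n j

/-- **Sur.** Surjectivity of the contraction with `f₁ = pl ts`, `f = (X - C t) * f₁`.  PROOF.  Let `v' = v`
with values in `W` (`Fu.mp subtype`): `Al`, `Ki f₁`, `Ki (φ /ₘ (X - C t))` hold for `v'`, and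
`C (φ.eval t) • v' = 0`.  `S_Wed`: `u₀` with `Al`, `Ki f`, `io f₁ u₀ = v'`.  Put `n j = lc (k+1) φ j • u₀`
for `j < k + 1`: alternating, `Ki f` (`lc_sym`), and `io f₁ (n j) = 0` by `S_IoE (2)`, `S_LcT`, `S_KiL` for
`v'` (`l j • v' = 0` for `j < k`, and `l j = 0` for `j ≥ k`); so `Ki f₁ (n j)` by `S_Ker`.
Let `ψ = φ - C (φ.coeff ts.length) * f₁`, `Good L W ts.length ψ` (`S_GdA`; `pl ts` is monic of degree
`ts.length`).  For `w` with `Al w`, `Ki f₁ w`: `lc (k+1) φ j • w = lc (k+1) ψ j • w` (`S_KiL` for `f₁`,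
`S_Gg (3), (4)`).  So the `n j` are compatible for `ψ`, and `S_LSo` gives `u₁` (`Al`, `Ki f₁`) with
`lc (k+1) φ j • u₁ = n j`.  `u = u₀ - u₁`: `lc (k+1) φ j • u = 0`, so `Ki φ u` (`S_KiL`), `Ki f u`
(`S_IoB (7)`), and `io f₁ u = v' - 0` (`io f₁ u₁ = 0`: `S_IoB (9)` with `q = 1`). -/
def S_Sur : Prop :=
  ∀ (L : Type) [CommRing L] (W : Type) [AddCommGroup W] [Module L W] (ts : List L) (t : L)
    (φ : Polynomial L), Good L W (ts.length + 1) φ → ∀ (k : ℕ)
    (v : Fu L k (Submodule.torsionBy L W (φ.eval t))),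
    Kf (pl ts) (φ /ₘ (Polynomial.X - Polynomial.C t)) v →
    ∃ u : Fu L (k + 1) W, Kf ((Polynomial.X - Polynomial.C t) * pl ts) φ u ∧
      io (pl ts) u = Fu.mp (Submodule.subtype _) v

/-- **Rs1.** PROOF.  Write `U q = u (xe 0 q)`; `U (φ q) = 0`, `U ((X - C t) * pl ts * q) = 0`.
STEP 1: `(ts.map φ.eval).prod • U Q = (-1) ^ ts.length • U (pl ts * (ts.map (φ /ₘ (X - C ·))).prod * Q)`
for all `Q`: induction on `ts` with `C (φ.eval s) = φ - (X - C s) * (φ /ₘ (X - C s))`.
STEP 2 (`Q = 1`): `U (pl ts * q) = q.eval t • U (pl ts)` (`q - C (q.eval t)` is a multiple of `X - C t`).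
STEP 3: `(φ /ₘ (X - C s)).eval t = (φ /ₘ (X - C t)).eval s`: both sides are additive in `φ`
(`Polynomial.induction_on`, `divByMonic` is additive) and for `φ = X ^ n` both are
`∑ i + j = n - 1, s ^ i * t ^ j`; or: `(φ /ₘ (X - C s))` has the coefficients
`∑ j > i, s ^ (j-i-1) * φ.coeff j`. -/
def S_Rs1 : Prop :=
  ∀ (L : Type) [CommRing L] (W : Type) [AddCommGroup W] [Module L W] (ts : List L) (t : L)
    (φ : Polynomial L) (u : Fu L 1 W), Ki φ u → Ki ((Polynomial.X - Polynomial.C t) * pl ts) u →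
    (ts.map fun s => φ.eval s).prod • u.v 1 = ((-1) ^ ts.length *
      (ts.map fun s => (φ /ₘ (Polynomial.X - Polynomial.C t)).eval s).prod) • u.v (xe 0 (pl ts))

/-- **ExS.** Exactness for a product of linear factors.  PROOF by induction on `ts` (for all `W`, `φ`).
`ts = []`: `Ki 1 u` gives `u = 0` in (1); (2) `w = 0`; (3) trivial.
`ts = t :: ts'`, `f₁ = pl ts'`, `f = (X - C t) * f₁ = pl ts`, `s = φ.eval t`, `W' = torsionBy s`,
`φ₁ = φ /ₘ (X - C t)`, `ψ = φ - C (φ.coeff ts'.length) * f₁`.  `Good L W' ts'.length φ₁` and `s` onto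
(`S_GdB`), `Good L W ts'.length ψ` (`S_GdA`).  `ψ.eval t_i = φ.eval t_i` for `t_i ∈ ts'`
(`f₁.eval t_i = 0`).  `Ki f₁ w → Ki ψ w → Ki φ w` and `Ki f₁ w → Ki φ w → Ki ψ w` (`S_IoB`).
(3): `(ts.map φ.eval).prod = s * (ts'.map ψ.eval).prod`, both onto.
(1): let `Kf f φ u`, `io 1 u = 0`.  `v = io f₁ u`: `Al`, `Ki f₁`, `Ki φ₁`, `C s • v = 0` (`S_IoK`), so `v`
has values in `W'`; call it `v₁ : Fu L k W'`, `Kf f₁ φ₁ v₁`.  CLAIM: there is `v' : Fu L (k+1) W'` with
`Kf f₁ φ₁ v'`, `io 1 v' = v₁`.  If `k = k' + 1`: `io 1 v = - io f₁ (io 1 u) = 0` (`S_IoB (3)`), induction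
(1).  If `k = 0`: `S_Rs1` and `u 1 = (io 1 u) 1 = 0` give `(ts'.map φ₁.eval).prod • u (xe 0 f₁) = 0`, so
induction (2) for `W'`, `φ₁`, `w = v₁ 1`, gives `v'` with `v' 1 = v₁ 1`, i.e. `io 1 v' = v₁` (functionals
on `MvPolynomial (Fin 0) L` are determined by the value at `1`).
By `S_Sur` there is `u''` with `Kf f φ u''`, `io f₁ u'' = v'`.  Then `io f₁ (u + io 1 u'') = v - io 1 v' = 0`
and `io 1 (u + io 1 u'') = 0`, so `Ki f₁ (u + io 1 u'')` (`S_Ker`; `io 1` preserves `Al`, `Ki`), `Ki ψ`;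
induction (1) for `W`, `ψ`: `u + io 1 u'' = io 1 u₁`, `Kf f₁ ψ u₁`, so `Kf f φ u₁`; take `u' = u₁ - u''`.
(2): let `w' = (ts'.map φ.eval).prod • w ∈ W'`.  Induction (3) for `W'`, `φ₁`: `x ∈ W'` with
`(ts'.map φ₁.eval).prod • x = (-1) ^ ts'.length • w'`.  `S_Sur` with `k = 0` (the functional with value `x`
at `1`): `u₁` with `Kf f φ u₁`, `u₁ (xe 0 f₁) = x`.  `S_Rs1`: `(ts'.map φ.eval).prod • u₁ 1 = w'`.  So
`(ts'.map ψ.eval).prod • (w - u₁ 1) = 0`; induction (2) for `W`, `ψ` gives `u₂`; `u = u₁ + u₂`. -/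
def S_ExS : Prop :=
  ∀ (L : Type) [CommRing L] (ts : List L) (W : Type) [AddCommGroup W] [Module L W] (φ : Polynomial L),
    Good L W ts.length φ →
    (∀ (k : ℕ) (u : Fu L (k + 1) W), Kf (pl ts) φ u → io 1 u = 0 →
      ∃ u' : Fu L (k + 2) W, Kf (pl ts) φ u' ∧ io 1 u' = u) ∧
    (∀ w : W, (ts.map fun s => φ.eval s).prod • w = 0 → ∃ u : Fu L 1 W, Kf (pl ts) φ u ∧ u.v 1 = w) ∧
    ∀ w : W, ∃ w' : W, (ts.map fun s => φ.eval s).prod • w' = w

/-- **SpR.** Splitting ring.  PROOF by induction on the degree, for all `L`.  Degree `0`: `f = 1`, `L' = L`.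
Degree `n + 1`: `L₁ = AdjoinRoot f`, free with basis `1, x, .., x ^ n` (`AdjoinRoot.powerBasis'`),
`ρ₁ = ` coordinate of `1` (`ρ₁ 1 = 1` because `n + 1 > 0`).  Over `L₁`: `f = (X - C x) * g`, `g` monic of
degree `n` (`Polynomial.mul_divByMonic_eq_iff_isRoot`, `Monic.of_mul_monic_left`).  Induction for `L₁`, `g`:
`L'`, `ρ'`, `ts'`.  Compose (`Module.Free.trans`, `Module.Finite.trans`, `IsScalarTower`);
`ρ = ρ₁ ∘ ρ'`, `ts = algebraMap x :: ts'`. -/
def S_SpR : Prop :=
  ∀ (n : ℕ) (L : Type) [CommRing L] (f : Polynomial L), f.Monic → f.natDegree = n →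
    ∃ (L' : Type) (_ : CommRing L') (_ : Algebra L L') (ρ : L' →ₗ[L] L) (ts : List L'),
      Module.Free L L' ∧ Module.Finite L L' ∧ ρ 1 = 1 ∧ ts.length = n ∧ f.map (algebraMap L L') = pl ts

/-- **MkB.** Functionals given by their values on the monomials.  PROOF.  `(Fu.mk c).v (monomial s 1) = c s`
(`Basis.constr_basis`).  (2) write `p = ∑ s, p_s x^s`, `p_(σ s) = p_s` for `σ = swap a b`; the terms with
`s a = s b` vanish, the others cancel in pairs (`Finset.sum_involution`, involution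
`s ↦ s.mapDomain σ`).  (3) `u (xe a q * monomial s 1) = ∑ i, q.coeff i • c (s + single a i)`; both sides of
`Ki` are linear in `p`. -/
def S_MkB : Prop :=
  ∀ (L : Type) [CommRing L] (W : Type) [AddCommGroup W] [Module L W] (k : ℕ) (c : (Fin k →₀ ℕ) → W),
    (∀ s a, (Fu.mk c : Fu L k W).v (monomial s a) = a • c s) ∧
    ((∀ (a b : Fin k), a ≠ b → ∀ s : Fin k →₀ ℕ, (s a = s b → c s = 0) ∧
      c (s.mapDomain (Equiv.swap a b)) = -c s) → Al (Fu.mk c : Fu L k W)) ∧
    ∀ q : Polynomial L, Ki q (Fu.mk c : Fu L k W) ↔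
      ∀ (a : Fin k) (s : Fin k →₀ ℕ), q.sum (fun i x => x • c (s + Finsupp.single a i)) = 0

/-- **ExG.** Exactness for every monic polynomial.  PROOF.  `S_SpR`: `L'`, `ρ`, `ts`.  `W' = L' ⊗ W`
(`TensorProduct`), `j : W → W'`, `w ↦ 1 ⊗ w` (`L`-linear), `r : W' → W`, `r (a ⊗ w) = ρ a • w`
(`TensorProduct.lid ∘ LinearMap.rTensor W ρ`), `r (j w) = w`.  `Good L' W' m (φ.map _)`: `S_GdC`.
(1) Given `u`, let `U = Fu.mk (fun s => j (u (monomial s 1))) : Fu L' (k+1) W'`.  `S_MkB` for `u` and `U`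
(`u = Fu.mk (fun s => u (monomial s 1))`; `Al u` gives the conditions on monomials: `S_AlB`,
`rename_monomial`; the coefficients of `f.map`, `φ.map` act through `algebraMap_smul`):
`Kf (f.map) (φ.map) U`, and `io 1 U = 0` (values on monomials).  `S_ExS`: `U'`.
`u' = ` restriction of `r ∘ U'` to `MvPolynomial _ L` (compose `MvPolynomial.map (algebraMap L L')`, an
`L`-linear map): `Al`, `Ki` are clear (`xe a (q.map _) = map _ (xe a q)`, `map` commutes with `rename`), and
`io 1 u' = u` (on monomials).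
(2) `Polynomial.resultant (f.map) (φ.map) m (m-1) = (ts.map (φ.map).eval).prod`
(`Polynomial.resultant_map_map`; list induction with `Polynomial.resultant_mul_left`,
`resultant_X_sub_C_left`, `(pl ts).natDegree = ts.length` for a nontrivial ring; `φ.natDegree ≤ m - 1`
because the coefficients of index `≥ m` vanish; for `m = 0`: `ts = []`, `resultant_one_left`,
`φ = 0`), so the product acts on `j w` as the resultant acts on `w`; restrict the solution as in (1)
(if `L'` is the trivial ring, `ρ 1 = 1` gives `1 = 0` in `L`, so `W` is zero).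
(3) Solve for `j w` in `W'`, apply `r`. -/
def S_ExG : Prop :=
  ∀ (L : Type) [CommRing L] (W : Type) [AddCommGroup W] [Module L W] (m : ℕ) (f φ : Polynomial L),
    f.Monic → f.natDegree = m → Good L W m φ →
    (∀ (k : ℕ) (u : Fu L (k + 1) W), Kf f φ u → io 1 u = 0 →
      ∃ u' : Fu L (k + 2) W, Kf f φ u' ∧ io 1 u' = u) ∧
    (∀ w : W, Polynomial.resultant f φ m (m - 1) • w = 0 →
      ∃ u : Fu L 1 W, Kf f φ u ∧ u.v 1 = w) ∧
    ∀ w : W, ∃ w' : W, Polynomial.resultant f φ m (m - 1) • w' = w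

/-- **ExK.** PROOF.  (1) `m = 0`: `f = 1`, `u = 0`.  `m > 0`:
`Polynomial.exists_mul_add_mul_eq_C_resultant`: `f * p + φ * q = C res`, so
`C res * P = xe 0 f * (xe 0 p * P) + xe 0 φ * (xe 0 q * P)` (`xe 0 (C res) = C res`).
(2) By linearity in each variable it is enough that `u` vanishes on the monomials `X ^ s`; `xe a` of
`X ^ n` is `xe a (X ^ n %ₘ f)` plus a multiple of `xe a f`, so `u` vanishes if it vanishes on the monomials
with `s a < m` for all `a : Fin (m+1)`; such an `s` has `s a = s b` for some `a ≠ b` (pigeonhole), and the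
monomial is invariant under `swap a b`. -/
def S_ExK : Prop :=
  ∀ (L : Type) [CommRing L] (W : Type) [AddCommGroup W] [Module L W] (m : ℕ) (f φ : Polynomial L),
    f.Monic → f.natDegree = m → (∀ i, m ≤ i → φ.coeff i = 0) →
    (∀ (k : ℕ) (u : Fu L (k + 1) W), Kf f φ u →
      (C (Polynomial.resultant f φ m (m - 1)) : MvPolynomial (Fin (k + 1)) L) • u = 0) ∧
    ∀ u : Fu L (m + 1) W, Al u → Ki f u → u = 0

end HMx
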