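import Pool.Agent.Lib.MP_181146_gt.HM.DefsF
import Pool.Agent.Lib.MP_181146_gt.HM.SpecM

/-!
# Project HM (part E of 181146), specification, second part: the rings `FF f k`, functions on
exponents, and the induction principle

Conventions as in `SpecM.lean`: module `X` delivers `theorem pX : S_X`, used statements are hypotheses.
-/

set_option autoImplicit false

noncomputable section

namespace HMx

open MvPolynomial

/-! ## F. The rings `FF f k` -/

/-- **Dua.** PROOF.  `cc f m i` is monic of degree `m - 1 - i` (`f.coeff m = 1`).  `j ≤ i`: the product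
with `X ^ j` has degree `m - 1 - i + j < m`, so it is its own remainder (`modByMonic_eq_self_iff`) and the
coefficient of index `m - 1` is the one of index `m - 1 - j` of `cc f m i`, i.e. `1` if `i = j`, `0` if
`j < i`.  `j > i`: `cc f m i * X ^ (i+1) = f - g`, `g = ∑ l ≤ i, C (f.coeff l) X ^ l` of degree `≤ i`;
so `cc f m i * X ^ j ≡ - X ^ (j-i-1) * g` modulo `f`, of degree `≤ j - 1 ≤ m - 2`. -/
def S_Dua : Prop :=
  ∀ (f : Polynomial ℤ) (m : ℕ), f.Monic → f.natDegree = m → ∀ i < m, ∀ j < m,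
    tau f m (cc f m i * Polynomial.X ^ j) = if i = j then 1 else 0

/-- **Prf.** The perfect pairing on `ℤ[x_0, .., x_(k-1)] / (f (x_a))`.  `tau f m` is additive and kills
multiples of `f`.  PROOF.  (1) both sides are multilinear in the `p a`; check on `p a = X ^ (s a)`
(`Fu.mk` on the monomial).  [Write `p a = ∑ i, C (coeff i) * X ^ i` and expand with
`Finset.prod_univ_sum`.]  (2) on monomials (`rename_monomial`, reindex the product).
(3) if `P = xe a f * P'`: by linearity `P' = ∏ xe b (X ^ s b)`, use (1) with `p a = f * X ^ s a`; then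
`JJ` by `Submodule.span_induction`.
(6) every `P` is a combination of the monomials with exponents `< m` modulo `JJ`: by linearity
`P = ∏ xe a (X ^ s a)`, and `X ^ s ≡ X ^ s %ₘ f` modulo `f` (replace one variable after the other, or
`MvPolynomial.induction_on`: multiply by `X a`).
(4) write `h ≡ ∑ s, c s * ∏ X a ^ s a` by (6); `tk (h * ∏ xe a (cc f m (s a))) = c s` by (1), (3), `S_Dua`;
so all `c s = 0`.  (5) the difference of both sides kills `JJ` and vanishes on the monomials with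
exponents `< m` by (1), `S_Dua`; use (6). -/
def S_Prf : Prop :=
  ∀ (f : Polynomial ℤ) (m k : ℕ), f.Monic → f.natDegree = m →
    (∀ p : Fin k → Polynomial ℤ, (tk f m k).v (∏ a, xe a (p a)) = ∏ a, tau f m (p a)) ∧
    (∀ (σ : Equiv.Perm (Fin k)) P, (tk f m k).v (rename σ P) = (tk f m k).v P) ∧
    (∀ P ∈ JJ f k, (tk f m k).v P = 0) ∧
    (∀ h, (∀ P, (tk f m k).v (h * P) = 0) → h ∈ JJ f k) ∧
    (∀ (u : Fu ℤ k ℤ), Ki f u → ∀ P, u.v P = (tk f m k).v
      ((∑ s : Fin k → Fin m, C (u.v (∏ a, X a ^ (s a).val)) * ∏ a, xe a (cc f m (s a))) * P)) ∧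
    ∀ P : MvPolynomial (Fin k) ℤ, ∃ c : (Fin k → Fin m) → ℤ,
      P - ∑ s, C (c s) * ∏ a, X a ^ (s a).val ∈ JJ f k

/-- **Frb.** `FF f k` is a Frobenius algebra.  PROOF.  (2) `vd k` is antisymmetric
(`rename σ (vd k) = sign σ * vd k`: `Matrix.det_permute`), so for `P` invariant under `swap a b` the
element `Q = vd * b * P` satisfies `rename (swap a b) Q = - Q`, so `tk Q = - tk Q` by `S_Prf (2)`.
(1) Let `e : (Fin m → ℤ) → Polynomial ℤ`, `c ↦ ∑ i, C (c i) X ^ i`, and
`û (v) = u (∏ a, xe a (e (v a)))`, an alternating map on `Fin m → ℤ` in `k` arguments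
(`MultilinearMap.mkPiAlgebra ... compLinearMap`; alternating by `Al u`).  By
`Module.Basis.exteriorPower` (basis `ιMulti_family` of `⋀[ℤ]^k (Fin m → ℤ)`, coordinates
`exteriorPower.ιMultiDual_apply_ιMulti`) and `exteriorPower.alternatingMapLinearEquiv`:
`û v = ∑ S, û (e_S) * det (v a (S b))`, `S` over the `k`-subsets of `Fin m`, `S b` its elements in
increasing order.  So with `c S = û (e_S)`: for `s : Fin k → Fin m`,
`u (∏ X a ^ s a) = ∑ S, c S * det (δ (s a) (S b))`, and the element `h` of `S_Prf (5)` is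
`∑ s, ∑ S, c S * det (δ (s a) (S b)) * ∏ xe a (cc (s a)) = ∑ S, c S * det (xe a (cc f m (S b)))`
(`Matrix.det_apply`, sum over `s`).  Finally `xe a p = ∑ l < k, lc k p l * X a ^ l` (`S_Gg (1)`) gives
`det (xe a (cc f m (S b))) = vd k * det (lc k (cc f m (S b)) l)` (`Matrix.det_mul`, transpose), and the
last determinant is symmetric (`lc_sym`). -/
def S_Frb : Prop :=
  ∀ (f : Polynomial ℤ) (m k : ℕ), f.Monic → f.natDegree = m →
    (∀ u : Fu ℤ k ℤ, Al u → Ki f u → ∃ b ∈ Sy ℤ k, ∀ P, u.v P = (tk f m k).v (vd k * b * P)) ∧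
    ∀ b ∈ Sy ℤ k, Al ((vd k * b) • tk f m k) ∧ Ki f ((vd k * b) • tk f m k)

/-- **FFi.** PROOF.  The map `FF f k → ((Fin k → Fin m) → ℤ)`,
`b ↦ (s ↦ tk (vd * b * ∏ X a ^ s a))` is well defined and additive (`S_Prf (3)`) and injective:
if the values vanish, then `tk (vd * b * P) = 0` for all `P` (`S_Prf (6), (3)`), so `vd * b ∈ JJ`
(`S_Prf (4)`).  A submodule of a finite free `ℤ`-module is finite and free.  Nontrivial: for `k ≤ m`,
`tk (vd k * ∏ X a ^ (m - 1 - a)) = 1`: expand `vd k = ∑ σ, sign σ ∏ X (σ i) ^ i`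
(`Matrix.det_apply`), `tau (X ^ n) = 0` for `n < m - 1`, `= 1` for `n = m - 1`: for `σ ≠ 1` some exponent
`σ⁻¹ a + m - 1 - a` is `< m - 1`.  So `1 ∉ FI f k`. -/
def S_FFi : Prop :=
  ∀ (f : Polynomial ℤ) (m k : ℕ), f.Monic → f.natDegree = m →
    Module.Finite ℤ (FF f k) ∧ Module.Free ℤ (FF f k) ∧ (k ≤ m → Nontrivial (FF f k))

/-- **FRe.** `FF f k` is reduced if `f` is separable over `ℚ`.  PROOF.  Let `K` be a splitting field of
`f` over `ℚ`, `Θ` the finite set of the roots, `f = ∏ (X - θ)` over `K`, the roots distinct.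
(a) LEMMA: if `P ∈ MvPolynomial (Fin k) K` vanishes at all points of `Θ ^ k`, then `P` is in the ideal of
the `f (x_a)` (`MvPolynomial.combinatorial_nullstellensatz_exists_linearCombination`, or induction).
(b) LEMMA: if `P ∈ MvPolynomial (Fin k) ℤ` and its image over `K` is in the ideal of the `f (x_a)`, then
`P ∈ JJ f k`: by `S_Prf (6)` we may assume `P = ∑ c s ∏ X a ^ s a` with `s a < m`; the functional
`tk` over `K` (same definition: `∏ tau`) or a degree argument (division by monic polynomials is unique)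
gives `c s = 0`.  [With functionals: extend `tk f m k` to `MvPolynomial (Fin k) K → K`; it kills the ideal;
`tk (P * ∏ xe a (cc (s a))) = c s`.]
(c) Let `b ^ 2 = 0` in `FF f k`, i.e. `vd * b ^ 2 ∈ JJ`.  At every point `θ ∈ Θ ^ k`:
`vd(θ) b(θ) ^ 2 = 0`, so `vd(θ) b(θ) = 0`, so `vd * b` is in the ideal over `K` by (a), so in `JJ` by (b).
`isReduced_iff` / `IsReduced` from `b ^ 2 = 0 → b = 0` (`isReduced_iff_pow_one_lt`).
Second claim: `X ^ n - C q` is separable over `ℚ` (`Polynomial.separable_X_pow_sub_C`). -/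
def S_FRe : Prop :=
  (∀ (f : Polynomial ℤ) (k : ℕ), f.Monic → (f.map (Int.castRingHom ℚ)).Separable →
    IsReduced (FF f k)) ∧
  ∀ n q : ℕ, 0 < n → 0 < q →
    ((Polynomial.X ^ n - Polynomial.C (q : ℤ)).map (Int.castRingHom ℚ)).Separable

/-- **Fla.** PROOF.  Let `K = F ⊗ ℚ` or the localization of `F` at the nonzero integers: a finite
reduced `ℚ`-algebra, so artinian and reduced, so semisimple (`IsArtinianRing` + `IsReduced`:
`IsSemisimpleRing`, `IsArtinianRing.equivPi`: product of fields); every module over it is projective, so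
flat.  `L` is a `K`-algebra (integers are invertible in `L`), `K` is flat over `F` (localization):
`Module.Flat.trans`. -/
def S_Fla : Prop :=
  ∀ (F : Type) [CommRing F] [Module.Finite ℤ F] [Module.Free ℤ F] [IsReduced F] (L : Type) [Field L]
    [CharZero L] [Algebra F L], Module.Flat F L

/-! ## G. Functions on exponents -/

/-- **Ds.** Here `i < c` is not in `S`, and the elements of `S` are `< c`.  Notation: `Z = zo F m c r i`
(it uses only the shifts of index `≥ c`, so it commutes with the restriction to a given value of `β i`),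
`β[n]` = `β` with the value `n` at `i` (`Function.update β i n`).
PROOF.  (1) `fn F m S d` is isomorphic to the functions on the finite set of the exponents of degree `d`
which vanish on `S`.  (2) `w β = ∑ n < β i, ((-Z) ^ (β i - 1 - n) u) (β[n])`; then
`(sf i w) β = u β + ∑ n < β i, ((-Z) ^ (β i - n) u) (β[n])` and
`(Z w) β = ∑ n < β i, (Z (-Z) ^ (β i - 1 - n) u) (β[n])` (shifts of index `l ≥ c`, `l ≠ i`).  Support: a value
`((-Z) ^ e u) (β[n])` is nonzero only if the degree of `β[n]` is `d - e`.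
(3) `(J u) β = ((-Z) ^ (β i) u) (β[0])`; `(sf i (J u)) β = ((-Z) (-Z) ^ (β i) u) (β[0])`, and
`(Z (J u)) β = (Z (-Z) ^ (β i) u) (β[0])`.  `J u = u` on exponents with `β i = 0`: injective on
`fn (insert i S)`.  `J` commutes with `sf l`, `l ≠ i`, and with `zo`; for `a = i`:
`yo (insert i S) i = - Z`, `yo S i = sf i`.  Range: if `sf i u + Z u = 0`, then
`u (β) = ((-Z) ^ (β i) u) (β[0])` (induction on `β i`), so `u = J u'`, `u' = u` restricted to the
exponents with `β i = 0`. -/
def S_Ds : Prop :=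
  ∀ (F : Type) [CommRing F] (m c : ℕ) (r : Fin m → Fin m → F) (S : Finset (Fin m)) (i : Fin m),
    i ∉ S → i.val < c → (∀ a ∈ S, a.val < c) →
    (∀ d, Module.Finite F (fn F m S d) ∧ Module.Free F (fn F m S d)) ∧
    (∀ d, ∀ u ∈ fn F m S d, ∃ w ∈ fn F m S (d + 1), sf F m i w + zo F m c r i w = u) ∧
    ∃ J : Module.End F ((Fin m → ℕ) → F),
      (∀ d, ∀ u ∈ fn F m (insert i S) d, J u ∈ fn F m S d) ∧
      (∀ d, ∀ u ∈ fn F m (insert i S) d, J u = 0 → u = 0) ∧
      (∀ a d, ∀ u ∈ fn F m (insert i S) d, J (yo F m c r (insert i S) a u) = yo F m c r S a (J u)) ∧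
      (∀ d, ∀ u ∈ fn F m (insert i S) d, sf F m i (J u) + zo F m c r i (J u) = 0) ∧
      ∀ d, ∀ u ∈ fn F m S d, sf F m i u + zo F m c r i u = 0 → ∃ u' ∈ fn F m (insert i S) d, J u' = u

/-- **DsE.** The module `DSt` for `S = {a | a < c}` inside the functions on all exponents.  PROOF by
induction on the number of elements, adding the places `0, .., c - 1` one after the other
(`S_Ds (3)`): for `j ≤ c` there is `J_j` from `S_j = {a | a < j}` to `∅` with the corresponding properties
(the range is cut out by the equations of index `< j`; `sf i + zo i` commutes with `J`: for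
`a = i ∉ insert ..`, `yo = sf`, and `zo` is a combination of `sf l`, `l ≥ c`, so of `yo .. l`). -/
def S_DsE : Prop :=
  ∀ (F : Type) [CommRing F] (m c : ℕ) (r : Fin m → Fin m → F),
    ∃ J : Module.End F ((Fin m → ℕ) → F),
      (∀ d, ∀ u ∈ fn F m (Lt m c) d, J u ∈ fn F m ∅ d) ∧
      (∀ d, ∀ u ∈ fn F m (Lt m c) d, J u = 0 → u = 0) ∧
      (∀ a d, ∀ u ∈ fn F m (Lt m c) d, J (yo F m c r (Lt m c) a u) = sf F m a (J u)) ∧
      (∀ d, ∀ u ∈ fn F m (Lt m c) d, ∀ i : Fin m, i.val < c → sf F m i (J u) + zo F m c r i (J u) = 0) ∧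
      ∀ d, ∀ u ∈ fn F m ∅ d, (∀ i : Fin m, i.val < c → sf F m i u + zo F m c r i u = 0) →
        ∃ u' ∈ fn F m (Lt m c) d, J u' = u

/-! ## H. Transport -/

/-- **InG.** The inverse system is cofree.  PROOF.  `(gen m).coeff i = X i` for `i < m`, `0` for `i ≥ m`.
`Sol`: let `c i`, `i < m`, be compatible: `(c j) (β + e_i) = (c i) (β + e_j)` (`In.X_v`).  Define
`w 0 = 0`, `w β = (c i) (β - e_i)` for `β ≠ 0` and the least `i` with `β i > 0`; `(w (β + e_j)) = (c j) β`
by compatibility; finite support (`β ≠ 0` in the support is `γ + e_i` with `γ` in the support of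
`c i`).  Nilpotence: `(X i ^ n • w) β = w (β + n e_i)`, zero for `n` large (finite support). -/
def S_InG : Prop := ∀ m : ℕ, Good (Lm m) (In m) m (gen m)

/-- **RpB.** Functionals represented by functions on exponents.  PROOF.  `pr f m k` is additive and
`pr (mk b) P = tk (vd * b * P)` for every symmetric `b` (`S_Prf (3)`: `vd * b ∈ JJ → tk = 0`);
`pr b P = 0` for all `P` implies `b = 0` (`S_Prf (4)`); `pr b` is alternating and kills `JJ` (`S_Frb (2)`).
(1) `w = Fu.mk (fun s => (β ↦ pr (c β) (monomial s 1)))` (finite support: the exponents of degree `d`);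
`S_MkB` (`q = fm f m`: the coefficients are integers, so
`(q.sum ..).v β = pr (c β) (xe a f * monomial s 1) = 0`).  (2) for fixed `β` the map `P ↦ (w.v (bc P)).v β` is a functional in `Fu ℤ k ℤ` with `Al`, `Ki f`
(`xe a (fm f m) = bc (xe a f)`), so by `S_Frb (1)` it is `pr (c β)`.  (3) uniqueness: `w` is determined by the
values on `bc P` (monomials), `c` by nondegeneracy.  (4) by definition.  (5) `In.X_v`.
(6) `w.v (bc b * bc P)`, and `tk (vd * b' * (b * P)) = tk (vd * (b * b') * P)`.  (7) (5) and (6):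
`lc k (gen m) i = ∑ l : Fin m, C (X l) * bc (lc k (X ^ l) i)` (`S_Gg (3), (4)`, `Polynomial.map_modByMonic`
for `C : ℤ →+* Lm m`), and `lc k (X ^ l) i = δ` for `l < k`.  (8) `pr (c β) P = 0` for all `P` iff
`c β = 0`, and monomials are enough. -/
def S_RpB : Prop :=
  ∀ (f : Polynomial ℤ) (m k : ℕ), f.Monic → f.natDegree = m →
    (∀ d, ∀ c ∈ fn (FF f k) m ∅ d, ∃ w, Rp f c w ∧ Al w ∧ Ki (fm f m) w ∧ Dg d w) ∧
    (∀ w : Fu (Lm m) k (In m), Al w → Ki (fm f m) w → ∃ c, Rp f c w) ∧
    (∀ c (w w' : Fu (Lm m) k (In m)), Rp f c w → Rp f c w' → w = w') ∧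
    (∀ c c' (w : Fu (Lm m) k (In m)), Rp f c w → Rp f c' w → c = c') ∧
    (∀ c c' (w w' : Fu (Lm m) k (In m)), Rp f c w → Rp f c' w' → Rp f (c + c') (w + w')) ∧
    (∀ c (w : Fu (Lm m) k (In m)) (a : Fin m), Rp f c w →
      Rp f (sf _ m a c) ((C (X a : Lm m) : MvPolynomial (Fin k) (Lm m)) • w)) ∧
    (∀ c (w : Fu (Lm m) k (In m)) (i : Fin m), Rp f c w → i.val < k →
      Rp f (sf _ m i c + zo _ m k (rr f m k) i c) (lc k (gen m) i • w)) ∧
    ∀ c (w : Fu (Lm m) k (In m)) (d : ℕ), Rp f c w → Dg d w → c ∈ fn (FF f k) m ∅ d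

/-- **DKi.** `Dk f m k` is isomorphic to `KD f m k`.  PROOF.  For `u ∈ fn (FF f k) m (Lt m k) d` let `w` be
the functional represented by `J u` (`S_DsE` for `r = rr f m k`, `S_RpB (1)`); `lc k (gen m) i • w = 0` for
`i < k` by `S_RpB (7), (3)`, so `Ki (gen m) w` (`S_KiL`).  Additive by (5), (3), commutes with `Y` by (6), (3);
injective by (4) (`Rp 0 0`); surjective: `w ∈ KDs d` is represented by some `c` (2), `c ∈ fn ∅ d` (8),
`sf i c + zo i c = 0` for `i < k` by (7), (4), `S_KiL`; so `c = J u'`. -/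
def S_DKi : Prop :=
  ∀ (f : Polynomial ℤ) (m k : ℕ), f.Monic → f.natDegree = m →
    ∃ e : DM.Hom (Dk f m k) (KD f m k), ∀ d, Function.Bijective (e.f d)

/-- **KDE.** Exactness in every degree.  PROOF.  `S_ExG` for `L = Lm m`, `W = In m`, `f = fm f m`,
`φ = gen m` (`S_InG`; `kapP f m` is the resultant), `S_ExK`.  For `w : Fu (Lm m) k (In m)` let `w_d` be the
functional `Fu.mk (s ↦ part of degree d of w (monomial s 1))`; `Kf w → Kf w_d`: by `S_MkB` the conditions
are linear relations with coefficients of degree `0` (for `fm f m`) or homogeneous of degree `1`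
(`gen m`: `∑ i, X i • (w (s + i e_a))`, and `X i` maps the part of degree `d` to the part of degree
`d - 1`); `io 1 w_d = (io 1 w)_d`, and `w_d = w` if `Dg d w`.
(1) solve with `S_ExG (1)` and take the part of degree `d`.  (2) `S_ExK (2)`.  (3) the element `w` of
`In m` with values `u`; `kapP f m • w` has the values `kapO f m u` (`In.smul_v`); part of degree `d` of
the solution.  (4) `S_ExK (1)`: `kapP • u.v 1 = 0`.  (5) `S_IoB`.  (6) `S_ExG (3)`: take the
part of degree `d + m` (`kapP` is homogeneous of degree `m`: hypothesis). -/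
def S_KDE : Prop :=
  ∀ (f : Polynomial ℤ) (m : ℕ), f.Monic → f.natDegree = m → (kapP f m).IsHomogeneous m →
    (∀ k d, ∀ u ∈ KDs f m (k + 1) d, io 1 u = 0 → ∃ u' ∈ KDs f m (k + 2) d, io 1 u' = u) ∧
    (∀ d, ∀ u ∈ KDs f m (m + 1) d, u = 0) ∧
    (∀ d, ∀ u ∈ fn ℤ m ∅ d, kapO f m u = 0 →
      ∃ w ∈ KDs f m 1 d, ∀ β, (w.v 1).v β = u β) ∧
    (∀ d, ∀ w ∈ KDs f m 1 d, (fun β => (w.v 1).v β) ∈ fn ℤ m ∅ d ∧
      kapO f m (fun β => (w.v 1).v β) = 0) ∧
    (∀ k d, ∀ u ∈ KDs f m (k + 1) d, io 1 u ∈ KDs f m k d) ∧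
    ∀ d, ∀ u ∈ fn ℤ m ∅ d, ∃ w ∈ fn ℤ m ∅ (d + m), kapO f m w = u

/-- **EvE.** PROOF.  `e d ((D.Yt i x) d) = X i • e (d+1) (x (d+1))`; by induction
`e d ((D.pw s x) d) = monomial s 1 • e (d + |s|) (x (d + |s|))` (`|s| = ∑ i, s i`; list product in
`DM.pw`, `(monomial s 1) = ∏ X i ^ s i`), and `p = ∑ s, p_s x^s` with `|s| = n` on the support. -/
def S_EvE : Prop :=
  ∀ (m n : ℕ) (D : DM ℤ m) (W : Type) [AddCommGroup W] [Module (Lm m) W] (e : ∀ d, D.D d →+ W),
    (∀ a d x, e d (D.Y a d x) = (X a : Lm m) • e (d + 1) x) →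
    ∀ p : Lm m, p.IsHomogeneous n → ∀ (x : ∀ j, D.D j) (d : ℕ),
      e d (D.ev p x d) = p • e (d + n) (x (d + n))

/-- **KLk.** The norm form acts as zero.  PROOF.  `S_EvE` with `W = Fu (Lm m) k (In m)` (the module
structure over `Lm m` by `c • w = (C c) • w`: `Module.compHom`), `e` the inclusion of `KDs` composed
with the isomorphism of `S_DKi` (injective), and `S_ExK (1)`.  For `Dkap`: `W = (Fin m → ℕ) → ℤ` with the
action by shifts, or `In m`: `p •` has the values `∑ s, p_s * u (β + s)`. -/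
def S_KLk : Prop :=
  ∀ (f : Polynomial ℤ) (m k : ℕ), f.Monic → f.natDegree = m → (kapP f m).IsHomogeneous m →
    (1 ≤ k → DM.KL f (Dk f m k).toZ) ∧ DM.KL f (Dkap f m)

/-- **Pri.** THE INDUCTION PRINCIPLE.  PROOF.  Property `P` passes to `KD f m k`, `1 ≤ k ≤ m`
(`S_DKi`).  For `0 ≤ k ≤ m - 1` let `I k` be the graded submodule of `KD f m k` (for `k = 0`: of
`KD f m 0`) of the `io 1 u`, `u ∈ KDs (k+1)`, with the same operators (`io 1` commutes with `C (X a) •`).
`I (m-1)` is isomorphic to `KD f m m` (`io 1` is injective there: `S_KDE (1), (2)`).  For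
`1 ≤ k ≤ m - 1` the sequence `0 → I k → KD f m k → I (k-1) → 0` (inclusion, `io 1`) is exact
(`S_KDE (1)`; `io 1 (io 1 u) = 0`: `S_IoB (4)`), all terms satisfy `KL` (`S_KLk` through `S_DKi`;
submodules and quotients).  So `P (I k)` for all `k`, by downward induction.  `I 0 → Dkap`,
`w ↦ (β ↦ (w 1) β)` is an isomorphism (`S_KDE (3), (4)`). -/
def S_Pri : Prop :=
  ∀ (f : Polynomial ℤ) (m : ℕ), f.Monic → f.natDegree = m → 1 ≤ m → (kapP f m).IsHomogeneous m →
    ∀ P : DM ℤ m → Prop,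
    (∀ (D D' : DM ℤ m) (e : DM.Hom D D'), (∀ d, Function.Bijective (e.f d)) → P D → P D') →
    (∀ (D' D D'' : DM ℤ m) (a : DM.Hom D' D) (b : DM.Hom D D''), DM.Ex a b → D'.KL f → D.KL f →
      D''.KL f → P D' → P D → P D'') →
    (∀ k, 1 ≤ k → k ≤ m → P (Dk f m k).toZ) → P (Dkap f m)

end HMx
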